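import Pool.Agent.Helper11.TS.Tri

/-!
# TS, module T9a: the coordinates of the base
-/

set_option autoImplicit false

namespace Pool.Agent.Helper11.TS

open MvPolynomial Filter

variable {κ : Type} [Field κ] [CharZero κ] {N : ℕ} {G : Type} [AddCommGroup G]

omit [CharZero κ] in
/-- The residues of `q ^ n` modulo `k`: eventually periodic, and constant for the ultrafilter. -/
lemma exists_period (q k : ℕ) (hk : 0 < k) (U : Ultrafilter ℕ) (hU : (U : Filter ℕ) ≤ atTop) :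
    ∃ L : ℕ, 1 ≤ L ∧ ∃ c : ℕ, ∀ᶠ n in (U : Filter ℕ), ∀ m, q ^ (n + m * L) ≡ c [MOD k] := by
  have : NeZero k := ⟨hk.ne'⟩
  obtain ⟨i, j, hij, h1⟩ :=
    Finite.exists_ne_map_eq_of_infinite (fun n : ℕ => ((q : ZMod k)) ^ n)
  wlog hlt : i < j generalizing i j with H
  · exact H j i hij.symm h1.symm (lt_of_le_of_ne (not_lt.1 hlt) hij.symm)
  obtain ⟨c, hc⟩ := Ultrafilter.eq_pure_of_finite
    (Ultrafilter.map (fun n : ℕ => ((q : ZMod k)) ^ n) U)
  have h2 : ∀ᶠ n in (U : Filter ℕ), ((q : ZMod k)) ^ n = c := by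
    have h3 : ({c} : Set (ZMod k)) ∈ Ultrafilter.map (fun n : ℕ => ((q : ZMod k)) ^ n) U := by
      rw [hc]
      exact Ultrafilter.mem_pure.2 rfl
    rw [Ultrafilter.mem_map] at h3
    exact h3
  have h4 : ∀ᶠ n in (U : Filter ℕ), i ≤ n := hU (eventually_ge_atTop i)
  refine ⟨j - i, by omega, c.val, ?_⟩
  filter_upwards [h2, h4] with n hn hin m
  rw [← ZMod.natCast_eq_natCast_iff, ZMod.natCast_val, ZMod.cast_id', id, Nat.cast_pow, ← hn]
  have h5 : ∀ m : ℕ, ((q : ZMod k)) ^ (n + m * (j - i)) = (q : ZMod k) ^ n := by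
    intro m
    induction m with
    | zero => simp
    | succ m ih =>
      rw [← ih]
      obtain ⟨t, ht⟩ : ∃ t, n + m * (j - i) = t + i := ⟨n + m * (j - i) - i, by
        have : i ≤ n + m * (j - i) := hin.trans (Nat.le_add_right _ _)
        omega⟩
      have h6 : n + (m + 1) * (j - i) = t + j := by
        have : n + (m + 1) * (j - i) = n + m * (j - i) + (j - i) := by ring
        omega
      rw [ht, h6, pow_add, pow_add, ← h1]
  exact h5 m

theorem base_case (B : Base κ G) {r : ℕ} {F : Fin (N + 1) → MvPolynomial (Fin (N + 1)) κ}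
    (hT : Tri r B.q F) (a : Fin (N + 1) → κ) (ν : Fin (N + 1) → G) (ω : Fin (N + 1) → κ)
    (h : ∀ i : Fin (N + 1), (i : ℕ) ≤ r → a i = 0 ∨
      ((∃ k : ℕ, 0 < k ∧ ω i ^ k = 1) ∧ a i = ω i * B.e (Multiplicative.ofAdd (ν i))))
    (U : Ultrafilter ℕ) (hU : (U : Filter ℕ) ≤ atTop) :
    ∃ L : ℕ, 1 ≤ L ∧ ∃ Y : Fin (N + 1) → Alg κ G,
      (∀ i : Fin (N + 1), (i : ℕ) ≤ r → a i ≠ 0 → ∃ η : κ, η ≠ 0 ∧ Y i = mono (ν i) η) ∧
      ∀ᶠ n in (U : Filter ℕ), ∀ m, ∀ i : Fin (N + 1), (i : ℕ) ≤ r →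
        xs F a (n + m * L) i = B.ev (n + m * L) (Y i) := by
  classical
  have h0 : ∀ i : Fin (N + 1), ∃ k : ℕ, 0 < k ∧ ((i : ℕ) ≤ r → a i ≠ 0 → ω i ^ k = 1) := by
    intro i
    by_cases hi : (i : ℕ) ≤ r
    · by_cases hai : a i = 0
      · exact ⟨1, one_pos, fun _ h1 => absurd hai h1⟩
      · rcases h i hi with h1 | ⟨⟨k, hk, hk1⟩, -⟩
        · exact absurd h1 hai
        · exact ⟨k, hk, fun _ _ => hk1⟩
    · exact ⟨1, one_pos, fun h1 => absurd h1 hi⟩
  choose k hk hk1 using h0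
  obtain ⟨L, hL, c, hc⟩ := exists_period B.q (∏ i, k i) (Finset.prod_pos fun i _ => hk i) U hU
  have hω : ∀ i : Fin (N + 1), (i : ℕ) ≤ r → a i ≠ 0 → ω i ≠ 0 := by
    intro i hi hai h1
    have h2 := hk1 i hi hai
    rw [h1, zero_pow (hk i).ne'] at h2
    exact zero_ne_one h2
  refine ⟨L, hL, fun i => if a i = 0 then 0 else mono (ν i) (ω i ^ c), ?_, ?_⟩
  · intro i hi hai
    exact ⟨ω i ^ c, pow_ne_zero _ (hω i hi hai), if_neg hai⟩
  · filter_upwards [hc] with n hn m i hi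
    rw [xs_pow hT a _ i hi]
    by_cases hai : a i = 0
    · rw [if_pos hai, hai, map_zero, zero_pow]
      have := B.hq
      exact pow_ne_zero _ (by omega)
    · rw [if_neg hai]
      rcases h i hi with h1 | ⟨-, h1⟩
      · exact absurd h1 hai
      · rw [Base.ev, ev_mono, h1, mul_pow]
        congr 1
        have h2 : ω i ^ (∏ i, k i) = 1 := by
          obtain ⟨t, ht⟩ := Finset.dvd_prod_of_mem k (Finset.mem_univ i)
          rw [ht, pow_mul, hk1 i hi hai, one_pow]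
        exact pow_eq_pow_of_modEq (hn m) h2

end Pool.Agent.Helper11.TS
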