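import Pool.Agent.Helper11.TS.Defs

/-!
# TS, module T5c: bounded elements of the group algebra
-/

set_option autoImplicit false

namespace Pool.Agent.Helper11.TS

open Polynomial Filter

variable {κ G : Type} [Field κ] [CharZero κ] [AddCommGroup G]


/-- Embeddings of an intermediate field extend. -/
private theorem extend_emb [Algebra.IsAlgebraic ℚ κ] (F : IntermediateField ℚ κ)
    (σ : F →+* ℂ) : ∃ τ : κ →+* ℂ, ∀ x : F, τ (x : κ) = σ x := by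
  let _ : Algebra F ℂ := σ.toAlgebra
  have h1 : Algebra.IsAlgebraic F κ := Algebra.IsAlgebraic.tower_top (K := ℚ) F
  let τ : κ →ₐ[F] ℂ := IsAlgClosed.lift
  exact ⟨τ.toRingHom, fun x => τ.commutes x⟩

/-- The mean of the squares of the conjugates of a nonzero algebraic integer is at least one. -/
private theorem sum_sq_ge [Algebra.IsAlgebraic ℚ κ] (F : IntermediateField ℚ κ)
    [FiniteDimensional ℚ F] {x : F} (hx : x ≠ 0) (hint : IsIntegral ℤ x) :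
    (Fintype.card (F →ₐ[ℚ] ℂ) : ℝ) ≤ ∑ σ : F →ₐ[ℚ] ℂ, ‖σ x‖ ^ 2 := by
  have hpos : ∀ σ : F →ₐ[ℚ] ℂ, 0 < ‖σ x‖ := by
    intro σ
    rw [norm_pos_iff]
    exact (map_ne_zero σ).mpr hx
  have h1 : ∀ σ : F →ₐ[ℚ] ℂ, 1 + 2 * Real.log ‖σ x‖ ≤ ‖σ x‖ ^ 2 := by
    intro σ
    have h2 := Real.log_le_sub_one_of_pos (pow_pos (hpos σ) 2)
    rw [Real.log_pow] at h2
    push_cast at h2
    linarith
  have h3 : 1 ≤ ∏ σ : F →ₐ[ℚ] ℂ, ‖σ x‖ := by
    have h4 := Algebra.norm_eq_prod_embeddings ℚ ℂ x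
    have h5 : IsIntegral ℤ (Algebra.norm ℚ x) := Algebra.isIntegral_norm ℚ hint
    obtain ⟨m, hm⟩ := IsIntegrallyClosed.isIntegral_iff.mp h5
    have h6 : Algebra.norm ℚ x ≠ 0 := (Algebra.norm_ne_zero_iff).mpr hx
    have h7 : m ≠ 0 := by
      intro h
      rw [h, map_zero] at hm
      exact h6 hm.symm
    rw [← norm_prod, ← h4, ← hm]
    have h8 : (1 : ℝ) ≤ |(m : ℝ)| := by
      have h9 := Int.one_le_abs h7
      exact_mod_cast h9
    simpa using h8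
  have h10 : 0 ≤ ∑ σ : F →ₐ[ℚ] ℂ, Real.log ‖σ x‖ := by
    rw [← Real.log_prod (fun σ _ => (hpos σ).ne')]
    exact Real.log_nonneg h3
  calc (Fintype.card (F →ₐ[ℚ] ℂ) : ℝ) ≤
      Fintype.card (F →ₐ[ℚ] ℂ) + 2 * ∑ σ : F →ₐ[ℚ] ℂ, Real.log ‖σ x‖ := by linarith
    _ = ∑ σ : F →ₐ[ℚ] ℂ, (1 + 2 * Real.log ‖σ x‖) := by
      rw [Finset.sum_add_distrib, Finset.mul_sum]
      simp
    _ ≤ _ := Finset.sum_le_sum fun σ _ => h1 σ

/-- A bound for the denominators and for the sums of squares at all embeddings bounds the number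
of terms. -/
theorem card_spt [Algebra.IsAlgebraic ℚ κ] (D : ℕ) (hD : 0 < D) (C : ℝ) :
    ∃ B : ℕ, ∀ E : Alg κ G, (∀ ν, IsIntegral ℤ ((D : κ) * E.coeff ν)) →
      (∀ τ : κ →+* ℂ, ∑ ν ∈ spt E, ‖τ (E.coeff ν)‖ ^ 2 ≤ C) → (spt E).card ≤ B := by
  classical
  refine ⟨⌈(D : ℝ) ^ 2 * C⌉₊, ?_⟩
  intro E hint hC
  let A : Finset κ := (spt E).image (fun ν => E.coeff ν)
  let F : IntermediateField ℚ κ := IntermediateField.adjoin ℚ (A : Set κ)
  have hF : FiniteDimensional ℚ F :=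
    IntermediateField.finiteDimensional_adjoin fun x _ => Algebra.IsIntegral.isIntegral x
  have hmem : ∀ ν, ν ∈ spt E → E.coeff ν ∈ F := by
    intro ν hν
    apply IntermediateField.subset_adjoin
    exact Finset.mem_coe.mpr (Finset.mem_image_of_mem _ hν)
  have hDF : ∀ ν, ν ∈ spt E → (D : κ) * E.coeff ν ∈ F := by
    intro ν hν
    exact F.mul_mem (natCast_mem F D) (hmem ν hν)
  have hn : 0 < Fintype.card (F →ₐ[ℚ] ℂ) := by
    rw [AlgHom.card]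
    exact Module.finrank_pos
  have hn' : (0 : ℝ) < Fintype.card (F →ₐ[ℚ] ℂ) := by exact_mod_cast hn
  have hD' : (D : κ) ≠ 0 := Nat.cast_ne_zero.mpr hD.ne'
  -- the double sum
  have h1 : ∀ ν (hν : ν ∈ spt E), (Fintype.card (F →ₐ[ℚ] ℂ) : ℝ) ≤
      ∑ σ : F →ₐ[ℚ] ℂ, ‖σ ⟨_, hDF ν hν⟩‖ ^ 2 := by
    intro ν hν
    apply sum_sq_ge F
    · intro h
      have h2 : (D : κ) * E.coeff ν = 0 := congrArg Subtype.val h
      rcases mul_eq_zero.mp h2 with h3 | h3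
      · exact hD' h3
      · exact (Finsupp.mem_support_iff.mp hν) h3
    · have h2 := hint ν
      exact (isIntegral_algebraMap_iff (B := κ) (A := F) Subtype.val_injective).mp h2
  have h4 : (Fintype.card (F →ₐ[ℚ] ℂ) : ℝ) * (spt E).card ≤
      ∑ ν ∈ (spt E).attach, ∑ σ : F →ₐ[ℚ] ℂ, ‖σ ⟨_, hDF ν.1 ν.2⟩‖ ^ 2 := by
    calc (Fintype.card (F →ₐ[ℚ] ℂ) : ℝ) * (spt E).card
        = ∑ ν ∈ (spt E).attach, (Fintype.card (F →ₐ[ℚ] ℂ) : ℝ) := by
          rw [Finset.sum_const, Finset.card_attach, nsmul_eq_mul, mul_comm]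
      _ ≤ _ := Finset.sum_le_sum fun ν _ => h1 ν.1 ν.2
  rw [Finset.sum_comm] at h4
  have h5 : ∀ σ : F →ₐ[ℚ] ℂ, ∑ ν ∈ (spt E).attach, ‖σ ⟨_, hDF ν.1 ν.2⟩‖ ^ 2 ≤
      (D : ℝ) ^ 2 * C := by
    intro σ
    obtain ⟨τ, hτ⟩ := extend_emb F σ.toRingHom
    have h6 : ∀ ν ∈ (spt E).attach, ‖σ ⟨_, hDF ν.1 ν.2⟩‖ ^ 2 =
        (D : ℝ) ^ 2 * ‖τ (E.coeff ν.1)‖ ^ 2 := by
      intro ν _
      have h7 : σ ⟨_, hDF ν.1 ν.2⟩ = τ ((D : κ) * E.coeff ν.1) := (hτ ⟨_, hDF ν.1 ν.2⟩).symm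
      rw [h7, map_mul, map_natCast, norm_mul, Complex.norm_natCast, mul_pow]
    rw [Finset.sum_congr rfl h6, ← Finset.mul_sum]
    apply mul_le_mul_of_nonneg_left _ (by positivity)
    rw [Finset.sum_attach (spt E) (fun ν => ‖τ (E.coeff ν)‖ ^ 2)]
    exact hC τ
  have h8 : (Fintype.card (F →ₐ[ℚ] ℂ) : ℝ) * (spt E).card ≤
      Fintype.card (F →ₐ[ℚ] ℂ) * ((D : ℝ) ^ 2 * C) := by
    refine h4.trans ((Finset.sum_le_sum fun σ _ => h5 σ).trans (le_of_eq ?_))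
    rw [Finset.sum_const, Finset.card_univ, nsmul_eq_mul]
  have h9 := le_of_mul_le_mul_left h8 hn'
  exact_mod_cast h9.trans (Nat.le_ceil _)

/-- Finitely many elements with a given set of exponents, coefficients in a given number field,
bounded denominators and bounded conjugates. -/
theorem finite_box [Algebra.IsAlgebraic ℚ κ] (K0 : IntermediateField ℚ κ)
    [FiniteDimensional ℚ K0] (S0 : Finset G) (D : ℕ) (hD : 0 < D) (C : ℝ) :
    {E : Alg κ G | spt E ⊆ S0 ∧ (∀ ν, E.coeff ν ∈ K0) ∧ (∀ ν, IsIntegral ℤ ((D : κ) * E.coeff ν)) ∧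
      ∀ (τ : κ →+* ℂ) (ν : G), ‖τ (E.coeff ν)‖ ≤ C}.Finite := by
  classical
  have hD' : (D : κ) ≠ 0 := Nat.cast_ne_zero.mpr hD.ne'
  have hnf : NumberField K0 := { to_charZero := inferInstance, to_finiteDimensional := inferInstance }
  let T : Set κ := {x | x ∈ K0 ∧ IsIntegral ℤ ((D : κ) * x) ∧ ∀ τ : κ →+* ℂ, ‖τ x‖ ≤ C}
  have hT : T.Finite := by
    have h1 := (NumberField.Embeddings.finite_of_norm_le K0 ℂ (D * C)).image (fun y : K0 => (y : κ))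
    apply Set.Finite.of_finite_image (f := fun x : κ => (D : κ) * x)
    · apply h1.subset
      rintro _ ⟨x, ⟨hx1, hx2, hx3⟩, rfl⟩
      have hDx : (D : κ) * x ∈ K0 := K0.mul_mem (natCast_mem K0 D) hx1
      refine ⟨⟨_, hDx⟩, ⟨?_, ?_⟩, rfl⟩
      · exact (isIntegral_algebraMap_iff (B := κ) (A := K0) Subtype.val_injective).mp hx2
      · intro φ
        obtain ⟨τ, hτ⟩ := extend_emb K0 φ
        have h7 : φ ⟨_, hDx⟩ = τ ((D : κ) * x) := (hτ ⟨_, hDx⟩).symm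
        rw [h7, map_mul, map_natCast, norm_mul, Complex.norm_natCast]
        exact mul_le_mul_of_nonneg_left (hx3 τ) (Nat.cast_nonneg _)
    · intro x _ y _ hxy
      exact mul_left_cancel₀ hD' hxy
  have hpi : (Set.pi Set.univ (fun _ : S0 => T)).Finite := Set.Finite.pi fun _ => hT
  apply Set.Finite.of_finite_image (f := fun (E : Alg κ G) (ν : S0) => E.coeff ν)
  · apply hpi.subset
    rintro _ ⟨E, ⟨_, h2, h3, h4⟩, rfl⟩ ν _
    exact ⟨h2 _, h3 _, fun τ => h4 τ _⟩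
  · rintro E ⟨h1, _⟩ E' ⟨h1', _⟩ h
    apply AddMonoidAlgebra.ext
    ext ν
    by_cases hν : ν ∈ S0
    · exact congrFun h ⟨ν, hν⟩
    · have h5 : E.coeff ν = 0 := by
        by_contra h6
        exact hν (h1 (Finsupp.mem_support_iff.mpr h6))
      have h5' : E'.coeff ν = 0 := by
        by_contra h6
        exact hν (h1' (Finsupp.mem_support_iff.mpr h6))
      rw [h5, h5']

end Pool.Agent.Helper11.TS
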