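import Mathlib

/-!
# Project TS (MP_b15c9e_ag): definitions

`Alg κ G` is the group algebra of a `ℚ`-vector space `G`, written with monomials `u^ν`. The
evaluation `ev e q m` sends `u^ν` to `e(ν)^(q^m)`, and `theta q` sends `u^ν` to `u^(qν)`.
-/

set_option autoImplicit false

namespace Pool.Agent.Helper11.TS

open Polynomial Filter

section Alg
variable {κ G : Type} [Field κ] [AddCommGroup G]

/-- The group algebra. -/
abbrev Alg (κ G : Type) [Field κ] [AddCommGroup G] : Type := AddMonoidAlgebra κ G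

/-- The monomial `c u^ν`. -/
noncomputable abbrev mono (ν : G) (c : κ) : Alg κ G := AddMonoidAlgebra.single ν c

/-- The support of an element of the group algebra. -/
noncomputable abbrev spt (E : Alg κ G) : Finset G := E.coeff.support

/-- Evaluation at level `m`. -/
noncomputable def ev (e : Multiplicative G →* κ) (q m : ℕ) : Alg κ G →+* κ :=
  ((AddMonoidAlgebra.lift κ κ G (e ^ q ^ m) : Alg κ G →ₐ[κ] κ) : Alg κ G →+* κ)

lemma ev_mono (e : Multiplicative G →* κ) (q m : ℕ) (ν : G) (c : κ) :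
    ev e q m (mono ν c) = c * e (Multiplicative.ofAdd ν) ^ q ^ m := by
  simp [ev, mono]

lemma ev_eq_sum (e : Multiplicative G →* κ) (q m : ℕ) (E : Alg κ G) :
    ev e q m E = ∑ ν ∈ spt E, E.coeff ν * e (Multiplicative.ofAdd ν) ^ q ^ m := by
  simp [ev, AddMonoidAlgebra.lift_apply, Finsupp.sum]

/-- The endomorphism `u^ν ↦ u^(qν)`. -/
noncomputable def theta (q : ℕ) : Alg κ G →+* Alg κ G :=
  AddMonoidAlgebra.mapDomainRingHom κ (nsmulAddMonoidHom q : G →+ G)

lemma theta_mono (q : ℕ) (ν : G) (c : κ) : theta q (mono ν c) = mono (q • ν) c := by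
  simp [theta, mono]

lemma ev_theta (e : Multiplicative G →* κ) (q m : ℕ) (E : Alg κ G) :
    ev e q m (theta q E) = ev e q (m + 1) E := by
  induction E using AddMonoidAlgebra.induction with
  | zero => simp
  | single_add a b f _ _ ih =>
    rw [map_add, map_add, map_add, ih]
    congr 1
    have h1 := theta_mono (κ := κ) q a b
    have h2 := ev_mono e q m (q • a) b
    have h3 := ev_mono e q (m + 1) a b
    unfold mono at h1 h2 h3
    rw [h1, h2, h3, ofAdd_nsmul, map_pow, ← pow_mul, pow_succ, mul_comm q]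

lemma e_ne_zero (e : Multiplicative G →* κ) (ν : Multiplicative G) : e ν ≠ 0 := by
  intro h
  have h1 : e (ν * ν⁻¹) = 0 := by rw [map_mul, h, zero_mul]
  rw [mul_inv_cancel, map_one] at h1
  exact one_ne_zero h1

/-- All exponents of `E` have size at most `t`. -/
def Bd (β : G →+ ℝ) (t : ℝ) (E : Alg κ G) : Prop := ∀ ν ∈ spt E, β ν ≤ t

/-- All coefficients of the polynomial satisfy `Bd`. -/
def BdP (β : G →+ ℝ) (t : ℝ) (p : (Alg κ G)[X]) : Prop := ∀ i, Bd β t (p.coeff i)

lemma Bd.zero (β : G →+ ℝ) (t : ℝ) : Bd β t (0 : Alg κ G) := by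
  intro ν hν
  simp [spt] at hν

lemma Bd.mono_le {β : G →+ ℝ} {s t : ℝ} {E : Alg κ G} (h : Bd β s E) (hst : s ≤ t) :
    Bd β t E := fun ν hν => (h ν hν).trans hst

lemma Bd.single (β : G →+ ℝ) {t : ℝ} {ν : G} (h : β ν ≤ t) (c : κ) : Bd β t (mono ν c) := by
  classical
  intro μ hμ
  have h1 := Finsupp.support_single_subset hμ
  rw [Finset.mem_singleton] at h1
  rw [h1]
  exact h

lemma Bd.add {β : G →+ ℝ} {t : ℝ} {E F : Alg κ G} (h : Bd β t E) (h' : Bd β t F) :
    Bd β t (E + F) := by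
  classical
  intro ν hν
  have h1 : ν ∈ E.coeff.support ∪ F.coeff.support := Finsupp.support_add hν
  rcases Finset.mem_union.1 h1 with h2 | h2
  · exact h ν h2
  · exact h' ν h2

lemma Bd.neg {β : G →+ ℝ} {t : ℝ} {E : Alg κ G} (h : Bd β t E) : Bd β t (-E) := by
  intro ν hν
  refine h ν ?_
  rw [Finsupp.mem_support_iff] at hν ⊢
  intro h1
  apply hν
  rw [AddMonoidAlgebra.coeff_neg, Finsupp.neg_apply, h1, neg_zero]

lemma Bd.sub {β : G →+ ℝ} {t : ℝ} {E F : Alg κ G} (h : Bd β t E) (h' : Bd β t F) :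
    Bd β t (E - F) := by
  rw [sub_eq_add_neg]
  exact h.add h'.neg

lemma Bd.mul {β : G →+ ℝ} {s t : ℝ} {E F : Alg κ G} (h : Bd β s E) (h' : Bd β t F) :
    Bd β (s + t) (E * F) := by
  classical
  intro ν hν
  have h1 := AddMonoidAlgebra.support_coeff_mul_subset E F hν
  obtain ⟨a, ha, b, hb, rfl⟩ := Finset.mem_add.1 h1
  rw [map_add]
  exact add_le_add (h a ha) (h' b hb)

lemma Bd.sum {β : G →+ ℝ} {t : ℝ} {ι : Type} (s : Finset ι) (f : ι → Alg κ G)
    (h : ∀ i ∈ s, Bd β t (f i)) : Bd β t (∑ i ∈ s, f i) := by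
  classical
  induction s using Finset.induction_on with
  | empty => simpa using Bd.zero β t
  | insert a s ha ih =>
    rw [Finset.sum_insert ha]
    exact (h a (Finset.mem_insert_self a s)).add
      (ih fun i hi => h i (Finset.mem_insert_of_mem hi))

/-- The size of the exponents: `β(ν) = log |e(ν)|`. -/
noncomputable def beta (w : AbsoluteValue κ ℝ) (e : Multiplicative G →* κ) : G →+ ℝ where
  toFun ν := Real.log (w (e (Multiplicative.ofAdd ν)))
  map_zero' := by simp
  map_add' μ ν := by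
    rw [ofAdd_add, map_mul, map_mul, Real.log_mul]
    · exact (w.ne_zero_iff).2 (e_ne_zero e _)
    · exact (w.ne_zero_iff).2 (e_ne_zero e _)

lemma beta_apply (w : AbsoluteValue κ ℝ) (e : Multiplicative G →* κ) (ν : G) :
    beta w e ν = Real.log (w (e (Multiplicative.ofAdd ν))) := rfl

lemma w_e_pow (w : AbsoluteValue κ ℝ) (e : Multiplicative G →* κ) (ν : G) (n : ℕ) :
    w (e (Multiplicative.ofAdd ν) ^ n) = Real.exp (beta w e ν * n) := by
  have h1 : 0 < w (e (Multiplicative.ofAdd ν)) := w.pos (e_ne_zero e _)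
  rw [beta_apply, map_pow, mul_comm, Real.exp_nat_mul, Real.exp_log h1]

/-- `P` has degree `q` and constant leading coefficient `a ≠ 0`. -/
structure Pol (q : ℕ) (a : κ) (P : (Alg κ G)[X]) : Prop where
  deg : P.natDegree = q
  lead : P.coeff q = mono 0 a
  ne : a ≠ 0

/-- The twisted iterates of `P`: `P_0 = X`, `P_(n+1) = (θ P_n) ∘ P`. -/
noncomputable def pit (q : ℕ) (P : (Alg κ G)[X]) : ℕ → (Alg κ G)[X]
  | 0 => X
  | n + 1 => ((pit q P n).map (theta q)).comp P

lemma ev_pit (e : Multiplicative G →* κ) (q : ℕ) (P : (Alg κ G)[X]) (y : ℕ → κ)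
    (h : ∀ m, y (m + 1) = (P.map (ev e q m)).eval (y m)) (n m : ℕ) :
    ((pit q P n).map (ev e q m)).eval (y m) = y (m + n) := by
  induction n generalizing m with
  | zero => simp [pit]
  | succ n ih =>
    have h1 : (ev e q m).comp (theta q) = ev e q (m + 1) :=
      RingHom.ext fun E => by rw [RingHom.comp_apply, ev_theta]
    rw [pit, Polynomial.map_comp, Polynomial.map_map, Polynomial.eval_comp, h1, ← h, ih]
    congr 1
    ring

lemma pit_tower (q : ℕ) (P : (Alg κ G)[X]) (Q : ℕ → Alg κ G)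
    (h : ∀ k, P.eval (Q (k + 1)) = theta q (Q k)) (n k : ℕ) :
    (pit q P n).eval (Q (k + n)) = (theta q)^[n] (Q k) := by
  induction n generalizing k with
  | zero => simp [pit]
  | succ n ih =>
    rw [pit, Polynomial.eval_comp, show k + (n + 1) = (k + n) + 1 by ring, h, Polynomial.eval_map,
      Polynomial.eval₂_at_apply, ih, Function.iterate_succ_apply']

lemma ev_theta_iter (e : Multiplicative G →* κ) (q m n : ℕ) (E : Alg κ G) :
    ev e q m ((theta q)^[n] E) = ev e q (m + n) E := by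
  induction n generalizing m with
  | zero => rfl
  | succ n ih =>
    rw [Function.iterate_succ_apply', ev_theta, ih]
    congr 2
    ring

/-- Change of the base point: `e ↦ e^(d^n)`, `d ↦ d^L`. -/
lemma ev_rebase (e : Multiplicative G →* κ) (d n L m : ℕ) :
    (ev (e ^ d ^ n) (d ^ L) m : Alg κ G →+* κ) = ev e d (n + L * m) := by
  unfold ev
  rw [← pow_mul, ← pow_mul, ← pow_add]

end Alg

section Base

/-- The absolute value comes from an embedding in `ℂ` or in an algebraic closure of `ℚ_p`. -/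
def IsPl {κ : Type} [Field κ] (w : AbsoluteValue κ ℝ) : Prop :=
  (∃ τ : κ →+* ℂ, ∀ x, w x = ‖τ x‖) ∨
    ∃ (p : ℕ) (_ : Fact p.Prime) (τ : κ →+* PadicAlgCl p), ∀ x, w x = ‖τ x‖

/-- The standing data: a homomorphism `e` from a `ℚ`-vector space `G` to the nonzero algebraic
numbers, a number field `K` that contains a power of each `e(ν)`, and an absolute value `w` such
that `ν ↦ log |e(ν)|` is injective. -/
structure Base (κ G : Type) [Field κ] [CharZero κ] [AddCommGroup G] where
  e : Multiplicative G →* κ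
  q : ℕ
  K : IntermediateField ℚ κ
  w : AbsoluteValue κ ℝ
  P0 : ℕ
  hq : 2 ≤ q
  fin : FiniteDimensional ℚ K
  hK : ∀ ν : G, ∃ D : ℕ, 0 < D ∧ e (Multiplicative.ofAdd ν) ^ D ∈ K
  hP0 : 0 < P0
  hint : ∀ ν : G, ∃ n : ℕ, IsIntegral ℤ ((P0 : κ) ^ n * e (Multiplicative.ofAdd ν))
  inj : Function.Injective (beta w e)
  pl : IsPl w

variable {κ G : Type} [Field κ] [CharZero κ] [AddCommGroup G]

/-- Evaluation at level `m`. -/
noncomputable abbrev Base.ev (B : Base κ G) (m : ℕ) : Alg κ G →+* κ := TS.ev B.e B.q m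

/-- The sequence `y` lies in `K`, with size `exp(O(q^m))` and denominators `D^(q^m)`. -/
structure Seq (B : Base κ G) (y : ℕ → κ) : Prop where
  mem : ∀ m, y m ∈ B.K
  bd : ∃ C : ℝ, ∀ (σ : κ →+* ℂ) (m : ℕ), ‖σ (y m)‖ ≤ Real.exp (C * (B.q : ℝ) ^ m)
  den : ∃ D : ℕ, 0 < D ∧ ∀ m, IsIntegral ℤ ((D : κ) ^ B.q ^ m * y m)

/-- An orbit of the twisted polynomial `P`. -/
structure Orb (B : Base κ G) (a : κ) (P : (Alg κ G)[X]) (y : ℕ → κ) : Prop extends Seq B y where
  pol : Pol B.q a P
  step : ∀ m, y (m + 1) = (P.map (B.ev m)).eval (y m)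

end Base

end Pool.Agent.Helper11.TS
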