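import Mathlib

/-!
# TS: closed sets of dimension at most `r`

If `r + 1` forms have no common zero on the closed set `V`, then `r + 2` coordinates satisfy an
algebraic relation on `V`.
-/

set_option autoImplicit false

namespace Pool.Agent.Helper11.TS

open MvPolynomial

section Cone
variable {N : ℕ}

lemma eval_smul_hom {σ R : Type} [Fintype σ] [CommRing R] {f : MvPolynomial σ R} {n : ℕ}
    (hf : f.IsHomogeneous n) (c : R) (x : σ → R) : eval (c • x) f = c ^ n * eval x f := by
  rw [eval_eq', eval_eq', Finset.mul_sum]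
  refine Finset.sum_congr rfl fun μ hμ => ?_
  have h1 : ∑ i, μ i = n := by
    have h2 := hf (mem_support_iff.1 hμ)
    rw [Finsupp.weight_apply, Finsupp.sum_fintype _ _ (fun _ => by simp)] at h2
    simpa using h2
  have h2 : ∏ i, (c • x) i ^ μ i = c ^ n * ∏ i, x i ^ μ i := by
    rw [← h1, ← Finset.prod_pow_eq_pow_sum, ← Finset.prod_mul_distrib]
    refine Finset.prod_congr rfl fun i _ => ?_
    rw [Pi.smul_apply, smul_eq_mul, mul_pow]
  rw [h2]
  ring

/-- The ideal of a cone is homogeneous. -/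
theorem hom_mem {Z : Set (Fin (N + 1) → ℂ)} (hZ : ∀ x ∈ Z, ∀ c : ℂ, c • x ∈ Z)
    (f : MvPolynomial (Fin (N + 1)) ℂ) (hf : ∀ x ∈ Z, eval x f = 0) (n : ℕ) :
    ∀ x ∈ Z, eval x (homogeneousComponent n f) = 0 := by
  intro x hx
  set p : Polynomial ℂ := ∑ m ∈ Finset.range (f.totalDegree + 1),
    Polynomial.C (eval x (homogeneousComponent m f)) * Polynomial.X ^ m with hp
  have h1 : ∀ c : ℂ, p.eval c = 0 := by
    intro c
    have h2 := hf _ (hZ x hx c)
    rw [← sum_homogeneousComponent f, map_sum] at h2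
    rw [hp, Polynomial.eval_finsetSum, ← h2]
    refine Finset.sum_congr rfl fun m _ => ?_
    have h3 : eval (c • x) (homogeneousComponent m f) =
        c ^ m * eval x (homogeneousComponent m f) :=
      eval_smul_hom (homogeneousComponent_isHomogeneous m f) c x
    rw [Polynomial.eval_mul, Polynomial.eval_C, Polynomial.eval_pow, Polynomial.eval_X]
    rw [h3, mul_comm]
  have h2 : p = 0 := Polynomial.funext fun c => by rw [h1, Polynomial.eval_zero]
  by_cases hn : n < f.totalDegree + 1
  · have h3 : p.coeff n = eval x (homogeneousComponent n f) := by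
      rw [hp, Polynomial.finsetSum_coeff]
      simp only [Polynomial.coeff_C_mul, Polynomial.coeff_X_pow]
      rw [Finset.sum_eq_single n]
      · simp
      · intro m _ hm
        rw [if_neg (Ne.symm hm), mul_zero]
      · intro h
        exact absurd (Finset.mem_range.2 hn) h
    rw [← h3, h2, Polynomial.coeff_zero]
  · rw [homogeneousComponent_eq_zero _ _ (by omega), map_zero]

/-- Monomials of large degree lie in the ideal generated by the forms, modulo the ideal of `V`. -/
theorem pow_mem {ι : Type} (I : Ideal (MvPolynomial (Fin (N + 1)) ℂ))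
    (h : ι → MvPolynomial (Fin (N + 1)) ℂ)
    (h0 : ∀ x : Fin (N + 1) → ℂ, (∀ f ∈ I, eval x f = 0) → (∀ i, eval x (h i) = 0) → x = 0) :
    ∃ k : ℕ, ∀ i, (X i : MvPolynomial (Fin (N + 1)) ℂ) ^ k ∈ I ⊔ Ideal.span (Set.range h) := by
  classical
  set J := I ⊔ Ideal.span (Set.range h) with hJ
  have h1 : ∀ i, (X i : MvPolynomial (Fin (N + 1)) ℂ) ∈ J.radical := by
    intro i
    rw [← vanishingIdeal_zeroLocus_eq_radical (K := ℂ) J, mem_vanishingIdeal_iff]
    intro x hx
    have h2 : x = 0 := by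
      refine h0 x (fun f hf => ?_) fun i => ?_
      · have := hx f (Ideal.mem_sup_left hf)
        simpa [aeval_eq_eval] using this
      · have := hx (h i) (Ideal.mem_sup_right (Ideal.subset_span ⟨i, rfl⟩))
        simpa [aeval_eq_eval] using this
    rw [h2]
    simp
  choose k hk using h1
  refine ⟨∑ i, k i, fun i => ?_⟩
  exact Ideal.pow_mem_of_pow_mem J (hk i) (Finset.single_le_sum (f := k)
    (fun _ _ => Nat.zero_le _) (Finset.mem_univ i))

lemma comp_mul {σ : Type} {c g : MvPolynomial σ ℂ} {e : ℕ} (hg : g.IsHomogeneous e) (n : ℕ) :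
    homogeneousComponent n (c * g) =
      if e ≤ n then g * homogeneousComponent (n - e) c else 0 := by
  classical
  have h1 : homogeneousComponent n (c * g) = ∑ m ∈ Finset.range (c.totalDegree + 1),
      homogeneousComponent n (homogeneousComponent m c * g) := by
    conv_lhs => rw [← sum_homogeneousComponent c, Finset.sum_mul, map_sum]
  have h2 : ∀ m, homogeneousComponent n (homogeneousComponent m c * g) =
      if n = m + e then homogeneousComponent m c * g else 0 := fun m =>
    homogeneousComponent_of_mem ((homogeneousComponent_isHomogeneous m c).mul hg)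
  rw [h1]
  simp only [h2]
  by_cases he : e ≤ n
  · rw [if_pos he]
    have h3 : ∀ m, (if n = m + e then homogeneousComponent m c * g else 0) =
        if m = n - e then homogeneousComponent (n - e) c * g else 0 := by
      intro m
      by_cases hm : m = n - e
      · rw [if_pos hm, if_pos (by omega), hm]
      · rw [if_neg hm, if_neg (by omega)]
    simp only [h3]
    rw [Finset.sum_ite_eq']
    by_cases h4 : n - e ∈ Finset.range (c.totalDegree + 1)
    · rw [if_pos h4, mul_comm]
    · rw [if_neg h4, homogeneousComponent_eq_zero _ _ (by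
        rw [Finset.mem_range] at h4
        omega), mul_zero]
  · rw [if_neg he]
    exact Finset.sum_eq_zero fun m _ => if_neg (by omega)

/-- The homogeneous coordinate ring is generated, as a module over the ring generated by the
forms, by finitely many monomials. -/
theorem span_top {ι : Type} [Finite ι] (I : Ideal (MvPolynomial (Fin (N + 1)) ℂ))
    (hI : ∀ f ∈ I, ∀ n, homogeneousComponent n f ∈ I)
    (h : ι → MvPolynomial (Fin (N + 1)) ℂ) (e : ι → ℕ) (he : ∀ i, 0 < e i)
    (hh : ∀ i, (h i).IsHomogeneous (e i))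
    (h0 : ∀ x : Fin (N + 1) → ℂ, (∀ f ∈ I, eval x f = 0) → (∀ i, eval x (h i) = 0) → x = 0)
    (P : Ideal (MvPolynomial (Fin (N + 1)) ℂ)) (hIP : I ≤ P) :
    Module.Finite (Algebra.adjoin ℂ (Set.range fun i => Ideal.Quotient.mk P (h i)))
      (MvPolynomial (Fin (N + 1)) ℂ ⧸ P) := by
  classical
  have := Fintype.ofFinite ι
  obtain ⟨k, hk⟩ := pow_mem I h h0
  set A := Algebra.adjoin ℂ (Set.range fun i => Ideal.Quotient.mk P (h i)) with hA
  set M := (N + 1) * k with hM
  set T : Submodule A (MvPolynomial (Fin (N + 1)) ℂ ⧸ P) := Submodule.span A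
    ((fun μ : Fin (N + 1) →₀ ℕ => Ideal.Quotient.mk P (monomial μ (1 : ℂ))) ''
      {μ | μ.degree ≤ M}) with hT
  have hC : ∀ (c : ℂ) (z : MvPolynomial (Fin (N + 1)) ℂ ⧸ P), z ∈ T →
      Ideal.Quotient.mk P (C c) * z ∈ T := by
    intro c z hz
    have h1 : (algebraMap ℂ A c) • z ∈ T := T.smul_mem _ hz
    exact h1
  have hH : ∀ (i : ι) (z : MvPolynomial (Fin (N + 1)) ℂ ⧸ P), z ∈ T →
      Ideal.Quotient.mk P (h i) * z ∈ T := by
    intro i z hz
    have h2 : Ideal.Quotient.mk P (h i) ∈ A := Algebra.subset_adjoin ⟨i, rfl⟩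
    have h1 : (⟨_, h2⟩ : A) • z ∈ T := T.smul_mem _ hz
    exact h1
  have key : ∀ n : ℕ, ∀ f : MvPolynomial (Fin (N + 1)) ℂ, f.IsHomogeneous n →
      Ideal.Quotient.mk P f ∈ T := by
    intro n
    induction n using Nat.strong_induction_on with
    | _ n ih =>
      intro f hf
      rw [f.as_sum, map_sum]
      refine T.sum_mem fun μ hμ => ?_
      have hμn : μ.degree = n := by
        have h2 := hf (mem_support_iff.1 hμ)
        rw [Finsupp.degree_eq_weight_one]
        exact h2
      have h3 : monomial μ (coeff μ f) = C (coeff μ f) * monomial μ (1 : ℂ) := by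
        rw [C_mul_monomial, mul_one]
      rw [h3, map_mul]
      apply hC
      by_cases hle : μ.degree ≤ M
      · exact Submodule.subset_span ⟨μ, hle, rfl⟩
      · -- some exponent is large
        have h4 : ∃ i, k ≤ μ i := by
          by_contra hcon
          push Not at hcon
          apply hle
          rw [Finsupp.degree_eq_sum]
          calc ∑ i, μ i ≤ ∑ _i : Fin (N + 1), k := Finset.sum_le_sum fun i _ => (hcon i).le
            _ = M := by simp [hM]
        obtain ⟨i, hi⟩ := h4
        have h5 : monomial μ (1 : ℂ) ∈ I ⊔ Ideal.span (Set.range h) := by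
          have h6 : monomial μ (1 : ℂ) =
              monomial (μ - Finsupp.single i k) 1 * X i ^ k := by
            rw [X_pow_eq_monomial, monomial_mul, mul_one, tsub_add_cancel_of_le]
            rw [Finsupp.single_le_iff]
            exact hi
          rw [h6]
          exact Ideal.mul_mem_left _ _ (hk i)
        obtain ⟨g, hg, g', hg', hgg⟩ := Submodule.mem_sup.1 h5
        obtain ⟨c, hc⟩ := (Ideal.mem_span_range_iff_exists_fun).1 hg'
        -- the component of degree `n`
        have h7 : monomial μ (1 : ℂ) = homogeneousComponent n (monomial μ (1 : ℂ)) := by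
          rw [homogeneousComponent_of_mem (isHomogeneous_monomial (1 : ℂ) hμn), if_pos rfl]
        have h8 : homogeneousComponent n (monomial μ (1 : ℂ)) = homogeneousComponent n g +
            ∑ j, homogeneousComponent n (c j * h j) := by
          rw [← hgg, map_add, ← hc, map_sum]
        rw [h7, h8, map_add, map_sum]
        refine T.add_mem ?_ (T.sum_mem fun j _ => ?_)
        · rw [Ideal.Quotient.eq_zero_iff_mem.2 (hIP (hI g hg n))]
          exact T.zero_mem
        · by_cases hj : e j ≤ n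
          · have h9 : homogeneousComponent n (c j * h j) =
                h j * homogeneousComponent (n - e j) (c j) := by
              rw [comp_mul (hh j), if_pos hj]
            rw [h9, map_mul]
            apply hH
            exact ih (n - e j) (by have := he j; omega) _ (homogeneousComponent_isHomogeneous _ _)
          · have h9 : homogeneousComponent n (c j * h j) = 0 := by
              rw [comp_mul (hh j), if_neg hj]
            rw [h9, map_zero]
            exact T.zero_mem
  have htop : T = ⊤ := by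
    rw [eq_top_iff]
    rintro z -
    obtain ⟨f, rfl⟩ := Ideal.Quotient.mk_surjective z
    rw [← sum_homogeneousComponent f, map_sum]
    exact T.sum_mem fun n _ => key n _ (homogeneousComponent_isHomogeneous _ _)
  have hfin : ((fun μ : Fin (N + 1) →₀ ℕ => Ideal.Quotient.mk P (monomial μ (1 : ℂ))) ''
      {μ | μ.degree ≤ M}).Finite := (Finsupp.finite_of_degree_le M).image _
  refine ⟨⟨hfin.toFinset, ?_⟩⟩
  rw [Set.Finite.coe_toFinset, ← hT, htop]

theorem dep_prime {r : ℕ} (I : Ideal (MvPolynomial (Fin (N + 1)) ℂ))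
    (hI : ∀ f ∈ I, ∀ n, homogeneousComponent n f ∈ I)
    (h : Fin (r + 1) → MvPolynomial (Fin (N + 1)) ℂ) (e : Fin (r + 1) → ℕ) (he : ∀ i, 0 < e i)
    (hh : ∀ i, (h i).IsHomogeneous (e i))
    (h0 : ∀ x : Fin (N + 1) → ℂ, (∀ f ∈ I, eval x f = 0) → (∀ i, eval x (h i) = 0) → x = 0)
    (P : Ideal (MvPolynomial (Fin (N + 1)) ℂ)) [P.IsPrime] (hIP : I ≤ P)
    (z : Fin (r + 2) → MvPolynomial (Fin (N + 1)) ℂ) :
    ∃ g : MvPolynomial (Fin (r + 2)) ℂ, g ≠ 0 ∧ aeval z g ∈ P := by
  have hfin := span_top I hI h e he hh h0 P hIP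
  set s := Set.range fun i => Ideal.Quotient.mk P (h i) with hs
  have halg : Algebra.IsAlgebraic (Algebra.adjoin ℂ s) (MvPolynomial (Fin (N + 1)) ℂ ⧸ P) := by
    have : Algebra.IsIntegral (Algebra.adjoin ℂ s) (MvPolynomial (Fin (N + 1)) ℂ ⧸ P) :=
      Algebra.IsIntegral.of_finite _ _
    exact Algebra.IsIntegral.isAlgebraic
  have h1 : Algebra.trdeg ℂ (MvPolynomial (Fin (N + 1)) ℂ ⧸ P) ≤ Cardinal.mk s :=
    Algebra.IsAlgebraic.trdeg_le_cardinalMk ℂ s
  have h2 : Cardinal.mk s ≤ (r + 1 : ℕ) := by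
    have h3 := Cardinal.mk_range_le (f := fun i : Fin (r + 1) => Ideal.Quotient.mk P (h i))
    refine h3.trans ?_
    rw [Cardinal.mk_fin]
  have h3 : ¬ AlgebraicIndependent ℂ (fun i => Ideal.Quotient.mk P (z i)) := by
    intro hcon
    have h4 := hcon.cardinalMk_le_trdeg
    rw [Cardinal.mk_fin] at h4
    have h5 : ((r + 2 : ℕ) : Cardinal) ≤ (r + 1 : ℕ) := h4.trans (h1.trans h2)
    rw [Nat.cast_le] at h5
    omega
  rw [algebraicIndependent_iff] at h3
  push Not at h3
  obtain ⟨g, hg, hg0⟩ := h3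
  refine ⟨g, hg0, ?_⟩
  rw [← Ideal.Quotient.eq_zero_iff_mem, ← hg]
  have h6 : (Ideal.Quotient.mkₐ ℂ P) (aeval z g) = aeval (fun i => Ideal.Quotient.mk P (z i)) g := by
    rw [← AlgHom.comp_apply, comp_aeval]
    rfl
  exact h6

/-- If `r + 1` forms have no common zero on the closed set `Z` then any `r + 2` coordinates satisfy
a homogeneous relation on `Z`. -/
theorem relation {r : ℕ} (Z : Set (Fin (N + 1) → ℂ)) (hZ : ∀ x ∈ Z, ∀ c : ℂ, c • x ∈ Z)
    (hcl : ∀ x : Fin (N + 1) → ℂ, (∀ f : MvPolynomial (Fin (N + 1)) ℂ,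
      (∀ y ∈ Z, eval y f = 0) → eval x f = 0) → x ∈ Z)
    (h : Fin (r + 1) → MvPolynomial (Fin (N + 1)) ℂ) (e : Fin (r + 1) → ℕ) (he : ∀ i, 0 < e i)
    (hh : ∀ i, (h i).IsHomogeneous (e i))
    (h0 : ∀ x ∈ Z, (∀ i, eval x (h i) = 0) → x = 0)
    (φ : Fin (r + 2) → Fin (N + 1)) (hφ : Function.Injective φ) :
    ∃ (g : MvPolynomial (Fin (N + 1)) ℂ) (n : ℕ), g ≠ 0 ∧ g.IsHomogeneous n ∧
      (∀ i ∈ g.vars, i ∈ Set.range φ) ∧ ∀ x ∈ Z, eval x g = 0 := by
  classical
  let I : Ideal (MvPolynomial (Fin (N + 1)) ℂ) := vanishingIdeal ℂ Z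
  have hmem : ∀ f, f ∈ I ↔ ∀ x ∈ Z, eval x f = 0 := by
    intro f
    rw [mem_vanishingIdeal_iff]
    simp [aeval_eq_eval]
  have hI : ∀ f ∈ I, ∀ n, homogeneousComponent n f ∈ I := by
    intro f hf n
    rw [hmem] at hf ⊢
    exact hom_mem hZ f hf n
  have h0' : ∀ x : Fin (N + 1) → ℂ, (∀ f ∈ I, eval x f = 0) → (∀ i, eval x (h i) = 0) → x = 0 :=
    fun x hx hx' => h0 x (hcl x fun f hf => hx f ((hmem f).2 hf)) hx'
  have hP : ∀ P : Ideal (MvPolynomial (Fin (N + 1)) ℂ), P ∈ I.minimalPrimes →
      ∃ g : MvPolynomial (Fin (r + 2)) ℂ, g ≠ 0 ∧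
        aeval (fun i => (X (φ i) : MvPolynomial (Fin (N + 1)) ℂ)) g ∈ P := by
    intro P hP
    have := hP.1.1
    exact dep_prime I hI h e he hh h0' P hP.1.2 _
  choose! G hG0 hGP using hP
  have hfin := Ideal.finite_minimalPrimes_of_isNoetherianRing
    (MvPolynomial (Fin (N + 1)) ℂ) I
  set g0 := ∏ P ∈ hfin.toFinset, G P with hg0
  have hg00 : g0 ≠ 0 := Finset.prod_ne_zero_iff.2 fun P hP => hG0 P (hfin.mem_toFinset.1 hP)
  set g1 : MvPolynomial (Fin (N + 1)) ℂ := rename φ g0 with hg1
  have hg1' : g1 = aeval (fun i => (X (φ i) : MvPolynomial (Fin (N + 1)) ℂ)) g0 := by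
    have h2 : (rename φ : MvPolynomial (Fin (r + 2)) ℂ →ₐ[ℂ] MvPolynomial (Fin (N + 1)) ℂ) =
        aeval (fun i => (X (φ i) : MvPolynomial (Fin (N + 1)) ℂ)) := by
      ext i
      simp
    rw [hg1, h2]
  have hg10 : g1 ≠ 0 := by
    rw [hg1]
    exact (map_ne_zero_iff _ (rename_injective φ hφ)).2 hg00
  have hg1I : g1 ∈ I.radical := by
    rw [← Ideal.sInf_minimalPrimes, Ideal.mem_sInf]
    intro P hP
    rw [hg1', hg0, map_prod]
    exact Ideal.mem_of_dvd _ (Finset.dvd_prod_of_mem _ (hfin.mem_toFinset.2 hP)) (hGP P hP)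
  have hg1Z : ∀ x ∈ Z, eval x g1 = 0 := by
    obtain ⟨m, hm⟩ := hg1I
    intro x hx
    have h2 := (hmem _).1 hm x hx
    rw [map_pow] at h2
    exact eq_zero_of_pow_eq_zero h2
  have hex : ∃ n, homogeneousComponent n g1 ≠ 0 := by
    by_contra hcon
    push Not at hcon
    apply hg10
    rw [← sum_homogeneousComponent g1]
    exact Finset.sum_eq_zero fun n _ => hcon n
  obtain ⟨n, hn⟩ := hex
  refine ⟨homogeneousComponent n g1, n, hn, homogeneousComponent_isHomogeneous _ _, ?_,
    hom_mem hZ g1 hg1Z n⟩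
  intro i hi
  have h3 : i ∈ g1.vars := by
    rw [mem_vars_iff_mem_support] at hi ⊢
    obtain ⟨μ, hμ, hi⟩ := hi
    rw [support_homogeneousComponent] at hμ
    exact ⟨μ, (Finset.mem_filter.1 hμ).1, hi⟩
  have h4 := vars_rename φ g0 h3
  obtain ⟨j, _, hj⟩ := Finset.mem_image.1 h4
  exact ⟨j, hj⟩

end Cone

end Pool.Agent.Helper11.TS
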