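import Pool.Agent.Helper11.TS.Defs

/-!
# TS, module T1: the dominant monomial
-/

set_option autoImplicit false

namespace Pool.Agent.Helper11.TS

open Polynomial Filter

variable {κ G : Type} [Field κ] [AddCommGroup G]

lemma w_term (w : AbsoluteValue κ ℝ) (e : Multiplicative G →* κ) (q m : ℕ) (c : κ) (ν : G) :
    w (c * e (Multiplicative.ofAdd ν) ^ q ^ m)
      = w c * Real.exp (beta w e ν * (q : ℝ) ^ m) := by
  rw [map_mul, w_e_pow]
  push_cast
  rfl

/-- Upper bound for the values of `E`. -/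
theorem ev_bound (w : AbsoluteValue κ ℝ) (e : Multiplicative G →* κ) (q : ℕ) {t : ℝ} {E : Alg κ G}
    (h : Bd (beta w e) t E) :
    ∃ C : ℝ, 0 < C ∧ ∀ m, w (ev e q m E) ≤ C * Real.exp (t * (q : ℝ) ^ m) := by
  have h0 : 0 ≤ ∑ ν ∈ spt E, w (E.coeff ν) := Finset.sum_nonneg fun ν _ => w.nonneg _
  refine ⟨1 + ∑ ν ∈ spt E, w (E.coeff ν), by linarith, fun m => ?_⟩
  rw [ev_eq_sum]
  refine (w.sum_le _ _).trans ?_
  have h1 : ∑ ν ∈ spt E, w (E.coeff ν * e (Multiplicative.ofAdd ν) ^ q ^ m)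
      ≤ ∑ ν ∈ spt E, w (E.coeff ν) * Real.exp (t * (q : ℝ) ^ m) := by
    apply Finset.sum_le_sum
    intro ν hν
    rw [w_term]
    apply mul_le_mul_of_nonneg_left _ (w.nonneg _)
    apply Real.exp_le_exp.mpr
    exact mul_le_mul_of_nonneg_right (h ν hν) (by positivity)
  refine h1.trans ?_
  rw [← Finset.sum_mul]
  have h2 := Real.exp_pos (t * (q : ℝ) ^ m)
  nlinarith

/-- The dominant monomial gives a lower bound. -/
theorem ev_dom (w : AbsoluteValue κ ℝ) (e : Multiplicative G →* κ) {q : ℕ} (hq : 2 ≤ q)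
    (hβ : Function.Injective (beta w e)) {E : Alg κ G} (hE : E ≠ 0) :
    ∃ ν ∈ spt E, (∀ μ ∈ spt E, beta w e μ ≤ beta w e ν) ∧ ∃ c : ℝ, 0 < c ∧
      ∀ᶠ m in atTop, c * Real.exp (beta w e ν * (q : ℝ) ^ m) ≤ w (ev e q m E) := by
  classical
  have hne : (spt E).Nonempty := by
    rw [Finset.nonempty_iff_ne_empty]
    intro h0
    apply hE
    ext ν
    have h1 : ν ∉ spt E := by
      rw [h0]
      exact Finset.notMem_empty ν
    have h2 : E.coeff ν = 0 := by
      by_contra h3
      exact h1 (Finsupp.mem_support_iff.2 h3)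
    rw [h2]
    simp
  obtain ⟨ν, hν, hmax⟩ := Finset.exists_max_image (spt E) (fun μ => beta w e μ) hne
  refine ⟨ν, hν, hmax, w (E.coeff ν) / 2, ?_, ?_⟩
  · have h1 : E.coeff ν ≠ 0 := Finsupp.mem_support_iff.1 hν
    have h2 := w.pos h1
    linarith
  · have hcν : 0 < w (E.coeff ν) := w.pos (Finsupp.mem_support_iff.1 hν)
    have hqm : Tendsto (fun m : ℕ => (q : ℝ) ^ m) atTop atTop :=
      tendsto_pow_atTop_atTop_of_one_lt (by exact_mod_cast (by omega : 1 < q))
    have hS : Tendsto (fun m : ℕ => ∑ μ ∈ (spt E).erase ν, w (E.coeff μ)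
        * Real.exp ((beta w e μ - beta w e ν) * (q : ℝ) ^ m)) atTop (nhds 0) := by
      have h1 : Tendsto (fun m : ℕ => ∑ μ ∈ (spt E).erase ν, w (E.coeff μ)
          * Real.exp ((beta w e μ - beta w e ν) * (q : ℝ) ^ m)) atTop
          (nhds (∑ μ ∈ (spt E).erase ν, (0 : ℝ))) := by
        apply tendsto_finsetSum
        intro μ hμ
        rw [Finset.mem_erase] at hμ
        have h2 : beta w e μ - beta w e ν < 0 := by
          have h3 := hmax μ hμ.2
          have h4 : beta w e μ ≠ beta w e ν := fun h => hμ.1 (hβ h)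
          have h5 := lt_of_le_of_ne h3 h4
          linarith
        have h3 : Tendsto (fun m : ℕ => (beta w e μ - beta w e ν) * (q : ℝ) ^ m) atTop atBot :=
          hqm.const_mul_atTop_of_neg h2
        have h4 := (Real.tendsto_exp_atBot.comp h3).const_mul (w (E.coeff μ))
        rw [mul_zero] at h4
        exact h4
      simpa using h1
    have hev := hS.eventually (Iio_mem_nhds (show (0 : ℝ) < w (E.coeff ν) / 2 by linarith))
    filter_upwards [hev] with m hm
    have hm' : ∑ μ ∈ (spt E).erase ν, w (E.coeff μ)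
        * Real.exp ((beta w e μ - beta w e ν) * (q : ℝ) ^ m) < w (E.coeff ν) / 2 := hm
    rw [ev_eq_sum, ← Finset.add_sum_erase _ _ hν]
    set a : κ := E.coeff ν * e (Multiplicative.ofAdd ν) ^ q ^ m with ha
    set b : κ := ∑ μ ∈ (spt E).erase ν, E.coeff μ * e (Multiplicative.ofAdd μ) ^ q ^ m with hb
    have h1 : w a ≤ w (a + b) + w b := by
      have h2 : a = (a + b) + (-b) := by ring
      calc w a = w ((a + b) + (-b)) := by rw [← h2]
        _ ≤ w (a + b) + w (-b) := w.add_le _ _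
        _ = w (a + b) + w b := by rw [w.map_neg]
    have h2 : w a = w (E.coeff ν) * Real.exp (beta w e ν * (q : ℝ) ^ m) := by
      rw [ha, w_term]
    have h3 : w b ≤ (∑ μ ∈ (spt E).erase ν, w (E.coeff μ)
        * Real.exp ((beta w e μ - beta w e ν) * (q : ℝ) ^ m))
        * Real.exp (beta w e ν * (q : ℝ) ^ m) := by
      rw [hb]
      refine (w.sum_le _ _).trans ?_
      rw [Finset.sum_mul]
      apply Finset.sum_le_sum
      intro μ _
      rw [w_term, mul_assoc, ← Real.exp_add]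
      apply le_of_eq
      congr 2
      ring
    have h4 := Real.exp_pos (beta w e ν * (q : ℝ) ^ m)
    have h5 := mul_le_mul_of_nonneg_right hm'.le h4.le
    have h6 : w (E.coeff ν) / 2 * Real.exp (beta w e ν * (q : ℝ) ^ m)
        = w (E.coeff ν) * Real.exp (beta w e ν * (q : ℝ) ^ m)
          - w (E.coeff ν) / 2 * Real.exp (beta w e ν * (q : ℝ) ^ m) := by ring
    rw [h6]
    linarith

theorem ev_ne_zero (w : AbsoluteValue κ ℝ) (e : Multiplicative G →* κ) {q : ℕ} (hq : 2 ≤ q)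
    (hβ : Function.Injective (beta w e)) {E : Alg κ G} (hE : E ≠ 0) :
    ∀ᶠ m in atTop, ev e q m E ≠ 0 := by
  obtain ⟨ν, -, -, c, hc, h⟩ := ev_dom w e hq hβ hE
  filter_upwards [h] with m hm h0
  rw [h0, map_zero] at hm
  have h1 : 0 < c * Real.exp (beta w e ν * (q : ℝ) ^ m) := mul_pos hc (Real.exp_pos _)
  linarith

/-- If two elements agree at infinitely many levels they are equal. -/
theorem ev_ext_freq (w : AbsoluteValue κ ℝ) (e : Multiplicative G →* κ) {q : ℕ} (hq : 2 ≤ q)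
    (hβ : Function.Injective (beta w e)) {E E' : Alg κ G}
    (h : ∃ᶠ m in atTop, ev e q m E = ev e q m E') : E = E' := by
  by_contra hne
  have h1 : E - E' ≠ 0 := sub_ne_zero.2 hne
  have h2 := ev_ne_zero w e hq hβ h1
  obtain ⟨m, h3, h4⟩ := (h.and_eventually h2).exists
  apply h4
  rw [map_sub, h3, sub_self]

theorem ev_ext (w : AbsoluteValue κ ℝ) (e : Multiplicative G →* κ) {q : ℕ} (hq : 2 ≤ q)
    (hβ : Function.Injective (beta w e)) {U : Ultrafilter ℕ} (hU : (U : Filter ℕ) ≤ atTop)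
    {E E' : Alg κ G} (h : ∀ᶠ m in (U : Filter ℕ), ev e q m E = ev e q m E') : E = E' :=
  ev_ext_freq w e hq hβ (h.frequently.filter_mono hU)

end Pool.Agent.Helper11.TS
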