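import Pool.Agent.Helper11.TS.MainK

/-!
# TS: the dominant root condition is automatic for `r ≤ 1`
-/

set_option autoImplicit false

namespace Pool.Agent.Helper11.TS

open MvPolynomial Filter

variable {κ : Type} [Field κ] [CharZero κ] [IsAlgClosed κ] [Algebra.IsAlgebraic ℚ κ] {N : ℕ}

/-- There is some place. -/
theorem exists_pl : ∃ w : AbsoluteValue κ ℝ, IsPl w := by
  obtain ⟨w, hw, _⟩ := exists_place (κ := κ) (2 : κ) two_ne_zero (by
    intro k hk h
    have h1 : ((2 ^ k : ℕ) : κ) = ((1 : ℕ) : κ) := by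
      push_cast
      exact h
    have h2 := Nat.cast_injective h1
    have h3 : 1 < 2 ^ k := Nat.one_lt_two_pow (by omega)
    omega)
  exact ⟨w, hw⟩

theorem exists_dom {r : ℕ} (hr : r ≤ 1) (a : Fin (N + 1) → κ) :
    ∃ w : AbsoluteValue κ ℝ, IsPl w ∧ DomK r a w := by
  classical
  -- the two indices
  by_cases hN : N = 0
  · -- only one coordinate
    obtain ⟨w, hw⟩ := exists_pl (κ := κ)
    refine ⟨w, hw, ?_⟩
    intro m _ hsum _
    have h1 : m = 0 := by
      funext i
      have h2 : ∀ j : Fin (N + 1), j = i := fun j => by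
        apply Fin.ext
        have := j.2
        have := i.2
        omega
      have h3 : ∑ j, m j = m i := by
        rw [Fintype.sum_eq_single i]
        intro j hj
        exact absurd (h2 j) hj
      rw [h3] at hsum
      exact hsum
    exact ⟨1, one_pos, by rw [h1]; simp⟩
  · set i1 : Fin (N + 1) := ⟨1, by omega⟩ with hi1
    have h01 : (0 : Fin (N + 1)) ≠ i1 := by
      intro h
      have := congrArg Fin.val h
      simp [hi1] at this
    -- shape of the exponents
    have hshape : ∀ m : Fin (N + 1) → ℤ, (∀ i, m i ≠ 0 → (i : ℕ) ≤ r ∧ a i ≠ 0) → ∑ i, m i = 0 →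
        m 0 = -m i1 ∧ ∏ i, a i ^ m i = a 0 ^ m 0 * a i1 ^ m i1 ∧
        ∀ i, i ≠ 0 → i ≠ i1 → m i = 0 := by
      intro m hm hsum
      have h0 : ∀ i, i ≠ 0 → i ≠ i1 → m i = 0 := by
        intro i hi hi'
        by_contra hcon
        have h2 := (hm i hcon).1
        have h3 : (i : ℕ) ≠ 0 := fun h => hi (Fin.ext h)
        have h4 : (i : ℕ) ≠ 1 := fun h => hi' (Fin.ext h)
        omega
      refine ⟨?_, ?_, h0⟩
      · have h2 : ∑ i, m i = m 0 + m i1 :=
          Fintype.sum_eq_add 0 i1 h01 fun i hi => h0 i hi.1 hi.2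
        omega
      · exact Fintype.prod_eq_mul 0 i1 h01 fun i hi => by
          rw [h0 i hi.1 hi.2, zpow_zero]
    by_cases hgood : a 0 ≠ 0 ∧ a i1 ≠ 0 ∧ ∀ k : ℕ, 0 < k → (a i1 / a 0) ^ k ≠ 1
    · obtain ⟨ha0, ha1, hroot⟩ := hgood
      obtain ⟨w, hw, hw1⟩ := exists_place (a i1 / a 0) (div_ne_zero ha1 ha0) hroot
      refine ⟨w, hw, ?_⟩
      intro m hm hsum hwm
      obtain ⟨h2, h3, h4⟩ := hshape m hm hsum
      have h5 : ∏ i, a i ^ m i = (a i1 / a 0) ^ m i1 := by
        rw [h3, h2, div_zpow, zpow_neg, mul_comm, div_eq_mul_inv]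
      rw [h5, map_zpow₀] at hwm
      have h6 : m i1 = 0 := (zpow_eq_one_iff_right₀ (w.nonneg _) hw1).1 hwm
      exact ⟨1, one_pos, by rw [h5, h6]; simp⟩
    · obtain ⟨w, hw⟩ := exists_pl (κ := κ)
      refine ⟨w, hw, ?_⟩
      intro m hm hsum _
      obtain ⟨h2, h3, h4⟩ := hshape m hm hsum
      by_cases hz : m i1 = 0
      · exact ⟨1, one_pos, by rw [h3, h2, hz]; simp⟩
      · have ha1 := (hm i1 hz).2
        have ha0 := (hm 0 (by rw [h2]; exact neg_ne_zero.2 hz)).2
        have h5 : ∃ k : ℕ, 0 < k ∧ (a i1 / a 0) ^ k = 1 := by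
          by_contra hcon
          push Not at hcon
          exact hgood ⟨ha0, ha1, fun k hk => hcon k hk⟩
        obtain ⟨k, hk, hk1⟩ := h5
        have h6 : ∏ i, a i ^ m i = (a i1 / a 0) ^ m i1 := by
          rw [h3, h2, div_zpow, zpow_neg, mul_comm, div_eq_mul_inv]
        refine ⟨k, hk, ?_⟩
        rw [h6, ← zpow_natCast, ← zpow_mul, mul_comm, zpow_mul, zpow_natCast, hk1, one_zpow]

end Pool.Agent.Helper11.TS
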