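import Pool.Agent.Helper11.TS.Defs
import Pool.Agent.Helper85.SubLOCM

/-!
# TS, module T3c: embeddings of `L` that extend a given embedding of `K`
-/

set_option autoImplicit false

namespace Pool.Agent.Helper11.TS

open Filter NumberField

/-- The number of embeddings of `L` that agree on `K` with a given one. -/
theorem card_ext {κ : Type} [Field κ] [CharZero κ] {Ω : Type} [Field Ω] [CharZero Ω]
    [IsAlgClosed Ω] (K L : IntermediateField ℚ κ) (hKL : K ≤ L) [FiniteDimensional ℚ L]
    (τ : κ →+* Ω) :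
    Nat.card {σ : L →+* Ω // ∀ x : K, σ ⟨x, hKL x.2⟩ = τ x} * Module.finrank ℚ K =
      Module.finrank ℚ L := by
  classical
  let iKL : Algebra K L := (IntermediateField.inclusion hKL).toRingHom.toAlgebra
  have iT : IsScalarTower ℚ K L := IsScalarTower.of_algebraMap_eq fun x => by
    change _ = IntermediateField.inclusion hKL (algebraMap ℚ K x)
    rw [eq_ratCast, eq_ratCast, map_ratCast]
  have : FiniteDimensional K L := Module.Finite.of_restrictScalars_finite ℚ K L
  let iKO : Algebra K Ω := (τ.comp (algebraMap K κ)).toAlgebra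
  let eqv : {σ : L →+* Ω // ∀ x : K, σ ⟨x, hKL x.2⟩ = τ x} ≃ (L →ₐ[K] Ω) :=
    { toFun := fun σ => { σ.1 with commutes' := σ.2 }
      invFun := fun f => ⟨f.toRingHom, fun x => f.commutes x⟩
      left_inv := fun σ => rfl
      right_inv := fun f => rfl }
  rw [Nat.card_congr eqv, Nat.card_eq_fintype_card, AlgHom.card K L Ω, mul_comm,
    Module.finrank_mul_finrank]

/-- Two embeddings of `L` that agree on a subset that contains a power of `x` differ, at
`x ^ (q ^ m)`, by a root of unity that does not depend on `m` (in the sense of `U`). -/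
theorem root_const {L F : Type} [Field L] [Field F] (σ τ : L →+* F) (x : L) (hx : x ≠ 0)
    (D : ℕ) (hD : 0 < D) (h : σ (x ^ D) = τ (x ^ D)) (q : ℕ) (U : Ultrafilter ℕ) :
    ∃ η : F, η ^ D = 1 ∧ ∀ᶠ m in (U : Filter ℕ), σ x ^ q ^ m = η * τ x ^ q ^ m := by
  classical
  have hτ : τ x ≠ 0 := (map_ne_zero τ).2 hx
  have hu : (σ x / τ x) ^ D = 1 := by
    rw [div_pow, ← map_pow, ← map_pow, h, div_self]
    rw [map_pow]
    exact pow_ne_zero _ hτ
  have hfin : ({η : F | η ^ D = 1}).Finite := by
    refine (Polynomial.nthRootsFinset D (1 : F)).finite_toSet.subset fun η hη => ?_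
    exact (Polynomial.mem_nthRootsFinset hD (1 : F)).2 hη
  have h1 : ∀ᶠ m in (U : Filter ℕ), ∃ η ∈ {η : F | η ^ D = 1},
      σ x ^ q ^ m = η * τ x ^ q ^ m := by
    refine Eventually.of_forall fun m => ⟨(σ x / τ x) ^ q ^ m, ?_, ?_⟩
    · change ((σ x / τ x) ^ q ^ m) ^ D = 1
      rw [← pow_mul, mul_comm, pow_mul, hu, one_pow]
    · rw [div_pow, div_mul_cancel₀ _ (pow_ne_zero _ hτ)]
  obtain ⟨η, hη, h2⟩ := (Ultrafilter.eventually_exists_mem_iff hfin).1 h1
  exact ⟨η, hη, h2⟩

end Pool.Agent.Helper11.TS
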