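import Pool.Agent.Helper11.TS.MainK

/-!
# TS, final statements in complex projective space
-/

set_option autoImplicit false

namespace Pool.Agent.Helper11.TS

open MvPolynomial Filter

/-- The field of algebraic numbers. -/
abbrev Qb : Type := algebraicClosure ℚ ℂ

instance : Algebra.IsAlgebraic ℚ Qb := algebraicClosure.isAlgebraic ℚ ℂ

instance : IsAlgClosed Qb := (algebraicClosure.isAlgClosure ℚ ℂ).isAlgClosed

/-- The point `x` lies in the zero set of the set `S` of polynomials. -/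
def On {m : ℕ} (S : Set (MvPolynomial (Fin m) ℂ)) (x : Fin m → ℂ) : Prop := ∀ g ∈ S, eval x g = 0

/-- The image of a complex polynomial under a `Qb`-linear functional, coefficient by
coefficient. -/
noncomputable def sc {m : ℕ} (s : ℂ →ₗ[Qb] Qb) (g : MvPolynomial (Fin m) ℂ) :
    MvPolynomial (Fin m) Qb := ∑ μ ∈ g.support, monomial μ (s (coeff μ g))

lemma coeff_sc {m : ℕ} (s : ℂ →ₗ[Qb] Qb) (g : MvPolynomial (Fin m) ℂ) (μ : Fin m →₀ ℕ) :
    coeff μ (sc s g) = s (coeff μ g) := by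
  classical
  rw [sc, coeff_sum]
  simp only [coeff_monomial]
  rw [Finset.sum_ite_eq' g.support μ]
  split_ifs with h
  · rfl
  · rw [notMem_support_iff.1 h, map_zero]

lemma eval_sc {m : ℕ} (s : ℂ →ₗ[Qb] Qb) (g : MvPolynomial (Fin m) ℂ) (x : Fin m → Qb) :
    eval x (sc s g) = s (eval (fun i => (x i : ℂ)) g) := by
  classical
  rw [sc, map_sum, eval_eq (fun i => (x i : ℂ)) g, map_sum]
  refine Finset.sum_congr rfl fun μ _ => ?_
  rw [eval_monomial, Finsupp.prod]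
  have h1 : coeff μ g * ∏ i ∈ μ.support, (x i : ℂ) ^ μ i
      = (∏ i ∈ μ.support, x i ^ μ i) • coeff μ g := by
    rw [Algebra.smul_def, map_prod]
    simp only [map_pow]
    rw [mul_comm]
    rfl
  rw [h1, map_smul, smul_eq_mul, mul_comm]

lemma sc_homog {m : ℕ} (s : ℂ →ₗ[Qb] Qb) {g : MvPolynomial (Fin m) ℂ} {e : ℕ}
    (h : g.IsHomogeneous e) : (sc s g).IsHomogeneous e := by
  intro μ hμ
  refine h (d := μ) fun h0 => hμ ?_
  rw [coeff_sc, h0, map_zero]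

lemma sc_vars {m : ℕ} (s : ℂ →ₗ[Qb] Qb) (g : MvPolynomial (Fin m) ℂ) :
    (sc s g).vars ⊆ g.vars := by
  intro i hi
  rw [mem_vars_iff_mem_support] at hi ⊢
  obtain ⟨μ, hμ, hi⟩ := hi
  refine ⟨μ, ?_, hi⟩
  rw [mem_support_iff] at hμ ⊢
  intro h0
  apply hμ
  rw [coeff_sc, h0, map_zero]

/-- For a system of complex forms, the `Qb`-points are given by forms over `Qb`. -/
theorem descend {N : ℕ} (S : Set (MvPolynomial (Fin (N + 1)) ℂ))
    (hS : ∀ g ∈ S, ∃ e : ℕ, g.IsHomogeneous e) :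
    ∃ 𝒢 : Set (MvPolynomial (Fin (N + 1)) Qb), (∀ g ∈ 𝒢, ∃ e : ℕ, g.IsHomogeneous e) ∧
      ∀ x : Fin (N + 1) → Qb, (∀ g ∈ 𝒢, eval x g = 0) ↔ On S (fun i => (x i : ℂ)) := by
  refine ⟨{g' | ∃ g ∈ S, ∃ s : ℂ →ₗ[Qb] Qb, g' = sc s g}, ?_, fun x => ⟨fun h g hg => ?_, ?_⟩⟩
  · rintro g' ⟨g, hg, s, rfl⟩
    obtain ⟨e, he⟩ := hS g hg
    exact ⟨e, sc_homog s he⟩
  · refine (Module.forall_dual_apply_eq_zero_iff Qb _).1 fun s => ?_
    have h1 := h (sc s g) ⟨g, hg, s, rfl⟩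
    rwa [eval_sc] at h1
  · rintro h g' ⟨g, hg, s, rfl⟩
    rw [eval_sc, h g hg, map_zero]

/-- A nonzero complex form which vanishes at certain `Qb`-points can be replaced by a nonzero form
over `Qb` in the same variables. -/
theorem descend_form {N : ℕ} (X0 : Set (Fin (N + 1) → Qb)) (g : MvPolynomial (Fin (N + 1)) ℂ)
    (hg : g ≠ 0) (e : ℕ) (he : g.IsHomogeneous e)
    (h : ∀ x ∈ X0, eval (fun i => (x i : ℂ)) g = 0) :
    ∃ g' : MvPolynomial (Fin (N + 1)) Qb, g' ≠ 0 ∧ g'.IsHomogeneous e ∧ g'.vars ⊆ g.vars ∧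
      ∀ x ∈ X0, eval x g' = 0 := by
  obtain ⟨μ, hμ⟩ := ne_zero_iff.1 hg
  have h1 : ∃ s : ℂ →ₗ[Qb] Qb, s (coeff μ g) ≠ 0 := by
    by_contra h2
    push Not at h2
    exact hμ ((Module.forall_dual_apply_eq_zero_iff Qb _).1 fun s => h2 s)
  obtain ⟨s, hs⟩ := h1
  refine ⟨sc s g, ?_, sc_homog s he, sc_vars s g, fun x hx => ?_⟩
  · rw [ne_zero_iff]
    exact ⟨μ, by rwa [coeff_sc]⟩
  · rw [eval_sc, h x hx, map_zero]

end Pool.Agent.Helper11.TS
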