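import Pool.Agent.Helper11.TS.Tri

/-!
# TS, module T10b: growth and denominators of the orbit
-/

set_option autoImplicit false

namespace Pool.Agent.Helper11.TS

open MvPolynomial Filter

variable {κ : Type} [Field κ] [CharZero κ] [Algebra.IsAlgebraic ℚ κ] {N : ℕ}

/-- The conjugates of an algebraic number are bounded. -/
lemma grow_bd_one (x : κ) : ∃ C : ℝ, 0 ≤ C ∧ ∀ σ : κ →+* ℂ, ‖σ x‖ ≤ C := by
  classical
  have hx : IsIntegral ℚ x := (Algebra.IsAlgebraic.isAlgebraic x).isIntegral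
  refine ⟨∑ z ∈ ((minpoly ℚ x).aroots ℂ).toFinset, ‖z‖,
    Finset.sum_nonneg fun _ _ => norm_nonneg _, fun σ => ?_⟩
  have h1 : σ x ∈ ((minpoly ℚ x).aroots ℂ).toFinset := by
    rw [Multiset.mem_toFinset, Polynomial.mem_aroots]
    refine ⟨minpoly.ne_zero hx, ?_⟩
    have h2 := Polynomial.hom_eval₂ (minpoly ℚ x) (algebraMap ℚ κ) σ x
    rw [Polynomial.aeval_def, Subsingleton.elim (algebraMap ℚ ℂ) (σ.comp (algebraMap ℚ κ)), ← h2,
      ← Polynomial.aeval_def, minpoly.aeval, map_zero]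
  exact Finset.single_le_sum (f := fun z : ℂ => ‖z‖) (fun _ _ => norm_nonneg _) h1

/-- An algebraic number has a denominator. -/
lemma grow_den_one (x : κ) : ∃ D : ℕ, 0 < D ∧ IsIntegral ℤ ((D : κ) * x) := by
  have h1 : IsAlgebraic ℤ x :=
    (IsFractionRing.isAlgebraic_iff ℤ ℚ κ).2 (Algebra.IsAlgebraic.isAlgebraic x)
  obtain ⟨y, hy, h⟩ := h1.exists_integral_multiple
  refine ⟨y.natAbs, Int.natAbs_pos.2 hy, ?_⟩
  rw [zsmul_eq_mul] at h
  rcases Int.natAbs_eq y with h2 | h2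
  · have h3 : ((y.natAbs : ℕ) : κ) = (y : κ) := by
      rw [← Int.cast_natCast (R := κ) y.natAbs, ← h2]
    rw [h3]
    exact h
  · have h3 : ((y.natAbs : ℕ) : κ) = -(y : κ) := by
      rw [← Int.cast_natCast (R := κ) y.natAbs, ← Int.cast_neg]
      congr 1
      omega
    rw [h3, neg_mul]
    exact h.neg

/-- A common denominator of finitely many algebraic numbers. -/
lemma grow_den_fin (s : Finset κ) : ∃ D : ℕ, 0 < D ∧ ∀ x ∈ s, IsIntegral ℤ ((D : κ) * x) := by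
  classical
  choose f hf hf' using grow_den_one (κ := κ)
  refine ⟨∏ x ∈ s, f x, Finset.prod_pos fun x _ => hf x, fun x hx => ?_⟩
  rw [← Finset.prod_erase_mul s f hx]
  push_cast
  rw [mul_assoc]
  refine IsIntegral.mul (IsIntegral.prod _ fun i _ => ?_) (hf' x)
  exact isIntegral_natCast (f i)

omit [Algebra.IsAlgebraic ℚ κ] in
/-- The value of a polynomial lies in the field of its coefficients and arguments. -/
lemma grow_mem (K : IntermediateField ℚ κ) (P : MvPolynomial (Fin (N + 1)) κ)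
    (hP : ∀ μ, P.coeff μ ∈ K) (x : Fin (N + 1) → κ) (hx : ∀ i, x i ∈ K) : eval x P ∈ K := by
  rw [MvPolynomial.eval_eq']
  exact sum_mem fun μ _ => mul_mem (hP μ) (prod_mem fun i _ => pow_mem (hx i) _)

omit [CharZero κ] [Algebra.IsAlgebraic ℚ κ] in
lemma grow_deg {P : MvPolynomial (Fin (N + 1)) κ} {q : ℕ} (hP : P.IsHomogeneous q)
    {μ : Fin (N + 1) →₀ ℕ} (hμ : μ ∈ P.support) : ∑ i, μ i = q := by
  have h1 := hP (MvPolynomial.mem_support_iff.1 hμ)
  rw [← h1, Finsupp.weight_apply, Finsupp.sum_fintype _ _ fun i => by simp]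
  simp

omit [Algebra.IsAlgebraic ℚ κ] in
/-- One step of the bound for the size. -/
lemma grow_bd_step {P : MvPolynomial (Fin (N + 1)) κ} {q : ℕ} (hq : 2 ≤ q)
    (hP : P.IsHomogeneous q) (σ : κ →+* ℂ) (M : ℝ) (hM : 1 ≤ M)
    (hPM : ∑ μ ∈ P.support, ‖σ (P.coeff μ)‖ ≤ M) (x : Fin (N + 1) → κ) (E : ℕ)
    (hx : ∀ i, M * ‖σ (x i)‖ ≤ M ^ E) : M * ‖σ (eval x P)‖ ≤ M ^ (E * q) := by
  have hM0 : 0 ≤ M := zero_le_one.trans hM
  have h1 : ∀ μ ∈ P.support, M ^ q * ‖∏ i, σ (x i) ^ μ i‖ ≤ M ^ (E * q) := by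
    intro μ hμ
    have h2 : M ^ q * ‖∏ i, σ (x i) ^ μ i‖ = ∏ i, (M * ‖σ (x i)‖) ^ μ i := by
      simp only [mul_pow, Finset.prod_mul_distrib, norm_prod, norm_pow]
      rw [Finset.prod_pow_eq_pow_sum, grow_deg hP hμ]
    have h3 : M ^ (E * q) = ∏ i : Fin (N + 1), (M ^ E) ^ μ i := by
      rw [Finset.prod_pow_eq_pow_sum, grow_deg hP hμ, pow_mul]
    rw [h2, h3]
    exact Finset.prod_le_prod (fun i _ => pow_nonneg (mul_nonneg hM0 (norm_nonneg _)) _)
      fun i _ => pow_le_pow_left₀ (mul_nonneg hM0 (norm_nonneg _)) (hx i) _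
  have h4 : ‖σ (eval x P)‖ ≤ ∑ μ ∈ P.support, ‖σ (P.coeff μ)‖ * ‖∏ i, σ (x i) ^ μ i‖ := by
    rw [MvPolynomial.eval_eq', map_sum]
    refine (norm_sum_le _ _).trans (le_of_eq (Finset.sum_congr rfl fun μ _ => ?_))
    rw [map_mul, norm_mul, map_prod]
    simp only [map_pow]
  have h5 : M ^ (q - 1) * ‖σ (eval x P)‖ * M ≤ M * M ^ (E * q) := by
    calc M ^ (q - 1) * ‖σ (eval x P)‖ * M = M ^ q * ‖σ (eval x P)‖ := by
          obtain ⟨k, rfl⟩ : ∃ k, q = k + 1 := ⟨q - 1, by omega⟩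
          rw [Nat.add_sub_cancel, pow_succ]
          ring
      _ ≤ M ^ q * ∑ μ ∈ P.support, ‖σ (P.coeff μ)‖ * ‖∏ i, σ (x i) ^ μ i‖ :=
          mul_le_mul_of_nonneg_left h4 (pow_nonneg hM0 _)
      _ = ∑ μ ∈ P.support, ‖σ (P.coeff μ)‖ * (M ^ q * ‖∏ i, σ (x i) ^ μ i‖) := by
          rw [Finset.mul_sum]
          exact Finset.sum_congr rfl fun μ _ => by ring
      _ ≤ ∑ μ ∈ P.support, ‖σ (P.coeff μ)‖ * M ^ (E * q) :=
          Finset.sum_le_sum fun μ hμ => mul_le_mul_of_nonneg_left (h1 μ hμ) (norm_nonneg _)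
      _ = (∑ μ ∈ P.support, ‖σ (P.coeff μ)‖) * M ^ (E * q) := by rw [Finset.sum_mul]
      _ ≤ M * M ^ (E * q) := mul_le_mul_of_nonneg_right hPM (pow_nonneg hM0 _)
  have h6 : M ^ (q - 1) * ‖σ (eval x P)‖ ≤ M ^ (E * q) := by
    rw [mul_comm M] at h5
    exact le_of_mul_le_mul_right h5 (zero_lt_one.trans_le hM)
  refine le_trans (mul_le_mul_of_nonneg_right ?_ (norm_nonneg _)) h6
  calc M = M ^ 1 := (pow_one M).symm
    _ ≤ M ^ (q - 1) := pow_le_pow_right₀ hM (by omega)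

omit [CharZero κ] [Algebra.IsAlgebraic ℚ κ] in
/-- One step of the bound for the denominators. -/
lemma grow_den_step {P : MvPolynomial (Fin (N + 1)) κ} {q : ℕ} (hq : 2 ≤ q)
    (hP : P.IsHomogeneous q) (D : ℕ) (hPD : ∀ μ, IsIntegral ℤ ((D : κ) * P.coeff μ))
    (x : Fin (N + 1) → κ) (E : ℕ) (hx : ∀ i, IsIntegral ℤ ((D : κ) ^ E * x i)) :
    IsIntegral ℤ ((D : κ) ^ ((E + 1) * q - 1) * eval x P) := by
  rw [MvPolynomial.eval_eq', Finset.mul_sum]
  refine IsIntegral.sum _ fun μ hμ => ?_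
  have h1 : (D : κ) ^ ((E + 1) * q - 1) * (P.coeff μ * ∏ i, x i ^ μ i) =
      (D : κ) ^ (q - 2) * ((D : κ) * P.coeff μ) * ∏ i, ((D : κ) ^ E * x i) ^ μ i := by
    simp only [mul_pow, Finset.prod_mul_distrib]
    rw [Finset.prod_pow_eq_pow_sum, grow_deg hP hμ, ← pow_mul]
    have h2 : (E + 1) * q - 1 = (q - 2) + 1 + E * q := by
      have h3 : (E + 1) * q = E * q + q := by ring
      omega
    rw [h2, pow_add, pow_add, pow_one]
    ring
  rw [h1]
  refine IsIntegral.mul (IsIntegral.mul (IsIntegral.pow (isIntegral_natCast D) _) (hPD μ))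
    (IsIntegral.prod _ fun i _ => (hx i).pow _)

theorem seq_xs {G : Type} [AddCommGroup G] (B : Base κ G) {r : ℕ}
    {F : Fin (N + 1) → MvPolynomial (Fin (N + 1)) κ} (hT : Tri r B.q F)
    (hF : ∀ j μ, (F j).coeff μ ∈ B.K) (a : Fin (N + 1) → κ) (haK : ∀ i, a i ∈ B.K)
    (i0 : Fin (N + 1)) (hi0 : (i0 : ℕ) ≤ r) (ha : a i0 = 1) (i : Fin (N + 1)) :
    Seq B (fun n => xs F a n i) := by
  classical
  have hq := hT.hd
  refine ⟨fun n => ?_, ?_, ?_⟩
  · have h1 : ∀ n i, xs F a n i ∈ B.K := by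
      intro n
      induction n with
      | zero => exact fun i => haK i
      | succ n ih =>
        intro i
        rw [xs_succ]
        exact grow_mem B.K _ (hF i) _ ih
    exact h1 n i
  · choose c hc0 hc using grow_bd_one (κ := κ)
    have hn1 : ∀ j : Fin (N + 1), 0 ≤ ∑ μ ∈ (F j).support, c ((F j).coeff μ) := fun j =>
      Finset.sum_nonneg fun μ _ => hc0 _
    have hn2 : 0 ≤ ∑ j, ∑ μ ∈ (F j).support, c ((F j).coeff μ) :=
      Finset.sum_nonneg fun j _ => hn1 j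
    have hn3 : 0 ≤ ∑ j, c (a j) := Finset.sum_nonneg fun j _ => hc0 _
    obtain ⟨M, hM⟩ : ∃ M : ℝ, M = 1 + (∑ j, ∑ μ ∈ (F j).support, c ((F j).coeff μ)) +
      ∑ j, c (a j) := ⟨_, rfl⟩
    have hM1 : 1 ≤ M := by rw [hM]; linarith
    have hM0 : 0 ≤ M := zero_le_one.trans hM1
    have hMa : ∀ j, c (a j) ≤ M := by
      intro j
      have h1 : c (a j) ≤ ∑ j, c (a j) :=
        Finset.single_le_sum (f := fun j => c (a j)) (fun j _ => hc0 _) (Finset.mem_univ j)
      rw [hM]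
      linarith
    have hMF : ∀ j, ∑ μ ∈ (F j).support, c ((F j).coeff μ) ≤ M := by
      intro j
      have h1 : ∑ μ ∈ (F j).support, c ((F j).coeff μ) ≤
          ∑ j, ∑ μ ∈ (F j).support, c ((F j).coeff μ) :=
        Finset.single_le_sum (f := fun j => ∑ μ ∈ (F j).support, c ((F j).coeff μ))
          (fun j _ => hn1 j) (Finset.mem_univ j)
      rw [hM]
      linarith
    have h2 : ∀ (σ : κ →+* ℂ) (n : ℕ) (i : Fin (N + 1)),
        M * ‖σ (xs F a n i)‖ ≤ M ^ (2 * B.q ^ n) := by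
      intro σ n
      induction n with
      | zero =>
        intro i
        rw [xs_zero, pow_zero, mul_one, pow_two]
        exact mul_le_mul_of_nonneg_left ((hc (a i) σ).trans (hMa i)) hM0
      | succ n ih =>
        intro i
        rw [xs_succ, pow_succ, ← mul_assoc]
        refine grow_bd_step hq (hT.hom i) σ M hM1 ?_ _ _ ih
        exact (Finset.sum_le_sum fun μ _ => hc _ σ).trans (hMF i)
    refine ⟨2 * Real.log M, fun σ n => ?_⟩
    have h3 : ‖σ (xs F a n i)‖ ≤ M * ‖σ (xs F a n i)‖ :=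
      le_mul_of_one_le_left (norm_nonneg _) hM1
    refine (h3.trans (h2 σ n i)).trans (le_of_eq ?_)
    have h4 : 2 * Real.log M * (B.q : ℝ) ^ n = ((2 * B.q ^ n : ℕ) : ℝ) * Real.log M := by
      push_cast
      ring
    rw [h4, Real.exp_nat_mul, Real.exp_log (zero_lt_one.trans_le hM1)]
  · obtain ⟨D, hD, hDs⟩ := grow_den_fin (Finset.univ.image a ∪
      Finset.univ.biUnion fun j => (F j).support.image fun μ => (F j).coeff μ)
    have hDa : ∀ j, IsIntegral ℤ ((D : κ) * a j) := fun j =>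
      hDs _ (Finset.mem_union_left _ (Finset.mem_image_of_mem _ (Finset.mem_univ j)))
    have hDF : ∀ j μ, IsIntegral ℤ ((D : κ) * (F j).coeff μ) := by
      intro j μ
      by_cases hμ : μ ∈ (F j).support
      · exact hDs _ (Finset.mem_union_right _ (Finset.mem_biUnion.2
          ⟨j, Finset.mem_univ j, Finset.mem_image_of_mem _ hμ⟩))
      · rw [MvPolynomial.notMem_support_iff.1 hμ, mul_zero]
        exact isIntegral_zero
    have h1 : ∀ n i, IsIntegral ℤ ((D : κ) ^ (2 * B.q ^ n - 1) * xs F a n i) := by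
      intro n
      induction n with
      | zero =>
        intro i
        rw [xs_zero, pow_zero, mul_one, show 2 - 1 = 1 from rfl, pow_one]
        exact hDa i
      | succ n ih =>
        intro i
        have h2 := grow_den_step hq (hT.hom i) D (hDF i) (xs F a n) (2 * B.q ^ n - 1) ih
        have h3 : 0 < B.q ^ n := pow_pos (by omega) _
        have h4 : (2 * B.q ^ n - 1 + 1) * B.q - 1 = 2 * B.q ^ (n + 1) - 1 := by
          rw [Nat.sub_add_cancel (by omega), pow_succ, mul_assoc]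
        rw [h4] at h2
        rw [xs_succ]
        exact h2
    refine ⟨D ^ 2, pow_pos hD 2, fun n => ?_⟩
    have h3 : 0 < B.q ^ n := pow_pos (by omega) _
    have h5 : ((D ^ 2 : ℕ) : κ) ^ B.q ^ n * xs F a n i =
        (D : κ) * ((D : κ) ^ (2 * B.q ^ n - 1) * xs F a n i) := by
      rw [← mul_assoc, ← pow_succ', Nat.sub_add_cancel (by omega), pow_mul]
      push_cast
      rfl
    rw [h5]
    exact IsIntegral.mul (isIntegral_natCast D) (h1 n i)

end Pool.Agent.Helper11.TS
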