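import Pool.Agent.Helper11.TS.Defs

/-!
# TS, module T2h: approximate Hensel lemma in the group algebra
-/

set_option autoImplicit false

namespace Pool.Agent.Helper11.TS

open Polynomial Filter

variable {κ G : Type} [Field κ] [AddCommGroup G]

lemma BdP.mul {β : G →+ ℝ} {s t : ℝ} {p r : (Alg κ G)[X]} (h : BdP β s p) (h' : BdP β t r) :
    BdP β (s + t) (p * r) := by
  intro i
  rw [Polynomial.coeff_mul]
  exact Bd.sum _ _ fun x _ => (h x.1).mul (h' x.2)

private lemma bdp_add {β : G →+ ℝ} {t : ℝ} {p r : (Alg κ G)[X]} (h : BdP β t p)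
    (h' : BdP β t r) : BdP β t (p + r) := by
  intro i
  rw [Polynomial.coeff_add]
  exact (h i).add (h' i)

private lemma bdp_sub {β : G →+ ℝ} {t : ℝ} {p r : (Alg κ G)[X]} (h : BdP β t p)
    (h' : BdP β t r) : BdP β t (p - r) := by
  intro i
  rw [Polynomial.coeff_sub]
  exact (h i).sub (h' i)

private lemma bdp_neg {β : G →+ ℝ} {t : ℝ} {p : (Alg κ G)[X]} (h : BdP β t p) :
    BdP β t (-p) := by
  intro i
  rw [Polynomial.coeff_neg]
  exact (h i).neg

private lemma bdp_mono {β : G →+ ℝ} {s t : ℝ} {p : (Alg κ G)[X]} (h : BdP β s p)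
    (hst : s ≤ t) : BdP β t p := fun i => (h i).mono_le hst

private lemma bdp_sum {β : G →+ ℝ} {t : ℝ} {ι : Type} (s : Finset ι) (f : ι → (Alg κ G)[X])
    (h : ∀ i ∈ s, BdP β t (f i)) : BdP β t (∑ i ∈ s, f i) := by
  intro j
  rw [Polynomial.finsetSum_coeff]
  exact Bd.sum _ _ fun i hi => h i hi j

/-- Constants. -/
private noncomputable def cst : κ →+* Alg κ G := AddMonoidAlgebra.singleZeroRingHom

private lemma cst_apply (c : κ) : (cst c : Alg κ G) = mono 0 c := rfl

private lemma bd_cst (β : G →+ ℝ) (c : κ) : Bd β 0 (cst c : Alg κ G) := by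
  rw [cst_apply]
  apply Bd.single
  rw [map_zero]

private lemma bdp_cst (β : G →+ ℝ) (r : κ[X]) : BdP β 0 (r.map (cst : κ →+* Alg κ G)) := by
  intro i
  rw [Polynomial.coeff_map]
  exact bd_cst β _

private lemma bdp_mod {β : G →+ ℝ} {s : ℝ} {p : (Alg κ G)[X]} (h : BdP β s p) (f0 : κ[X])
    (hf : f0.Monic) : BdP β s (p %ₘ f0.map (cst : κ →+* Alg κ G)) := by
  have hm : (f0.map (cst : κ →+* Alg κ G)).Monic := hf.map _
  have h1 : p %ₘ f0.map (cst : κ →+* Alg κ G) =
      ∑ i ∈ Finset.range (p.natDegree + 1),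
        C (p.coeff i) * ((X ^ i %ₘ f0).map (cst : κ →+* Alg κ G)) := by
    have h2 := congrArg (Polynomial.modByMonicHom (f0.map (cst : κ →+* Alg κ G)))
      (p.as_sum_range_C_mul_X_pow)
    rw [map_sum] at h2
    have h3 : ∀ r : (Alg κ G)[X], Polynomial.modByMonicHom (f0.map (cst : κ →+* Alg κ G)) r =
      r %ₘ f0.map (cst : κ →+* Alg κ G) := fun r => rfl
    rw [h3] at h2
    rw [h2]
    refine Finset.sum_congr rfl fun i _ => ?_
    rw [h3, ← Polynomial.smul_eq_C_mul, Polynomial.smul_modByMonic, Polynomial.smul_eq_C_mul,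
      Polynomial.map_modByMonic _ hf, Polynomial.map_pow, Polynomial.map_X]
  rw [h1]
  refine bdp_sum _ _ fun i _ => ?_
  have h4 : BdP β s (C (p.coeff i)) := by
    intro j
    rw [Polynomial.coeff_C]
    split_ifs
    · exact h i
    · exact Bd.zero β s
  have h5 := h4.mul (bdp_cst (G := G) β (X ^ i %ₘ f0))
  rwa [add_zero] at h5

private lemma bezout_step {f g a b E : (Alg κ G)[X]} (hf : f.Monic) (hg : g.Monic)
    (hab : a * f + b * g = 1) (hE : E.degree < (f * g).degree) :
    (E * b) %ₘ f * g + (E * a) %ₘ g * f = E := by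
  have h1 := Polynomial.modByMonic_add_div (E * b) f
  have h2 := Polynomial.modByMonic_add_div (E * a) g
  have h3 : E - ((E * b) %ₘ f * g + (E * a) %ₘ g * f) =
      f * g * ((E * b) /ₘ f + (E * a) /ₘ g) := by
    linear_combination (-g) * h1 + (-f) * h2 + (-E) * hab
  have hdx : ((E * b) %ₘ f * g).degree < (f * g).degree := by
    rw [hg.degree_mul, hg.degree_mul]
    exact WithBot.add_lt_add_right (by rw [Ne, Polynomial.degree_eq_bot]; exact hg.ne_zero)
      (Polynomial.degree_modByMonic_lt _ hf)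
  have hdy : ((E * a) %ₘ g * f).degree < (f * g).degree := by
    rw [mul_comm f g, hf.degree_mul, hf.degree_mul]
    exact WithBot.add_lt_add_right (by rw [Ne, Polynomial.degree_eq_bot]; exact hf.ne_zero)
      (Polynomial.degree_modByMonic_lt _ hg)
  have h4 : (E - ((E * b) %ₘ f * g + (E * a) %ₘ g * f)).degree < (f * g).degree :=
    (Polynomial.degree_sub_le _ _).trans_lt
      (max_lt hE ((Polynomial.degree_add_le _ _).trans_lt (max_lt hdx hdy)))
  by_contra hne
  have h5 : E - ((E * b) %ₘ f * g + (E * a) %ₘ g * f) ≠ 0 := by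
    intro h6
    exact hne (sub_eq_zero.1 h6).symm
  exact (hf.mul hg).not_dvd_of_degree_lt h5 h4 ⟨_, h3⟩

private lemma exists_gap (β : G →+ ℝ) (hβ : Function.Injective β) (D : (Alg κ G)[X])
    (hD : BdP β 0 D) (h0 : ∀ i, (D.coeff i).coeff 0 = 0) :
    ∃ δ : ℝ, 0 < δ ∧ BdP β (-δ) D := by
  classical
  have key : ∀ S : Finset G, (∀ ν ∈ S, β ν < 0) → ∃ δ : ℝ, 0 < δ ∧ ∀ ν ∈ S, β ν ≤ -δ := by
    intro S
    induction S using Finset.induction_on with
    | empty => intro _; exact ⟨1, one_pos, fun ν hν => absurd hν (Finset.notMem_empty ν)⟩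
    | insert a S ha ih =>
      intro h
      obtain ⟨δ, hδ, h1⟩ := ih fun ν hν => h ν (Finset.mem_insert_of_mem hν)
      have h2 := h a (Finset.mem_insert_self a S)
      refine ⟨min δ (-β a), lt_min hδ (by linarith), fun ν hν => ?_⟩
      rcases Finset.mem_insert.1 hν with rfl | h3
      · have := min_le_right δ (-β ν); linarith
      · have := min_le_left δ (-β a); have := h1 ν h3; linarith
  obtain ⟨δ, hδ, h1⟩ := key (D.support.biUnion fun i => spt (D.coeff i)) (by
    intro ν hν
    obtain ⟨i, _, hi⟩ := Finset.mem_biUnion.1 hν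
    have h2 := hD i ν hi
    refine lt_of_le_of_ne h2 fun h3 => ?_
    have h4 : ν = 0 := hβ (by rw [h3, map_zero])
    rw [h4] at hi
    exact (Finsupp.mem_support_iff.1 hi) (h0 i))
  refine ⟨δ, hδ, fun i ν hν => ?_⟩
  apply h1
  rw [Finset.mem_biUnion]
  refine ⟨i, ?_, hν⟩
  rw [Polynomial.mem_support_iff]
  intro h5
  rw [h5] at hν
  simp [spt] at hν

/-- If the constant terms of the coefficients of `p` (a monic polynomial with coefficients of size
at most `1`) form a product of two coprime monic polynomials, then `p` is, up to any given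
precision, a product of two monic polynomials of the same degrees. -/
theorem hensel (β : G →+ ℝ) (hβ : Function.Injective β) (p : (Alg κ G)[X]) (hp : p.Monic)
    (hp0 : BdP β 0 p) (f0 g0 : κ[X]) (hf : f0.Monic) (hg : g0.Monic) (hfg : IsCoprime f0 g0)
    (h : ∀ i, (p.coeff i).coeff 0 = (f0 * g0).coeff i) (M : ℝ) :
    ∃ f g : (Alg κ G)[X], f.Monic ∧ g.Monic ∧ f.natDegree = f0.natDegree ∧
      g.natDegree = g0.natDegree ∧ BdP β 0 f ∧ BdP β 0 g ∧ BdP β (-M) (p - f * g) := by
  classical
  obtain ⟨a, b, hab⟩ := hfg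
  set F : (Alg κ G)[X] := f0.map (cst : κ →+* Alg κ G) with hF
  set Γ : (Alg κ G)[X] := g0.map (cst : κ →+* Alg κ G) with hΓ
  have hFm : F.Monic := hf.map _
  have hΓm : Γ.Monic := hg.map _
  have hFd : F.natDegree = f0.natDegree := hf.natDegree_map _
  have hΓd : Γ.natDegree = g0.natDegree := hg.natDegree_map _
  have hab' : a.map (cst : κ →+* Alg κ G) * F + b.map (cst : κ →+* Alg κ G) * Γ = 1 := by
    rw [hF, hΓ, ← Polynomial.map_mul, ← Polynomial.map_mul, ← Polynomial.map_add, hab,
      Polynomial.map_one]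
  have hcst0 : ∀ c : κ, (cst c : Alg κ G).coeff 0 = c := by
    intro c
    rw [cst_apply]
    simp [mono]
  -- degree of `p`
  have hpd : p.natDegree = f0.natDegree + g0.natDegree := by
    rw [← hf.natDegree_mul hg]
    apply le_antisymm
    · apply Polynomial.le_natDegree_of_ne_zero
      rw [← h, hp.coeff_natDegree]
      have := hcst0 1
      rw [map_one] at this
      rw [this]
      exact one_ne_zero
    · apply Polynomial.le_natDegree_of_ne_zero
      intro h1
      have h2 := h (f0 * g0).natDegree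
      rw [h1, (hf.mul hg).coeff_natDegree] at h2
      simp at h2
  -- the gap
  obtain ⟨δ, hδ, hgap⟩ := exists_gap β hβ (p - F * Γ)
    (bdp_sub hp0 (by
      have := (bdp_cst (G := G) β f0).mul (bdp_cst (G := G) β g0)
      rwa [add_zero] at this)) (by
      intro i
      rw [Polynomial.coeff_sub, AddMonoidAlgebra.coeff_sub, Finsupp.sub_apply, h i, hF, hΓ,
        ← Polynomial.map_mul, Polynomial.coeff_map, hcst0, sub_self])
  have hind : ∀ k : ℕ, ∃ f g : (Alg κ G)[X], f.Monic ∧ g.Monic ∧ f.natDegree = f0.natDegree ∧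
      g.natDegree = g0.natDegree ∧ BdP β 0 f ∧ BdP β 0 g ∧ BdP β (-δ) (f - F) ∧
      BdP β (-δ) (g - Γ) ∧ BdP β (-((k + 1 : ℝ) * δ)) (p - f * g) := by
    intro k
    induction k with
    | zero =>
      refine ⟨F, Γ, hFm, hΓm, hFd, hΓd, bdp_cst β f0, bdp_cst β g0, ?_, ?_, ?_⟩
      · rw [sub_self]; intro i; rw [Polynomial.coeff_zero]; exact Bd.zero β _
      · rw [sub_self]; intro i; rw [Polynomial.coeff_zero]; exact Bd.zero β _
      · simpa using hgap
    | succ k ih =>
      obtain ⟨f, g, hfm, hgm, hfd, hgd, hf1, hg1, hf2, hg2, hE⟩ := ih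
      have hEd : (p - f * g).degree < (F * Γ).degree := by
        have e1 : (f * g).natDegree = p.natDegree := by
          rw [hfm.natDegree_mul hgm, hfd, hgd, hpd]
        have e2 : (F * Γ).natDegree = p.natDegree := by
          rw [hFm.natDegree_mul hΓm, hFd, hΓd, hpd]
        have e3 : p.degree = (f * g).degree := by
          rw [Polynomial.degree_eq_natDegree hp.ne_zero,
            Polynomial.degree_eq_natDegree (hfm.mul hgm).ne_zero, e1]
        have e4 : (F * Γ).degree = p.degree := by
          rw [Polynomial.degree_eq_natDegree hp.ne_zero,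
            Polynomial.degree_eq_natDegree (hFm.mul hΓm).ne_zero, e2]
        rw [e4]
        apply Polynomial.degree_sub_lt_left e3 hp.ne_zero
        rw [hp.leadingCoeff, (hfm.mul hgm).leadingCoeff]
      have hbz := bezout_step hFm hΓm hab' hEd
      set E := p - f * g with hEdef
      set x := (E * b.map (cst : κ →+* Alg κ G)) %ₘ F with hx
      set y := (E * a.map (cst : κ →+* Alg κ G)) %ₘ Γ with hy
      have hxb : BdP β (-((k + 1 : ℝ) * δ)) x := by
        have := hE.mul (bdp_cst (G := G) β b)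
        rw [add_zero] at this
        exact bdp_mod this f0 hf
      have hyb : BdP β (-((k + 1 : ℝ) * δ)) y := by
        have := hE.mul (bdp_cst (G := G) β a)
        rw [add_zero] at this
        exact bdp_mod this g0 hg
      have hxd : x.degree < f.degree := by
        have := Polynomial.degree_modByMonic_lt (E * b.map (cst : κ →+* Alg κ G)) hFm
        rw [Polynomial.degree_eq_natDegree hFm.ne_zero, hFd] at this
        rwa [Polynomial.degree_eq_natDegree hfm.ne_zero, hfd]
      have hyd : y.degree < g.degree := by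
        have := Polynomial.degree_modByMonic_lt (E * a.map (cst : κ →+* Alg κ G)) hΓm
        rw [Polynomial.degree_eq_natDegree hΓm.ne_zero, hΓd] at this
        rwa [Polynomial.degree_eq_natDegree hgm.ne_zero, hgd]
      have hk : (0 : ℝ) ≤ k := Nat.cast_nonneg k
      have hkd : 0 ≤ (k : ℝ) * δ := mul_nonneg hk hδ.le
      refine ⟨f + x, g + y, hfm.add_of_left hxd, hgm.add_of_left hyd, ?_, ?_, ?_, ?_, ?_, ?_, ?_⟩
      · rw [← hfd]; exact Polynomial.natDegree_add_eq_left_of_degree_lt hxd
      · rw [← hgd]; exact Polynomial.natDegree_add_eq_left_of_degree_lt hyd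
      · exact bdp_add hf1 (bdp_mono hxb (by nlinarith))
      · exact bdp_add hg1 (bdp_mono hyb (by nlinarith))
      · rw [add_sub_right_comm]
        exact bdp_add hf2 (bdp_mono hxb (by nlinarith))
      · rw [add_sub_right_comm]
        exact bdp_add hg2 (bdp_mono hyb (by nlinarith))
      · have h6 : p - (f + x) * (g + y) = -(x * (g - Γ)) - y * (f - F) - x * y := by
          have h7 : p - f * g = x * Γ + y * F := hbz.symm
          linear_combination h7
        rw [h6]
        refine bdp_sub (bdp_sub (bdp_neg ?_) ?_) ?_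
        · exact bdp_mono (hxb.mul hg2) (by push_cast; nlinarith)
        · exact bdp_mono (hyb.mul hf2) (by push_cast; nlinarith)
        · exact bdp_mono (hxb.mul hyb) (by push_cast; nlinarith)
  obtain ⟨k, hk⟩ := exists_nat_ge (M / δ)
  obtain ⟨f, g, hfm, hgm, hfd, hgd, hf1, hg1, _, _, hE⟩ := hind k
  refine ⟨f, g, hfm, hgm, hfd, hgd, hf1, hg1, bdp_mono hE ?_⟩
  rw [div_le_iff₀ hδ] at hk
  nlinarith

end Pool.Agent.Helper11.TS
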