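import Pool.Agent.Helper11.TS.Defs

/-!
# TS, module T5a: the denominators in the tower are bounded
-/

set_option autoImplicit false

namespace Pool.Agent.Helper11.TS

open Polynomial Filter

section SI

variable {κ G : Type} [Field κ] [AddCommGroup G]

private lemma coeff_mono_int {ν : G} {c : κ} (h : IsIntegral ℤ c) (μ : G) :
    IsIntegral ℤ ((mono ν c : Alg κ G).coeff μ) := by
  classical
  have h1 : (mono ν c : Alg κ G).coeff μ = if ν = μ then c else 0 :=
    Finsupp.single_apply
  rw [h1]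
  split_ifs
  · exact h
  · exact isIntegral_zero

/-- The elements with integral coefficients. -/
private def SI (κ G : Type) [Field κ] [AddCommGroup G] : Subring (Alg κ G) where
  carrier := {E | ∀ ν, IsIntegral ℤ (E.coeff ν)}
  zero_mem' := fun ν => by
    simpa using (isIntegral_zero : IsIntegral ℤ (0 : κ))
  one_mem' := fun ν => coeff_mono_int (ν := (0 : G)) (c := (1 : κ)) isIntegral_one ν
  add_mem' := fun {a b} ha hb ν => by
    rw [AddMonoidAlgebra.coeff_add, Finsupp.add_apply]
    exact (ha ν).add (hb ν)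
  neg_mem' := fun {a} ha ν => by
    rw [AddMonoidAlgebra.coeff_neg, Finsupp.neg_apply]
    exact (ha ν).neg
  mul_mem' := fun {a b} ha hb ν => by
    classical
    rw [AddMonoidAlgebra.coeff_mul]
    unfold Finsupp.sum
    refine IsIntegral.sum _ fun i _ => IsIntegral.sum _ fun j _ => ?_
    change IsIntegral ℤ (if i + j = ν then a.coeff i * b.coeff j else 0)
    split_ifs
    · exact (ha i).mul (hb j)
    · exact isIntegral_zero

private lemma mono_mem {ν : G} {c : κ} (h : IsIntegral ℤ c) : (mono ν c : Alg κ G) ∈ SI κ G :=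
  coeff_mono_int h

private lemma smul_mem {x : κ} (hx : IsIntegral ℤ x) {E : Alg κ G} (hE : E ∈ SI κ G) :
    x • E ∈ SI κ G := fun ν => by
  rw [AddMonoidAlgebra.coeff_smul_apply, smul_eq_mul]
  exact hx.mul (hE ν)

private lemma theta_mem (q : ℕ) {E : Alg κ G} (hE : E ∈ SI κ G) : theta q E ∈ SI κ G := by
  have h1 : E = ∑ ν ∈ spt E, (mono ν (E.coeff ν) : Alg κ G) :=
    (AddMonoidAlgebra.sum_coeff_single E).symm
  rw [h1, map_sum]
  refine sum_mem fun ν _ => ?_
  rw [theta_mono]
  exact mono_mem (hE ν)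

private lemma theta_smul (q : ℕ) (x : κ) (E : Alg κ G) : theta q (x • E) = x • theta q E := by
  have h1 : ∀ F : Alg κ G, x • F = mono 0 x * F := by
    intro F
    ext μ
    rw [AddMonoidAlgebra.coeff_smul_apply, smul_eq_mul]
    exact (AddMonoidAlgebra.coeff_single_zero_mul F x μ).symm
  rw [h1, h1, map_mul, theta_mono, smul_zero]

private lemma lead_pow (β : G →+ ℝ) (hβ : Function.Injective β) (E : Alg κ G) (ν0 : G)
    (hmax : Bd β (β ν0) E) (j : ℕ) :
    (E ^ j).coeff (j • ν0) = (E.coeff ν0) ^ j ∧ Bd β (β (j • ν0)) (E ^ j) := by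
  induction j with
  | zero =>
    rw [pow_zero, zero_smul, pow_zero]
    refine ⟨AddMonoidAlgebra.coeff_one_zero, ?_⟩
    exact Bd.single β le_rfl (1 : κ)
  | succ j ih =>
    have hu : UniqueAdd (E ^ j).coeff.support E.coeff.support (j • ν0) ν0 := by
      intro a b ha hb hab
      have h1 := ih.2 a ha
      have h2 := hmax b hb
      have h3 : β a + β b = β (j • ν0) + β ν0 := by rw [← map_add, ← map_add, hab]
      exact ⟨hβ (by linarith), hβ (by linarith)⟩
    rw [pow_succ, succ_nsmul]
    refine ⟨?_, ?_⟩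
    · rw [AddMonoidAlgebra.coeff_mul_add_of_uniqueAdd hu, ih.1, pow_succ]
    · rw [map_add]
      exact ih.2.mul hmax

end SI

variable {κ G : Type} [Field κ] [CharZero κ] [Algebra.IsAlgebraic ℚ κ] [AddCommGroup G]

private lemma alg_int (c : κ) : IsAlgebraic ℤ c :=
  (IsFractionRing.isAlgebraic_iff ℤ ℚ κ).2 (Algebra.IsAlgebraic.isAlgebraic c)

private lemma int_of_bdd (c : κ) (D : ℕ) (hD : 0 < D)
    (h : ∀ j : ℕ, IsIntegral ℤ ((D : κ) * c ^ j)) : IsIntegral ℤ c := by
  have hDκ : (D : κ) ≠ 0 := by exact_mod_cast hD.ne'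
  let K : IntermediateField ℚ κ := IntermediateField.adjoin ℚ {c}
  have hcK : c ∈ K := IntermediateField.mem_adjoin_simple_self ℚ c
  have hfin : FiniteDimensional ℚ K := IntermediateField.adjoin.finiteDimensional
    (Algebra.IsAlgebraic.isAlgebraic (R := ℚ) c).isIntegral
  have hnf : NumberField K := ⟨⟩
  let g : NumberField.RingOfIntegers K →ₗ[ℤ] κ :=
    ((AddMonoidHom.mulLeft (D : κ)⁻¹).comp (((algebraMap K κ).comp
      (algebraMap (NumberField.RingOfIntegers K) K) :
        NumberField.RingOfIntegers K →+* κ) : NumberField.RingOfIntegers K →+ κ)).toIntLinearMap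
  have hN : IsNoetherian ℤ (LinearMap.range g) := inferInstance
  have hle : Subalgebra.toSubmodule (Algebra.adjoin ℤ {c}) ≤ LinearMap.range g := by
    intro x hx
    have hx' : x ∈ Algebra.adjoin ℤ {c} := hx
    rw [Algebra.adjoin_singleton_eq_range_aeval] at hx'
    obtain ⟨p, rfl⟩ := hx'
    have hmem : (D : κ) * aeval c p ∈ K := by
      apply K.mul_mem (natCast_mem K D)
      rw [aeval_eq_sum_range]
      refine sum_mem fun i _ => ?_
      rw [zsmul_eq_mul]
      exact K.mul_mem (intCast_mem K _) (pow_mem hcK i)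
    have hint : IsIntegral ℤ ((D : κ) * aeval c p) := by
      rw [aeval_eq_sum_range, Finset.mul_sum]
      refine IsIntegral.sum _ fun i _ => ?_
      rw [mul_smul_comm]
      exact (h i).smul _
    have hint' : IsIntegral ℤ (⟨(D : κ) * aeval c p, hmem⟩ : K) := by
      have h1 : Function.Injective (algebraMap K κ) := (algebraMap K κ).injective
      exact (isIntegral_algebraMap_iff h1).1 hint
    refine ⟨⟨⟨(D : κ) * aeval c p, hmem⟩, hint'⟩, ?_⟩
    change (D : κ)⁻¹ * ((D : κ) * aeval c p) = aeval c p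
    rw [← mul_assoc, inv_mul_cancel₀ hDκ, one_mul]
  exact isIntegral_of_submodule_noetherian (Algebra.adjoin ℤ {c}) (isNoetherian_of_le hle) c
    (Algebra.self_mem_adjoin_singleton ℤ c)

private lemma exists_den_one (c : κ) : ∃ D : ℕ, 0 < D ∧ IsIntegral ℤ ((D : κ) * c) := by
  obtain ⟨y, hy, hyc⟩ := (alg_int c).exists_integral_multiple
  refine ⟨y.natAbs, Int.natAbs_pos.2 hy, ?_⟩
  rw [zsmul_eq_mul] at hyc
  rcases Int.natAbs_eq y with h | h
  · rw [h] at hyc
    simpa using hyc
  · rw [h] at hyc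
    have := hyc.neg
    simpa using this

private lemma exists_den_fin {ι : Type} (s : Finset ι) (f : ι → κ) :
    ∃ D : ℕ, 0 < D ∧ ∀ i ∈ s, IsIntegral ℤ ((D : κ) * f i) := by
  classical
  induction s using Finset.induction_on with
  | empty => exact ⟨1, one_pos, by simp⟩
  | insert a s ha ih =>
    obtain ⟨D, hD, h⟩ := ih
    obtain ⟨D', hD', h'⟩ := exists_den_one (f a)
    refine ⟨D * D', Nat.mul_pos hD hD', ?_⟩
    intro i hi
    rw [Nat.cast_mul]
    rcases Finset.mem_insert.1 hi with rfl | hi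
    · rw [mul_assoc]
      exact (isIntegral_natCast (R := ℤ) D).mul h'
    · rw [mul_comm (D : κ), mul_assoc]
      exact (isIntegral_natCast (R := ℤ) D').mul (h i hi)

private lemma exists_den (F : Alg κ G) : ∃ D : ℕ, 0 < D ∧ (D : κ) • F ∈ SI κ G := by
  obtain ⟨D, hD, h⟩ := exists_den_fin (spt F) (fun ν => F.coeff ν)
  refine ⟨D, hD, fun ν => ?_⟩
  rw [AddMonoidAlgebra.coeff_smul_apply, smul_eq_mul]
  by_cases hν : ν ∈ spt F
  · exact h ν hν
  · have h1 : F.coeff ν = 0 := Finsupp.notMem_support_iff.1 hν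
    rw [h1, mul_zero]
    exact isIntegral_zero

private lemma exists_den_list (E : Alg κ G) (n : ℕ) :
    ∃ D : ℕ, 0 < D ∧ ∀ i < n, (D : κ) • E ^ i ∈ SI κ G := by
  induction n with
  | zero => exact ⟨1, one_pos, by simp⟩
  | succ n ih =>
    obtain ⟨D, hD, h⟩ := ih
    obtain ⟨D', hD', h'⟩ := exists_den (E ^ n)
    refine ⟨D * D', Nat.mul_pos hD hD', ?_⟩
    intro i hi
    rw [Nat.cast_mul]
    rcases Nat.lt_succ_iff_lt_or_eq.1 hi with hi | rfl
    · rw [mul_comm (D : κ), mul_smul]
      exact smul_mem (isIntegral_natCast (R := ℤ) D') (h i hi)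
    · rw [mul_smul]
      exact smul_mem (isIntegral_natCast (R := ℤ) D) h'

private lemma lead_int (β : G →+ ℝ) (hβ : Function.Injective β) (E : Alg κ G)
    (hE : IsIntegral (SI κ G) E) (ν0 : G) (hmax : Bd β (β ν0) E) :
    IsIntegral ℤ (E.coeff ν0) := by
  obtain ⟨p, hp, hpe⟩ := hE
  obtain ⟨D, hD, hDi⟩ := exists_den_list E p.natDegree
  have heq : E ^ p.natDegree = -∑ i ∈ Finset.range p.natDegree, (p.coeff i : Alg κ G) * E ^ i := by
    rw [eval₂_eq_sum_range, Finset.sum_range_succ, hp.coeff_natDegree, map_one, one_mul] at hpe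
    exact eq_neg_of_add_eq_zero_right hpe
  have hall : ∀ j : ℕ, (D : κ) • E ^ j ∈ SI κ G := by
    intro j
    induction j using Nat.strong_induction_on with
    | _ j ih =>
      rcases Nat.lt_or_ge j p.natDegree with hj | hj
      · exact hDi j hj
      · obtain ⟨k, rfl⟩ := Nat.exists_eq_add_of_le hj
        have h1 : (D : κ) • E ^ (p.natDegree + k) =
            -∑ i ∈ Finset.range p.natDegree, (p.coeff i : Alg κ G) * ((D : κ) • E ^ (i + k)) := by
          rw [pow_add, heq, neg_mul, smul_neg, Finset.sum_mul, Finset.smul_sum]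
          congr 1
          refine Finset.sum_congr rfl fun i _ => ?_
          rw [mul_assoc, ← pow_add, mul_smul_comm]
        rw [h1]
        refine neg_mem (sum_mem fun i hi => ?_)
        rw [Finset.mem_range] at hi
        exact (SI κ G).mul_mem (p.coeff i).2 (ih (i + k) (by omega))
  refine int_of_bdd _ D hD fun j => ?_
  have h1 := hall j (j • ν0)
  rw [AddMonoidAlgebra.coeff_smul_apply, smul_eq_mul, (lead_pow β hβ E ν0 hmax j).1] at h1
  exact h1

private lemma closed (β : G →+ ℝ) (hβ : Function.Injective β) (m : ℕ) :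
    ∀ E : Alg κ G, (spt E).card ≤ m → IsIntegral (SI κ G) E → E ∈ SI κ G := by
  classical
  induction m with
  | zero =>
    intro E hm _
    have h1 : spt E = ∅ := Finset.card_eq_zero.1 (Nat.le_zero.1 hm)
    have h2 : E = 0 := by
      rw [← AddMonoidAlgebra.coeff_eq_zero]
      exact Finsupp.support_eq_empty.1 h1
    rw [h2]
    exact zero_mem _
  | succ m ih =>
    intro E hm hE
    rcases (spt E).eq_empty_or_nonempty with h1 | h1
    · exact ih E (by rw [h1]; simp) hE
    · obtain ⟨ν0, hν0, hmax⟩ := (spt E).exists_max_image β h1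
      have hc : IsIntegral ℤ (E.coeff ν0) := lead_int β hβ E hE ν0 hmax
      have hmono : (mono ν0 (E.coeff ν0) : Alg κ G) ∈ SI κ G := mono_mem hc
      have h2 : IsIntegral (SI κ G) (mono ν0 (E.coeff ν0) : Alg κ G) :=
        isIntegral_algebraMap (R := SI κ G) (A := Alg κ G) (x := ⟨_, hmono⟩)
      have h3 : E - mono ν0 (E.coeff ν0) ∈ SI κ G := by
        refine ih _ ?_ (hE.sub h2)
        have h4 : spt (E - mono ν0 (E.coeff ν0)) ⊆ (spt E).erase ν0 := by
          intro μ hμ
          rw [Finsupp.mem_support_iff] at hμ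
          have h5 : (E - mono ν0 (E.coeff ν0)).coeff μ =
              E.coeff μ - if ν0 = μ then E.coeff ν0 else 0 := by
            rw [AddMonoidAlgebra.coeff_sub, Finsupp.sub_apply]
            congr 1
            exact Finsupp.single_apply
          rw [h5] at hμ
          rw [Finset.mem_erase, Finsupp.mem_support_iff]
          by_cases h6 : ν0 = μ
          · rw [if_pos h6, h6, sub_self] at hμ
            exact absurd rfl hμ
          · rw [if_neg h6, sub_zero] at hμ
            exact ⟨fun h => h6 h.symm, hμ⟩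
        have h7 := Finset.card_le_card h4
        rw [Finset.card_erase_of_mem hν0] at h7
        omega
      have h8 := add_mem h3 hmono
      rwa [sub_add_cancel] at h8

/-- The group algebra over the ring of algebraic integers is integrally closed. -/
theorem coeff_integral (β : G →+ ℝ) (hβ : Function.Injective β) (E : Alg κ G) (n : ℕ) (b : Fin n → Alg κ G)
    (hb : ∀ i ν, IsIntegral ℤ ((b i).coeff ν)) (h : E ^ n = ∑ i : Fin n, b i * E ^ (i : ℕ))
    (ν : G) : IsIntegral ℤ (E.coeff ν) := by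
  have hE : IsIntegral (SI κ G) E := by
    cases n with
    | zero =>
      exfalso
      rw [pow_zero, Finset.univ_eq_empty, Finset.sum_empty] at h
      exact one_ne_zero h
    | succ n =>
      refine ⟨X ^ (n + 1) - ∑ i : Fin (n + 1), C (⟨b i, hb i⟩ : SI κ G) * X ^ (i : ℕ), ?_, ?_⟩
      · refine monic_X_pow_sub ?_
        refine (degree_sum_le _ (fun i : Fin (n + 1) =>
          C (⟨b i, hb i⟩ : SI κ G) * X ^ (i : ℕ))).trans_lt
          ((Finset.sup_lt_iff (WithBot.bot_lt_coe _)).2 fun i _ => ?_)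
        refine (degree_C_mul_X_pow_le _ _).trans_lt ?_
        exact_mod_cast i.2
      · rw [eval₂_sub, eval₂_pow, eval₂_X, eval₂_finsetSum, h, sub_eq_zero]
        refine Finset.sum_congr rfl fun i _ => ?_
        rw [eval₂_mul, eval₂_C, eval₂_pow, eval₂_X]
        rfl
  exact closed β hβ _ E le_rfl hE ν

theorem tower_int (β : G →+ ℝ) (hβ : Function.Injective β) {q : ℕ} (hq : 2 ≤ q) {a : κ} {P : (Alg κ G)[X]} (hP : Pol q a P)
    (Q : ℕ → Alg κ G) (h : ∀ k, P.eval (Q (k + 1)) = theta q (Q k)) :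
    ∃ D : ℕ, 0 < D ∧ ∀ k ν, IsIntegral ℤ ((D : κ) * (Q k).coeff ν) := by
  classical
  have ha : a ≠ 0 := hP.ne
  -- the common denominator
  obtain ⟨D1, hD1, h1⟩ := exists_den (Q 0)
  obtain ⟨D2, hD2, h2⟩ := exists_den_one (a⁻¹)
  have h3 : ∀ l : ℕ, ∃ D : ℕ, 0 < D ∧ (D : κ) • (a⁻¹ • P.coeff l) ∈ SI κ G :=
    fun l => exists_den _
  choose D3 hD3 h3 using h3
  obtain ⟨D, hD⟩ : ∃ D : ℕ, D = D1 * D2 * ∏ l ∈ Finset.range q, D3 l := ⟨_, rfl⟩
  have hDpos : 0 < D := by
    rw [hD]
    exact Nat.mul_pos (Nat.mul_pos hD1 hD2) (Finset.prod_pos fun l _ => hD3 l)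
  have hDi : ∀ n : ℕ, IsIntegral ℤ ((n : κ)) := fun n => isIntegral_natCast (R := ℤ) n
  have e1 : ∃ n : ℕ, D = n * D1 := ⟨D2 * ∏ l ∈ Finset.range q, D3 l, by rw [hD]; ring⟩
  have e2 : ∃ n : ℕ, D = n * D2 := ⟨D1 * ∏ l ∈ Finset.range q, D3 l, by rw [hD]; ring⟩
  have e3 : ∀ l < q, ∃ n : ℕ, D = n * D3 l := by
    intro l hl
    obtain ⟨c, hc⟩ := Finset.dvd_prod_of_mem D3 (Finset.mem_range.2 hl)
    exact ⟨D1 * D2 * c, by rw [hD, hc]; ring⟩
  have k1 : (D : κ) • Q 0 ∈ SI κ G := by
    obtain ⟨n, hn⟩ := e1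
    rw [hn, Nat.cast_mul, mul_smul]
    exact smul_mem (hDi n) h1
  have k2 : IsIntegral ℤ ((D : κ) * a⁻¹) := by
    obtain ⟨n, hn⟩ := e2
    rw [hn, Nat.cast_mul, mul_assoc]
    exact (hDi n).mul h2
  have k3 : ∀ l < q, (D : κ) • (a⁻¹ • P.coeff l) ∈ SI κ G := by
    intro l hl
    obtain ⟨n, hn⟩ := e3 l hl
    rw [hn, Nat.cast_mul, mul_smul]
    exact smul_mem (hDi n) (h3 l)
  have main : ∀ k, (D : κ) • Q k ∈ SI κ G := by
    intro k
    induction k with
    | zero => exact k1
    | succ k ih =>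
      obtain ⟨E, hE⟩ : ∃ E, E = (D : κ) • Q (k + 1) := ⟨_, rfl⟩
      rw [← hE]
      have hmono : ∀ F : Alg κ G, (mono 0 a : Alg κ G) * F = a • F := by
        intro F
        ext μ
        rw [AddMonoidAlgebra.coeff_smul_apply, smul_eq_mul]
        exact AddMonoidAlgebra.coeff_single_zero_mul F a μ
      have h4 := h k
      rw [eval_eq_sum_range, hP.deg, Finset.sum_range_succ, hP.lead, hmono] at h4
      -- multiply by `D ^ q / a`
      have h5 : E ^ q = ((D : κ) ^ q * a⁻¹) • theta q (Q k) -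
          ∑ l ∈ Finset.range q, ((D : κ) ^ (q - l) • (a⁻¹ • P.coeff l)) * E ^ l := by
        have h6 : E ^ q = ((D : κ) ^ q * a⁻¹) • (a • Q (k + 1) ^ q) := by
          rw [hE, _root_.smul_pow, smul_smul, mul_assoc, inv_mul_cancel₀ ha, mul_one]
        have h7 : a • Q (k + 1) ^ q = theta q (Q k) -
            ∑ l ∈ Finset.range q, P.coeff l * Q (k + 1) ^ l := by
          rw [← h4]
          abel
        rw [h6, h7, smul_sub, Finset.smul_sum]
        congr 1
        refine Finset.sum_congr rfl fun l hl => ?_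
        rw [Finset.mem_range] at hl
        rw [hE, _root_.smul_pow, smul_smul, smul_mul_smul_comm]
        congr 1
        have e : (D : κ) ^ q = (D : κ) ^ (q - l) * (D : κ) ^ l := by
          rw [← pow_add]
          congr 1
          omega
        rw [e]
        ring
      have hθ : ((D : κ) ^ q * a⁻¹) • theta q (Q k) ∈ SI κ G := by
        have e : ((D : κ) ^ q * a⁻¹) • theta q (Q k) =
            ((D : κ) ^ (q - 2) * ((D : κ) * a⁻¹)) • theta q ((D : κ) • Q k) := by
          rw [theta_smul, smul_smul]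
          congr 1
          obtain ⟨r, rfl⟩ := Nat.exists_eq_add_of_le hq
          rw [Nat.add_sub_cancel_left]
          ring
        rw [e]
        exact smul_mem (((hDi D).pow _).mul k2) (theta_mem q ih)
      have hcoef : ∀ l < q, (D : κ) ^ (q - l) • (a⁻¹ • P.coeff l) ∈ SI κ G := by
        intro l hl
        obtain ⟨r, hr⟩ : ∃ r, q - l = r + 1 := ⟨q - l - 1, by omega⟩
        rw [hr, pow_succ, mul_smul]
        exact smul_mem ((hDi D).pow _) (k3 l hl)
      have h8 : E ^ q = ∑ i : Fin q, ((if (i : ℕ) = 0 then ((D : κ) ^ q * a⁻¹) • theta q (Q k)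
          else 0) - (D : κ) ^ (q - (i : ℕ)) • (a⁻¹ • P.coeff i)) * E ^ (i : ℕ) := by
        rw [h5, ← Fin.sum_univ_eq_sum_range (fun l => ((D : κ) ^ (q - l) • (a⁻¹ • P.coeff l))
          * E ^ l) q]
        simp_rw [sub_mul]
        rw [Finset.sum_sub_distrib]
        congr 1
        rw [Finset.sum_eq_single (⟨0, by omega⟩ : Fin q)]
        · simp
        · intro i _ hi
          have : (i : ℕ) ≠ 0 := fun h => hi (Fin.ext h)
          rw [if_neg this, zero_mul]
        · intro hh
          exact absurd (Finset.mem_univ _) hh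
      refine coeff_integral β hβ E q _ ?_ h8
      intro i
      have h9 : ((if (i : ℕ) = 0 then ((D : κ) ^ q * a⁻¹) • theta q (Q k) else 0) -
          (D : κ) ^ (q - (i : ℕ)) • (a⁻¹ • P.coeff i)) ∈ SI κ G := by
        refine sub_mem ?_ (hcoef i i.2)
        split_ifs
        · exact hθ
        · exact zero_mem _
      exact h9
  refine ⟨D, hDpos, fun k ν => ?_⟩
  have := main k ν
  rwa [AddMonoidAlgebra.coeff_smul_apply, smul_eq_mul] at this

end Pool.Agent.Helper11.TS
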