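import Pool.Agent.Helper11.TS.Defs

/-!
# TS, module T10d: a place where a given number is not of absolute value one
-/

set_option autoImplicit false

namespace Pool.Agent.Helper11.TS

open Filter

/-- The absolute value `x ↦ ‖τ x‖`. -/
noncomputable def nrmComp {κ A : Type*} [Field κ] [NormedField A] (τ : κ →+* A) :
    AbsoluteValue κ ℝ where
  toFun x := ‖τ x‖
  map_mul' x y := by simp
  nonneg' x := norm_nonneg _
  eq_zero' x := by simp
  add_le' x y := by
    rw [map_add]
    exact norm_add_le _ _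

/-- An embedding of `ℚ(α)` extends to an algebraic extension. -/
lemma extend_hom {κ : Type} [Field κ] [CharZero κ] [Algebra.IsAlgebraic ℚ κ] (α : κ)
    {A : Type*} [Field A] [CharZero A] [IsAlgClosed A]
    (φ : IntermediateField.adjoin ℚ {α} →+* A) :
    ∃ τ : κ →+* A, τ α = φ (IntermediateField.AdjoinSimple.gen ℚ α) := by
  letI : Algebra (IntermediateField.adjoin ℚ {α}) A := φ.toAlgebra
  haveI : Algebra.IsAlgebraic (IntermediateField.adjoin ℚ {α}) κ :=
    Algebra.IsAlgebraic.tower_top (K := ℚ) _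
  let τ : κ →ₐ[IntermediateField.adjoin ℚ {α}] A := IsAlgClosed.lift
  refine ⟨τ.toRingHom, ?_⟩
  have h := τ.commutes (IntermediateField.AdjoinSimple.gen ℚ α)
  exact h

/-- Every root of the minimal polynomial is the image of `α`. -/
lemma exists_hom_root {κ : Type} [Field κ] [CharZero κ] [Algebra.IsAlgebraic ℚ κ] (α : κ)
    {A : Type*} [Field A] [CharZero A] [IsAlgClosed A] (z : A)
    (hz : Polynomial.aeval z (minpoly ℚ α) = 0) :
    ∃ τ : κ →+* A, τ α = z := by
  have hα : IsIntegral ℚ α := (Algebra.IsAlgebraic.isAlgebraic α).isIntegral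
  obtain ⟨τ, hτ⟩ := extend_hom (A := A) α
    ((IntermediateField.adjoinRootEquivAdjoin ℚ hα).symm.toAlgHom.toRingHom |> fun f =>
      ((AdjoinRoot.liftAlgHom (minpoly ℚ α) (Algebra.ofId ℚ A) z
        (by simpa [Polynomial.aeval_def] using hz)).toRingHom.comp f))
  refine ⟨τ, ?_⟩
  rw [hτ]
  simp

lemma coeff_norm_le_one {A : Type*} [NormedField A] [IsUltrametricDist A] (s : Multiset A)
    (hs : ∀ z ∈ s, ‖z‖ ≤ 1) (n : ℕ) :
    ‖((s.map fun z => (Polynomial.X - Polynomial.C z : Polynomial A)).prod).coeff n‖ ≤ 1 := by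
  induction s using Multiset.induction_on generalizing n with
  | empty =>
    simp only [Multiset.map_zero, Multiset.prod_zero, Polynomial.coeff_one]
    split_ifs <;> simp
  | cons a s ih =>
    have ih' := ih (fun z hz => hs z (Multiset.mem_cons_of_mem hz))
    rw [Multiset.map_cons, Multiset.prod_cons, sub_mul]
    rw [Polynomial.coeff_sub, Polynomial.coeff_C_mul]
    have h1 : ‖(Polynomial.X * (s.map fun z =>
        (Polynomial.X - Polynomial.C z : Polynomial A)).prod).coeff n‖ ≤ 1 := by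
      cases n with
      | zero => simp
      | succ m =>
        rw [Polynomial.coeff_X_mul]
        exact ih' m
    have h2 : ‖a * ((s.map fun z =>
        (Polynomial.X - Polynomial.C z : Polynomial A)).prod).coeff n‖ ≤ 1 := by
      rw [norm_mul]
      exact mul_le_one₀ (hs a (Multiset.mem_cons_self a s)) (norm_nonneg _) (ih' n)
    rw [sub_eq_add_neg]
    refine (IsUltrametricDist.norm_add_le_max _ _).trans (max_le h1 ?_)
    rw [norm_neg]
    exact h2

lemma isInt_of_padic (c : ℚ) (h : ∀ (p : ℕ) [Fact p.Prime], ‖(c : ℚ_[p])‖ ≤ 1) :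
    ∃ z : ℤ, (z : ℚ) = c := by
  by_contra hc
  have hd : c.den ≠ 1 := by
    intro h1
    exact hc ⟨c.num, Rat.coe_int_num_of_den_eq_one h1⟩
  obtain ⟨p, hp, hpd⟩ := Nat.exists_prime_and_dvd hd
  haveI : Fact p.Prime := ⟨hp⟩
  have h1 := h p
  have hnum : ¬ (p : ℤ) ∣ c.num := by
    intro hdiv
    have h2 : p ∣ c.num.natAbs := Int.natCast_dvd.mp hdiv
    have h3 := Nat.dvd_gcd h2 hpd
    rw [c.reduced] at h3
    exact hp.one_lt.ne' (Nat.dvd_one.mp h3)
  have h4 : ‖((c.num : ℤ) : ℚ_[p])‖ = 1 := by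
    rcases (Padic.norm_int_le_one (p := p) c.num).lt_or_eq with h5 | h5
    · exact absurd (Padic.norm_intCast_lt_one_iff.mp h5) hnum
    · exact h5
  have h6 : ‖((c.den : ℤ) : ℚ_[p])‖ < 1 :=
    Padic.norm_intCast_lt_one_iff.mpr (by exact_mod_cast hpd)
  have h7 : (c : ℚ_[p]) * ((c.den : ℤ) : ℚ_[p]) = ((c.num : ℤ) : ℚ_[p]) := by
    have := Rat.mul_den_eq_num c
    exact_mod_cast congrArg (fun x : ℚ => (x : ℚ_[p])) this
  have h8 : ‖(c : ℚ_[p])‖ * ‖((c.den : ℤ) : ℚ_[p])‖ = 1 := by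
    rw [← norm_mul, h7, h4]
  nlinarith [norm_nonneg (c : ℚ_[p]), norm_nonneg ((c.den : ℤ) : ℚ_[p])]

theorem exists_place {κ : Type} [Field κ] [CharZero κ] [IsAlgClosed κ] [Algebra.IsAlgebraic ℚ κ]
    (α : κ) (h0 : α ≠ 0) (h1 : ∀ k : ℕ, 0 < k → α ^ k ≠ 1) :
    ∃ w : AbsoluteValue κ ℝ, IsPl w ∧ w α ≠ 1 := by
  by_contra hcon
  push Not at hcon
  have hC : ∀ τ : κ →+* ℂ, ‖τ α‖ = 1 := fun τ =>
    hcon (nrmComp τ) (Or.inl ⟨τ, fun x => rfl⟩)
  have hp : ∀ (p : ℕ) [Fact p.Prime] (τ : κ →+* PadicAlgCl p), ‖τ α‖ = 1 := fun p _ τ =>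
    hcon (nrmComp τ) (Or.inr ⟨p, inferInstance, τ, fun x => rfl⟩)
  have hα : IsIntegral ℚ α := (Algebra.IsAlgebraic.isAlgebraic α).isIntegral
  have hmon := minpoly.monic hα
  -- the minimal polynomial has integer coefficients
  have hco : ∀ n, ∃ z : ℤ, (z : ℚ) = (minpoly ℚ α).coeff n := by
    intro n
    apply isInt_of_padic
    intro p _
    have hsp := IsAlgClosed.splits ((minpoly ℚ α).map (algebraMap ℚ (PadicAlgCl p)))
    have hmon' := hmon.map (algebraMap ℚ (PadicAlgCl p))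
    have heq := hsp.eq_prod_roots_of_monic hmon'
    have hroot : ∀ z ∈ ((minpoly ℚ α).map (algebraMap ℚ (PadicAlgCl p))).roots, ‖z‖ ≤ 1 := by
      intro z hz
      have h2 := (Polynomial.mem_roots hmon'.ne_zero).mp hz
      obtain ⟨τ, hτ⟩ := exists_hom_root α z (by
        rw [Polynomial.aeval_def, ← Polynomial.eval_map]
        exact h2)
      rw [← hτ]
      exact (hp p τ).le
    have h3 := coeff_norm_le_one _ hroot n
    rw [← heq, Polynomial.coeff_map] at h3
    have h4 : algebraMap ℚ (PadicAlgCl p) ((minpoly ℚ α).coeff n)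
        = (((minpoly ℚ α).coeff n : ℚ_[p]) : PadicAlgCl p) := by
      rw [eq_ratCast, map_ratCast]
    rw [h4, PadicAlgCl.norm_extends] at h3
    exact h3
  have hint : IsIntegral ℤ α := by
    have hl : minpoly ℚ α ∈ Polynomial.lifts (algebraMap ℤ ℚ) := by
      rw [Polynomial.lifts_iff_coeff_lifts]
      intro n
      obtain ⟨z, hz⟩ := hco n
      exact ⟨z, by simpa using hz⟩
    obtain ⟨g, hg, -, hgm⟩ := Polynomial.lifts_and_natDegree_eq_and_monic hl hmon
    refine ⟨g, hgm, ?_⟩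
    have h5 := minpoly.aeval ℚ α
    rw [← hg, Polynomial.aeval_map_algebraMap] at h5
    exact h5
  haveI : FiniteDimensional ℚ (IntermediateField.adjoin ℚ {α}) :=
    IntermediateField.adjoin.finiteDimensional hα
  haveI : NumberField (IntermediateField.adjoin ℚ {α}) := ⟨⟩
  have hgi : IsIntegral ℤ (IntermediateField.AdjoinSimple.gen ℚ α) := by
    rw [← isIntegral_algebraMap_iff (B := κ)
      (FaithfulSMul.algebraMap_injective (IntermediateField.adjoin ℚ {α}) κ)]
    rw [IntermediateField.AdjoinSimple.algebraMap_gen]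
    exact hint
  obtain ⟨n, hn, hn1⟩ := NumberField.Embeddings.pow_eq_one_of_norm_eq_one
    (IntermediateField.adjoin ℚ {α}) ℂ hgi (fun φ => by
      obtain ⟨τ, hτ⟩ := extend_hom α φ
      rw [← hτ]
      exact hC τ)
  apply h1 n hn
  have h6 := congrArg (algebraMap (IntermediateField.adjoin ℚ {α}) κ) hn1
  rw [map_pow, IntermediateField.AdjoinSimple.algebraMap_gen, map_one] at h6
  exact h6

end Pool.Agent.Helper11.TS
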