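import Pool.Agent.Helper11.TS.Defs

/-!
# TS, module T5b: bounds at all embeddings
-/

set_option autoImplicit false

namespace Pool.Agent.Helper11.TS

open Polynomial Filter

namespace ParsAux

lemma avg_tendsto (z : ℂ) (hz : ‖z‖ = 1) (h1 : z ≠ 1) :
    Tendsto (fun N : ℕ => (N : ℂ)⁻¹ * ∑ n ∈ Finset.range N, z ^ n) atTop (nhds 0) := by
  have h2 : z - 1 ≠ 0 := sub_ne_zero.2 h1
  have h3 : ∀ N : ℕ, ‖(N : ℂ)⁻¹ * ∑ n ∈ Finset.range N, z ^ n‖ ≤ (2 / ‖z - 1‖) * (N : ℝ)⁻¹ := by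
    intro N
    rw [geom_sum_eq h1, norm_mul, norm_inv, norm_div, Complex.norm_natCast, mul_comm]
    have h4 : ‖z ^ N - 1‖ ≤ 2 := by
      calc ‖z ^ N - 1‖ ≤ ‖z ^ N‖ + ‖(1 : ℂ)‖ := norm_sub_le _ _
        _ = 2 := by rw [norm_pow, hz, one_pow, norm_one]; norm_num
    have h5 : 0 ≤ (N : ℝ)⁻¹ := by positivity
    exact mul_le_mul_of_nonneg_right (div_le_div_of_nonneg_right h4 (norm_nonneg _)) h5
  refine squeeze_zero_norm h3 ?_
  have h6 : Tendsto (fun N : ℕ => (N : ℝ)⁻¹) atTop (nhds 0) :=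
    tendsto_inv_atTop_zero.comp tendsto_natCast_atTop_atTop
  have h7 := h6.const_mul (2 / ‖z - 1‖)
  rwa [mul_zero] at h7

lemma avg_one_tendsto :
    Tendsto (fun N : ℕ => (N : ℂ)⁻¹ * ∑ n ∈ Finset.range N, (1 : ℂ) ^ n) atTop (nhds 1) := by
  refine tendsto_const_nhds.congr' ?_
  filter_upwards [eventually_ge_atTop 1] with N hN
  have h1 : (N : ℂ) ≠ 0 := by
    have : N ≠ 0 := by omega
    exact_mod_cast this
  simp [h1]

end ParsAux

open ParsAux

/-- A bound for the almost periodic polynomial `∑ c(ν) exp(i β(ν) t)` bounds the sum of the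
squares of the coefficients. -/
theorem parseval {G : Type} [AddCommGroup G] (β : G →+ ℝ) (hβ : Function.Injective β)
    (c : G →₀ ℂ) (B : ℝ)
    (h : ∀ t : ℝ, ‖∑ ν ∈ c.support, c ν * Complex.exp (Complex.I * (β ν * t : ℝ))‖ ≤ B) :
    ∑ ν ∈ c.support, ‖c ν‖ ^ 2 ≤ B ^ 2 := by
  classical
  set s := c.support with hs
  set M : ℝ := ∑ ν ∈ s, ∑ μ ∈ s, |β ν - β μ| + 1 with hM
  have hM0 : 0 < M := by
    have : 0 ≤ ∑ ν ∈ s, ∑ μ ∈ s, |β ν - β μ| :=
      Finset.sum_nonneg fun _ _ => Finset.sum_nonneg fun _ _ => abs_nonneg _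
    linarith
  have hle : ∀ ν ∈ s, ∀ μ ∈ s, |β ν - β μ| < M := by
    intro ν hν μ hμ
    have h1 : |β ν - β μ| ≤ ∑ μ ∈ s, |β ν - β μ| :=
      Finset.single_le_sum (f := fun μ => |β ν - β μ|) (fun _ _ => abs_nonneg _) hμ
    have h2 : ∑ μ ∈ s, |β ν - β μ| ≤ ∑ ν ∈ s, ∑ μ ∈ s, |β ν - β μ| :=
      Finset.single_le_sum (f := fun ν => ∑ μ ∈ s, |β ν - β μ|)
        (fun _ _ => Finset.sum_nonneg fun _ _ => abs_nonneg _) hν
    linarith
  let z : G → G → ℂ := fun ν μ => Complex.exp (((β ν - β μ) * M⁻¹ : ℝ) * Complex.I)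
  have hz1 : ∀ ν μ, ‖z ν μ‖ = 1 := fun ν μ => Complex.norm_exp_ofReal_mul_I _
  have hz2 : ∀ ν, z ν ν = 1 := fun ν => by simp [z]
  have hz3 : ∀ ν ∈ s, ∀ μ ∈ s, ν ≠ μ → z ν μ ≠ 1 := by
    intro ν hν μ hμ hne h1
    have h2 : β ν - β μ ≠ 0 := sub_ne_zero.2 fun h => hne (hβ h)
    have h3 : |(β ν - β μ) * M⁻¹| < 1 := by
      rw [abs_mul, abs_of_pos (inv_pos.2 hM0), ← div_eq_mul_inv, div_lt_one hM0]
      exact hle ν hν μ hμ
    obtain ⟨n, hn⟩ := Complex.exp_eq_one_iff.1 h1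
    have h4 : ((β ν - β μ) * M⁻¹ : ℝ) = n * (2 * Real.pi) := by
      have h5 : ((((β ν - β μ) * M⁻¹ : ℝ) : ℂ)) = ((n * (2 * Real.pi) : ℝ) : ℂ) := by
        have h6 : ((((β ν - β μ) * M⁻¹ : ℝ) : ℂ)) * Complex.I
            = ((n * (2 * Real.pi) : ℝ) : ℂ) * Complex.I := by
          rw [hn]; push_cast; ring
        exact mul_right_cancel₀ Complex.I_ne_zero h6
      exact_mod_cast h5
    rcases eq_or_ne n 0 with hn0 | hn0
    · rw [hn0] at h4
      have h7 : (β ν - β μ) * M⁻¹ = 0 := by rw [h4]; simp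
      rcases mul_eq_zero.1 h7 with h8 | h8
      · exact h2 h8
      · exact (inv_ne_zero hM0.ne') h8
    · have h9 : (1 : ℝ) ≤ |(n : ℝ)| := by
        have : (1 : ℤ) ≤ |n| := Int.one_le_abs hn0
        have h10 : ((1 : ℤ) : ℝ) ≤ ((|n| : ℤ) : ℝ) := by exact_mod_cast this
        rwa [Int.cast_one, Int.cast_abs] at h10
      rw [h4, abs_mul, abs_of_pos (by positivity : (0 : ℝ) < 2 * Real.pi)] at h3
      have h11 : (3 : ℝ) < Real.pi := Real.pi_gt_three
      nlinarith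
  let f : ℝ → ℂ := fun t => ∑ ν ∈ s, c ν * Complex.exp (Complex.I * (β ν * t : ℝ))
  let A : ℕ → ℂ := fun N =>
    (N : ℂ)⁻¹ * ∑ n ∈ Finset.range N, f (n * M⁻¹) * (starRingEnd ℂ) (f (n * M⁻¹))
  have hB : 0 ≤ B := (norm_nonneg _).trans (h 0)
  have hA1 : ∀ N : ℕ, ‖A N‖ ≤ B ^ 2 := by
    intro N
    rcases Nat.eq_zero_or_pos N with hN | hN
    · simp only [A, hN, Finset.range_zero, Finset.sum_empty, mul_zero, norm_zero]
      positivity
    · have hNr : (0 : ℝ) < N := by exact_mod_cast hN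
      have h1 : ‖∑ n ∈ Finset.range N, f (n * M⁻¹) * (starRingEnd ℂ) (f (n * M⁻¹))‖
          ≤ ∑ n ∈ Finset.range N, B ^ 2 := by
        refine (norm_sum_le _ _).trans (Finset.sum_le_sum fun n _ => ?_)
        rw [norm_mul, RCLike.norm_conj, ← sq]
        exact pow_le_pow_left₀ (norm_nonneg _) (h _) 2
      rw [Finset.sum_const, Finset.card_range, nsmul_eq_mul] at h1
      simp only [A]
      rw [norm_mul, norm_inv, Complex.norm_natCast]
      calc (N : ℝ)⁻¹ * _ ≤ (N : ℝ)⁻¹ * (N * B ^ 2) :=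
            mul_le_mul_of_nonneg_left h1 (inv_nonneg.2 hNr.le)
        _ = B ^ 2 := by field_simp
  have hA2 : ∀ N : ℕ, A N = ∑ ν ∈ s, ∑ μ ∈ s, (c ν * (starRingEnd ℂ) (c μ)) *
      ((N : ℂ)⁻¹ * ∑ n ∈ Finset.range N, z ν μ ^ n) := by
    intro N
    have h1 : ∀ n : ℕ, f (n * M⁻¹) * (starRingEnd ℂ) (f (n * M⁻¹))
        = ∑ ν ∈ s, ∑ μ ∈ s, (c ν * (starRingEnd ℂ) (c μ)) * z ν μ ^ n := by
      intro n
      simp only [f, map_sum, Finset.sum_mul_sum]
      refine Finset.sum_congr rfl fun ν _ => Finset.sum_congr rfl fun μ _ => ?_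
      have h2 : z ν μ ^ n = Complex.exp (Complex.I * (β ν * (n * M⁻¹) : ℝ))
          * (starRingEnd ℂ) (Complex.exp (Complex.I * (β μ * (n * M⁻¹) : ℝ))) := by
        rw [← Complex.exp_conj, ← Complex.exp_add, ← Complex.exp_nat_mul]
        congr 1
        rw [map_mul, Complex.conj_I, Complex.conj_ofReal]
        push_cast
        ring
      rw [h2, map_mul]
      ring
    simp only [A]
    rw [Finset.sum_congr rfl fun n _ => h1 n, Finset.sum_comm, Finset.mul_sum]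
    refine Finset.sum_congr rfl fun ν _ => ?_
    rw [Finset.sum_comm, Finset.mul_sum]
    refine Finset.sum_congr rfl fun μ _ => ?_
    rw [← Finset.mul_sum]
    ring
  have hlim : Tendsto A atTop (nhds (∑ ν ∈ s, ∑ μ ∈ s, (c ν * (starRingEnd ℂ) (c μ)) *
      (if ν = μ then 1 else 0))) := by
    have h1 : A = fun N : ℕ => ∑ ν ∈ s, ∑ μ ∈ s, (c ν * (starRingEnd ℂ) (c μ)) *
      ((N : ℂ)⁻¹ * ∑ n ∈ Finset.range N, z ν μ ^ n) := funext hA2
    rw [h1]
    refine tendsto_finsetSum _ fun ν hν => tendsto_finsetSum _ fun μ hμ => ?_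
    refine Tendsto.const_mul _ ?_
    by_cases hνμ : ν = μ
    · subst hνμ
      simp only [hz2, if_true]
      exact avg_one_tendsto
    · rw [if_neg hνμ]
      exact avg_tendsto _ (hz1 ν μ) (hz3 ν hν μ hμ hνμ)
  have hval : (∑ ν ∈ s, ∑ μ ∈ s, (c ν * (starRingEnd ℂ) (c μ)) *
      (if ν = μ then (1 : ℂ) else 0)) = ((∑ ν ∈ s, ‖c ν‖ ^ 2 : ℝ) : ℂ) := by
    rw [Complex.ofReal_sum]
    refine Finset.sum_congr rfl fun ν hν => ?_
    rw [Finset.sum_eq_single ν]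
    · rw [if_pos rfl, mul_one, Complex.mul_conj, Complex.normSq_eq_norm_sq]
    · intro μ _ hne
      rw [if_neg (Ne.symm hne), mul_zero]
    · intro hν'
      exact absurd hν hν'
  rw [hval] at hlim
  have h2 := le_of_tendsto hlim.norm (Eventually.of_forall hA1)
  rw [Complex.norm_real, Real.norm_of_nonneg (Finset.sum_nonneg fun _ _ => sq_nonneg _)] at h2
  exact h2

variable {κ G : Type} [Field κ] [CharZero κ] [Algebra.IsAlgebraic ℚ κ] [AddCommGroup G]

namespace ParsAux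

/-- The character `ν ↦ exp(i β(ν) t)`. -/
noncomputable def chr (β : G →+ ℝ) (t : ℝ) : Multiplicative G →* ℂ where
  toFun ν := Complex.exp (Complex.I * (β (Multiplicative.toAdd ν) * t : ℝ))
  map_one' := by simp
  map_mul' μ ν := by
    rw [toAdd_mul, map_add, ← Complex.exp_add]
    congr 1
    push_cast
    ring

omit [CharZero κ] [Algebra.IsAlgebraic ℚ κ] in
/-- Evaluation at a point of the torus. -/
noncomputable def chi (β : G →+ ℝ) (τ : κ →+* ℂ) (t : ℝ) : Alg κ G →+* ℂ :=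
  AddMonoidAlgebra.liftNCRingHom τ (chr β t) fun _ _ => Commute.all _ _

omit [CharZero κ] [Algebra.IsAlgebraic ℚ κ] in
lemma chi_mono (β : G →+ ℝ) (τ : κ →+* ℂ) (t : ℝ) (ν : G) (c : κ) :
    chi β τ t (mono ν c) = τ c * Complex.exp (Complex.I * (β ν * t : ℝ)) := by
  simp [chi, mono, AddMonoidAlgebra.liftNCRingHom, AddMonoidAlgebra.liftNC_single, chr]

omit [CharZero κ] [Algebra.IsAlgebraic ℚ κ] in
lemma chi_theta (β : G →+ ℝ) (τ : κ →+* ℂ) (t : ℝ) (q : ℕ) (E : Alg κ G) :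
    chi β τ t (theta q E) = chi β τ (q * t) E := by
  induction E using AddMonoidAlgebra.induction with
  | zero => simp
  | single_add a b f _ _ ih =>
    rw [map_add, map_add, map_add, ih]
    congr 1
    have h1 := theta_mono (κ := κ) q a b
    have h2 := chi_mono β τ t (q • a) b
    have h3 := chi_mono β τ (q * t) a b
    unfold mono at h1 h2 h3
    rw [h1, h2, h3, map_nsmul]
    congr 3
    rw [nsmul_eq_mul]
    ring_nf

omit [CharZero κ] [Algebra.IsAlgebraic ℚ κ] in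
lemma chi_eq_sum (β : G →+ ℝ) (τ : κ →+* ℂ) (t : ℝ) (E : Alg κ G) :
    chi β τ t E = ∑ ν ∈ spt E, τ (E.coeff ν) * Complex.exp (Complex.I * (β ν * t : ℝ)) := by
  have h1 : E = ∑ ν ∈ spt E, mono ν (E.coeff ν) := by
    have h2 := AddMonoidAlgebra.sum_coeff_single E
    exact h2.symm
  conv_lhs => rw [h1]
  rw [map_sum]
  exact Finset.sum_congr rfl fun ν _ => chi_mono β τ t ν _

lemma alg_bd (x : κ) : ∃ C : ℝ, 0 ≤ C ∧ ∀ τ : κ →+* ℂ, ‖τ x‖ ≤ C := by
  classical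
  have hx : IsIntegral ℚ x := (Algebra.IsAlgebraic.isAlgebraic x).isIntegral
  refine ⟨∑ z ∈ ((minpoly ℚ x).rootSet ℂ).toFinset, ‖z‖,
    Finset.sum_nonneg fun _ _ => norm_nonneg _, fun τ => ?_⟩
  refine Finset.single_le_sum (f := fun z : ℂ => ‖z‖) (fun _ _ => norm_nonneg _) ?_
  rw [Set.mem_toFinset, Polynomial.mem_rootSet]
  refine ⟨minpoly.ne_zero hx, ?_⟩
  have h1 := Polynomial.aeval_algHom_apply τ.toRatAlgHom x (minpoly ℚ x)
  rw [minpoly.aeval, map_zero] at h1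
  exact h1

lemma chi_bd (β : G →+ ℝ) (E : Alg κ G) :
    ∃ C : ℝ, 0 ≤ C ∧ ∀ (τ : κ →+* ℂ) (t : ℝ), ‖chi β τ t E‖ ≤ C := by
  induction E using AddMonoidAlgebra.induction with
  | zero => exact ⟨0, le_refl _, fun τ t => by simp⟩
  | single_add a b f _ _ ih =>
    obtain ⟨C, hC, hC'⟩ := ih
    obtain ⟨D, hD, hD'⟩ := alg_bd b
    refine ⟨D + C, by positivity, fun τ t => ?_⟩
    rw [map_add]
    refine (norm_add_le _ _).trans (add_le_add ?_ (hC' τ t))
    have h1 := chi_mono β τ t a b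
    unfold mono at h1
    rw [h1, norm_mul, mul_comm Complex.I, Complex.norm_exp_ofReal_mul_I, mul_one]
    exact hD' τ

end ParsAux

open ParsAux

theorem tower_bd (β : G →+ ℝ) (hβ : Function.Injective β) {q : ℕ} (hq : 2 ≤ q) {a : κ}
    {P : (Alg κ G)[X]} (hP : Pol q a P) (Q : ℕ → Alg κ G)
    (h : ∀ k, P.eval (Q (k + 1)) = theta q (Q k)) :
    ∃ C : ℝ, 0 ≤ C ∧ ∀ (τ : κ →+* ℂ) (k : ℕ), ∑ ν ∈ spt (Q k), ‖τ ((Q k).coeff ν)‖ ^ 2 ≤ C := by
  classical
  -- bounds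
  choose Cf hCf0 hCf using fun l : ℕ => chi_bd (κ := κ) β (P.coeff l)
  set CP : ℝ := ∑ l ∈ Finset.range q, Cf l with hCP
  have hCP0 : 0 ≤ CP := Finset.sum_nonneg fun _ _ => hCf0 _
  obtain ⟨CQ, hCQ0, hCQ⟩ := chi_bd (κ := κ) β (Q 0)
  obtain ⟨Ca, hCa0, hCa⟩ := alg_bd (κ := κ) a⁻¹
  set α : ℝ := (Ca + 1)⁻¹ with hα
  have hα0 : 0 < α := by positivity
  have hαle : ∀ τ : κ →+* ℂ, α ≤ ‖τ a‖ := by
    intro τ
    have h1 : ‖τ a‖⁻¹ ≤ Ca := by
      have h2 := hCa τ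
      rwa [map_inv₀, norm_inv] at h2
    have h3 : 0 < ‖τ a‖ := norm_pos_iff.2 ((map_ne_zero τ).2 hP.ne)
    rw [hα]
    exact inv_le_of_inv_le₀ h3 (by linarith)
  set B0 : ℝ := 1 + 2 / α + 2 * CP / α + CQ with hB0
  have hB1 : 1 ≤ B0 := by
    have : 0 ≤ 2 / α := by positivity
    have : 0 ≤ 2 * CP / α := by positivity
    linarith
  have hB2 : 2 ≤ α * B0 := by
    have h1 : α * (2 / α) = 2 := by field_simp
    have h2 : 0 ≤ α * (1 + 2 * CP / α + CQ) := by positivity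
    nlinarith
  have hB3 : 2 * CP ≤ α * B0 := by
    have h1 : α * (2 * CP / α) = 2 * CP := by field_simp
    have h2 : 0 ≤ α * (1 + 2 / α + CQ) := by positivity
    nlinarith
  have hB4 : CQ ≤ B0 := by
    have : 0 ≤ 2 / α := by positivity
    have : 0 ≤ 2 * CP / α := by positivity
    linarith
  have key : ∀ (τ : κ →+* ℂ) (k : ℕ) (t : ℝ), ‖chi β τ t (Q k)‖ ≤ B0 := by
    intro τ k
    induction k with
    | zero => exact fun t => (hCQ τ t).trans hB4
    | succ k ih =>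
      intro t
      by_contra hcon
      rw [not_le] at hcon
      set x := chi β τ t (Q (k + 1)) with hx
      have h1 : chi β τ (q * t) (Q k) = τ a * x ^ q +
          ∑ l ∈ Finset.range q, chi β τ t (P.coeff l) * x ^ l := by
        rw [← chi_theta, ← h k, Polynomial.eval_eq_sum_range, hP.deg, map_sum,
          Finset.sum_range_succ, add_comm]
        congr 1
        · rw [map_mul, map_pow, hP.lead, chi_mono, ← hx]
          simp
        · refine Finset.sum_congr rfl fun l _ => ?_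
          rw [map_mul, map_pow]
      have hX1 : 1 ≤ ‖x‖ := hB1.trans hcon.le
      have hX0 : 0 < ‖x‖ := by linarith
      have h2 : ‖∑ l ∈ Finset.range q, chi β τ t (P.coeff l) * x ^ l‖ ≤ CP * ‖x‖ ^ (q - 1) := by
        refine (norm_sum_le _ _).trans ?_
        rw [hCP, Finset.sum_mul]
        refine Finset.sum_le_sum fun l hl => ?_
        rw [norm_mul, norm_pow]
        have h3 : l ≤ q - 1 := by
          have := Finset.mem_range.1 hl
          omega
        exact mul_le_mul (hCf l τ t) (pow_le_pow_right₀ hX1 h3) (by positivity) (hCf0 l)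
      have h4 : ‖τ a * x ^ q‖ ≤ ‖chi β τ (q * t) (Q k)‖ +
          ‖∑ l ∈ Finset.range q, chi β τ t (P.coeff l) * x ^ l‖ := by
        have h5 : τ a * x ^ q = chi β τ (q * t) (Q k) -
          ∑ l ∈ Finset.range q, chi β τ t (P.coeff l) * x ^ l := by rw [h1]; ring
        rw [h5]
        exact norm_sub_le _ _
      have h6 : α * ‖x‖ ^ q ≤ ‖τ a * x ^ q‖ := by
        rw [norm_mul, norm_pow]
        exact mul_le_mul_of_nonneg_right (hαle τ) (by positivity)
      have h7 : ‖x‖ ^ q = ‖x‖ ^ (q - 1) * ‖x‖ := by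
        rw [← pow_succ]
        congr 1
        omega
      have h8 := ih (q * t)
      have h9 : ‖x‖ ≤ ‖x‖ ^ (q - 1) := by
        calc ‖x‖ = ‖x‖ ^ 1 := (pow_one _).symm
          _ ≤ _ := pow_le_pow_right₀ hX1 (by omega)
      have h10 : α * B0 < α * ‖x‖ := mul_lt_mul_of_pos_left hcon hα0
      -- `Y = ‖x‖^(q-1)`; `α Y X ≤ B0 + CP Y`
      have h11 : α * (‖x‖ ^ (q - 1) * ‖x‖) ≤ B0 + CP * ‖x‖ ^ (q - 1) := by
        rw [← h7]
        linarith
      have h12 : 0 < ‖x‖ ^ (q - 1) := by positivity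
      have h13 : ‖x‖ ^ (q - 1) * (α * ‖x‖ - CP) ≤ B0 := by nlinarith
      have h14 : 1 ≤ α * ‖x‖ - CP := by linarith
      have h15 : ‖x‖ ^ (q - 1) ≤ B0 := by
        calc ‖x‖ ^ (q - 1) = ‖x‖ ^ (q - 1) * 1 := (mul_one _).symm
          _ ≤ ‖x‖ ^ (q - 1) * (α * ‖x‖ - CP) := mul_le_mul_of_nonneg_left h14 h12.le
          _ ≤ B0 := h13
      linarith
  refine ⟨B0 ^ 2, by positivity, fun τ k => ?_⟩
  have h1 := parseval β hβ ((Q k).coeff.mapRange τ (map_zero τ)) B0 ?_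
  · have h2 : ((Q k).coeff.mapRange τ (map_zero τ)).support = spt (Q k) :=
      Finsupp.support_mapRange_of_injective _ _ τ.injective
    rw [h2] at h1
    exact h1
  · intro t
    have h2 : ((Q k).coeff.mapRange τ (map_zero τ)).support = spt (Q k) :=
      Finsupp.support_mapRange_of_injective _ _ τ.injective
    rw [h2]
    have h3 := key τ k t
    rw [chi_eq_sum] at h3
    exact h3

end Pool.Agent.Helper11.TS
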