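import Pool.Agent.Helper11.TS.Defs

/-!
# TS, module T6c: the ultrapower of the group algebra
-/

set_option autoImplicit false

namespace Pool.Agent.Helper11.TS

open Polynomial Filter

variable {κ G : Type} [Field κ] [AddCommGroup G]

/-- The ultrapower of `X`. -/
abbrev Ul (W : Ultrafilter ℕ) (X : Type) : Type := (W : Filter ℕ).Germ X

/-- Sum of monomials with a finite index. -/
private lemma spt_sum_subset {n : ℕ} (b : Fin n → G) (c : Fin n → κ) :
    ∀ ν ∈ spt (∑ i, mono (b i) (c i) : Alg κ G), ∃ i, ν = b i := by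
  classical
  intro ν hν
  by_contra hcon
  push Not at hcon
  rw [Finsupp.mem_support_iff] at hν
  apply hν
  rw [AddMonoidAlgebra.coeff_sum, Finsupp.finsetSum_apply]
  apply Finset.sum_eq_zero
  intro i _
  rw [AddMonoidAlgebra.coeff_single, Finsupp.single_apply, if_neg (fun h => hcon i h.symm)]

private lemma spt_sum_card {n : ℕ} (b : Fin n → G) (c : Fin n → κ) (hb : Function.Injective b)
    (hc : ∀ i, c i ≠ 0) : (spt (∑ i, mono (b i) (c i) : Alg κ G)).card = n := by
  classical
  have h1 : spt (∑ i, mono (b i) (c i) : Alg κ G) = Finset.univ.image b := by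
    ext ν
    constructor
    · intro hν
      obtain ⟨i, hi⟩ := spt_sum_subset b c ν hν
      rw [hi]
      exact Finset.mem_image_of_mem b (Finset.mem_univ i)
    · intro hν
      obtain ⟨j, -, rfl⟩ := Finset.mem_image.1 hν
      rw [Finsupp.mem_support_iff, AddMonoidAlgebra.coeff_sum, Finsupp.finsetSum_apply,
        Finset.sum_eq_single j]
      · rw [AddMonoidAlgebra.coeff_single, Finsupp.single_eq_same]
        exact hc j
      · intro i _ hij
        rw [AddMonoidAlgebra.coeff_single, Finsupp.single_apply, if_neg (fun h => hij (hb h))]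
      · intro h
        exact absurd (Finset.mem_univ j) h
  rw [h1, Finset.card_image_of_injective _ hb, Finset.card_univ, Fintype.card_fin]

private lemma spt_sum_card_le {n : ℕ} (b : Fin n → G) (c : Fin n → κ) :
    (spt (∑ i, mono (b i) (c i) : Alg κ G)).card ≤ n := by
  classical
  have h1 : spt (∑ i, mono (b i) (c i) : Alg κ G) ⊆ Finset.univ.image b := by
    intro ν hν
    obtain ⟨i, hi⟩ := spt_sum_subset b c ν hν
    rw [hi]
    exact Finset.mem_image_of_mem b (Finset.mem_univ i)
  refine (Finset.card_le_card h1).trans (Finset.card_image_le.trans ?_)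
  rw [Finset.card_univ, Fintype.card_fin]

private lemma eq_sum_mono {n : ℕ} (E : Alg κ G) (e : Fin n ≃ spt E) :
    E = ∑ i, mono ((e i : G)) (E.coeff (e i : G)) := by
  classical
  conv_lhs => rw [← AddMonoidAlgebra.sum_coeff_single E]
  rw [Finsupp.sum, ← Finset.sum_coe_sort]
  exact (Equiv.sum_comp e (fun ν : spt E => mono (ν : G) (E.coeff (ν : G)))).symm

/-- The natural map from the group algebra of the ultrapowers to the ultrapower of the group
algebra. -/
noncomputable def U2 (W : Ultrafilter ℕ) : Alg (Ul W κ) (Ul W G) →+* Ul W (Alg κ G) :=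
  AddMonoidAlgebra.liftNCRingHom
    (f := { toFun := fun c => c.map (fun x => (mono 0 x : Alg κ G))
            map_one' := rfl
            map_mul' := fun x y => by
              induction x using Filter.Germ.inductionOn with | _ x
              induction y using Filter.Germ.inductionOn with | _ y
              apply congrArg (fun f : ℕ → Alg κ G => (f : Ul W (Alg κ G)))
              funext n
              simp [mono, AddMonoidAlgebra.single_mul_single]
            map_zero' := by
              apply congrArg (fun f : ℕ → Alg κ G => (f : Ul W (Alg κ G)))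
              funext n
              simp [mono]
            map_add' := fun x y => by
              induction x using Filter.Germ.inductionOn with | _ x
              induction y using Filter.Germ.inductionOn with | _ y
              apply congrArg (fun f : ℕ → Alg κ G => (f : Ul W (Alg κ G)))
              funext n
              simp [mono, AddMonoidAlgebra.single_add] })
    (g := { toFun := fun b => (Multiplicative.toAdd b).map (fun x => (mono x 1 : Alg κ G))
            map_one' := rfl
            map_mul' := fun x y => by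
              obtain ⟨x, rfl⟩ := Multiplicative.ofAdd.surjective x
              obtain ⟨y, rfl⟩ := Multiplicative.ofAdd.surjective y
              induction x using Filter.Germ.inductionOn with | _ x
              induction y using Filter.Germ.inductionOn with | _ y
              apply congrArg (fun f : ℕ → Alg κ G => (f : Ul W (Alg κ G)))
              funext n
              simp [mono, AddMonoidAlgebra.single_mul_single] })
    (h_comm := fun _ _ => Commute.all _ _)

lemma U2_mono (W : Ultrafilter ℕ) (b : ℕ → G) (c : ℕ → κ) :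
    U2 W (mono (b : Ul W G) (c : Ul W κ)) = ((fun n => mono (b n) (c n) : ℕ → Alg κ G) :
      Ul W (Alg κ G)) := by
  have h1 : U2 W (mono (b : Ul W G) (c : Ul W κ)) =
      ((c : Ul W κ).map (fun x => (mono 0 x : Alg κ G))) *
        ((b : Ul W G).map (fun x => (mono x 1 : Alg κ G))) :=
    AddMonoidAlgebra.liftNC_single _ _ _ _
  rw [h1]
  apply congrArg (fun f : ℕ → Alg κ G => (f : Ul W (Alg κ G)))
  funext n
  simp [mono, AddMonoidAlgebra.single_mul_single]

private lemma germ_sum {X : Type} [AddCommMonoid X] (W : Ultrafilter ℕ) {n : ℕ}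
    (f : Fin n → ℕ → X) :
    ((fun k => ∑ i, f i k : ℕ → X) : Ul W X) = ∑ i, ((f i : ℕ → X) : Ul W X) := by
  have h1 := map_sum (Filter.Germ.coeAddHom (M := X) (W : Filter ℕ)) f Finset.univ
  have h2 : (fun k => ∑ i, f i k : ℕ → X) = ∑ i, f i := by
    funext k
    rw [Finset.sum_apply]
  rw [h2]
  exact h1

/-- A representation of `U2 E`. -/
private lemma U2_rep (W : Ultrafilter ℕ) (E : Alg (Ul W κ) (Ul W G)) :
    ∃ (b : Fin (spt E).card → ℕ → G) (c : Fin (spt E).card → ℕ → κ),
      U2 W E = ((fun n => ∑ i, mono (b i n) (c i n) : ℕ → Alg κ G) : Ul W (Alg κ G)) ∧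
      (∀ i, ((b i : ℕ → G) : Ul W G) ∈ spt E) ∧
      (∀ i j, ((b i : ℕ → G) : Ul W G) = ((b j : ℕ → G) : Ul W G) → i = j) ∧
      (∀ i, ((c i : ℕ → κ) : Ul W κ) ≠ 0) := by
  classical
  let e : Fin (spt E).card ≃ spt E := (spt E).equivFin.symm
  have hb : ∀ i, ∃ b : ℕ → G, (b : Ul W G) = (e i : Ul W G) := fun i =>
    Filter.Germ.inductionOn (e i : Ul W G) fun b => ⟨b, rfl⟩
  have hc : ∀ i, ∃ c : ℕ → κ, (c : Ul W κ) = E.coeff (e i : Ul W G) := fun i =>
    Filter.Germ.inductionOn (E.coeff (e i : Ul W G)) fun c => ⟨c, rfl⟩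
  choose b hb using hb
  choose c hc using hc
  refine ⟨b, c, ?_, fun i => ?_, fun i j hij => ?_, fun i => ?_⟩
  · rw [germ_sum]
    conv_lhs => rw [eq_sum_mono E e]
    rw [map_sum]
    refine Finset.sum_congr rfl fun i _ => ?_
    rw [← hc i, ← hb i, U2_mono]
  · rw [hb i]
    exact (e i).2
  · rw [hb i, hb j] at hij
    exact e.injective (Subtype.ext hij)
  · rw [hc i]
    exact Finsupp.mem_support_iff.1 (e i).2

/-- The exponents of `E`, the coefficients and the number of terms of `U2 E`. -/
lemma U2_spec (W : Ultrafilter ℕ) (E : Alg (Ul W κ) (Ul W G)) :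
    ∃ (b : Fin (spt E).card → ℕ → G) (F : ℕ → Alg κ G), U2 W E = (F : Ul W (Alg κ G)) ∧
      (∀ i, ((b i : ℕ → G) : Ul W G) ∈ spt E) ∧
      (∀ n, ∀ ν ∈ spt (F n), ∃ i, ν = b i n) ∧
      ∀ᶠ n in (W : Filter ℕ), (spt (F n)).card = (spt E).card := by
  obtain ⟨b, c, h1, h2, h3, h4⟩ := U2_rep W E
  refine ⟨b, fun n => ∑ i, mono (b i n) (c i n), h1, h2,
    fun n ν hν => spt_sum_subset (fun i => b i n) (fun i => c i n) ν hν, ?_⟩
  have h5 : ∀ᶠ n in (W : Filter ℕ), ∀ i j, b i n = b j n → i = j := by
    rw [Filter.eventually_all]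
    intro i
    rw [Filter.eventually_all]
    intro j
    by_cases hij : i = j
    · exact Filter.Eventually.of_forall fun _ _ => hij
    · have h6 : ¬ ∀ᶠ n in (W : Filter ℕ), b i n = b j n := fun h =>
        hij (h3 i j (Filter.Germ.coe_eq.2 h))
      have h7 := Ultrafilter.eventually_not.2 h6
      filter_upwards [h7] with n hn h
      exact absurd h hn
  have h8 : ∀ᶠ n in (W : Filter ℕ), ∀ i, c i n ≠ 0 := by
    rw [Filter.eventually_all]
    intro i
    apply Ultrafilter.eventually_not.2
    intro h
    exact h4 i (Filter.Germ.coe_eq.2 h)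
  filter_upwards [h5, h8] with n hn hn2
  exact spt_sum_card (fun i => b i n) (fun i => c i n) (fun i j h => hn i j h) hn2

lemma U2_injective (W : Ultrafilter ℕ) :
    Function.Injective (U2 W : Alg (Ul W κ) (Ul W G) →+* Ul W (Alg κ G)) := by
  rw [injective_iff_map_eq_zero]
  intro E hE
  obtain ⟨b, F, h1, -, -, h4⟩ := U2_spec W E
  rw [hE] at h1
  have h5 : ∀ᶠ n in (W : Filter ℕ), (0 : Alg κ G) = F n := Filter.Germ.coe_eq.1 h1
  obtain ⟨n, hn, hn2⟩ := (h4.and h5).exists
  rw [← hn2] at hn
  have h6 : (spt E).card = 0 := by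
    rw [← hn]
    simp [spt]
  have h7 : spt E = ∅ := Finset.card_eq_zero.1 h6
  exact AddMonoidAlgebra.coeff_eq_zero.1 (Finsupp.support_eq_empty.1 h7)

/-- Sequences of elements with a bounded number of terms are in the image. -/
lemma U2_surj (W : Ultrafilter ℕ) (F : ℕ → Alg κ G) (B : ℕ)
    (h : ∀ᶠ n in (W : Filter ℕ), (spt (F n)).card ≤ B) :
    ∃ E : Alg (Ul W κ) (Ul W G), (spt E).card ≤ B ∧ U2 W E = (F : Ul W (Alg κ G)) := by
  classical
  have h1 : ∃ k ≤ B, ∀ᶠ n in (W : Filter ℕ), (spt (F n)).card = k := by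
    by_contra hcon
    push Not at hcon
    have h2 : ∀ᶠ n in (W : Filter ℕ), ∀ k ∈ Finset.range (B + 1), (spt (F n)).card ≠ k := by
      rw [Filter.eventually_all_finset]
      intro k hk
      exact hcon k (Nat.lt_succ_iff.1 (Finset.mem_range.1 hk))
    obtain ⟨n, hn, hn2⟩ := (h.and h2).exists
    exact hn2 _ (Finset.mem_range.2 (Nat.lt_succ_iff.2 hn)) rfl
  obtain ⟨k, hk, hkev⟩ := h1
  let b : Fin k → ℕ → G := fun i n =>
    if hn : (spt (F n)).card = k then (((spt (F n)).equivFinOfCardEq hn).symm i : G) else 0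
  let c : Fin k → ℕ → κ := fun i n => (F n).coeff (b i n)
  refine ⟨∑ i, mono ((b i : ℕ → G) : Ul W G) ((c i : ℕ → κ) : Ul W κ),
    (spt_sum_card_le _ _).trans hk, ?_⟩
  rw [map_sum]
  simp only [U2_mono]
  rw [← germ_sum]
  apply Filter.Germ.coe_eq.2
  filter_upwards [hkev] with n hn
  have h3 := eq_sum_mono (F n) ((spt (F n)).equivFinOfCardEq hn).symm
  have h4 : ∀ i, b i n = (((spt (F n)).equivFinOfCardEq hn).symm i : G) := fun i => dif_pos hn
  conv_rhs => rw [h3]
  refine Finset.sum_congr rfl fun i _ => ?_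
  change mono (b i n) ((F n).coeff (b i n)) = _
  rw [h4 i]

private lemma germ_map_add {X Y : Type} [AddCommMonoid X] [AddCommMonoid Y] (W : Ultrafilter ℕ)
    (f : X →+ Y) (x y : Ul W X) : (x + y).map f = x.map f + y.map f := by
  induction x using Filter.Germ.inductionOn with | _ x
  induction y using Filter.Germ.inductionOn with | _ y
  apply congrArg (fun g : ℕ → Y => (g : Ul W Y))
  funext n
  exact map_add f (x n) (y n)

lemma U2_theta (W : Ultrafilter ℕ) (q : ℕ) (E : Alg (Ul W κ) (Ul W G)) :
    U2 W (theta q E) = (U2 W E).map (theta q) := by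
  induction E using AddMonoidAlgebra.induction with
  | zero =>
    rw [map_zero, map_zero]
    apply congrArg (fun g : ℕ → Alg κ G => (g : Ul W (Alg κ G)))
    funext n
    exact (map_zero (theta q)).symm
  | single_add a r f _ _ ih =>
    have h0 := germ_map_add W (theta q : Alg κ G →+* Alg κ G).toAddMonoidHom
      (U2 W (AddMonoidAlgebra.single a r)) (U2 W f)
    have h1 : Filter.Germ.map (theta q) (U2 W (AddMonoidAlgebra.single a r) + U2 W f) =
        Filter.Germ.map (theta q) (U2 W (AddMonoidAlgebra.single a r)) +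
          Filter.Germ.map (theta q) (U2 W f) := h0
    rw [map_add, map_add, map_add, ih, h1]
    congr 1
    induction a using Filter.Germ.inductionOn with | _ a
    induction r using Filter.Germ.inductionOn with | _ r
    have h2 : theta q (AddMonoidAlgebra.single (a : Ul W G) (r : Ul W κ)) =
        mono (((fun n => q • a n : ℕ → G)) : Ul W G) (r : Ul W κ) := theta_mono q _ _
    have h3 := U2_mono W a r
    have h4 := U2_mono W (fun n => q • a n) r
    rw [h2, h4]
    unfold mono at h3
    rw [h3]
    apply congrArg (fun g : ℕ → Alg κ G => (g : Ul W (Alg κ G)))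
    funext n
    exact (theta_mono q (a n) (r n)).symm

/-- The embedding of the group algebra, by constant sequences. -/
noncomputable def cst (W : Ultrafilter ℕ) : Alg κ G →+* Alg (Ul W κ) (Ul W G) :=
  (AddMonoidAlgebra.mapDomainRingHom (Ul W κ)
    ({ toFun := fun ν => (↑ν : Ul W G), map_zero' := rfl, map_add' := fun _ _ => rfl } :
      G →+ Ul W G)).comp
    (AddMonoidAlgebra.mapRingHom G
      ({ toFun := fun c => (↑c : Ul W κ), map_one' := rfl, map_mul' := fun _ _ => rfl,
         map_zero' := rfl, map_add' := fun _ _ => rfl } : κ →+* Ul W κ))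

lemma cst_mono (W : Ultrafilter ℕ) (ν : G) (c : κ) :
    cst W (mono ν c) = mono (↑ν : Ul W G) (↑c : Ul W κ) := by
  simp [cst, mono]

lemma U2_cst (W : Ultrafilter ℕ) (E : Alg κ G) : U2 W (cst W E) = (↑E : Ul W (Alg κ G)) := by
  induction E using AddMonoidAlgebra.induction with
  | zero =>
    rw [map_zero, map_zero]
    rfl
  | single_add a r f _ _ ih =>
    have h1 := cst_mono W a r
    have h2 := U2_mono W (fun _ => a) (fun _ => r)
    unfold mono at h1
    rw [map_add, map_add, ih, h1]
    have h3 : U2 W (mono (↑a : Ul W G) (↑r : Ul W κ)) =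
        (↑(AddMonoidAlgebra.single a r : Alg κ G) : Ul W (Alg κ G)) := h2
    unfold mono at h3
    rw [h3]
    rfl

/-- The exponents of a constant are constants. -/
lemma spt_cst (W : Ultrafilter ℕ) (E : Alg κ G) (μ : Ul W G) (h : μ ∈ spt (cst W E)) :
    ∃ ν ∈ spt E, μ = (↑ν : Ul W G) := by
  classical
  let e : Fin (spt E).card ≃ spt E := (spt E).equivFin.symm
  rw [eq_sum_mono E e, map_sum] at h
  simp only [cst_mono] at h
  obtain ⟨i, hi⟩ := spt_sum_subset _ _ μ h
  exact ⟨e i, (e i).2, hi⟩

end Pool.Agent.Helper11.TS
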