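import Pool.Agent.Helper11.TS.Rig3
import Pool.Agent.Helper11.TS.Ultra

/-!
# TS, module T6d: the alternative for the tower
-/

set_option autoImplicit false

namespace Pool.Agent.Helper11.TS

open Polynomial Filter

variable {κ G : Type} [Field κ] [CharZero κ] [AddCommGroup G] [Module ℚ G]

private lemma mono_mul_mono (x y : G) (c d : κ) :
    (mono x c * mono y d : Alg κ G) = mono (x + y) (c * d) :=
  AddMonoidAlgebra.single_mul_single x y c d

private lemma mono_pow (x : G) (c : κ) (n : ℕ) :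
    (mono x c ^ n : Alg κ G) = mono (n • x) (c ^ n) :=
  AddMonoidAlgebra.single_pow x c n

private lemma mono_one : (mono 0 1 : Alg κ G) = 1 := rfl

private lemma mono_ne {x : G} {c : κ} (hc : c ≠ 0) : (mono x c : Alg κ G) ≠ 0 := by
  intro h
  have h6 := congrArg (fun F : Alg κ G => F.coeff x) h
  simp only [mono, AddMonoidAlgebra.coeff_single, Finsupp.single_eq_same,
    AddMonoidAlgebra.coeff_zero, Finsupp.coe_zero, Pi.zero_apply] at h6
  exact hc h6

section center

/-- The shift that centers the polynomial. -/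
private noncomputable def tt (q : ℕ) (a : κ) (P : (Alg κ G)[X]) : Alg κ G :=
  P.coeff (q - 1) * mono 0 (((q : κ) * a)⁻¹)

/-- The centered polynomial. -/
private noncomputable def PP (q : ℕ) (a : κ) (P : (Alg κ G)[X]) : (Alg κ G)[X] :=
  P.comp (X - C (tt q a P)) + C (theta q (tt q a P))

private lemma comp_coeff {q : ℕ} {a : κ} {P : (Alg κ G)[X]} (hP : Pol q a P) (t : Alg κ G)
    (k : ℕ) : (P.comp (X - C t)).coeff k =
      ∑ i ∈ Finset.range (q + 1), P.coeff i * ((-t) ^ (i - k) * (i.choose k : Alg κ G)) := by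
  rw [Polynomial.comp, Polynomial.eval₂_eq_sum_range, hP.deg, Polynomial.finsetSum_coeff]
  refine Finset.sum_congr rfl fun i _ => ?_
  rw [Polynomial.coeff_C_mul, sub_eq_add_neg, ← Polynomial.C_neg, Polynomial.coeff_X_add_C_pow]

private lemma PP_pol {q : ℕ} (hq : 2 ≤ q) {a : κ} {P : (Alg κ G)[X]} (hP : Pol q a P) :
    Pol q a (PP q a P) := by
  have hlead : (PP q a P).coeff q = mono 0 a := by
    rw [PP, Polynomial.coeff_add, comp_coeff hP, Polynomial.coeff_C, if_neg (by omega), add_zero,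
      Finset.sum_range_succ, Finset.sum_eq_zero, zero_add, hP.lead]
    · simp
    · intro i hi
      rw [Nat.choose_eq_zero_of_lt (Finset.mem_range.1 hi)]
      simp
  refine ⟨?_, hlead, hP.ne⟩
  apply Polynomial.natDegree_eq_of_le_of_coeff_ne_zero
  · rw [Polynomial.natDegree_le_iff_coeff_eq_zero]
    intro N hN
    rw [PP, Polynomial.coeff_add, comp_coeff hP, Polynomial.coeff_C, if_neg (by omega), add_zero]
    apply Finset.sum_eq_zero
    intro i hi
    have := Finset.mem_range.1 hi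
    rw [Nat.choose_eq_zero_of_lt (by omega)]
    simp
  · rw [hlead]
    exact mono_ne hP.ne

private lemma PP_mid {q : ℕ} (hq : 2 ≤ q) {a : κ} {P : (Alg κ G)[X]} (hP : Pol q a P) :
    (PP q a P).coeff (q - 1) = 0 := by
  obtain ⟨n, rfl⟩ : ∃ n, q = n + 2 := ⟨q - 2, by omega⟩
  have hqa : (((n + 2 : ℕ) : κ) * a) ≠ 0 := mul_ne_zero (Nat.cast_ne_zero.2 (by omega)) hP.ne
  have e1 : n + 2 - 1 = n + 1 := by omega
  rw [e1, PP, Polynomial.coeff_add, comp_coeff hP, Polynomial.coeff_C, if_neg (by omega), add_zero,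
    Finset.sum_range_succ, Finset.sum_range_succ, Finset.sum_eq_zero, zero_add, hP.lead]
  · have e2 : n + 1 - (n + 1) = 0 := by omega
    have e3 : n + 2 - (n + 1) = 1 := by omega
    rw [e2, e3, pow_zero, pow_one, Nat.choose_self, Nat.cast_one, mul_one, mul_one]
    have e4 : (n + 2).choose (n + 1) = n + 2 := Nat.choose_succ_self_right (n + 1)
    rw [e4, tt, e1]
    have e5 : (mono 0 a * (mono 0 ((((n + 2 : ℕ) : κ) * a)⁻¹) * ((n + 2 : ℕ) : Alg κ G))
        : Alg κ G) = 1 := by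
      rw [AddMonoidAlgebra.natCast_def]
      have e6 : (mono 0 a * (mono 0 ((((n + 2 : ℕ) : κ) * a)⁻¹) * mono 0 ((n + 2 : ℕ) : κ))
        : Alg κ G) = 1 := by
        rw [mono_mul_mono, mono_mul_mono, zero_add, zero_add, ← mono_one]
        congr 1
        rw [mul_comm (((n + 2 : ℕ) : κ) * a)⁻¹, ← mul_assoc, mul_comm a,
          mul_inv_cancel₀ hqa]
      exact e6
    linear_combination (-(P.coeff (n + 1))) * e5
  · intro i hi
    rw [Nat.choose_eq_zero_of_lt (Finset.mem_range.1 hi)]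
    simp

private lemma PP_eval {q : ℕ} {a : κ} {P : (Alg κ G)[X]} (x : Alg κ G) :
    (PP q a P).eval (x + tt q a P) = P.eval x + theta q (tt q a P) := by
  rw [PP, Polynomial.eval_add, Polynomial.eval_comp, Polynomial.eval_sub, Polynomial.eval_X,
    Polynomial.eval_C, Polynomial.eval_C, add_sub_cancel_right]

private lemma PP_ev {q : ℕ} {a : κ} {P : (Alg κ G)[X]} (e : Multiplicative G →* κ) (m : ℕ)
    (x : κ) : ((PP q a P).map (ev e q m)).eval x =
      (P.map (ev e q m)).eval (x - ev e q m (tt q a P)) + ev e q (m + 1) (tt q a P) := by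
  rw [PP, Polynomial.map_add, Polynomial.map_comp, Polynomial.map_sub, Polynomial.map_X,
    Polynomial.map_C, Polynomial.map_C, Polynomial.eval_add, Polynomial.eval_comp,
    Polynomial.eval_sub, Polynomial.eval_X, Polynomial.eval_C, Polynomial.eval_C, ev_theta]

end center

section ultra

variable (W : Ultrafilter ℕ)

private instance : CharZero (Ul W κ) := by
  refine ⟨fun m n h => ?_⟩
  have h1 : ((fun _ => (m : κ) : ℕ → κ) : Ul W κ) = ((fun _ => (n : κ) : ℕ → κ) : Ul W κ) := h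
  have h2 := (Filter.Germ.coe_eq.1 h1).exists
  obtain ⟨_, h3⟩ := h2
  exact Nat.cast_injective (R := κ) h3

/-- The constants. -/
private def Cs : Submodule ℚ (Ul W G) where
  carrier := {x | ∃ ν : G, x = (↑ν : Ul W G)}
  add_mem' := by
    rintro _ _ ⟨x, rfl⟩ ⟨y, rfl⟩
    exact ⟨x + y, rfl⟩
  zero_mem' := ⟨0, rfl⟩
  smul_mem' := by
    rintro r _ ⟨x, rfl⟩
    exact ⟨r • x, rfl⟩

private lemma eval_germ (p : (Alg κ G)[X]) (f : ℕ → Alg κ G) (x : Alg (Ul W κ) (Ul W G))
    (hx : U2 W x = (f : Ul W (Alg κ G))) :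
    U2 W ((p.map (cst W)).eval x) = ((fun n => p.eval (f n) : ℕ → Alg κ G) : Ul W (Alg κ G)) := by
  induction p using Polynomial.induction_on' with
  | add p r hp hr =>
    rw [Polynomial.map_add, Polynomial.eval_add, map_add, hp, hr]
    apply congrArg (fun g : ℕ → Alg κ G => (g : Ul W (Alg κ G)))
    funext n
    exact (Polynomial.eval_add).symm
  | monomial n c =>
    rw [Polynomial.map_monomial, Polynomial.eval_monomial, map_mul, map_pow, hx, U2_cst]
    apply congrArg (fun g : ℕ → Alg κ G => (g : Ul W (Alg κ G)))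
    funext m
    exact (Polynomial.eval_monomial).symm

private lemma cst_ne {x : Alg κ G} (hx : x ≠ 0) : cst W x ≠ 0 := by
  intro h
  have h1 := U2_cst W x
  rw [h, map_zero] at h1
  have h2 : ((fun _ => (0 : Alg κ G) : ℕ → Alg κ G) : Ul W (Alg κ G)) =
      ((fun _ => x : ℕ → Alg κ G) : Ul W (Alg κ G)) := h1
  obtain ⟨_, h3⟩ := (Filter.Germ.coe_eq.1 h2).exists
  exact hx h3.symm

private lemma map_pol {q : ℕ} {a : κ} {P : (Alg κ G)[X]} (hP : Pol q a P) :
    Pol q (↑a : Ul W κ) (P.map (cst W)) := by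
  have h0 : (↑(0 : G) : Ul W G) = 0 := rfl
  have hlc : P.leadingCoeff ≠ 0 := by
    rw [Polynomial.leadingCoeff, hP.deg, hP.lead]
    exact mono_ne hP.ne
  refine ⟨?_, ?_, ?_⟩
  · rw [Polynomial.natDegree_map_of_leadingCoeff_ne_zero _ (cst_ne W hlc), hP.deg]
  · rw [Polynomial.coeff_map, hP.lead, cst_mono, h0]
  · intro h
    have h1 : ((fun _ => a : ℕ → κ) : Ul W κ) = ((fun _ => 0 : ℕ → κ) : Ul W κ) := h
    obtain ⟨_, h2⟩ := (Filter.Germ.coe_eq.1 h1).exists
    exact hP.ne h2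

private lemma mul_germ {x y : Alg (Ul W κ) (Ul W G)} {f g : ℕ → Alg κ G}
    (hx : U2 W x = (f : Ul W (Alg κ G))) (hy : U2 W y = (g : Ul W (Alg κ G))) :
    U2 W (x * y) = ((fun n => f n * g n : ℕ → Alg κ G) : Ul W (Alg κ G)) := by
  rw [map_mul, hx, hy]
  rfl

private lemma add_germ {x y : Alg (Ul W κ) (Ul W G)} {f g : ℕ → Alg κ G}
    (hx : U2 W x = (f : Ul W (Alg κ G))) (hy : U2 W y = (g : Ul W (Alg κ G))) :
    U2 W (x + y) = ((fun n => f n + g n : ℕ → Alg κ G) : Ul W (Alg κ G)) := by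
  rw [map_add, hx, hy]
  rfl

end ultra

/-- The final identity. -/
private lemma final_id {q : ℕ} {a : κ} {P : (Alg κ G)[X]} (hP : Pol q a P)
    (p : Alg κ G) (Q : ℕ → Alg κ G) (h : ∀ k, P.eval (Q (k + 1)) = theta q (Q k))
    (H : ∀ S : Finset G, ∃ k, 0 < k ∧ ∃ b ∉ S, ∃ c : κ, c ≠ 0 ∧
      Q k * mono b c = mono (2 • b) (c ^ 2) + p ∧
      Q (k - 1) * mono b (a * c ^ q) = mono (2 • b) ((a * c ^ q) ^ 2) + p) :
    (∑ l ∈ Finset.range (q + 1), C (P.coeff l) * X ^ (q - l) * (X ^ 2 + C p) ^ l) -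
      C (mono 0 a) * X ^ (2 * q) - C (mono 0 a⁻¹ * theta q p) = 0 := by
  classical
  set F : (Alg κ G)[X] := (∑ l ∈ Finset.range (q + 1), C (P.coeff l) * X ^ (q - l) *
    (X ^ 2 + C p) ^ l) - C (mono 0 a) * X ^ (2 * q) - C (mono 0 a⁻¹ * theta q p) with hF
  have haa : (mono 0 a * mono 0 a⁻¹ : Alg κ G) = 1 := by
    rw [mono_mul_mono, zero_add, mul_inv_cancel₀ hP.ne]
    rfl
  have key : ∀ k b c, 0 < k → c ≠ 0 → Q k * mono b c = mono (2 • b) (c ^ 2) + p →
      Q (k - 1) * mono b (a * c ^ q) = mono (2 • b) ((a * c ^ q) ^ 2) + p →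
      F.IsRoot (mono b c) := by
    intro k b c hk hc h1 h2
    have hunit : (mono (-b) c⁻¹ * mono b c : Alg κ G) = 1 := by
      rw [mono_mul_mono, neg_add_cancel, inv_mul_cancel₀ hc]
      rfl
    have e1 : (mono (2 • b) (c ^ 2) : Alg κ G) = mono b c ^ 2 := (mono_pow b c 2).symm
    have e2 : (mono (2 • b) ((a * c ^ q) ^ 2) : Alg κ G) = mono b (a * c ^ q) ^ 2 :=
      (mono_pow b _ 2).symm
    rw [e1] at h1
    rw [e2] at h2
    have h3 := congrArg (theta q) h2
    rw [map_mul, map_add, map_pow, theta_mono] at h3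
    have e3 : (mono (q • b) (a * c ^ q) : Alg κ G) = mono 0 a * mono b c ^ q := by
      rw [mono_pow, mono_mul_mono, zero_add]
    rw [e3] at h3
    have h4 := h (k - 1)
    rw [Nat.sub_add_cancel hk, Polynomial.eval_eq_sum_range, hP.deg] at h4
    rw [Polynomial.IsRoot.def, hF, Polynomial.eval_sub, Polynomial.eval_sub,
      Polynomial.eval_finsetSum, Polynomial.eval_mul, Polynomial.eval_C, Polynomial.eval_C,
      Polynomial.eval_pow, Polynomial.eval_X]
    have h5 : ∑ l ∈ Finset.range (q + 1), Polynomial.eval (mono b c)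
        (C (P.coeff l) * X ^ (q - l) * (X ^ 2 + C p) ^ l) =
        mono b c ^ q * theta q (Q (k - 1)) := by
      rw [← h4, Finset.mul_sum]
      refine Finset.sum_congr rfl fun l hl => ?_
      have hl' : l ≤ q := Nat.lt_succ_iff.1 (Finset.mem_range.1 hl)
      rw [Polynomial.eval_mul, Polynomial.eval_mul, Polynomial.eval_C, Polynomial.eval_pow,
        Polynomial.eval_X, Polynomial.eval_pow, Polynomial.eval_add, Polynomial.eval_pow,
        Polynomial.eval_X, Polynomial.eval_C, ← h1, mul_pow]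
      have e4 : (mono b c ^ q : Alg κ G) = mono b c ^ (q - l) * mono b c ^ l := by
        rw [← pow_add, Nat.sub_add_cancel hl']
      rw [e4]
      ring
    rw [h5]
    have e5 : (mono b c ^ (2 * q) : Alg κ G) = (mono b c ^ q) ^ 2 := by
      rw [mul_comm, pow_mul]
    rw [e5]
    linear_combination (mono 0 a⁻¹) * h3 -
      (mono b c ^ q * theta q (Q (k - 1)) - mono 0 a * (mono b c ^ q) ^ 2) * haa
  have hinf : Set.Infinite {x | F.IsRoot x} := by
    intro hfin
    obtain ⟨k, hk, b, hb, c, hc, h1, h2⟩ := H (hfin.toFinset.biUnion fun x => spt x)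
    apply hb
    rw [Finset.mem_biUnion]
    refine ⟨mono b c, hfin.mem_toFinset.2 (key k b c hk hc h1 h2), ?_⟩
    rw [Finsupp.mem_support_iff]
    have : (mono b c : Alg κ G).coeff b = c := by
      simp only [mono, AddMonoidAlgebra.coeff_single, Finsupp.single_eq_same]
    rw [this]
    exact hc
  exact Polynomial.eq_zero_of_infinite_isRoot F hinf

/-- The identity after an evaluation. -/
private lemma final_ev {q : ℕ} {a : κ} {P : (Alg κ G)[X]} (hP : Pol q a P) (p : Alg κ G)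
    (hF : (∑ l ∈ Finset.range (q + 1), C (P.coeff l) * X ^ (q - l) * (X ^ 2 + C p) ^ l) -
      C (mono 0 a) * X ^ (2 * q) - C (mono 0 a⁻¹ * theta q p) = 0)
    (e : Multiplicative G →* κ) (m : ℕ) (z : κ) (hz : z ≠ 0) :
    (P.map (ev e q m)).eval (z + ev e q m p / z) =
      a * z ^ q + ev e q (m + 1) p / (a * z ^ q) := by
  have h1 := congrArg (fun F : (Alg κ G)[X] => (F.map (ev e q m)).eval z) hF
  simp only [Polynomial.map_sub, Polynomial.map_sum, Polynomial.map_mul, Polynomial.map_C,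
    Polynomial.map_pow, Polynomial.map_X, Polynomial.map_add, Polynomial.map_zero,
    Polynomial.eval_sub, Polynomial.eval_finsetSum, Polynomial.eval_mul, Polynomial.eval_C,
    Polynomial.eval_pow, Polynomial.eval_X, Polynomial.eval_add, Polynomial.eval_zero] at h1
  rw [map_mul, ev_theta, ev_mono, ev_mono, ofAdd_zero, map_one, one_pow, mul_one, mul_one] at h1
  have hzq : z ^ q ≠ 0 := pow_ne_zero q hz
  have h2 : z ^ q * (P.map (ev e q m)).eval (z + ev e q m p / z) =
      ∑ l ∈ Finset.range (q + 1), ev e q m (P.coeff l) * z ^ (q - l) *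
        (z ^ 2 + ev e q m p) ^ l := by
    rw [Polynomial.eval_map, Polynomial.eval₂_eq_sum_range, hP.deg, Finset.mul_sum]
    refine Finset.sum_congr rfl fun l hl => ?_
    have hl' : l ≤ q := Nat.lt_succ_iff.1 (Finset.mem_range.1 hl)
    have e4 : z ^ q = z ^ (q - l) * z ^ l := by
      rw [← pow_add, Nat.sub_add_cancel hl']
    have e5 : z ^ 2 + ev e q m p = z * (z + ev e q m p / z) := by
      field_simp
    rw [e4, e5, mul_pow]
    ring
  rw [← h2] at h1
  have h3 : (P.map (ev e q m)).eval (z + ev e q m p / z) =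
      (a * z ^ (2 * q) + a⁻¹ * ev e q (m + 1) p) / z ^ q := by
    rw [eq_div_iff hzq]
    linear_combination h1
  rw [h3]
  have ha := hP.ne
  rw [mul_comm 2 q, pow_mul]
  field_simp

private lemma sub_spt {t : Alg κ G} {x : Alg κ G} {S : Finset G} [DecidableEq G]
    (h : spt (x + t) ⊆ S) : spt x ⊆ S ∪ spt t := by
  intro ν hν
  rw [Finset.mem_union]
  by_contra hcon
  push Not at hcon
  have h1 : ν ∉ spt (x + t) := fun h2 => hcon.1 (h h2)
  rw [Finsupp.mem_support_iff] at hν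
  rw [Finsupp.notMem_support_iff, AddMonoidAlgebra.coeff_add, Finsupp.add_apply] at h1
  have h3 := Finsupp.notMem_support_iff.1 hcon.2
  rw [h3, add_zero] at h1
  exact hν h1

theorem rig_seq {q : ℕ} (hq : 2 ≤ q) {a : κ} {P : (Alg κ G)[X]} (hP : Pol q a P)
    (Q : ℕ → Alg κ G) (h : ∀ k, P.eval (Q (k + 1)) = theta q (Q k)) (B : ℕ)
    (hB : ∀ k, (spt (Q k)).card ≤ B) :
    (∃ S : Finset G, ∀ N, ∃ k ≥ N, spt (Q k) ⊆ S) ∨
    ∃ t p : Alg κ G, (∀ S : Finset G, ∃ k, ∃ b ∉ S, ∃ c : κ, c ≠ 0 ∧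
        (Q k + t) * mono b c = mono (2 • b) (c ^ 2) + p) ∧
      ∀ (e : Multiplicative G →* κ) (m : ℕ) (z : κ), z ≠ 0 →
        (P.map (ev e q m)).eval (z + ev e q m p / z - ev e q m t) =
          a * z ^ q + ev e q (m + 1) p / (a * z ^ q) - ev e q (m + 1) t := by
  classical
  by_cases hcase : ∃ S : Finset G, ∀ N, ∃ k ≥ N, spt (Q k) ⊆ S
  · exact Or.inl hcase
  right
  push Not at hcase
  set t : Alg κ G := tt q a P with ht
  set P1 : (Alg κ G)[X] := PP q a P with hP1
  have hP1' : Pol q a P1 := PP_pol hq hP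
  let Q1 : ℕ → Alg κ G := fun k => Q k + t
  have hQ1 : ∀ k, P1.eval (Q1 (k + 1)) = theta q (Q1 k) := by
    intro k
    show P1.eval (Q (k + 1) + t) = theta q (Q k + t)
    rw [hP1, ht, PP_eval, h, map_add]
  set B1 : ℕ := B + (spt t).card with hB1
  have hQ1B : ∀ k, (spt (Q1 k)).card ≤ B1 := by
    intro k
    have h1 : spt (Q1 k) ⊆ spt (Q k) ∪ spt t := Finsupp.support_add
    refine (Finset.card_le_card h1).trans ((Finset.card_union_le _ _).trans ?_)
    exact Nat.add_le_add_right (hB k) _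
  let W : Ultrafilter ℕ := Filter.hyperfilter ℕ
  have hW : (W : Filter ℕ) ≤ atTop := by
    rw [← Nat.cofinite_eq_atTop]
    exact Filter.hyperfilter_le_cofinite
  have hWN : ∀ N : ℕ, ∀ᶠ k in (W : Filter ℕ), N ≤ k := fun N => hW (eventually_ge_atTop N)
  have hex : ∀ i : ℤ, ∃ E : Alg (Ul W κ) (Ul W G), (spt E).card ≤ B1 ∧
      U2 W E = ((fun k : ℕ => Q1 ((k : ℤ) + i).toNat : ℕ → Alg κ G) : Ul W (Alg κ G)) :=
    fun i => U2_surj W _ B1 (Filter.Eventually.of_forall fun k => hQ1B _)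
  choose E hEB hE using hex
  have hTwo : Two q (↑a : Ul W κ) (Cs W) (P1.map (cst W)) B1 E := by
    refine ⟨hq, map_pol W hP1', ?_, ?_, ?_, hEB⟩
    · rw [Polynomial.coeff_map, hP1, PP_mid hq hP, map_zero]
    · intro i ν hν
      rw [Polynomial.coeff_map] at hν
      obtain ⟨μ, _, h1⟩ := spt_cst W _ ν hν
      exact ⟨μ, h1⟩
    · intro i
      apply U2_injective W
      rw [eval_germ W P1 _ _ (hE i), U2_theta, hE (i - 1)]
      apply Filter.Germ.coe_eq.2
      filter_upwards [hWN (i.natAbs + 1)] with k hk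
      have h1 : ((k : ℤ) + i).toNat = ((k : ℤ) + (i - 1)).toNat + 1 := by omega
      show P1.eval (Q1 ((k : ℤ) + i).toNat) = theta q (Q1 ((k : ℤ) + (i - 1)).toNat)
      rw [h1]
      exact hQ1 _
  have hne : ∃ ν ∈ spt (E 0), ν ∉ Cs W := by
    by_contra hcon
    push Not at hcon
    obtain ⟨b, F, h1, h2, h3, -⟩ := U2_spec W (E 0)
    have h4 : ∀ i, ∃ ν : G, ((b i : ℕ → G) : Ul W G) = (↑ν : Ul W G) := fun i => hcon _ (h2 i)
    choose ν hν using h4
    have h5 : ∀ᶠ k in (W : Filter ℕ), ∀ i, b i k = ν i := by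
      rw [Filter.eventually_all]
      intro i
      exact Filter.Germ.coe_eq.1 (hν i)
    have h6 : ∀ᶠ k : ℕ in (W : Filter ℕ), Q1 ((k : ℤ) + 0).toNat = F k := by
      rw [hE 0] at h1
      exact Filter.Germ.coe_eq.1 h1
    obtain ⟨N, hN⟩ := hcase (Finset.univ.image ν ∪ spt t)
    obtain ⟨k, ⟨hk1, hk2⟩, hk3⟩ := ((h5.and h6).and (hWN N)).exists
    apply hN k hk3
    apply sub_spt
    have h7 : ((k : ℤ) + 0).toNat = k := by omega
    rw [h7] at hk2
    intro μ hμ
    have h8 : μ ∈ spt (F k) := by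
      rw [← hk2]
      exact hμ
    obtain ⟨i, hi⟩ := h3 k μ h8
    rw [hi, hk1 i]
    exact Finset.mem_image_of_mem ν (Finset.mem_univ i)
  obtain ⟨bh, hbh, c, hc⟩ := rigid hTwo hne
  set p : Alg κ G := mono 0 (-((q : κ) * a)⁻¹) * P1.coeff (q - 2) with hp
  obtain ⟨b, rfl⟩ : ∃ b : ℕ → G, (b : Ul W G) = bh :=
    Filter.Germ.inductionOn bh fun b => ⟨b, rfl⟩
  obtain ⟨c0, hc0⟩ : ∃ c0 : ℕ → κ, (c0 : Ul W κ) = c 0 :=
    Filter.Germ.inductionOn (c 0) fun b => ⟨b, rfl⟩
  have hpc : (mono 0 (-((q : Ul W κ) * (↑a : Ul W κ))⁻¹) * (P1.map (cst W)).coeff (q - 2) :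
      Alg (Ul W κ) (Ul W G)) = cst W p := by
    rw [hp, map_mul, cst_mono, Polynomial.coeff_map]
    rfl
  have hid : ∀ (i : ℤ) (f : ℕ → κ), (f : Ul W κ) = c i → ∀ᶠ k : ℕ in (W : Filter ℕ),
      Q1 ((k : ℤ) + i).toNat * mono (b k) (f k) = mono (2 • b k) (f k ^ 2) + p := by
    intro i f hf
    have h1 := congrArg (U2 W) (hc i).2.2
    rw [← hf, hpc] at h1
    have h2 := mul_germ W (hE i) (U2_mono W b f)
    rw [h2] at h1
    have h3 := add_germ W (U2_mono W (fun k => 2 • b k) (fun k => f k ^ 2)) (U2_cst W p)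
    exact Filter.Germ.coe_eq.1 (h1.trans h3)
  have hid0 := hid 0 c0 hc0
  have hid1 := hid (-1) (fun k => a * c0 k ^ q) (by
    have h1 := (hc 0).2.1
    rw [← hc0] at h1
    have h2 : (0 : ℤ) - 1 = -1 := by norm_num
    rw [h2] at h1
    rw [h1]
    rfl)
  have hcne : ∀ᶠ k in (W : Filter ℕ), c0 k ≠ 0 := by
    apply Ultrafilter.eventually_not.2
    intro h1
    apply (hc 0).1
    rw [← hc0]
    exact Filter.Germ.coe_eq.2 h1
  have hS : ∀ S : Finset G, ∀ᶠ k in (W : Filter ℕ), b k ∉ S := by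
    intro S
    have h1 : ∀ᶠ k in (W : Filter ℕ), ∀ s ∈ S, b k ≠ s := by
      rw [Filter.eventually_all_finset]
      intro s _
      apply Ultrafilter.eventually_not.2
      intro h2
      exact hbh ⟨s, Filter.Germ.coe_eq.2 h2⟩
    filter_upwards [h1] with k hk hmem
    exact hk _ hmem rfl
  have hall : ∀ S : Finset G, ∃ k, 0 < k ∧ ∃ b ∉ S, ∃ c : κ, c ≠ 0 ∧
      Q1 k * mono b c = mono (2 • b) (c ^ 2) + p ∧
      Q1 (k - 1) * mono b (a * c ^ q) = mono (2 • b) ((a * c ^ q) ^ 2) + p := by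
    intro S
    obtain ⟨k, ⟨⟨⟨hk1, hk2⟩, hk3⟩, hk4⟩, hk5⟩ :=
      ((((hid0.and hid1).and hcne).and (hS S)).and (hWN 1)).exists
    have e1 : ((k : ℤ) + 0).toNat = k := by omega
    have e2 : ((k : ℤ) + -1).toNat = k - 1 := by omega
    rw [e1] at hk1
    rw [e2] at hk2
    exact ⟨k, hk5, b k, hk4, c0 k, hk3, hk1, hk2⟩
  refine ⟨t, p, fun S => ?_, fun e m z hz => ?_⟩
  · obtain ⟨k, -, b', hb', c', hc', h1, -⟩ := hall S
    exact ⟨k, b', hb', c', hc', h1⟩
  · have h1 := final_ev hP1' p (final_id hP1' p Q1 hQ1 hall) e m z hz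
    rw [hP1, PP_ev, ← ht] at h1
    rw [← h1]
    ring

end Pool.Agent.Helper11.TS
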