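import Pool.Agent.Helper11.TS.Dom

/-!
# TS, module T7b: periodicity, special case
-/

set_option autoImplicit false

namespace Pool.Agent.Helper11.TS

open Polynomial Filter

/-- The orbit of `c` under `z ↦ a z^q`. -/
def specSeq {κ : Type} [Field κ] (a c : κ) (q : ℕ) : ℕ → κ
  | 0 => c
  | i + 1 => a * specSeq a c q i ^ q

lemma specSeq_ne {κ : Type} [Field κ] {a c : κ} (ha : a ≠ 0) (hc : c ≠ 0) (q i : ℕ) :
    specSeq a c q i ≠ 0 := by
  induction i with
  | zero => exact hc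
  | succ i ih => exact mul_ne_zero ha (pow_ne_zero _ ih)

lemma specSeq_add {κ : Type} [Field κ] (a c : κ) (q l i : ℕ) :
    specSeq a c q (i + l) = specSeq a (specSeq a c q l) q i := by
  induction i with
  | zero => rw [Nat.zero_add]; rfl
  | succ i ih =>
    rw [show i + 1 + l = (i + l) + 1 by ring]
    change a * specSeq a c q (i + l) ^ q = a * specSeq a (specSeq a c q l) q i ^ q
    rw [ih]

lemma specSeq_mul {κ : Type} [Field κ] {a c : κ} {q l : ℕ} (h : specSeq a c q l = c) (j : ℕ) :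
    specSeq a c q (j * l) = c := by
  induction j with
  | zero => rw [Nat.zero_mul]; rfl
  | succ j ih => rw [Nat.succ_mul, specSeq_add, h, ih]

lemma specSeq_log {κ : Type} [Field κ] (w : AbsoluteValue κ ℝ) {a c : κ} (ha : a ≠ 0)
    (hc : c ≠ 0) {q : ℕ} (hq : 2 ≤ q) (i : ℕ) :
    Real.log (w (specSeq a c q i)) =
      (q : ℝ) ^ i * (Real.log (w c) + Real.log (w a) / ((q : ℝ) - 1)) -
        Real.log (w a) / ((q : ℝ) - 1) := by
  have hq1 : (q : ℝ) - 1 ≠ 0 := by
    have : (2 : ℝ) ≤ (q : ℝ) := by exact_mod_cast hq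
    linarith
  induction i with
  | zero =>
    change Real.log (w c) = _
    rw [pow_zero]
    ring
  | succ i ih =>
    change Real.log (w (a * specSeq a c q i ^ q)) = _
    have h1 : w a ≠ 0 := w.ne_zero ha
    have h2 : w (specSeq a c q i) ≠ 0 := w.ne_zero (specSeq_ne ha hc q i)
    rw [map_mul, map_pow, Real.log_mul h1 (pow_ne_zero _ h2), Real.log_pow, ih]
    field_simp
    ring

section

variable {κ G : Type} [Field κ] [CharZero κ] [AddCommGroup G]

lemma spec_orbit (B : Base κ G) {a : κ} {P : (Alg κ G)[X]} {y : ℕ → κ} {t p : Alg κ G}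
    (hstep : ∀ m, y (m + 1) = (P.map (B.ev m)).eval (y m)) {b : G} {c : κ} (ha : a ≠ 0)
    (hc : c ≠ 0)
    (hid : ∀ (m : ℕ) (z : κ), z ≠ 0 →
        (P.map (B.ev m)).eval (z + B.ev m p / z - B.ev m t) =
          a * z ^ B.q + B.ev (m + 1) p / (a * z ^ B.q) - B.ev (m + 1) t) (m : ℕ)
    (h0 : y m + B.ev m t = c * B.e (Multiplicative.ofAdd b) ^ B.q ^ m +
      B.ev m p / (c * B.e (Multiplicative.ofAdd b) ^ B.q ^ m)) (i : ℕ) :
    y (m + i) + B.ev (m + i) t =
      specSeq a c B.q i * B.e (Multiplicative.ofAdd b) ^ B.q ^ (m + i) +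
      B.ev (m + i) p / (specSeq a c B.q i * B.e (Multiplicative.ofAdd b) ^ B.q ^ (m + i)) := by
  induction i with
  | zero => exact h0
  | succ i ih =>
    have hz : specSeq a c B.q i * B.e (Multiplicative.ofAdd b) ^ B.q ^ (m + i) ≠ 0 :=
      mul_ne_zero (specSeq_ne ha hc _ _) (pow_ne_zero _ (e_ne_zero B.e _))
    have h1 := hid (m + i) _ hz
    rw [← ih, add_sub_cancel_right, ← hstep] at h1
    have h2 : a * (specSeq a c B.q i * B.e (Multiplicative.ofAdd b) ^ B.q ^ (m + i)) ^ B.q =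
        specSeq a c B.q (i + 1) * B.e (Multiplicative.ofAdd b) ^ B.q ^ (m + i + 1) := by
      change _ = a * specSeq a c B.q i ^ B.q * _
      rw [mul_pow, ← pow_mul, ← pow_succ, mul_assoc]
    rw [h2] at h1
    rw [← add_assoc, h1, sub_add_cancel]

/-- The value of `Q + t` in terms of the monomial. -/
lemma spec_value (B : Base κ G) {R t p : Alg κ G} {b : G} {c : κ} (hc : c ≠ 0)
    (h : (R + t) * mono b c = mono (2 • b) (c ^ 2) + p) (m : ℕ) :
    B.ev m R + B.ev m t = c * B.e (Multiplicative.ofAdd b) ^ B.q ^ m +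
      B.ev m p / (c * B.e (Multiplicative.ofAdd b) ^ B.q ^ m) := by
  have hz : c * B.e (Multiplicative.ofAdd b) ^ B.q ^ m ≠ 0 :=
    mul_ne_zero hc (pow_ne_zero _ (e_ne_zero B.e _))
  have h1 := congrArg (B.ev m) h
  have h2 := ev_mono B.e B.q m b c
  have h3 := ev_mono B.e B.q m (2 • b) (c ^ 2)
  unfold Base.ev at h1 ⊢
  rw [map_mul, map_add, map_add, h2, h3, ofAdd_nsmul, map_pow] at h1
  refine mul_right_cancel₀ hz ?_
  rw [h1, add_mul (c * _), div_mul_cancel₀ _ hz]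
  ring

/-- A bound for the logarithm of the value of `p` at the level `m`. -/
lemma spec_log_bound (B : Base κ G) {p : Alg κ G} (hp : p ≠ 0) :
    ∃ ν : G, ∃ C : ℝ, ∀ᶠ m in atTop,
      |Real.log (B.w (B.ev m p)) - beta B.w B.e ν * (B.q : ℝ) ^ m| ≤ C := by
  obtain ⟨ν, -, h1, c, hc, h2⟩ := ev_dom B.w B.e B.hq B.inj hp
  obtain ⟨C, hC, h3⟩ := ev_bound B.w B.e B.q (E := p) (t := beta B.w B.e ν) h1
  refine ⟨ν, max |Real.log c| |Real.log C|, ?_⟩
  filter_upwards [h2] with m hm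
  have h4 : 0 < Real.exp (beta B.w B.e ν * (B.q : ℝ) ^ m) := Real.exp_pos _
  have h5 : 0 < B.w (B.ev m p) := lt_of_lt_of_le (mul_pos hc h4) hm
  have h6 := Real.log_le_log (mul_pos hc h4) hm
  have h7 := Real.log_le_log h5 (h3 m)
  rw [Real.log_mul hc.ne' h4.ne', Real.log_exp] at h6
  rw [Real.log_mul hC.ne' h4.ne', Real.log_exp] at h7
  have h8 := neg_abs_le (Real.log c)
  have h9 := le_abs_self (Real.log C)
  have h10 := le_max_left |Real.log c| |Real.log C|
  have h11 := le_max_right |Real.log c| |Real.log C|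
  rw [abs_le]
  constructor <;> linarith

/-- Two levels with the same monomial form: the coefficients agree. -/
lemma spec_return (B : Base κ G) {a c : κ} (ha : a ≠ 0) (hc : c ≠ 0) {p : Alg κ G} {b : G}
    (hb : ∀ ν : G, ∀ C : ℝ, (∀ᶠ m in atTop,
      |Real.log (B.w (B.ev m p)) - beta B.w B.e ν * (B.q : ℝ) ^ m| ≤ C) → 2 • b ≠ ν) :
    ∃ M : ℕ, ∀ m ≥ M, ∀ i : ℕ,
      specSeq a c B.q i * B.e (Multiplicative.ofAdd b) ^ B.q ^ (m + i) +
        B.ev (m + i) p / (specSeq a c B.q i * B.e (Multiplicative.ofAdd b) ^ B.q ^ (m + i)) =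
      c * B.e (Multiplicative.ofAdd b) ^ B.q ^ (m + i) +
        B.ev (m + i) p / (c * B.e (Multiplicative.ofAdd b) ^ B.q ^ (m + i)) →
      specSeq a c B.q i = c := by
  have key : ∀ z z' P : κ, z ≠ 0 → z' ≠ 0 → z + P / z = z' + P / z' → z = z' ∨ z * z' = P := by
    intro z z' P hz hz' h
    have h1 : (z - z') * (z * z' - P) = 0 := by
      field_simp at h
      linear_combination h
    rcases mul_eq_zero.1 h1 with h2 | h2
    · exact Or.inl (sub_eq_zero.1 h2)
    · exact Or.inr (sub_eq_zero.1 h2)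
  have heb : ∀ m, B.e (Multiplicative.ofAdd b) ^ m ≠ 0 := fun m =>
    pow_ne_zero _ (e_ne_zero B.e _)
  by_cases hp : p = 0
  · refine ⟨0, fun m _ i h => ?_⟩
    rcases key _ _ _ (mul_ne_zero (specSeq_ne ha hc _ _) (heb _)) (mul_ne_zero hc (heb _)) h
      with h1 | h1
    · exact mul_right_cancel₀ (heb _) h1
    · rw [hp, map_zero] at h1
      exact absurd h1 (mul_ne_zero (mul_ne_zero (specSeq_ne ha hc _ _) (heb _))
        (mul_ne_zero hc (heb _)))
  · obtain ⟨ν, C, hC⟩ := spec_log_bound B hp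
    have hne : 2 • b ≠ ν := hb ν C hC
    have hδ : beta B.w B.e (2 • b) - beta B.w B.e ν ≠ 0 := fun h => hne (B.inj (sub_eq_zero.1 h))
    set δ : ℝ := beta B.w B.e (2 • b) - beta B.w B.e ν with hδdef
    set A2 : ℝ := Real.log (B.w a) / ((B.q : ℝ) - 1) with hA2
    set A1 : ℝ := Real.log (B.w c) + A2 with hA1
    set C2 : ℝ := C + |Real.log (B.w c) - A2| with hC2
    have hq1 : (1 : ℝ) < (B.q : ℝ) := by
      have : 2 ≤ B.q := B.hq
      exact_mod_cast (by omega : 1 < B.q)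
    have h1 : ∀ᶠ m : ℕ in atTop, |A1| + C2 < |δ| * (B.q : ℝ) ^ m := by
      have h2 : Tendsto (fun m : ℕ => |δ| * (B.q : ℝ) ^ m) atTop atTop :=
        Tendsto.const_mul_atTop (abs_pos.2 hδ) (tendsto_pow_atTop_atTop_of_one_lt hq1)
      exact h2.eventually_gt_atTop _
    obtain ⟨M, hM⟩ := eventually_atTop.1 (h1.and hC)
    refine ⟨M, fun m hm i h => ?_⟩
    rcases key _ _ _ (mul_ne_zero (specSeq_ne ha hc _ _) (heb _)) (mul_ne_zero hc (heb _)) h
      with h2 | h2
    · exact mul_right_cancel₀ (heb _) h2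
    · exfalso
      have h3 := (hM m hm).1
      have h4 := (hM (m + i) (by omega)).2
      have hw1 : B.w (specSeq a c B.q i) ≠ 0 := B.w.ne_zero (specSeq_ne ha hc _ _)
      have hw2 : B.w c ≠ 0 := B.w.ne_zero hc
      have hw3 : B.w (B.e (Multiplicative.ofAdd b) ^ B.q ^ (m + i)) ≠ 0 := B.w.ne_zero (heb _)
      have h5 : Real.log (B.w (B.ev (m + i) p)) =
          Real.log (B.w (specSeq a c B.q i)) + Real.log (B.w c) +
            beta B.w B.e (2 • b) * (B.q : ℝ) ^ (m + i) := by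
        rw [← h2, map_mul, map_mul, map_mul, Real.log_mul (mul_ne_zero hw1 hw3)
          (mul_ne_zero hw2 hw3), Real.log_mul hw1 hw3, Real.log_mul hw2 hw3, w_e_pow,
          Real.log_exp, map_nsmul, nsmul_eq_mul]
        push_cast
        ring
      rw [h5, specSeq_log B.w ha hc B.hq i] at h4
      have h6 : (B.q : ℝ) ^ i * (Real.log (B.w c) + A2) - A2 + Real.log (B.w c) +
            beta B.w B.e (2 • b) * (B.q : ℝ) ^ (m + i) - beta B.w B.e ν * (B.q : ℝ) ^ (m + i) =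
          (B.q : ℝ) ^ i * (A1 + δ * (B.q : ℝ) ^ m) + (Real.log (B.w c) - A2) := by
        rw [hA1, hδdef, pow_add]
        ring
      rw [h6] at h4
      have h7 : |(B.q : ℝ) ^ i * (A1 + δ * (B.q : ℝ) ^ m)| ≤ C2 := by
        have h8 := abs_sub_abs_le_abs_sub ((B.q : ℝ) ^ i * (A1 + δ * (B.q : ℝ) ^ m))
          (-(Real.log (B.w c) - A2))
        rw [sub_neg_eq_add, abs_neg] at h8
        linarith
      have h9 : (1 : ℝ) ≤ (B.q : ℝ) ^ i := one_le_pow₀ hq1.le
      rw [abs_mul, abs_of_pos (lt_of_lt_of_le one_pos h9)] at h7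
      have h10 : |A1 + δ * (B.q : ℝ) ^ m| ≤ C2 := by
        refine le_trans ?_ h7
        exact le_mul_of_one_le_left (abs_nonneg _) h9
      have h11 := abs_sub_abs_le_abs_sub (δ * (B.q : ℝ) ^ m) (-A1)
      rw [sub_neg_eq_add, abs_neg, add_comm (δ * _) A1, abs_mul,
        abs_of_pos (pow_pos (lt_trans one_pos hq1) m)] at h11
      linarith

end

variable {κ G : Type} [Field κ] [CharZero κ] [IsAlgClosed κ] [Algebra.IsAlgebraic ℚ κ]
  [AddCommGroup G] [Module ℚ G]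

theorem spec_case (B : Base κ G) (a : κ) (P : (Alg κ G)[X]) (y : ℕ → κ) (hy : Orb B a P y)
    (U : Ultrafilter ℕ) (hU : (U : Filter ℕ) ≤ atTop) (Q : ℕ → Alg κ G)
    (hQ : ∀ k, ∀ᶠ n in (U : Filter ℕ), y (n - k) = B.ev (n - k) (Q k))
    (hP : ∀ k, P.eval (Q (k + 1)) = theta B.q (Q k)) (t p : Alg κ G)
    (hW : ∀ S : Finset G, ∃ k, ∃ b ∉ S, ∃ c : κ, c ≠ 0 ∧
        (Q k + t) * mono b c = mono (2 • b) (c ^ 2) + p)
    (hid : ∀ (m : ℕ) (z : κ), z ≠ 0 →
        (P.map (B.ev m)).eval (z + B.ev m p / z - B.ev m t) =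
          a * z ^ B.q + B.ev (m + 1) p / (a * z ^ B.q) - B.ev (m + 1) t) :
    ∃ l : ℕ, 1 ≤ l ∧ ∀ᶠ n in (U : Filter ℕ), ∀ j, y (n + j * l) = B.ev (n + j * l) (Q 0) := by
  classical
  have ha : a ≠ 0 := hy.pol.ne
  -- the exponents to be avoided
  obtain ⟨S, hS⟩ : ∃ S : Finset G, ∀ b ∉ S, ∀ ν : G, ∀ C : ℝ, (∀ᶠ m in atTop,
      |Real.log (B.w (B.ev m p)) - beta B.w B.e ν * (B.q : ℝ) ^ m| ≤ C) → 2 • b ≠ ν := by
    by_cases h : ∃ ν : G, ∃ C : ℝ, ∀ᶠ m in atTop,
      |Real.log (B.w (B.ev m p)) - beta B.w B.e ν * (B.q : ℝ) ^ m| ≤ C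
    · obtain ⟨ν, C, hC⟩ := h
      refine ⟨{(2 : ℚ)⁻¹ • ν}, fun b hb ν' C' hC' h2 => hb ?_⟩
      have hq1 : (1 : ℝ) < (B.q : ℝ) := by
        have : 2 ≤ B.q := B.hq
        exact_mod_cast (by omega : 1 < B.q)
      have h3 : beta B.w B.e ν = beta B.w B.e ν' := by
        by_contra hne
        have h4 : 0 < |beta B.w B.e ν - beta B.w B.e ν'| := abs_pos.2 (sub_ne_zero.2 hne)
        have h5 : Tendsto (fun m : ℕ => |beta B.w B.e ν - beta B.w B.e ν'| * (B.q : ℝ) ^ m)
            atTop atTop :=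
          Tendsto.const_mul_atTop h4 (tendsto_pow_atTop_atTop_of_one_lt hq1)
        obtain ⟨m, hm1, hm2, hm3⟩ := ((h5.eventually_gt_atTop (C + C')).and
          (hC.and hC')).exists
        have h6 : |beta B.w B.e ν - beta B.w B.e ν'| * (B.q : ℝ) ^ m =
            |(Real.log (B.w (B.ev m p)) - beta B.w B.e ν' * (B.q : ℝ) ^ m) -
              (Real.log (B.w (B.ev m p)) - beta B.w B.e ν * (B.q : ℝ) ^ m)| := by
          rw [show (Real.log (B.w (B.ev m p)) - beta B.w B.e ν' * (B.q : ℝ) ^ m) -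
              (Real.log (B.w (B.ev m p)) - beta B.w B.e ν * (B.q : ℝ) ^ m) =
              (beta B.w B.e ν - beta B.w B.e ν') * (B.q : ℝ) ^ m by ring, abs_mul,
            abs_of_pos (pow_pos (lt_trans one_pos hq1) m)]
        have h7 := abs_sub (Real.log (B.w (B.ev m p)) - beta B.w B.e ν' * (B.q : ℝ) ^ m)
          (Real.log (B.w (B.ev m p)) - beta B.w B.e ν * (B.q : ℝ) ^ m)
        linarith
      have h8 : ν = ν' := B.inj h3
      rw [Finset.mem_singleton, h8, ← h2, ← Nat.cast_smul_eq_nsmul ℚ, smul_smul]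
      norm_num
    · exact ⟨∅, fun b _ ν C hC => absurd ⟨ν, C, hC⟩ h⟩
  obtain ⟨k, b, hbS, c, hc, hk⟩ := hW S
  obtain ⟨M, hM⟩ := spec_return B ha hc (hS b hbS)
  have hval := spec_value B hc hk
  -- many levels
  have hT : ∀ N : ℕ, ∃ m ≥ N, y m = B.ev m (Q k) := by
    intro N
    obtain ⟨n, h1, h2⟩ := ((hQ k).and (hU (eventually_ge_atTop (N + k)))).exists
    have h3 : N + k ≤ n := h2
    exact ⟨n - k, by omega, h1⟩
  obtain ⟨m1, hm1, h1⟩ := hT M
  obtain ⟨m2, hm2, h2⟩ := hT (m1 + 1)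
  have horb := spec_orbit B (P := P) (y := y) (t := t) (p := p) hy.step (b := b) ha hc hid
  have h3 : specSeq a c B.q (m2 - m1) = c := by
    have h4 := horb m1 (by rw [h1]; exact hval m1) (m2 - m1)
    refine hM m1 hm1 (m2 - m1) ?_
    rw [← h4, show m1 + (m2 - m1) = m2 by omega, h2]
    exact hval m2
  refine ⟨m2 - m1, by omega, ?_⟩
  filter_upwards [hQ k, hU (eventually_ge_atTop k)] with n hn hnk j
  have hnk' : k ≤ n := hnk
  have h5 : y (n - k + j * (m2 - m1)) = B.ev (n - k + j * (m2 - m1)) (Q k) := by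
    have h6 := horb (n - k) (by rw [hn]; exact hval _) (j * (m2 - m1))
    rw [specSeq_mul h3 j, ← hval] at h6
    exact add_right_cancel h6
  have h7 := ev_pit B.e B.q P y hy.step k (n - k + j * (m2 - m1))
  have h8 := pit_tower B.q P Q hP k 0
  rw [h5, Nat.zero_add] at *
  rw [Polynomial.eval_map, Polynomial.eval₂_at_apply, h8, ev_theta_iter] at h7
  rw [show n + j * (m2 - m1) = n - k + j * (m2 - m1) + k by omega]
  exact h7.symm

end Pool.Agent.Helper11.TS
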