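import Pool.Agent.Helper11.TS.Dom
import Pool.Agent.Helper11.TS.Cnt

/-!
# TS, module T7a: periodicity, standard case
-/

set_option autoImplicit false

namespace Pool.Agent.Helper11.TS

open Polynomial Filter

/-- A number field that contains `K` and the values `e(ν)`, `ν` in a finite set. -/
lemma std_field {κ G : Type} [Field κ] [CharZero κ] [Algebra.IsAlgebraic ℚ κ]
    [AddCommGroup G] (e : Multiplicative G →* κ) (K : IntermediateField ℚ κ)
    (hK : FiniteDimensional ℚ K) (S : Finset G) :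
    ∃ L : IntermediateField ℚ κ, FiniteDimensional ℚ L ∧ (∀ x ∈ K, x ∈ L) ∧
      ∀ ν ∈ S, e (Multiplicative.ofAdd ν) ∈ L := by
  classical
  have h1 : FiniteDimensional ℚ
      (IntermediateField.adjoin ℚ ((S.image fun ν => e (Multiplicative.ofAdd ν) : Finset κ) :
        Set κ)) :=
    IntermediateField.finiteDimensional_adjoin fun x _ =>
      (Algebra.IsAlgebraic.isAlgebraic x).isIntegral
  refine ⟨K ⊔ IntermediateField.adjoin ℚ
    ((S.image fun ν => e (Multiplicative.ofAdd ν) : Finset κ) : Set κ),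
    IntermediateField.finiteDimensional_sup _ _, fun x hx => ?_, fun ν hν => ?_⟩
  · exact (le_sup_left : K ≤ _) hx
  · refine (le_sup_right : IntermediateField.adjoin ℚ _ ≤ _) ?_
    refine IntermediateField.subset_adjoin ℚ _ ?_
    rw [Finset.mem_coe]
    exact Finset.mem_image_of_mem _ hν

/-- If the values of `E` at the levels `n - k` lie in `L` then the coefficients lie in `L`. -/
lemma std_coeff {κ G : Type} [Field κ] [CharZero κ] [AddCommGroup G] (B : Base κ G)
    (U : Ultrafilter ℕ) (hU : (U : Filter ℕ) ≤ atTop) (L : IntermediateField ℚ κ) (S : Finset G)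
    (hL : ∀ ν ∈ S, B.e (Multiplicative.ofAdd ν) ∈ L) (E : Alg κ G) (hE : spt E ⊆ S) (k : ℕ)
    (h : ∀ᶠ n in (U : Filter ℕ), B.ev (n - k) E ∈ L) (ν : G) : E.coeff ν ∈ L := by
  classical
  obtain ⟨s, hs⟩ := LinearMap.exists_leftInverse_of_injective (Algebra.linearMap L κ) (by
    rw [LinearMap.ker_eq_bot]
    exact (algebraMap L κ).injective)
  have hs1 : ∀ x : L, s (x : κ) = x := fun x => LinearMap.congr_fun hs x
  have hs2 : ∀ (x : κ) (z : L), s (x * (z : κ)) = s x * z := by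
    intro x z
    have h1 : x * (z : κ) = z • x := by
      rw [mul_comm]
      rfl
    rw [h1, map_smul, smul_eq_mul, mul_comm]
  set E' : Alg κ G := AddMonoidAlgebra.ofCoeff
    (E.coeff.mapRange (fun c => ((s c : L) : κ)) (by rw [map_zero]; rfl)) with hE'
  have hc : ∀ μ, E'.coeff μ = ((s (E.coeff μ) : L) : κ) := fun μ => rfl
  have hsub : spt E' ⊆ spt E := by
    intro μ hμ
    rw [Finsupp.mem_support_iff] at hμ ⊢
    intro h0
    apply hμ
    rw [hc, h0, map_zero]
    rfl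
  have hev : ∀ m, B.ev m E ∈ L → B.ev m E = B.ev m E' := by
    intro m hm
    have e1 : B.ev m E = ∑ μ ∈ spt E, E.coeff μ * B.e (Multiplicative.ofAdd μ) ^ B.q ^ m :=
      ev_eq_sum B.e B.q m E
    have e2 : B.ev m E' = ∑ μ ∈ spt E, E'.coeff μ * B.e (Multiplicative.ofAdd μ) ^ B.q ^ m := by
      have e3 : B.ev m E' = ∑ μ ∈ spt E', E'.coeff μ * B.e (Multiplicative.ofAdd μ) ^ B.q ^ m :=
        ev_eq_sum B.e B.q m E'
      rw [e3]
      refine Finset.sum_subset hsub fun μ _ hμ => ?_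
      rw [Finsupp.notMem_support_iff.1 hμ, zero_mul]
    have e4 : s (B.ev m E) = ⟨B.ev m E, hm⟩ := hs1 ⟨B.ev m E, hm⟩
    have e5 : ((s (B.ev m E) : L) : κ) = B.ev m E' := by
      rw [e2]
      conv_lhs => rw [e1]
      rw [map_sum, ← IntermediateField.coe_val, map_sum]
      refine Finset.sum_congr rfl fun μ hμ => ?_
      have e6 := hs2 (E.coeff μ) ⟨B.e (Multiplicative.ofAdd μ) ^ B.q ^ m,
        pow_mem (hL μ (hE hμ)) _⟩
      have e7 : s (E.coeff μ * B.e (Multiplicative.ofAdd μ) ^ B.q ^ m) =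
        s (E.coeff μ) * ⟨B.e (Multiplicative.ofAdd μ) ^ B.q ^ m, pow_mem (hL μ (hE hμ)) _⟩ := e6
      rw [e7, map_mul]
      rfl
    rw [← e5, e4]
  have hEE : E = E' := by
    refine ev_ext B.w B.e B.hq B.inj (U := U.map fun n => n - k) ?_ ?_
    · rw [Ultrafilter.coe_map]
      exact (tendsto_sub_atTop_nat k).mono_left hU
    · rw [Ultrafilter.coe_map, eventually_map]
      exact h.mono fun n hn => hev _ hn
  rw [hEE, hc]
  exact (s (E.coeff ν)).2

theorem std_case {κ G : Type} [Field κ] [CharZero κ] [IsAlgClosed κ] [Algebra.IsAlgebraic ℚ κ]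
    [AddCommGroup G] [Module ℚ G] (B : Base κ G) (a : κ) (P : (Alg κ G)[X]) (y : ℕ → κ) (hy : Orb B a P y)
    (U : Ultrafilter ℕ) (hU : (U : Filter ℕ) ≤ atTop) (Q : ℕ → Alg κ G)
    (hQ : ∀ k, ∀ᶠ n in (U : Filter ℕ), y (n - k) = B.ev (n - k) (Q k))
    (hP : ∀ k, P.eval (Q (k + 1)) = theta B.q (Q k))
    (D : ℕ) (hD : 0 < D) (hI : ∀ k ν, IsIntegral ℤ ((D : κ) * (Q k).coeff ν)) (C : ℝ)
    (hC : ∀ (τ : κ →+* ℂ) (k : ℕ), ∑ ν ∈ spt (Q k), ‖τ ((Q k).coeff ν)‖ ^ 2 ≤ C)
    (S : Finset G) (hS : ∀ N, ∃ k ≥ N, spt (Q k) ⊆ S) :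
    ∃ l : ℕ, 1 ≤ l ∧ ∀ᶠ n in (U : Filter ℕ), ∀ j, y (n + j * l) = B.ev (n + j * l) (Q 0) := by
  classical
  obtain ⟨L, hLfin, hKL, hL⟩ := std_field B.e B.K B.fin S
  have hfin := finite_box L S D hD (1 + C)
  have hinf : {k | spt (Q k) ⊆ S}.Infinite := by
    rw [Set.infinite_iff_exists_gt]
    intro N
    obtain ⟨k, hk, hk'⟩ := hS (N + 1)
    exact ⟨k, hk', by omega⟩
  obtain ⟨k, hk, k', hk', hkk, heq⟩ := hinf.exists_lt_map_eq_of_mapsTo (f := Q) (by
    intro k hk
    refine ⟨hk, fun ν => ?_, fun ν => hI k ν, fun τ ν => ?_⟩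
    · refine std_coeff B U hU L S hL (Q k) hk k ?_ ν
      refine (hQ k).mono fun n hn => ?_
      rw [← hn]
      exact hKL _ (hy.mem _)
    · have hC0 : 0 ≤ C := le_trans (Finset.sum_nonneg fun _ _ => by positivity) (hC τ k)
      by_cases hν : ν ∈ spt (Q k)
      · have h1 : ‖τ ((Q k).coeff ν)‖ ^ 2 ≤ C :=
          (Finset.single_le_sum (f := fun ν => ‖τ ((Q k).coeff ν)‖ ^ 2)
            (fun _ _ => by positivity) hν).trans (hC τ k)
        nlinarith [sq_nonneg (‖τ ((Q k).coeff ν)‖ - 1), norm_nonneg (τ ((Q k).coeff ν))]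
      · rw [Finsupp.notMem_support_iff.1 hν, map_zero, norm_zero]
        linarith) hfin
  obtain ⟨l, rfl⟩ : ∃ l, k' = k + l := ⟨k' - k, by omega⟩
  have h1 : (pit B.q P l).eval (Q k) = (theta B.q)^[l] (Q k) := by
    have := pit_tower B.q P Q hP l k
    rwa [← heq] at this
  have h2 : (pit B.q P (k + l)).eval (Q k) = (theta B.q)^[k + l] (Q 0) := by
    have := pit_tower B.q P Q hP (k + l) 0
    rwa [Nat.zero_add, ← heq] at this
  have hstep : ∀ n m, ((pit B.q P n).map (B.ev m)).eval (y m) = y (m + n) :=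
    ev_pit B.e B.q P y hy.step
  have hev : ∀ (R : (Alg κ G)[X]) (m : ℕ) (E : Alg κ G),
      (R.map (B.ev m)).eval (B.ev m E) = B.ev m (R.eval E) := by
    intro R m E
    rw [Polynomial.eval_map, Polynomial.eval₂_at_apply]
  refine ⟨l, by omega, ?_⟩
  filter_upwards [hQ (k + l), hU (eventually_ge_atTop (k + l))] with n hn hn'
  have hn2 : k + l ≤ n := hn'
  obtain ⟨m, rfl⟩ : ∃ m, n = m + (k + l) := ⟨n - (k + l), by omega⟩
  rw [Nat.add_sub_cancel, ← heq] at hn
  have h3 : ∀ j, y (m + j * l) = B.ev (m + j * l) (Q k) := by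
    intro j
    induction j with
    | zero => simpa using hn
    | succ j ih =>
      have e1 : m + (j + 1) * l = (m + j * l) + l := by ring
      rw [e1, ← hstep l (m + j * l), ih, hev, h1]
      exact ev_theta_iter B.e B.q _ _ _
  intro j
  have e2 : m + (k + l) + j * l = (m + j * l) + (k + l) := by ring
  rw [e2, ← hstep (k + l) (m + j * l), h3 j, hev, h2]
  exact ev_theta_iter B.e B.q _ _ _

end Pool.Agent.Helper11.TS
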