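import Pool.Agent.Helper11.TS.Tower
import Pool.Agent.Helper11.TS.Int
import Pool.Agent.Helper11.TS.Pars
import Pool.Agent.Helper11.TS.RigA
import Pool.Agent.Helper11.TS.Std
import Pool.Agent.Helper11.TS.Spec

/-!
# TS, module T8: the level theorem for one coordinate
-/

set_option autoImplicit false

namespace Pool.Agent.Helper11.TS

open Polynomial Filter

theorem level {κ G : Type} [Field κ] [CharZero κ] [IsAlgClosed κ] [Algebra.IsAlgebraic ℚ κ]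
    [AddCommGroup G] [Module ℚ G] (B : Base κ G) (a : κ) (P : (Alg κ G)[X]) (y : ℕ → κ)
    (hy : Orb B a P y) (U : Ultrafilter ℕ) (hU : (U : Filter ℕ) ≤ atTop) (R : (Alg κ G)[X])
    (hR : R ≠ 0) (h : ∀ᶠ m in (U : Filter ℕ), (R.map (B.ev m)).eval (y m) = 0) :
    ∃ l : ℕ, 1 ≤ l ∧ ∃ Q : Alg κ G,
      ∀ᶠ n in (U : Filter ℕ), ∀ j, y (n + j * l) = B.ev (n + j * l) Q := by
  obtain ⟨Q, hQ, hP⟩ := tower B a P y hy U hU R hR h
  obtain ⟨D, hD, hI⟩ := tower_int (beta B.w B.e) B.inj B.hq hy.pol Q hP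
  obtain ⟨C, hC0, hC⟩ := tower_bd (beta B.w B.e) B.inj B.hq hy.pol Q hP
  obtain ⟨N, hN⟩ := card_spt (κ := κ) (G := G) D hD C
  rcases rig_seq B.hq hy.pol Q hP N (fun k => hN _ (hI k) fun τ => hC τ k) with ⟨S, hS⟩ | h1
  · obtain ⟨l, hl, h2⟩ := std_case B a P y hy U hU Q hQ hP D hD hI C hC S hS
    exact ⟨l, hl, Q 0, h2⟩
  · obtain ⟨t, p, hW, hid⟩ := h1
    obtain ⟨l, hl, h2⟩ := spec_case B a P y hy U hU Q hQ hP t p hW fun m z hz => hid B.e m z hz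
    exact ⟨l, hl, Q 0, h2⟩

end Pool.Agent.Helper11.TS
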