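import Pool.Agent.Helper11.TS.Defs

/-!
# TS, module T10a: construction of the standing data
-/

set_option autoImplicit false

namespace Pool.Agent.Helper11.TS

open Filter

lemma ori_zpow {κ : Type} [Field κ] [CharZero κ] [IsAlgClosed κ] {n : ℤ} (hn : n ≠ 0) (x : κˣ) :
    ∃ y : κˣ, y ^ n = x := by
  obtain ⟨z, hz⟩ := IsAlgClosed.exists_pow_nat_eq (x : κ) (Int.natAbs_pos.2 hn)
  have hz0 : z ≠ 0 := by
    rintro rfl
    rw [zero_pow (Int.natAbs_ne_zero.2 hn)] at hz
    exact x.ne_zero hz.symm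
  have h1 : (Units.mk0 z hz0) ^ n.natAbs = x := Units.ext (by simpa using hz)
  rcases Int.natAbs_eq n with h | h
  · refine ⟨Units.mk0 z hz0, ?_⟩
    rw [h, zpow_natCast]
    exact h1
  · refine ⟨(Units.mk0 z hz0)⁻¹, ?_⟩
    rw [h, zpow_neg, inv_zpow, inv_inv, zpow_natCast]
    exact h1

lemma ori_den {κ : Type} [Field κ] [CharZero κ] [Algebra.IsAlgebraic ℚ κ] (x : κ) :
    ∃ D : ℕ, 0 < D ∧ IsIntegral ℤ ((D : κ) * x) := by
  have h1 : IsAlgebraic ℤ x :=
    (IsFractionRing.isAlgebraic_iff ℤ ℚ κ).2 (Algebra.IsAlgebraic.isAlgebraic x)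
  obtain ⟨y, hy, h2⟩ := h1.exists_integral_multiple
  refine ⟨y.natAbs, Int.natAbs_pos.2 hy, ?_⟩
  have h3 : ((y.natAbs : ℕ) : κ) = ((y.natAbs : ℤ) : κ) := by simp
  rw [zsmul_eq_mul] at h2
  rcases Int.natAbs_eq y with h | h
  · rw [h3, ← h]
    exact h2
  · have h4 : ((y.natAbs : ℤ) : κ) * x = -((y : κ) * x) := by
      have h5 : (y.natAbs : ℤ) = -y := by omega
      rw [h5]
      push_cast
      ring
    rw [h3, h4]
    exact h2.neg

/-- Let `a_0, ..., a_N` be elements of `K` such that an element of the group generated by those nonzero `a_i` with `i ≤ r` which has absolute value `1` is a root of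
unity. Then there is a system of standing data for which these `a_i` are roots of unity times
values of `e`. -/
theorem exists_base {κ : Type} [Field κ] [CharZero κ] [IsAlgClosed κ] [Algebra.IsAlgebraic ℚ κ]
    {N : ℕ} (r d : ℕ) (hd : 2 ≤ d) (K : IntermediateField ℚ κ) [FiniteDimensional ℚ K]
    (a : Fin (N + 1) → κ) (haK : ∀ i, a i ∈ K) (w : AbsoluteValue κ ℝ) (hw : IsPl w)
    (hG : ∀ m : Fin (N + 1) → ℤ, (∀ i, m i ≠ 0 → (i : ℕ) ≤ r ∧ a i ≠ 0) →
      w (∏ i, a i ^ m i) = 1 → ∃ k : ℕ, 0 < k ∧ (∏ i, a i ^ m i) ^ k = 1) :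
    ∃ (G : Type) (_ : AddCommGroup G) (_ : Module ℚ G) (B : Base κ G), B.q = d ∧ B.K = K ∧
      ∃ (ν : Fin (N + 1) → G) (ω : Fin (N + 1) → κ), ∀ i : Fin (N + 1), (i : ℕ) ≤ r →
        a i = 0 ∨ ((∃ k : ℕ, 0 < k ∧ ω i ^ k = 1) ∧
          a i = ω i * B.e (Multiplicative.ofAdd (ν i))) := by
  classical
  -- the units
  let u : Fin (N + 1) → κˣ := fun i => if h : (i : ℕ) ≤ r ∧ a i ≠ 0 then Units.mk0 (a i) h.2 else 1
  have hu1 : ∀ i : Fin (N + 1), ((i : ℕ) ≤ r ∧ a i ≠ 0) → ((u i : κˣ) : κ) = a i := by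
    intro i h
    simp only [u]
    rw [dif_pos h]
    rfl
  have hu2 : ∀ i : Fin (N + 1), ¬ ((i : ℕ) ≤ r ∧ a i ≠ 0) → ((u i : κˣ) : κ) = 1 := by
    intro i h
    simp only [u]
    rw [dif_neg h]
    rfl
  have huK : ∀ i : Fin (N + 1), ((u i : κˣ) : κ) ∈ K := by
    intro i
    by_cases h : (i : ℕ) ≤ r ∧ a i ≠ 0
    · rw [hu1 i h]
      exact haK i
    · rw [hu2 i h]
      exact K.one_mem
  -- the homomorphism from the exponents
  let A : (Fin (N + 1) → ℤ) →ₗ[ℤ] Additive κˣ :=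
    Fintype.linearCombination ℤ (fun i => Additive.ofMul (u i))
  have hA : ∀ m, (((A m).toMul : κˣ) : κ) = ∏ i, ((u i : κˣ) : κ) ^ m i := by
    intro m
    simp only [A]
    rw [Fintype.linearCombination_apply]
    rw [toMul_sum, Units.coe_prod]
    refine Finset.prod_congr rfl fun i _ => ?_
    rw [toMul_zsmul, toMul_ofMul, Units.val_zpow_eq_zpow_val]
  let lw : Additive κˣ →+ ℝ :=
    { toFun := fun x => Real.log (w ((x.toMul : κˣ) : κ))
      map_zero' := by simp
      map_add' := fun x y => by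
        rw [toMul_add, Units.val_mul, map_mul, Real.log_mul]
        · exact (w.ne_zero_iff).2 (Units.ne_zero _)
        · exact (w.ne_zero_iff).2 (Units.ne_zero _) }
  have hlw : ∀ x : Additive κˣ, lw x = Real.log (w ((x.toMul : κˣ) : κ)) := fun x => rfl
  let L : (Fin (N + 1) → ℤ) →ₗ[ℤ] ℝ := lw.toIntLinearMap ∘ₗ A
  have hL : ∀ m, L m = lw (A m) := fun m => rfl
  let H : Submodule ℤ ℝ := LinearMap.range L
  have : Module.Finite ℤ H := by
    simp only [H]
    infer_instance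
  have : Module.Free ℤ H := Module.free_of_finite_type_torsion_free'
  obtain ⟨s0, hs0⟩ := Module.projective_lifting_property L.rangeRestrict
    (LinearMap.id : H →ₗ[ℤ] H) L.surjective_rangeRestrict
  have hs1 : ∀ h : H, lw (A (s0 h)) = (h : ℝ) := by
    intro h
    have h1 := LinearMap.congr_fun hs0 h
    have h2 := congrArg (fun t : H => (t : ℝ)) h1
    exact h2
  let G : Submodule ℚ ℝ := Submodule.span ℚ (H : Set ℝ)
  have hHG : ∀ h : H, (h : ℝ) ∈ G := fun h => Submodule.subset_span h.2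
  let ι : H →+ G :=
    { toFun := fun h => ⟨(h : ℝ), hHG h⟩
      map_zero' := rfl
      map_add' := fun x y => rfl }
  have hι : Function.Injective ι := by
    intro x y hxy
    have h1 := congrArg (fun t : G => (t : ℝ)) hxy
    exact Subtype.ext h1
  let _ : DivisibleBy (Additive κˣ) ℤ :=
    divisibleByOfSMulRightSurj _ _ (fun {n} hn x => by
      obtain ⟨y, hy⟩ := ori_zpow hn (Additive.toMul x)
      exact ⟨Additive.ofMul y, congrArg Additive.ofMul hy⟩)
  obtain ⟨e1, he1⟩ := (Module.Baer.of_divisible (Additive κˣ)).extension_property_addMonoidHom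
    ι hι (A ∘ₗ s0).toAddMonoidHom
  have he2 : ∀ h : H, e1 (ι h) = A (s0 h) := fun h => DFunLike.congr_fun he1 h
  let e : Multiplicative G →* κ := (Units.coeHom κ).comp (AddMonoidHom.toMultiplicativeLeft e1)
  have he : ∀ ν : G, e (Multiplicative.ofAdd ν) = (((e1 ν).toMul : κˣ) : κ) := fun ν => rfl
  -- multiples lie in `H`
  have hD' : ∀ x : ℝ, x ∈ G → ∃ D : ℕ, 0 < D ∧ ((D : ℝ) * x) ∈ H := by
    intro x hx
    refine Submodule.span_induction (p := fun x _ => ∃ D : ℕ, 0 < D ∧ ((D : ℝ) * x) ∈ H)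
      ?_ ?_ ?_ ?_ hx
    · intro x hx
      exact ⟨1, one_pos, by simpa using hx⟩
    · exact ⟨1, one_pos, by simp⟩
    · rintro x y - - ⟨D, hD, h1⟩ ⟨D', hD', h2⟩
      refine ⟨D * D', Nat.mul_pos hD hD', ?_⟩
      have h3 : ((D * D' : ℕ) : ℝ) * (x + y) = (D' : ℤ) • ((D : ℝ) * x) + (D : ℤ) • ((D' : ℝ) * y) := by
        simp only [zsmul_eq_mul]
        push_cast
        ring
      rw [h3]
      exact H.add_mem (H.smul_mem _ h1) (H.smul_mem _ h2)
    · rintro c x - ⟨D, hD, h1⟩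
      refine ⟨D * c.den, Nat.mul_pos hD c.den_pos, ?_⟩
      have h3 : ((D * c.den : ℕ) : ℝ) * (c • x) = c.num • ((D : ℝ) * x) := by
        rw [Rat.smul_def, zsmul_eq_mul]
        have h4 : ((c.den : ℕ) : ℝ) * (c : ℝ) = (c.num : ℝ) := by
          have h5 : ((c.den : ℕ) : ℚ) * c = (c.num : ℚ) := by
            rw [mul_comm]
            exact Rat.mul_den_eq_num c
          exact_mod_cast h5
        push_cast
        rw [← h4]
        ring
      rw [h3]
      exact H.smul_mem _ h1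
  have hD : ∀ ν : G, ∃ D : ℕ, 0 < D ∧ ∃ h : H, ι h = D • ν := by
    intro ν
    obtain ⟨D, hD, h1⟩ := hD' ν ν.2
    refine ⟨D, hD, ⟨_, h1⟩, ?_⟩
    apply Subtype.ext
    simp [ι, nsmul_eq_mul]
  have hpow : ∀ (ν : G) (D : ℕ), e (Multiplicative.ofAdd ν) ^ D =
      e (Multiplicative.ofAdd (D • ν)) := by
    intro ν D
    rw [ofAdd_nsmul, map_pow]
  have hprod : ∀ ν : G, ∃ D : ℕ, 0 < D ∧ ∃ m : Fin (N + 1) → ℤ,
      e (Multiplicative.ofAdd ν) ^ D = ∏ i, ((u i : κˣ) : κ) ^ m i := by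
    intro ν
    obtain ⟨D, hD0, h, hh⟩ := hD ν
    refine ⟨D, hD0, s0 h, ?_⟩
    rw [hpow, ← hh, he, he2, hA]
  have hβ : ∀ ν : G, beta w e ν = (ν : ℝ) := by
    intro ν
    obtain ⟨D, hD0, h, hh⟩ := hD ν
    have h1 : beta w e (D • ν) = (D : ℝ) * (ν : ℝ) := by
      rw [← hh, beta_apply, he, he2, ← hlw, hs1]
      have h2 := congrArg (fun t : G => (t : ℝ)) hh
      simpa [ι, nsmul_eq_mul] using h2
    rw [map_nsmul, nsmul_eq_mul] at h1
    have h3 : (D : ℝ) ≠ 0 := by
      exact_mod_cast hD0.ne'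
    exact mul_left_cancel₀ h3 h1
  -- denominators
  choose Dn hDn0 hDn1 using (ori_den (κ := κ))
  let P0 : ℕ := ∏ i : Fin (N + 1), Dn ((u i : κˣ) : κ) * Dn (((u i : κˣ) : κ)⁻¹)
  have hP0 : 0 < P0 := Finset.prod_pos fun i _ => Nat.mul_pos (hDn0 _) (hDn0 _)
  have hint0 : ∀ (D : ℕ) (x : κ), D ∣ P0 → IsIntegral ℤ ((D : κ) * x) →
      IsIntegral ℤ ((P0 : κ) * x) := by
    rintro D x ⟨c, hc⟩ h1
    have h2 : (P0 : κ) * x = (c : κ) * ((D : κ) * x) := by
      rw [hc]
      push_cast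
      ring
    rw [h2]
    have h3 : IsIntegral ℤ (c : κ) := by
      simpa using isIntegral_algebraMap (R := ℤ) (A := κ) (x := (c : ℤ))
    exact h3.mul h1
  have hint1 : ∀ i, IsIntegral ℤ ((P0 : κ) * ((u i : κˣ) : κ)) := by
    intro i
    refine hint0 _ _ ?_ (hDn1 _)
    exact (Dvd.intro _ rfl).trans (Finset.dvd_prod_of_mem
      (fun i : Fin (N + 1) => Dn ((u i : κˣ) : κ) * Dn (((u i : κˣ) : κ)⁻¹)) (Finset.mem_univ i))
  have hint2 : ∀ i, IsIntegral ℤ ((P0 : κ) * (((u i : κˣ) : κ)⁻¹)) := by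
    intro i
    refine hint0 _ _ ?_ (hDn1 _)
    exact (Dvd.intro_left _ rfl).trans (Finset.dvd_prod_of_mem
      (fun i : Fin (N + 1) => Dn ((u i : κˣ) : κ) * Dn (((u i : κˣ) : κ)⁻¹)) (Finset.mem_univ i))
  have hint3 : ∀ m : Fin (N + 1) → ℤ, ∃ n : ℕ,
      IsIntegral ℤ ((P0 : κ) ^ n * ∏ i, ((u i : κˣ) : κ) ^ m i) := by
    intro m
    refine Finset.prod_induction (fun i => ((u i : κˣ) : κ) ^ m i)
      (fun x => ∃ n : ℕ, IsIntegral ℤ ((P0 : κ) ^ n * x)) ?_ ?_ ?_
    · rintro x y ⟨n, h1⟩ ⟨n', h2⟩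
      refine ⟨n + n', ?_⟩
      have h3 : (P0 : κ) ^ (n + n') * (x * y) = ((P0 : κ) ^ n * x) * ((P0 : κ) ^ n' * y) := by
        ring
      rw [h3]
      exact h1.mul h2
    · exact ⟨0, by simpa using isIntegral_one⟩
    · intro i _
      refine ⟨(m i).natAbs, ?_⟩
      rcases Int.natAbs_eq (m i) with h | h
      · have h3 : (P0 : κ) ^ (m i).natAbs * ((u i : κˣ) : κ) ^ m i =
            ((P0 : κ) * ((u i : κˣ) : κ)) ^ (m i).natAbs := by
          rw [mul_pow]
          congr 1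
          conv_lhs => rw [h]
          rw [zpow_natCast]
        rw [h3]
        exact (hint1 i).pow _
      · have h3 : (P0 : κ) ^ (m i).natAbs * ((u i : κˣ) : κ) ^ m i =
            ((P0 : κ) * (((u i : κˣ) : κ)⁻¹)) ^ (m i).natAbs := by
          rw [mul_pow]
          congr 1
          conv_lhs => rw [h]
          rw [zpow_neg, zpow_natCast, inv_pow]
        rw [h3]
        exact (hint2 i).pow _
  let B : Base κ G :=
    { e := e
      q := d
      K := K
      w := w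
      P0 := P0
      hq := hd
      fin := inferInstance
      hK := by
        intro ν
        obtain ⟨D, hD0, m, hm⟩ := hprod ν
        refine ⟨D, hD0, ?_⟩
        rw [hm]
        exact prod_mem fun i _ => zpow_mem (huK i) _
      hP0 := hP0
      hint := by
        intro ν
        obtain ⟨D, hD0, m, hm⟩ := hprod ν
        obtain ⟨n, hn⟩ := hint3 m
        refine ⟨n, ?_⟩
        refine IsIntegral.of_pow hD0 ?_
        have h1 : ((P0 : κ) ^ n * e (Multiplicative.ofAdd ν)) ^ D =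
            (P0 : κ) ^ (n * (D - 1)) * ((P0 : κ) ^ n * ∏ i, ((u i : κˣ) : κ) ^ m i) := by
          rw [mul_pow, hm, ← mul_assoc, ← pow_add, ← pow_mul]
          congr 2
          obtain ⟨D', rfl⟩ : ∃ D', D = D' + 1 := ⟨D - 1, by omega⟩
          simp only [Nat.add_sub_cancel]
          ring
        rw [h1]
        refine IsIntegral.mul (IsIntegral.pow ?_ _) hn
        simpa using isIntegral_algebraMap (R := ℤ) (A := κ) (x := (P0 : ℤ))
      inj := by
        intro x y hxy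
        rw [hβ, hβ] at hxy
        exact Subtype.ext hxy
      pl := hw }
  have hν : ∀ i : Fin (N + 1), L (Pi.single i 1) ∈ H := fun i => LinearMap.mem_range_self L _
  refine ⟨G, inferInstance, inferInstance, B, rfl, rfl,
    fun i => ι ⟨L (Pi.single i 1), hν i⟩,
    fun i => a i / e (Multiplicative.ofAdd (ι ⟨L (Pi.single i 1), hν i⟩)), ?_⟩
  intro i hi
  by_cases hai : a i = 0
  · exact Or.inl hai
  right
  have hcond : (i : ℕ) ≤ r ∧ a i ≠ 0 := ⟨hi, hai⟩
  have hne : e (Multiplicative.ofAdd (ι ⟨L (Pi.single i 1), hν i⟩)) ≠ 0 := e_ne_zero e _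
  refine ⟨?_, ?_⟩
  · set h0 : H := ⟨L (Pi.single i 1), hν i⟩ with hh0
    have h1 : e (Multiplicative.ofAdd (ι h0)) = ∏ j, ((u j : κˣ) : κ) ^ (s0 h0) j := by
      rw [he, he2, hA]
    have h2 : a i = ∏ j, ((u j : κˣ) : κ) ^ (Pi.single i 1 : Fin (N + 1) → ℤ) j := by
      rw [Finset.prod_eq_single i]
      · rw [Pi.single_eq_same, zpow_one, hu1 i hcond]
      · intro j _ hj
        rw [Pi.single_eq_of_ne hj, zpow_zero]
      · intro h
        exact absurd (Finset.mem_univ i) h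
    let m : Fin (N + 1) → ℤ := fun j =>
      if (j : ℕ) ≤ r ∧ a j ≠ 0 then (Pi.single i 1 : Fin (N + 1) → ℤ) j - (s0 h0) j else 0
    have h3 : a i / e (Multiplicative.ofAdd (ι h0)) = ∏ j, a j ^ m j := by
      rw [h1]
      conv_lhs => rw [h2]
      rw [← Finset.prod_div_distrib]
      refine Finset.prod_congr rfl fun j _ => ?_
      by_cases hj : (j : ℕ) ≤ r ∧ a j ≠ 0
      · simp only [m]
        rw [if_pos hj, hu1 j hj, zpow_sub₀ hj.2]
      · simp only [m]
        rw [if_neg hj, hu2 j hj, one_zpow, one_zpow, div_one, zpow_zero]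
    change ∃ k : ℕ, 0 < k ∧ (a i / e (Multiplicative.ofAdd (ι h0))) ^ k = 1
    rw [h3]
    refine hG m ?_ ?_
    · intro j hj
      by_contra hc
      apply hj
      simp only [m]
      rw [if_neg hc]
    · rw [← h3, map_div₀]
      have h4 : Real.log (w (a i)) = Real.log (w (e (Multiplicative.ofAdd (ι h0)))) := by
        have h5 : Real.log (w (a i)) = L (Pi.single i 1) := by
          rw [hL, hlw, hA, ← h2]
        have h6 : Real.log (w (e (Multiplicative.ofAdd (ι h0)))) = (h0 : ℝ) := by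
          rw [he, he2, ← hlw, hs1]
        rw [h5, h6]
      have h7 : 0 < w (a i) := w.pos hai
      have h8 : 0 < w (e (Multiplicative.ofAdd (ι h0))) := w.pos hne
      have h9 : w (a i) = w (e (Multiplicative.ofAdd (ι h0))) :=
        Real.log_injOn_pos h7 h8 h4
      rw [h9, div_self h8.ne']
  · exact (div_mul_cancel₀ _ hne).symm

end Pool.Agent.Helper11.TS
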