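import Pool.Agent.Helper11.TS.UltAB
import Pool.Agent.Helper11.TS.Grow
import Pool.Agent.Helper11.TS.Ori
import Pool.Agent.Helper11.TS.Kron
import Pool.Agent.Helper39.RP.Ultra

/-!
# TS, module T10c: the theorems over the field of algebraic numbers
-/

set_option autoImplicit false

set_option linter.unusedSectionVars false

namespace Pool.Agent.Helper11.TS

open MvPolynomial Filter

variable {κ : Type} [Field κ] [CharZero κ] [IsAlgClosed κ] [Algebra.IsAlgebraic ℚ κ] {N : ℕ}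

/-- The dominant root condition for the coordinates `a_0, ..., a_r`. -/
def DomK (r : ℕ) (a : Fin (N + 1) → κ) (w : AbsoluteValue κ ℝ) : Prop :=
  ∀ m : Fin (N + 1) → ℤ, (∀ i, m i ≠ 0 → (i : ℕ) ≤ r ∧ a i ≠ 0) → ∑ i, m i = 0 →
    w (∏ i, a i ^ m i) = 1 → ∃ k : ℕ, 0 < k ∧ (∏ i, a i ^ m i) ^ k = 1

/-- Multiplicative independence of `a_1 / a_0, ..., a_r / a_0`. -/
def IndK (r : ℕ) (a : Fin (N + 1) → κ) : Prop :=
  (∀ i : Fin (N + 1), (i : ℕ) ≤ r → a i ≠ 0) ∧
    ∀ m : Fin (N + 1) → ℤ, (∀ i, m i ≠ 0 → (i : ℕ) ≤ r) → ∑ i, m i = 0 →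
      ∏ i, a i ^ m i = 1 → m = 0

private theorem eval_scale {R : Type} [Field R] (x : Fin (N + 1) → R) (c : R)
    {g : MvPolynomial (Fin (N + 1)) R} {e : ℕ} (hg : g.IsHomogeneous e) :
    eval (c • x) g = c ^ e * eval x g := by
  rw [MvPolynomial.eval_eq, MvPolynomial.eval_eq, Finset.mul_sum]
  refine Finset.sum_congr rfl fun m hm => ?_
  have h1 : ∑ i ∈ m.support, m i = e := by
    have := hg (MvPolynomial.mem_support_iff.1 hm)
    rw [Finsupp.weight_apply] at this
    simpa [Finsupp.sum] using this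
  simp only [Pi.smul_apply, smul_eq_mul, mul_pow]
  rw [Finset.prod_mul_distrib, Finset.prod_pow_eq_pow_sum, h1]
  ring

private theorem ret_smul {r d : ℕ} {F : Fin (N + 1) → MvPolynomial (Fin (N + 1)) κ}
    (hT : Tri r d F) (a : Fin (N + 1) → κ) {c : κ} (hc : c ≠ 0)
    (𝒢 : Set (MvPolynomial (Fin (N + 1)) κ)) (h𝒢 : ∀ g ∈ 𝒢, ∃ e : ℕ, g.IsHomogeneous e) :
    ret F (c • a) 𝒢 = ret F a 𝒢 := by
  ext n
  change (∀ g ∈ 𝒢, eval (xs F (c • a) n) g = 0) ↔ ∀ g ∈ 𝒢, eval (xs F a n) g = 0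
  refine forall_congr' fun g => forall_congr' fun hg => ?_
  obtain ⟨e, he⟩ := h𝒢 g hg
  rw [xs_smul hT, eval_scale _ _ he, mul_eq_zero, or_iff_right]
  exact pow_ne_zero _ (pow_ne_zero _ hc)

/-- A finite extension of the rationals that contains all the coefficients. -/
private theorem exists_K (F : Fin (N + 1) → MvPolynomial (Fin (N + 1)) κ)
    (a : Fin (N + 1) → κ) : ∃ K : IntermediateField ℚ κ, FiniteDimensional ℚ K ∧
      (∀ j μ, (F j).coeff μ ∈ K) ∧ ∀ i, a i ∈ K := by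
  classical
  let S : Set κ := (⋃ j, ((fun μ => (F j).coeff μ) '' ((F j).support : Set _))) ∪ Set.range a
  have hS : S.Finite := by
    refine Set.Finite.union ?_ (Set.finite_range a)
    exact Set.finite_iUnion fun j => ((F j).support.finite_toSet).image _
  have : Finite S := hS
  refine ⟨IntermediateField.adjoin ℚ S, IntermediateField.finiteDimensional_adjoin
    fun x _ => (Algebra.IsAlgebraic.isAlgebraic (R := ℚ) x).isIntegral, fun j μ => ?_, fun i => ?_⟩
  · by_cases h : μ ∈ (F j).support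
    · exact IntermediateField.subset_adjoin ℚ S
        (Or.inl (Set.mem_iUnion.2 ⟨j, μ, h, rfl⟩))
    · rw [MvPolynomial.notMem_support_iff.1 h]
      exact zero_mem _
  · exact IntermediateField.subset_adjoin ℚ S (Or.inr ⟨i, rfl⟩)

private theorem prod_zpow_const {c : κ} (hc : c ≠ 0) {ι : Type} (s : Finset ι) (m : ι → ℤ) :
    ∏ i ∈ s, c ^ m i = c ^ ∑ i ∈ s, m i := by
  classical
  induction s using Finset.induction_on with
  | empty => simp
  | insert i s hi ih => rw [Finset.prod_insert hi, Finset.sum_insert hi, ih, zpow_add₀ hc]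

private theorem prod_smul_zpow (a : Fin (N + 1) → κ) {c : κ} (hc : c ≠ 0)
    (m : Fin (N + 1) → ℤ) : ∏ i, (c • a) i ^ m i = c ^ (∑ i, m i) * ∏ i, a i ^ m i := by
  simp only [Pi.smul_apply, smul_eq_mul, mul_zpow]
  rw [Finset.prod_mul_distrib, prod_zpow_const hc]

/-- The dominant root condition for the normalised coordinates. -/
private theorem domK_norm {r : ℕ} {a : Fin (N + 1) → κ} {w : AbsoluteValue κ ℝ}
    (hG : DomK r a w) (i0 : Fin (N + 1)) (hi0 : (i0 : ℕ) ≤ r) (h0 : a i0 ≠ 0)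
    (m : Fin (N + 1) → ℤ) (hm : ∀ i, m i ≠ 0 → (i : ℕ) ≤ r ∧ ((a i0)⁻¹ • a) i ≠ 0)
    (hw : w (∏ i, ((a i0)⁻¹ • a) i ^ m i) = 1) :
    ∃ k : ℕ, 0 < k ∧ (∏ i, ((a i0)⁻¹ • a) i ^ m i) ^ k = 1 := by
  classical
  set s : ℤ := ∑ i, m i with hs
  have hc : (a i0)⁻¹ ≠ 0 := inv_ne_zero h0
  let m' : Fin (N + 1) → ℤ := fun i => m i - if i = i0 then s else 0
  have h1 : ∏ i, a i ^ m' i = ∏ i, ((a i0)⁻¹ • a) i ^ m i := by
    rw [prod_smul_zpow a hc, ← hs]
    have h2 : ∀ i, a i ^ m' i = a i ^ m i * (if i = i0 then (a i0)⁻¹ ^ s else 1) := by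
      intro i
      by_cases hi : i = i0
      · subst hi
        simp only [m', if_true]
        rw [zpow_sub₀ h0, inv_zpow, div_eq_mul_inv]
      · simp only [m', if_neg hi, sub_zero, mul_one]
    simp only [h2]
    rw [Finset.prod_mul_distrib, Finset.prod_ite_eq' Finset.univ i0, if_pos (Finset.mem_univ i0),
      mul_comm]
  rw [← h1] at hw ⊢
  refine hG m' (fun i hi => ?_) ?_ hw
  · by_cases hi' : i = i0
    · subst hi'
      exact ⟨hi0, h0⟩
    · have h3 : m i ≠ 0 := by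
        simpa only [m', if_neg hi', sub_zero] using hi
      refine ⟨(hm i h3).1, fun h4 => (hm i h3).2 ?_⟩
      rw [Pi.smul_apply, h4, smul_zero]
  · simp only [m']
    rw [Finset.sum_sub_distrib, Finset.sum_ite_eq' Finset.univ i0, if_pos (Finset.mem_univ i0),
      ← hs, sub_self]

/-- Multiplicative independence of the coordinates gives linear independence of the exponents. -/
private theorem ind_norm {G : Type} [AddCommGroup G] (e : Multiplicative G →* κ) {r : ℕ}
    {a : Fin (N + 1) → κ} (hind : IndK r a) {c : κ} (hc : c ≠ 0) (ν : Fin (N + 1) → G)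
    (ω : Fin (N + 1) → κ) (h' : ∀ i : Fin (N + 1), (i : ℕ) ≤ r →
      (∃ k : ℕ, 0 < k ∧ ω i ^ k = 1) ∧ (c • a) i = ω i * e (Multiplicative.ofAdd (ν i)))
    (m : Fin (N + 1) → ℤ) (hmr : ∀ i : Fin (N + 1), r < (i : ℕ) → m i = 0) (hm0 : ∑ i, m i = 0)
    (hmν : ∑ i, m i • ν i = 0) : m = 0 := by
  classical
  -- a common exponent for the roots of unity
  have hk : ∃ k : ℕ, 0 < k ∧ ∀ i : Fin (N + 1), (i : ℕ) ≤ r → ω i ^ k = 1 := by
    choose! kk hkk using fun (i : Fin (N + 1)) (hi : (i : ℕ) ≤ r) => (h' i hi).1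
    refine ⟨∏ i ∈ Finset.univ.filter fun i : Fin (N + 1) => (i : ℕ) ≤ r, kk i,
      Finset.prod_pos fun i hi => (hkk i (Finset.mem_filter.1 hi).2).1, fun i hi => ?_⟩
    have h1 : i ∈ Finset.univ.filter fun i : Fin (N + 1) => (i : ℕ) ≤ r :=
      Finset.mem_filter.2 ⟨Finset.mem_univ i, hi⟩
    rw [← Finset.mul_prod_erase _ _ h1, pow_mul, (hkk i hi).2, one_pow]
  obtain ⟨k, hk0, hk⟩ := hk
  let E : Multiplicative G →* κˣ := MonoidHom.toHomUnits e
  have hE : ∀ x, ((E x : κˣ) : κ) = e x := fun x => rfl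
  have h1 : ∏ i, (c • a) i ^ m i = ∏ i, ω i ^ m i := by
    have h2 : ∀ i, (c • a) i ^ m i =
        ω i ^ m i * e (Multiplicative.ofAdd (ν i)) ^ m i := by
      intro i
      by_cases hi : (i : ℕ) ≤ r
      · rw [(h' i hi).2, mul_zpow]
      · rw [hmr i (not_le.1 hi)]
        simp
    simp only [h2]
    rw [Finset.prod_mul_distrib]
    have h3 : ∏ i, e (Multiplicative.ofAdd (ν i)) ^ m i = 1 := by
      have h4 : ∏ i, E (Multiplicative.ofAdd (ν i)) ^ m i = 1 := by
        have h5 : ∏ i, E (Multiplicative.ofAdd (ν i)) ^ m i =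
            E (Multiplicative.ofAdd (∑ i, m i • ν i)) := by
          rw [ofAdd_sum, map_prod]
          refine Finset.prod_congr rfl fun i _ => ?_
          rw [ofAdd_zsmul, map_zpow]
        rw [h5, hmν, ofAdd_zero, map_one]
      have h6 := congrArg (fun u : κˣ => (u : κ)) h4
      simpa only [Units.coe_prod, Units.val_zpow_eq_zpow_val, hE, Units.val_one] using h6
    rw [h3, mul_one]
  have h2 : ∏ i, a i ^ (((k : ℤ) • m) i) = 1 := by
    have h3 : ∏ i, (c • a) i ^ (((k : ℤ) • m) i) = ∏ i, a i ^ (((k : ℤ) • m) i) := by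
      rw [prod_smul_zpow a hc]
      have h4 : ∑ i, ((k : ℤ) • m) i = 0 := by
        simp only [Pi.smul_apply, smul_eq_mul]
        rw [← Finset.mul_sum, hm0, mul_zero]
      rw [h4, zpow_zero, one_mul]
    rw [← h3]
    have h5 : ∀ i, (c • a) i ^ (((k : ℤ) • m) i) = ((c • a) i ^ m i) ^ k := by
      intro i
      rw [Pi.smul_apply (k : ℤ) m i, smul_eq_mul, mul_comm, zpow_mul, zpow_natCast]
    simp only [h5]
    rw [Finset.prod_pow, h1, ← Finset.prod_pow]
    refine Finset.prod_eq_one fun i _ => ?_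
    by_cases hi : (i : ℕ) ≤ r
    · rw [← zpow_natCast, ← zpow_mul, mul_comm, zpow_mul, zpow_natCast, hk i hi, one_zpow]
    · rw [hmr i (not_le.1 hi), zpow_zero, one_pow]
  have h3 := hind.2 ((k : ℤ) • m) (fun i hi => by
    by_contra hc'
    apply hi
    rw [Pi.smul_apply, hmr i (not_le.1 hc'), smul_zero]) (by
    simp only [Pi.smul_apply, smul_eq_mul]
    rw [← Finset.mul_sum, hm0, mul_zero]) h2
  have hk1 : (k : ℤ) ≠ 0 := by exact_mod_cast hk0.ne'
  exact (smul_eq_zero.1 h3).resolve_left hk1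

/-- The case of a point with all the coordinates `0, ..., r` equal to zero. -/
private theorem main_A_zero {r d : ℕ} {F : Fin (N + 1) → MvPolynomial (Fin (N + 1)) κ}
    (hT : Tri r d F) (hN : N = r + 1) (a : Fin (N + 1) → κ) (ha : a ≠ 0)
    (h0 : ∀ i : Fin (N + 1), (i : ℕ) ≤ r → a i = 0) (𝒢 : Set (MvPolynomial (Fin (N + 1)) κ))
    (h𝒢 : ∀ g ∈ 𝒢, ∃ e : ℕ, g.IsHomogeneous e) :
    ∃ T : Finset (ℕ × ℕ), ret F a 𝒢 = {n : ℕ | ∃ q ∈ T, ∃ k : ℕ, n = q.1 * k + q.2} := by
  classical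
  set l : Fin (N + 1) := Fin.last N with hl
  let u : Fin (N + 1) → κ := Pi.single l 1
  have hlr : r < (l : ℕ) := by
    rw [hl, Fin.val_last]
    omega
  have hi : ∀ i : Fin (N + 1), i ≠ l → (i : ℕ) ≤ r := by
    intro i hi
    have h1 : (i : ℕ) < N := Fin.val_lt_last hi
    omega
  -- the orbit consists of multiples of the last unit vector
  have hx : ∀ n, ∃ c : κ, c ≠ 0 ∧ xs F a n = c • u := by
    intro n
    have hzero : ∀ i, i ≠ l → xs F a n i = 0 := by
      intro i hil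
      rw [xs_pow hT a n i (hi i hil), h0 i (hi i hil), zero_pow]
      exact pow_ne_zero _ (by have := hT.hd; omega)
    refine ⟨xs F a n l, ?_, ?_⟩
    · clear hzero
      induction n with
      | zero =>
        rw [xs_zero]
        intro h
        apply ha
        funext i
        by_cases hil : i = l
        · rw [hil, h]
          rfl
        · rw [h0 i (hi i hil)]
          rfl
      | succ n ih =>
        have hz : xs F a n = xs F a n l • u := by
          funext i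
          by_cases hil : i = l
          · rw [hil]
            simp [u]
          · rw [xs_pow hT a n i (hi i hil), h0 i (hi i hil), zero_pow]
            · simp [u, hil]
            · exact pow_ne_zero _ (by have := hT.hd; omega)
        rw [xs_succ, hz, eval_scale _ _ (hT.hom l)]
        refine mul_ne_zero (pow_ne_zero _ ih) ?_
        have h2 : eval u (F l) = (F l).coeff (Finsupp.single l d) := by
          rw [MvPolynomial.eval_eq]
          have h3 : ∀ m ∈ (F l).support, (F l).coeff m * ∏ i ∈ m.support, u i ^ m i =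
              if m = Finsupp.single l d then (F l).coeff (Finsupp.single l d) else 0 := by
            intro m hm
            by_cases hml : m = Finsupp.single l d
            · rw [if_pos hml, hml]
              have h4 : ∏ i ∈ (Finsupp.single l d).support, u i ^ (Finsupp.single l d) i = 1 := by
                refine Finset.prod_eq_one fun i hi => ?_
                have h5 : i = l := by
                  have := Finsupp.support_single_subset hi
                  simpa using this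
                rw [h5]
                simp [u]
              rw [h4, mul_one]
            · rw [if_neg hml]
              have h4 : ∃ i ∈ m.support, i ≠ l := by
                by_contra hc
                push Not at hc
                apply hml
                have h5 : m.support ⊆ {l} := fun i hi => Finset.mem_singleton.2 (hc i hi)
                have h6 : m = Finsupp.single l (m l) :=
                  (Finsupp.support_subset_singleton.1 h5)
                have h7 := hT.hom l (MvPolynomial.mem_support_iff.1 hm)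
                rw [h6] at h7
                rw [Finsupp.weight_apply, Finsupp.sum_single_index (by simp)] at h7
                simp only [Pi.one_apply, smul_eq_mul, mul_one] at h7
                rw [h6, h7]
              obtain ⟨i, him, hil⟩ := h4
              rw [Finset.prod_eq_zero him, mul_zero]
              simp only [u, Pi.single_apply, if_neg hil]
              exact zero_pow (Finsupp.mem_support_iff.1 him)
          rw [Finset.sum_congr rfl h3, Finset.sum_ite_eq']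
          split_ifs with h4
          · rfl
          · exact (MvPolynomial.notMem_support_iff.1 h4).symm
        rw [h2]
        exact hT.lead l hlr
    · funext i
      by_cases hil : i = l
      · rw [hil]
        simp [u]
      · rw [hzero i hil]
        simp [u, hil]
  have hret : ∀ n, n ∈ ret F a 𝒢 ↔ ∀ g ∈ 𝒢, eval u g = 0 := by
    intro n
    change (∀ g ∈ 𝒢, eval (xs F a n) g = 0) ↔ _
    refine forall_congr' fun g => forall_congr' fun hg => ?_
    obtain ⟨e, he⟩ := h𝒢 g hg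
    obtain ⟨c, hc, hxc⟩ := hx n
    rw [hxc, eval_scale _ _ he, mul_eq_zero, or_iff_right (pow_ne_zero _ hc)]
  by_cases h : ∀ g ∈ 𝒢, eval u g = 0
  · refine ⟨{(1, 0)}, ?_⟩
    ext n
    rw [hret n]
    simp only [Finset.mem_singleton, Set.mem_ofPred_eq]
    refine ⟨fun _ => ⟨(1, 0), rfl, n, by simp⟩, fun _ => h⟩
  · refine ⟨∅, ?_⟩
    ext n
    rw [hret n]
    simp only [Finset.notMem_empty, false_and, exists_false, Set.ofPred_false,
      Set.mem_empty_iff_false, iff_false]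
    exact h

theorem main_A {r d : ℕ} {F : Fin (N + 1) → MvPolynomial (Fin (N + 1)) κ} (hT : Tri r d F)
    (hN : N = r + 1) (a : Fin (N + 1) → κ) (ha : a ≠ 0) (w : AbsoluteValue κ ℝ) (hw : IsPl w)
    (hG : DomK r a w) (𝒢 : Set (MvPolynomial (Fin (N + 1)) κ))
    (h𝒢 : ∀ g ∈ 𝒢, ∃ e : ℕ, g.IsHomogeneous e) :
    ∃ T : Finset (ℕ × ℕ), ret F a 𝒢 = {n : ℕ | ∃ q ∈ T, ∃ k : ℕ, n = q.1 * k + q.2} := by
  classical
  by_cases h0 : ∀ i : Fin (N + 1), (i : ℕ) ≤ r → a i = 0
  · exact main_A_zero hT hN a ha h0 𝒢 h𝒢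
  push Not at h0
  obtain ⟨i0, hi0, ha0⟩ := h0
  obtain ⟨K, hKfin, hKF, hKa⟩ := exists_K F ((a i0)⁻¹ • a)
  obtain ⟨G, _, _, B, hq, hBK, ν, ω, h⟩ := exists_base r d hT.hd K ((a i0)⁻¹ • a) hKa w hw
    (domK_norm hG i0 hi0 ha0)
  subst hq
  rw [← ret_smul hT a (inv_ne_zero ha0) 𝒢 h𝒢]
  refine Pool.Agent.Helper39.RP.ap_of_ultra _ fun U hU hS => ?_
  refine ultra_A B hT hN ((a i0)⁻¹ • a) (fun i => ?_) ν ω h 𝒢 U hU hS
  refine seq_xs B hT (fun j μ => ?_) _ (fun i => ?_) i0 hi0 ?_ i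
  · rw [hBK]
    exact hKF j μ
  · rw [hBK]
    exact hKa i
  · rw [Pi.smul_apply, smul_eq_mul, inv_mul_cancel₀ ha0]

theorem main_B {r d : ℕ} {F : Fin (N + 1) → MvPolynomial (Fin (N + 1)) κ} (hT : Tri r d F)
    (a : Fin (N + 1) → κ) (w : AbsoluteValue κ ℝ) (hw : IsPl w)
    (hG : DomK r a w) (hind : IndK r a) (𝒢 : Set (MvPolynomial (Fin (N + 1)) κ))
    (h𝒢 : ∀ g ∈ 𝒢, ∃ e : ℕ, g.IsHomogeneous e)
    (hV : ∀ j : Fin (N + 1), r < (j : ℕ) → ∃ (g : MvPolynomial (Fin (N + 1)) κ) (e : ℕ), g ≠ 0 ∧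
      g.IsHomogeneous e ∧ (∀ i ∈ g.vars, (i : ℕ) ≤ r ∨ i = j) ∧
      ∀ x : Fin (N + 1) → κ, (∀ g' ∈ 𝒢, eval x g' = 0) → eval x g = 0) :
    ∃ T : Finset (ℕ × ℕ), ret F a 𝒢 = {n : ℕ | ∃ q ∈ T, ∃ k : ℕ, n = q.1 * k + q.2} := by
  classical
  have hi0 : ((0 : Fin (N + 1)) : ℕ) ≤ r := by simp
  have ha0 : a 0 ≠ 0 := hind.1 0 hi0
  have hc : (a 0)⁻¹ ≠ 0 := inv_ne_zero ha0
  obtain ⟨K, hKfin, hKF, hKa⟩ := exists_K F ((a 0)⁻¹ • a)
  obtain ⟨G, _, _, B, hq, hBK, ν, ω, h⟩ := exists_base r d hT.hd K ((a 0)⁻¹ • a) hKa w hw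
    (domK_norm hG 0 hi0 ha0)
  subst hq
  rw [← ret_smul hT a hc 𝒢 h𝒢]
  have h' : ∀ i : Fin (N + 1), (i : ℕ) ≤ r → ((a 0)⁻¹ • a) i ≠ 0 ∧
      (∃ k : ℕ, 0 < k ∧ ω i ^ k = 1) ∧
        ((a 0)⁻¹ • a) i = ω i * B.e (Multiplicative.ofAdd (ν i)) := by
    intro i hi
    have h1 : ((a 0)⁻¹ • a) i ≠ 0 := by
      rw [Pi.smul_apply, smul_eq_mul]
      exact mul_ne_zero hc (hind.1 i hi)
    rcases h i hi with h2 | h2
    · exact absurd h2 h1
    · exact ⟨h1, h2⟩
  refine Pool.Agent.Helper39.RP.ap_of_ultra _ fun U hU hS => ?_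
  refine ultra_B B hT ((a 0)⁻¹ • a) (fun i => ?_) ν ω h' ?_ 𝒢 (fun j hj => ?_) U hU hS
  · refine seq_xs B hT (fun j μ => ?_) _ (fun i => ?_) 0 hi0 ?_ i
    · rw [hBK]
      exact hKF j μ
    · rw [hBK]
      exact hKa i
    · rw [Pi.smul_apply, smul_eq_mul, inv_mul_cancel₀ ha0]
  · exact ind_norm B.e hind hc ν ω fun i hi => (h' i hi).2
  · obtain ⟨g, e, hg0, hge, hgv, hgx⟩ := hV j hj
    exact ⟨g, e, hg0, hge, hgv, fun n hn => hgx _ hn⟩

/-- The common form of the two theorems: the forms in the coordinates `0, ..., r` and `j` are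
needed only for `r < j < N`. -/
theorem main_AB {r d : ℕ} {F : Fin (N + 1) → MvPolynomial (Fin (N + 1)) κ} (hT : Tri r d F)
    (hrN : r < N) (a : Fin (N + 1) → κ) (ha : a ≠ 0) (w : AbsoluteValue κ ℝ) (hw : IsPl w)
    (hG : DomK r a w) (hind : N = r + 1 ∨ IndK r a) (𝒢 : Set (MvPolynomial (Fin (N + 1)) κ))
    (h𝒢 : ∀ g ∈ 𝒢, ∃ e : ℕ, g.IsHomogeneous e)
    (hV : ∀ j : Fin (N + 1), r < (j : ℕ) → (j : ℕ) < N →
      ∃ (g : MvPolynomial (Fin (N + 1)) κ) (e : ℕ), g ≠ 0 ∧ g.IsHomogeneous e ∧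
        (∀ i ∈ g.vars, (i : ℕ) ≤ r ∨ i = j) ∧
        ∀ x : Fin (N + 1) → κ, (∀ g' ∈ 𝒢, eval x g' = 0) → eval x g = 0) :
    ∃ T : Finset (ℕ × ℕ), ret F a 𝒢 = {n : ℕ | ∃ q ∈ T, ∃ k : ℕ, n = q.1 * k + q.2} := by
  classical
  by_cases h0 : ∀ i : Fin (N + 1), (i : ℕ) ≤ r → a i = 0
  · rcases hind with hN | hind
    · exact main_A_zero hT hN a ha h0 𝒢 h𝒢
    · exact absurd (h0 0 (by simp)) (hind.1 0 (by simp))
  push Not at h0
  obtain ⟨i0, hi0, ha0⟩ := h0
  have hc : (a i0)⁻¹ ≠ 0 := inv_ne_zero ha0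
  obtain ⟨K, hKfin, hKF, hKa⟩ := exists_K F ((a i0)⁻¹ • a)
  obtain ⟨G, _, _, B, hq, hBK, ν, ω, h⟩ := exists_base r d hT.hd K ((a i0)⁻¹ • a) hKa w hw
    (domK_norm hG i0 hi0 ha0)
  subst hq
  rw [← ret_smul hT a hc 𝒢 h𝒢]
  refine Pool.Agent.Helper39.RP.ap_of_ultra _ fun U hU hS => ?_
  refine ultra_AB B hT hrN ((a i0)⁻¹ • a) (fun i => ?_) ν ω h (fun hr1 => ?_) 𝒢
    (fun j hj hjN => ?_) U hU hS
  · refine seq_xs B hT (fun j μ => ?_) _ (fun i => ?_) i0 hi0 ?_ i
    · rw [hBK]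
      exact hKF j μ
    · rw [hBK]
      exact hKa i
    · rw [Pi.smul_apply, smul_eq_mul, inv_mul_cancel₀ ha0]
  · have hind' : IndK r a := hind.resolve_left (by omega)
    have hne : ∀ i : Fin (N + 1), (i : ℕ) ≤ r → ((a i0)⁻¹ • a) i ≠ 0 := by
      intro i hi
      rw [Pi.smul_apply, smul_eq_mul]
      exact mul_ne_zero hc (hind'.1 i hi)
    exact ⟨hne, ind_norm B.e hind' hc ν ω fun i hi => (h i hi).resolve_left (hne i hi)⟩
  · obtain ⟨g, e, hg0, hge, hgv, hgx⟩ := hV j hj hjN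
    exact ⟨g, e, hg0, hge, hgv, fun n hn => hgx _ hn⟩

/-- The case `r = 1`: no condition on absolute values. -/
theorem main_C {d : ℕ} {F : Fin (N + 1) → MvPolynomial (Fin (N + 1)) κ} (hT : Tri 1 d F)
    (a : Fin (N + 1) → κ) (hind : IndK 1 a) (𝒢 : Set (MvPolynomial (Fin (N + 1)) κ))
    (h𝒢 : ∀ g ∈ 𝒢, ∃ e : ℕ, g.IsHomogeneous e)
    (hV : ∀ j : Fin (N + 1), 1 < (j : ℕ) → ∃ (g : MvPolynomial (Fin (N + 1)) κ) (e : ℕ), g ≠ 0 ∧
      g.IsHomogeneous e ∧ (∀ i ∈ g.vars, (i : ℕ) ≤ 1 ∨ i = j) ∧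
      ∀ x : Fin (N + 1) → κ, (∀ g' ∈ 𝒢, eval x g' = 0) → eval x g = 0) :
    ∃ T : Finset (ℕ × ℕ), ret F a 𝒢 = {n : ℕ | ∃ q ∈ T, ∃ k : ℕ, n = q.1 * k + q.2} := by
  classical
  suffices hw : ∃ w : AbsoluteValue κ ℝ, IsPl w ∧ DomK 1 a w by
    obtain ⟨w, hw, hG⟩ := hw
    exact main_B hT a w hw hG hind 𝒢 h𝒢 hV
  rcases Nat.eq_zero_or_pos N with hN | hN
  · obtain ⟨w, hw, -⟩ := exists_place (2 : κ) two_ne_zero (fun k hk h => by
      have h1 : ((2 ^ k : ℕ) : κ) = ((1 : ℕ) : κ) := by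
        push_cast
        exact h
      have h2 : 2 ^ k = 1 := Nat.cast_injective h1
      exact absurd h2 (Nat.one_lt_two_pow hk.ne').ne')
    refine ⟨w, hw, fun m _ hm _ => ⟨1, one_pos, ?_⟩⟩
    subst hN
    have h1 : m 0 = 0 := by simpa using hm
    simp [h1]
  · let i1 : Fin (N + 1) := ⟨1, by omega⟩
    have h01 : (0 : Fin (N + 1)) ≠ i1 := by
      intro h
      have := congrArg Fin.val h
      simp [i1] at this
    have ha0 : a 0 ≠ 0 := hind.1 0 (by simp)
    have ha1 : a i1 ≠ 0 := hind.1 i1 (by simp [i1])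
    -- products over exponents supported in the first two places
    have hprod : ∀ m : Fin (N + 1) → ℤ, (∀ i, m i ≠ 0 → (i : ℕ) ≤ 1) → ∑ i, m i = 0 →
        m 0 = - m i1 ∧ ∏ i, a i ^ m i = (a i1 / a 0) ^ m i1 := by
      intro m hm hs
      have h2 : ∀ i, i ∉ ({0, i1} : Finset (Fin (N + 1))) → m i = 0 := by
        intro i hi
        by_contra hc
        apply hi
        have h3 := hm i hc
        rw [Finset.mem_insert, Finset.mem_singleton]
        rcases Nat.lt_or_ge (i : ℕ) 1 with h4 | h4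
        · left
          apply Fin.ext
          simp only [Fin.val_zero]
          omega
        · right
          apply Fin.ext
          change (i : ℕ) = 1
          omega
      have h3 : ∑ i, m i = m 0 + m i1 := by
        rw [← Finset.sum_subset (Finset.subset_univ ({0, i1} : Finset (Fin (N + 1))))
          (fun i _ hi => h2 i hi), Finset.sum_pair h01]
      have h4 : ∏ i, a i ^ m i = a 0 ^ m 0 * a i1 ^ m i1 := by
        rw [← Finset.prod_subset (Finset.subset_univ ({0, i1} : Finset (Fin (N + 1))))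
          (fun i _ hi => by rw [h2 i hi, zpow_zero]), Finset.prod_pair h01]
      have h5 : m 0 = - m i1 := by omega
      refine ⟨h5, ?_⟩
      rw [h4, h5, div_zpow, zpow_neg]
      ring
    have hα0 : a i1 / a 0 ≠ 0 := div_ne_zero ha1 ha0
    obtain ⟨w, hw, hwα⟩ := exists_place (a i1 / a 0) hα0 (fun k hk h => by
      let m : Fin (N + 1) → ℤ := fun i => if i = 0 then - (k : ℤ) else if i = i1 then k else 0
      have hm1 : m i1 = k := by simp [m, h01.symm]
      have hm0 : m 0 = - (k : ℤ) := by simp [m]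
      have hsupp : ∀ i, m i ≠ 0 → (i : ℕ) ≤ 1 := by
        intro i hi
        by_cases h0 : i = 0
        · rw [h0]
          simp
        · by_cases h1 : i = i1
          · rw [h1]
          · exact absurd (by simp [m, h0, h1]) hi
      have hsum : ∑ i, m i = 0 := by
        rw [← Finset.sum_subset (Finset.subset_univ ({0, i1} : Finset (Fin (N + 1))))
          (fun i _ hi => by
            rw [Finset.mem_insert, Finset.mem_singleton, not_or] at hi
            simp [m, hi.1, hi.2]), Finset.sum_pair h01, hm1, hm0]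
        ring
      have h2 := hind.2 m hsupp hsum (by
        rw [(hprod m hsupp hsum).2, hm1, zpow_natCast, h])
      have h3 : m i1 = 0 := by rw [h2]; rfl
      rw [hm1] at h3
      have : k = 0 := by exact_mod_cast h3
      omega)
    refine ⟨w, hw, fun m hm hs hwm => ⟨1, one_pos, ?_⟩⟩
    obtain ⟨h5, h6⟩ := hprod m (fun i hi => (hm i hi).1) hs
    rw [pow_one, h6]
    rw [h6, map_zpow₀] at hwm
    have hpos : 0 < w (a i1 / a 0) := w.pos hα0
    have h7 : m i1 = 0 := (zpow_eq_one_iff_right₀ hpos.le hwα).1 hwm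
    rw [h7, zpow_zero]

end Pool.Agent.Helper11.TS
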