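import Pool.Agent.Helper11.TS.Defs
import Pool.Agent.Helper85.SubLOCM

/-!
# TS, module T3b: the product formula for units outside finitely many primes
-/

set_option autoImplicit false

namespace Pool.Agent.Helper11.TS

open Filter NumberField Pool.Agent.Helper85.Sub Pool.Agent.Helper10.Sub

section
variable {L : Type} [Field L] [NumberField L]

private lemma prodC (x : L) : ∏ σ : L →+* ℂ, ‖σ x‖ = |((Algebra.norm ℚ x : ℚ) : ℝ)| := by
  have h1 := Algebra.norm_eq_prod_embeddings (L := L) ℚ ℂ x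
  have h2 : ∏ σ : L →+* ℂ, σ x = ∏ σ : L →ₐ[ℚ] ℂ, σ x := by
    refine Fintype.prod_equiv (RingHom.equivRatAlgHom L ℂ) _ _ ?_
    intro σ
    rfl
  rw [← norm_prod, h2, ← h1]
  simp

private lemma prodP (p : ℕ) [Fact p.Prime] (x : L) :
    ∏ σ : L →+* FF L p, ‖σ x‖ = ‖((Algebra.norm ℚ x : ℚ) : ℚ_[p])‖ := by
  have h1 := Algebra.norm_eq_prod_embeddings (L := L) ℚ (PadicAlgCl p) x
  have h3 : ∏ σ : L →+* FF L p, ‖σ x‖ = ∏ σ : L →+* PadicAlgCl p, ‖σ x‖ := by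
    refine Fintype.prod_equiv (liftEquiv (K := L) (p := p)) _ _ ?_
    intro σ
    rw [liftEquiv_apply, ff_norm]
  have h2 : ∏ σ : L →+* PadicAlgCl p, σ x = ∏ σ : L →ₐ[ℚ] PadicAlgCl p, σ x := by
    refine Fintype.prod_equiv (RingHom.equivRatAlgHom L (PadicAlgCl p)) _ _ ?_
    intro σ
    rfl
  rw [h3, ← norm_prod, h2, ← h1]
  rw [eq_ratCast, ← map_ratCast (algebraMap ℚ_[p] (PadicAlgCl p)), PadicAlgCl.norm_extends]

/-- A nonzero integer has `p`-adic norm `p ^ (-v)` with `p ^ v ∣ m`. -/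
private lemma exists_val (p : ℕ) [hp : Fact p.Prime] (m : ℤ) (hm : m ≠ 0) :
    ∃ v : ℕ, ‖(m : ℚ_[p])‖ = ((p : ℝ) ^ v)⁻¹ ∧ ((p : ℤ) ^ v) ∣ m := by
  have hm' : (m : ℚ_[p]) ≠ 0 := by exact_mod_cast hm
  have h1 := Padic.norm_eq_zpow_neg_valuation hm'
  have h2 : ‖(m : ℚ_[p])‖ ≤ 1 := Padic.norm_int_le_one m
  have hv : 0 ≤ (m : ℚ_[p]).valuation := by
    by_contra hv
    push Not at hv
    have h3 : (1 : ℝ) < (p : ℝ) ^ (-(m : ℚ_[p]).valuation) :=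
      one_lt_zpow₀ (by exact_mod_cast hp.out.one_lt) (by omega)
    rw [← h1] at h3
    linarith
  obtain ⟨n, hn⟩ := Int.eq_ofNat_of_zero_le hv
  rw [hn] at h1
  refine ⟨n, ?_, ?_⟩
  · rw [h1, zpow_neg, zpow_natCast]
  · have := (Padic.norm_int_le_pow_iff_dvd (p := p) m n).1 h1.le
    exact_mod_cast this

private lemma int_prod {T : Type} [Fintype T] {p : T → ℕ} [∀ t, Fact (p t).Prime]
    (hp : Function.Injective p) (m : ℤ) (hm : m ≠ 0) :
    1 ≤ |(m : ℝ)| * ∏ t, ‖(m : ℚ_[p t])‖ := by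
  classical
  choose v hv1 hv2 using fun t => exists_val (p t) m hm
  have h1 : (∏ t, ((p t : ℤ) ^ v t)) ∣ m := by
    refine Finset.prod_dvd_of_coprime ?_ (fun t _ => hv2 t)
    intro s _ t _ hst
    have h2 : Nat.Coprime (p s) (p t) :=
      (Nat.coprime_primes (Fact.out : (p s).Prime) (Fact.out : (p t).Prime)).2
        (fun h => hst (hp h))
    exact (Nat.isCoprime_iff_coprime.2 h2).pow
  have h3 : (∏ t, ((p t : ℤ) ^ v t)) ≤ |m| :=
    Int.le_of_dvd (abs_pos.2 hm) ((dvd_abs _ _).2 h1)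
  have h4 : (∏ t, ((p t : ℝ) ^ v t)) ≤ |(m : ℝ)| := by
    have h5 : (((∏ t, ((p t : ℤ) ^ v t)) : ℤ) : ℝ) ≤ ((|m| : ℤ) : ℝ) := by exact_mod_cast h3
    push_cast at h5
    exact h5
  have h6 : 0 < ∏ t, ((p t : ℝ) ^ v t) := Finset.prod_pos fun t _ =>
    pow_pos (by exact_mod_cast (Fact.out : (p t).Prime).pos) _
  have h7 : ∏ t, ‖(m : ℚ_[p t])‖ = (∏ t, ((p t : ℝ) ^ v t))⁻¹ := by
    rw [← Finset.prod_inv_distrib]
    exact Finset.prod_congr rfl fun t _ => hv1 t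
  rw [h7, ← div_eq_mul_inv, le_div_iff₀ h6, one_mul]
  exact h4

private lemma prod_norm_pprod {T : Type} [Fintype T] {p : T → ℕ} [∀ t, Fact (p t).Prime]
    (hp : Function.Injective p) :
    |((pprod p : ℕ) : ℝ)| * ∏ t, ‖((pprod p : ℕ) : ℚ_[p t])‖ = 1 := by
  classical
  have h1 : ∀ t, ‖((pprod p : ℕ) : ℚ_[p t])‖ = ((p t : ℝ))⁻¹ := by
    intro t
    unfold pprod
    rw [Nat.cast_prod, norm_prod, Finset.prod_eq_single t]
    · rw [Padic.norm_p]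
    · intro s _ hst
      have h2 : Nat.Coprime (p t) (p s) :=
        (Nat.coprime_primes (Fact.out : (p t).Prime) (Fact.out : (p s).Prime)).2
          (fun h => hst (hp h).symm)
      exact Padic.norm_natCast_eq_one_iff.2 h2
    · intro h
      exact absurd (Finset.mem_univ t) h
  have h2 : ∏ t, ‖((pprod p : ℕ) : ℚ_[p t])‖ = (((pprod p : ℕ) : ℝ))⁻¹ := by
    rw [Finset.prod_congr rfl fun t _ => h1 t, Finset.prod_inv_distrib]
    unfold pprod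
    rw [Nat.cast_prod]
  have h3 : (0 : ℝ) < ((pprod p : ℕ) : ℝ) := by
    unfold pprod
    rw [Nat.cast_prod]
    exact Finset.prod_pos fun t _ => by exact_mod_cast (Fact.out : (p t).Prime).pos
  rw [h2, abs_of_pos h3, mul_inv_cancel₀ h3.ne']

private lemma one_le {T : Type} [Fintype T] {p : T → ℕ} [∀ t, Fact (p t).Prime]
    (hp : Function.Injective p) (x : L) (hx : x ≠ 0) (k : ℕ)
    (h : IsIntegral ℤ ((pprod p : L) ^ k * x)) :
    1 ≤ (∏ σ : L →+* ℂ, ‖σ x‖) * ∏ t, ∏ σ : L →+* FF L (p t), ‖σ x‖ := by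
  rw [prodC, Finset.prod_congr rfl fun t _ => prodP (p t) x]
  set d := Module.finrank ℚ L
  set P := pprod p with hP
  have hP0 : (P : ℚ) ≠ 0 := by
    rw [hP]
    unfold pprod
    rw [Nat.cast_prod]
    exact Finset.prod_ne_zero_iff.2 fun t _ => by
      exact_mod_cast (Fact.out : (p t).Prime).ne_zero
  have h1 : IsIntegral ℤ (Algebra.norm ℚ ((P : L) ^ k * x)) := Algebra.isIntegral_norm ℚ h
  obtain ⟨m, hm⟩ := IsIntegrallyClosed.isIntegral_iff.1 h1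
  have h2 : Algebra.norm ℚ ((P : L) ^ k * x) = (P : ℚ) ^ (k * d) * Algebra.norm ℚ x := by
    rw [map_mul, map_pow]
    have h3 : Algebra.norm ℚ (P : L) = (P : ℚ) ^ d := by
      have := Algebra.norm_algebraMap (S := L) (P : ℚ)
      simpa using this
    rw [h3, ← pow_mul, mul_comm d k]
  rw [h2] at hm
  have hN : Algebra.norm ℚ x ≠ 0 := Algebra.norm_ne_zero_iff.2 hx
  have hm0 : m ≠ 0 := by
    rintro rfl
    rw [map_zero] at hm
    exact mul_ne_zero (pow_ne_zero _ hP0) hN hm.symm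
  have h4 := int_prod hp m hm0
  have h5 : (m : ℝ) = (P : ℝ) ^ (k * d) * ((Algebra.norm ℚ x : ℚ) : ℝ) := by
    have : ((m : ℚ) : ℝ) = (((P : ℚ) ^ (k * d) * Algebra.norm ℚ x : ℚ) : ℝ) := by
      rw [← hm]; simp
    push_cast at this
    exact this
  have h6 : ∀ t, (m : ℚ_[p t]) = (P : ℚ_[p t]) ^ (k * d) *
      ((Algebra.norm ℚ x : ℚ) : ℚ_[p t]) := by
    intro t
    have : ((m : ℚ) : ℚ_[p t]) = (((P : ℚ) ^ (k * d) * Algebra.norm ℚ x : ℚ) : ℚ_[p t]) := by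
      rw [← hm]; simp
    push_cast at this
    exact this
  have h7 : ∏ t, ‖(m : ℚ_[p t])‖ = (∏ t, ‖(P : ℚ_[p t])‖) ^ (k * d) *
      ∏ t, ‖((Algebra.norm ℚ x : ℚ) : ℚ_[p t])‖ := by
    rw [← Finset.prod_pow, ← Finset.prod_mul_distrib]
    refine Finset.prod_congr rfl fun t _ => ?_
    rw [h6 t, norm_mul, norm_pow]
  have h8 := prod_norm_pprod hp
  rw [← hP] at h8
  rw [h7, h5, abs_mul, abs_pow] at h4
  calc (1 : ℝ) ≤ _ := h4
    _ = (|(P : ℝ)| * ∏ t, ‖(P : ℚ_[p t])‖) ^ (k * d) * (|((Algebra.norm ℚ x : ℚ) : ℝ)| *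
        ∏ t, ‖((Algebra.norm ℚ x : ℚ) : ℚ_[p t])‖) := by rw [mul_pow]; ring
    _ = _ := by rw [h8, one_pow, one_mul]

end

/-- The product formula for `x` such that `x` and `1/x` are integral outside the primes `p t`. -/
theorem prod_one {L : Type} [Field L] [NumberField L] {T : Type} [Fintype T] {p : T → ℕ}
    [∀ t, Fact (p t).Prime] (hp : Function.Injective p) (x : L) (hx : x ≠ 0)
    (h1 : ∃ k : ℕ, IsIntegral ℤ ((pprod p : L) ^ k * x))
    (h2 : ∃ k : ℕ, IsIntegral ℤ ((pprod p : L) ^ k * x⁻¹)) :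
    (∏ σ : L →+* ℂ, ‖σ x‖) * ∏ t, ∏ σ : L →+* FF L (p t), ‖σ x‖ = 1 := by
  obtain ⟨k, hk⟩ := h1
  obtain ⟨l, hl⟩ := h2
  have h3 := one_le hp x hx k hk
  have h4 := one_le hp x⁻¹ (inv_ne_zero hx) l hl
  have h5 : (∏ σ : L →+* ℂ, ‖σ x⁻¹‖) * ∏ t, ∏ σ : L →+* FF L (p t), ‖σ x⁻¹‖ =
      ((∏ σ : L →+* ℂ, ‖σ x‖) * ∏ t, ∏ σ : L →+* FF L (p t), ‖σ x‖)⁻¹ := by
    rw [mul_inv]
    congr 1
    · rw [← Finset.prod_inv_distrib]
      exact Finset.prod_congr rfl fun σ _ => by rw [map_inv₀, norm_inv]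
    · rw [← Finset.prod_inv_distrib]
      refine Finset.prod_congr rfl fun t _ => ?_
      rw [← Finset.prod_inv_distrib]
      exact Finset.prod_congr rfl fun σ _ => by rw [map_inv₀, norm_inv]
  rw [h5] at h4
  have h6 := (one_le_inv₀ (lt_of_lt_of_le one_pos h3)).1 h4
  exact le_antisymm h6 h3

/-- Size of an element with denominator `D ^ n` at the embeddings in `p`-adic fields. -/
theorem padic_bound {L : Type} [Field L] [NumberField L] (p : ℕ) [Fact p.Prime]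
    (σ : L →+* FF L p) (D : ℕ) (hD : 0 < D) (n : ℕ) (x : L)
    (h : IsIntegral ℤ ((D : L) ^ n * x)) : ‖σ x‖ ≤ (D : ℝ) ^ n := by
  have h1 : IsIntegral ℤ ((σ ((D : L) ^ n * x) : FF L p) : PadicAlgCl p) := by
    have h2 := h.map ((((FF L p).val : FF L p →+* PadicAlgCl p).comp σ).toIntAlgHom)
    exact h2
  have h3 := norm_le_one_of_isIntegral h1
  rw [← ff_norm, map_mul, map_pow, map_natCast, norm_mul, norm_pow] at h3
  have h4 : ‖((D : ℕ) : FF L p)‖ = ‖((D : ℕ) : ℚ_[p])‖ := by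
    have h5 : (((D : ℕ) : FF L p) : PadicAlgCl p) = algebraMap ℚ_[p] (PadicAlgCl p) (D : ℚ_[p]) := by
      rw [map_natCast]
      rfl
    rw [ff_norm, h5, PadicAlgCl.norm_extends]
  obtain ⟨v, hv1, hv2⟩ := exists_val p (D : ℤ) (by exact_mod_cast hD.ne')
  have h6 : ((p : ℤ) ^ v) ≤ (D : ℤ) := Int.le_of_dvd (by exact_mod_cast hD) hv2
  have h7 : ((p : ℝ) ^ v) ≤ (D : ℝ) := by exact_mod_cast h6
  have hp0 : (0 : ℝ) < (p : ℝ) ^ v := pow_pos (by exact_mod_cast (Fact.out : p.Prime).pos) _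
  have h8 : (D : ℝ)⁻¹ ≤ ‖((D : ℕ) : FF L p)‖ := by
    rw [h4]
    have h9 : ‖((D : ℕ) : ℚ_[p])‖ = ((p : ℝ) ^ v)⁻¹ := by
      rw [← hv1, Int.cast_natCast]
    rw [h9]
    exact inv_anti₀ hp0 h7
  have hD0 : (0 : ℝ) < D := by exact_mod_cast hD
  have h10 : ((D : ℝ)⁻¹) ^ n * ‖σ x‖ ≤ 1 :=
    (mul_le_mul_of_nonneg_right (pow_le_pow_left₀ (by positivity) h8 n) (norm_nonneg _)).trans h3
  rw [inv_pow, ← div_eq_inv_mul, div_le_iff₀ (pow_pos hD0 n), one_mul] at h10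
  exact h10

end Pool.Agent.Helper11.TS
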