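import Pool.Agent.Helper11.TS.Defs

/-!
# TS, module T6a: powers have many terms
-/

set_option autoImplicit false

namespace Pool.Agent.Helper11.TS

open Polynomial Filter

variable {k V : Type} [Field k] [CharZero k] [AddCommGroup V] [Module ℚ V]

/-- The part of degree `t`. -/
noncomputable def ptr (lam : V →ₗ[ℚ] ℚ) (t : ℚ) : Alg k V →+ Alg k V where
  toFun E := AddMonoidAlgebra.ofCoeff (E.coeff.filter fun ν => lam ν = t)
  map_zero' := by
    rw [AddMonoidAlgebra.coeff_zero, Finsupp.filter_zero, AddMonoidAlgebra.ofCoeff_zero]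
  map_add' E F := by
    rw [AddMonoidAlgebra.coeff_add, Finsupp.filter_add, AddMonoidAlgebra.ofCoeff_add]

omit [CharZero k] in
lemma ptr_coeff (lam : V →ₗ[ℚ] ℚ) (t : ℚ) (E : Alg k V) (ν : V) :
    (ptr lam t E).coeff ν = if lam ν = t then E.coeff ν else 0 := by
  change (E.coeff.filter fun ν => lam ν = t) ν = _
  rw [Finsupp.filter_apply]

omit [CharZero k] in
lemma mem_spt_ptr (lam : V →ₗ[ℚ] ℚ) (t : ℚ) (E : Alg k V) (ν : V) :
    ν ∈ spt (ptr lam t E) ↔ ν ∈ spt E ∧ lam ν = t := by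
  rw [Finsupp.mem_support_iff, Finsupp.mem_support_iff, ptr_coeff]
  by_cases h : lam ν = t
  · simp [h]
  · simp [h]

omit [CharZero k] in
lemma ptr_zero_of_lt (lam : V →ₗ[ℚ] ℚ) (t : ℚ) (E : Alg k V) (h : ∀ ν ∈ spt E, lam ν < t) :
    ptr lam t E = 0 := by
  apply AddMonoidAlgebra.ext
  ext ν
  rw [ptr_coeff, AddMonoidAlgebra.coeff_zero, Finsupp.zero_apply]
  by_cases h1 : lam ν = t
  · rw [if_pos h1]
    by_contra h2
    exact absurd h1 (h ν (Finsupp.mem_support_iff.2 h2)).ne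
  · rw [if_neg h1]

omit [CharZero k] in
lemma ptr_self (lam : V →ₗ[ℚ] ℚ) (t : ℚ) (E : Alg k V) (h : ∀ ν ∈ spt E, lam ν = t) :
    ptr lam t E = E := by
  apply AddMonoidAlgebra.ext
  ext ν
  rw [ptr_coeff]
  by_cases h1 : lam ν = t
  · rw [if_pos h1]
  · rw [if_neg h1]
    by_contra h2
    exact h1 (h ν (Finsupp.mem_support_iff.2 (Ne.symm h2)))

omit [CharZero k] [Module ℚ V] in
lemma mem_spt_mul {E F : Alg k V} {ν : V} (h : ν ∈ spt (E * F)) :
    ∃ x ∈ spt E, ∃ y ∈ spt F, x + y = ν := by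
  classical
  exact Finset.mem_add.1 (AddMonoidAlgebra.support_coeff_mul_subset E F h)

omit [CharZero k] in
lemma sub_ptr_lt (lam : V →ₗ[ℚ] ℚ) (t : ℚ) (E : Alg k V) (h : ∀ ν ∈ spt E, lam ν ≤ t) :
    ∀ ν ∈ spt (E - ptr lam t E), lam ν < t := by
  intro ν hν
  rw [Finsupp.mem_support_iff, AddMonoidAlgebra.coeff_sub, Finsupp.sub_apply, ptr_coeff] at hν
  by_cases h1 : lam ν = t
  · rw [if_pos h1, sub_self] at hν
    exact absurd rfl hν
  · rw [if_neg h1, sub_zero] at hν
    exact lt_of_le_of_ne (h ν (Finsupp.mem_support_iff.2 hν)) h1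

omit [CharZero k] in
lemma ptr_mul (lam : V →ₗ[ℚ] ℚ) (a b : ℚ) (E F : Alg k V) (hE : ∀ ν ∈ spt E, lam ν ≤ a)
    (hF : ∀ ν ∈ spt F, lam ν ≤ b) :
    ptr lam (a + b) (E * F) = ptr lam a E * ptr lam b F := by
  have h1 : E * F = ptr lam a E * ptr lam b F + (ptr lam a E * (F - ptr lam b F) +
      (E - ptr lam a E) * F) := by ring
  have h2 := sub_ptr_lt lam a E hE
  have h3 := sub_ptr_lt lam b F hF
  rw [h1, map_add, map_add]
  have e1 : ptr lam (a + b) (ptr lam a E * ptr lam b F) = ptr lam a E * ptr lam b F := by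
    apply ptr_self
    intro ν hν
    obtain ⟨x, hx, y, hy, rfl⟩ := mem_spt_mul hν
    rw [map_add, ((mem_spt_ptr lam a E x).1 hx).2, ((mem_spt_ptr lam b F y).1 hy).2]
  have e2 : ptr lam (a + b) (ptr lam a E * (F - ptr lam b F)) = 0 := by
    apply ptr_zero_of_lt
    intro ν hν
    obtain ⟨x, hx, y, hy, rfl⟩ := mem_spt_mul hν
    rw [map_add, ((mem_spt_ptr lam a E x).1 hx).2]
    have := h3 y hy
    linarith
  have e3 : ptr lam (a + b) ((E - ptr lam a E) * F) = 0 := by
    apply ptr_zero_of_lt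
    intro ν hν
    obtain ⟨x, hx, y, hy, rfl⟩ := mem_spt_mul hν
    rw [map_add]
    have := h2 x hx
    have := hF y hy
    linarith
  rw [e1, e2, e3, add_zero, add_zero]

omit [CharZero k] in
lemma le_pow (lam : V →ₗ[ℚ] ℚ) (a : ℚ) (E : Alg k V) (hE : ∀ ν ∈ spt E, lam ν ≤ a) (n : ℕ) :
    ∀ ν ∈ spt (E ^ n), lam ν ≤ n * a := by
  induction n with
  | zero =>
    intro ν hν
    rw [pow_zero] at hν
    have h1 : spt (1 : Alg k V) ⊆ {0} := Finsupp.support_single_subset
    have h2 := Finset.mem_singleton.1 (h1 hν)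
    rw [h2]
    simp
  | succ n ih =>
    intro ν hν
    rw [pow_succ] at hν
    obtain ⟨x, hx, y, hy, rfl⟩ := mem_spt_mul hν
    rw [map_add]
    have := ih x hx
    have := hE y hy
    push_cast
    linarith

omit [CharZero k] in
lemma ptr_pow (lam : V →ₗ[ℚ] ℚ) (a : ℚ) (E : Alg k V) (hE : ∀ ν ∈ spt E, lam ν ≤ a) (n : ℕ) :
    ptr lam (n * a) (E ^ n) = ptr lam a E ^ n := by
  induction n with
  | zero =>
    rw [pow_zero, pow_zero]
    apply ptr_self
    intro ν hν
    have h1 : spt (1 : Alg k V) ⊆ {0} := Finsupp.support_single_subset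
    have h2 := Finset.mem_singleton.1 (h1 hν)
    rw [h2]
    simp
  | succ n ih =>
    have h1 : ((n + 1 : ℕ) : ℚ) * a = n * a + a := by
      push_cast
      ring
    rw [pow_succ, pow_succ, ← ih, ← ptr_mul lam _ _ _ _ (le_pow lam a E hE n) hE, h1]

/-- A polynomial in binomial coefficients with a nonzero leading coefficient is eventually
nonzero. -/
lemma binom_ne {c : ℕ → k} {s : ℕ} (hs : c s ≠ 0) :
    ∀ᶠ l : ℕ in atTop, ∑ j ∈ Finset.range (s + 1), (l.choose j : k) * c j ≠ 0 := by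
  let p : k[X] := ∑ j ∈ Finset.range (s + 1),
    Polynomial.C (c j / (j.factorial : k)) * descPochhammer k j
  have hp : p.coeff s = c s / (s.factorial : k) := by
    change (∑ j ∈ Finset.range (s + 1),
      Polynomial.C (c j / (j.factorial : k)) * descPochhammer k j).coeff s = _
    rw [Polynomial.finsetSum_coeff, Finset.sum_range_succ, Finset.sum_eq_zero, zero_add,
      Polynomial.coeff_C_mul]
    · have h1 := (monic_descPochhammer k s).coeff_natDegree
      rw [descPochhammer_natDegree] at h1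
      rw [h1, mul_one]
    · intro j hj
      rw [Polynomial.coeff_C_mul, Polynomial.coeff_eq_zero_of_natDegree_lt, mul_zero]
      rw [descPochhammer_natDegree]
      exact Finset.mem_range.1 hj
  have hp0 : p ≠ 0 := by
    intro h
    rw [h, Polynomial.coeff_zero] at hp
    exact div_ne_zero hs (Nat.cast_ne_zero.2 s.factorial_ne_zero) hp.symm
  have hev : ∀ l : ℕ, p.eval (l : k) =
      ∑ j ∈ Finset.range (s + 1), (l.choose j : k) * c j := by
    intro l
    change (∑ j ∈ Finset.range (s + 1),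
      Polynomial.C (c j / (j.factorial : k)) * descPochhammer k j).eval (l : k) = _
    rw [Polynomial.eval_finsetSum]
    refine Finset.sum_congr rfl fun j _ => ?_
    rw [Polynomial.eval_mul, Polynomial.eval_C, descPochhammer_eval_eq_descFactorial,
      Nat.descFactorial_eq_factorial_mul_choose]
    have h1 : (j.factorial : k) ≠ 0 := Nat.cast_ne_zero.2 j.factorial_ne_zero
    push_cast
    field_simp
  have hfin : {l : ℕ | p.eval (l : k) = 0}.Finite := by
    classical
    have h1 : {x : k | p.eval x = 0}.Finite := by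
      refine (p.roots.toFinset.finite_toSet).subset fun x hx => ?_
      rw [Finset.mem_coe, Multiset.mem_toFinset, Polynomial.mem_roots hp0]
      exact hx
    exact h1.preimage (Nat.cast_injective.injOn)
  have h2 : ∀ᶠ l : ℕ in atTop, l ∉ {l : ℕ | p.eval (l : k) = 0} := by
    rw [← Nat.cofinite_eq_atTop]
    exact hfin.eventually_cofinite_notMem
  filter_upwards [h2] with l hl
  rw [← hev]
  exact hl

/-- If the exponents of `ε` have degree at most `-δ < 0`, and some have degree `-δ`, then for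
large `l` the power `(1 + ε)^l` has an exponent of degree `-sδ` for every `s ≤ S`. -/
theorem pow_parts (lam : V →ₗ[ℚ] ℚ) (ε : Alg k V) (δ : ℚ) (hδ : 0 < δ)
    (h : ∀ ν ∈ spt ε, lam ν ≤ -δ) (h1 : ∃ ν ∈ spt ε, lam ν = -δ) (S : ℕ) :
    ∃ l0 : ℕ, ∀ l ≥ l0, ∀ s ≤ S, ∃ μ ∈ spt ((1 + ε) ^ l), lam μ = -(s * δ) := by
  have hne : ptr lam (-δ) ε ≠ 0 := by
    intro h2
    obtain ⟨ν, hν, hν'⟩ := h1
    have h3 : ν ∈ spt (ptr lam (-δ) ε) := (mem_spt_ptr lam _ ε ν).2 ⟨hν, hν'⟩
    rw [h2] at h3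
    simp [spt] at h3
  have key : ∀ s : ℕ, ∀ᶠ l : ℕ in atTop, ∃ μ ∈ spt ((1 + ε) ^ l), lam μ = -(s * δ) := by
    intro s
    have h2 : ptr lam (-(s * δ)) (ε ^ s) ≠ 0 := by
      have h3 := ptr_pow lam (-δ) ε h s
      rw [show -((s : ℚ) * δ) = s * (-δ) by ring, h3]
      exact pow_ne_zero s hne
    obtain ⟨μ, hμ⟩ : (spt (ptr lam (-(s * δ)) (ε ^ s))).Nonempty := by
      rw [Finset.nonempty_iff_ne_empty]
      intro h3
      apply h2
      apply AddMonoidAlgebra.ext
      exact Finsupp.support_eq_empty.1 h3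
    obtain ⟨hμ1, hμ2⟩ := (mem_spt_ptr lam _ _ μ).1 hμ
    have hc : (ε ^ s).coeff μ ≠ 0 := Finsupp.mem_support_iff.1 hμ1
    filter_upwards [binom_ne (c := fun j => (ε ^ j).coeff μ) hc, eventually_ge_atTop s]
      with l hl hls
    refine ⟨μ, ?_, hμ2⟩
    rw [Finsupp.mem_support_iff]
    have h4 : ((1 + ε) ^ l).coeff μ =
        ∑ j ∈ Finset.range (l + 1), (l.choose j : k) * (ε ^ j).coeff μ := by
      rw [add_comm, add_pow, AddMonoidAlgebra.coeff_sum, Finsupp.finsetSum_apply]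
      refine Finset.sum_congr rfl fun j _ => ?_
      rw [one_pow, mul_one, mul_comm, ← nsmul_eq_mul, AddMonoidAlgebra.coeff_smul,
        Finsupp.smul_apply, nsmul_eq_mul]
    rw [h4, ← Finset.sum_subset (Finset.range_subset_range.2 (Nat.succ_le_succ hls))]
    · exact hl
    · intro j _ hj
      have hj' : s < j := by
        rw [Finset.mem_range] at hj
        omega
      have h5 : (ε ^ j).coeff μ = 0 := by
        by_contra h6
        have h7 := le_pow lam (-δ) ε h j μ (Finsupp.mem_support_iff.2 h6)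
        rw [hμ2] at h7
        have h8 : (s : ℚ) < j := by exact_mod_cast hj'
        nlinarith
      rw [h5, mul_zero]
  have h2 : ∀ᶠ l : ℕ in atTop, ∀ s ∈ Finset.range (S + 1),
      ∃ μ ∈ spt ((1 + ε) ^ l), lam μ = -(s * δ) := by
    rw [Filter.eventually_all_finset]
    intro s _
    exact key s
  obtain ⟨l0, hl0⟩ := eventually_atTop.1 h2
  exact ⟨l0, fun l hl s hs => hl0 l hl s (Finset.mem_range.2 (Nat.lt_succ_of_le hs))⟩

/-- The large powers of an element with at least two terms have many terms. -/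
theorem pow_spt (W : Alg k V) (hW : 2 ≤ (spt W).card) (B : ℕ) :
    ∃ l0 : ℕ, ∀ l ≥ l0, B < (spt (W ^ l)).card := by
  classical
  obtain ⟨n, hn⟩ : ∃ n, (spt W).card = n := ⟨_, rfl⟩
  induction n using Nat.strong_induction_on generalizing W with
  | _ n ih =>
  obtain ⟨μ1, hμ1, μ2, hμ2, hne⟩ := Finset.one_lt_card.1 (show 1 < (spt W).card from hW)
  obtain ⟨lam, hlam⟩ : ∃ lam : V →ₗ[ℚ] ℚ, lam μ1 ≠ lam μ2 := by
    by_contra hcon
    push Not at hcon
    apply hne
    have h1 : μ1 - μ2 = 0 := by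
      rw [← Module.forall_dual_apply_eq_zero_iff ℚ]
      intro φ
      rw [map_sub, hcon φ, sub_self]
    exact sub_eq_zero.1 h1
  obtain ⟨ν0, hν0, hmax⟩ := Finset.exists_max_image (spt W) lam ⟨μ1, hμ1⟩
  have hle : ∀ ν ∈ spt W, lam ν ≤ lam ν0 := hmax
  have hlt := sub_ptr_lt lam (lam ν0) W hle
  have hT : ν0 ∈ spt (ptr lam (lam ν0) W) := (mem_spt_ptr lam _ W ν0).2 ⟨hν0, rfl⟩
  have hsub : spt (ptr lam (lam ν0) W) ⊆ spt W := fun ν hν =>
    ((mem_spt_ptr lam _ W ν).1 hν).1
  obtain ⟨μ3, hμ3, hμ3'⟩ : ∃ μ ∈ spt W, lam μ ≠ lam ν0 := by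
    by_cases h1 : lam μ1 = lam ν0
    · exact ⟨μ2, hμ2, fun h2 => hlam (h1.trans h2.symm)⟩
    · exact ⟨μ1, hμ1, h1⟩
  have hcard : (spt (ptr lam (lam ν0) W)).card < (spt W).card := by
    apply Finset.card_lt_card
    rw [Finset.ssubset_iff_of_subset hsub]
    exact ⟨μ3, hμ3, fun h => hμ3' ((mem_spt_ptr lam _ W μ3).1 h).2⟩
  by_cases h2 : 2 ≤ (spt (ptr lam (lam ν0) W)).card
  · obtain ⟨l0, hl0⟩ := ih _ (by omega) (ptr lam (lam ν0) W) h2 rfl
    refine ⟨l0, fun l hl => (hl0 l hl).trans_le (Finset.card_le_card ?_)⟩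
    intro ν hν
    rw [← ptr_pow lam (lam ν0) W hle l] at hν
    exact ((mem_spt_ptr lam _ _ ν).1 hν).1
  · -- the top part is a monomial
    have hone : spt (ptr lam (lam ν0) W) = {ν0} := by
      apply Finset.eq_singleton_iff_unique_mem.2
      refine ⟨hT, fun ν hν => ?_⟩
      by_contra h3
      exact h2 (Finset.one_lt_card.2 ⟨ν, hν, ν0, hT, h3⟩)
    have hc : W.coeff ν0 ≠ 0 := Finsupp.mem_support_iff.1 hν0
    have hTm : ptr lam (lam ν0) W = mono ν0 (W.coeff ν0) := by
      apply AddMonoidAlgebra.ext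
      ext ν
      by_cases h3 : ν = ν0
      · rw [h3, ptr_coeff, if_pos rfl, AddMonoidAlgebra.coeff_single, Finsupp.single_eq_same]
      · have h4 : ν ∉ spt (ptr lam (lam ν0) W) := by
          rw [hone]
          simpa using h3
        rw [Finsupp.notMem_support_iff.1 h4, AddMonoidAlgebra.coeff_single,
          Finsupp.single_eq_of_ne h3]
    let R : Alg k V := W - ptr lam (lam ν0) W
    let ε : Alg k V := mono (-ν0) (W.coeff ν0)⁻¹ * R
    have hWe : W = mono ν0 (W.coeff ν0) * (1 + ε) := by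
      have h3 : (mono ν0 (W.coeff ν0) : Alg k V) * mono (-ν0) (W.coeff ν0)⁻¹ = 1 := by
        unfold mono
        rw [AddMonoidAlgebra.single_mul_single, add_neg_cancel, mul_inv_cancel₀ hc]
        rfl
      rw [mul_add, mul_one]
      change W = mono ν0 (W.coeff ν0) +
        mono ν0 (W.coeff ν0) * (mono (-ν0) (W.coeff ν0)⁻¹ * R)
      rw [← mul_assoc, h3, one_mul, ← hTm]
      change W = ptr lam (lam ν0) W + (W - ptr lam (lam ν0) W)
      exact (add_sub_cancel _ _).symm
    have hεmem : ∀ ν ∈ spt ε, lam ν < 0 := by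
      intro ν hν
      obtain ⟨x, hx, y, hy, rfl⟩ := mem_spt_mul hν
      have h3 := Finset.mem_singleton.1 (Finsupp.support_single_subset hx)
      have h4 := hlt y hy
      rw [map_add, h3, map_neg]
      linarith
    have hRne : R ≠ 0 := by
      intro h3
      have h4 : W = ptr lam (lam ν0) W := sub_eq_zero.1 h3
      exact hcard.ne (congrArg (fun E => (spt E).card) h4.symm)
    have hεne : ε ≠ 0 := by
      intro h3
      apply hRne
      have h4 : (mono ν0 (W.coeff ν0) : Alg k V) * ε = R := by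
        have h5 : (mono ν0 (W.coeff ν0) : Alg k V) * mono (-ν0) (W.coeff ν0)⁻¹ = 1 := by
          unfold mono
          rw [AddMonoidAlgebra.single_mul_single, add_neg_cancel, mul_inv_cancel₀ hc]
          rfl
        change (mono ν0 (W.coeff ν0) : Alg k V) * (mono (-ν0) (W.coeff ν0)⁻¹ * R) = R
        rw [← mul_assoc, h5, one_mul]
      rw [← h4, h3, mul_zero]
    have hεs : (spt ε).Nonempty := by
      rw [Finset.nonempty_iff_ne_empty]
      intro h3
      apply hεne
      apply AddMonoidAlgebra.ext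
      exact Finsupp.support_eq_empty.1 h3
    obtain ⟨ν1, hν1, hmax1⟩ := Finset.exists_max_image (spt ε) lam hεs
    obtain ⟨l0, hl0⟩ := pow_parts lam ε (-lam ν1) (by
      have := hεmem ν1 hν1
      linarith) (fun ν hν => by
      have := hmax1 ν hν
      linarith) ⟨ν1, hν1, by ring⟩ B
    refine ⟨l0, fun l hl => ?_⟩
    have h5 := hl0 l hl
    have hpos : 0 < -lam ν1 := by
      have := hεmem ν1 hν1
      linarith
    choose f hf1 hf2 using h5
    have hWl : W ^ l = mono (l • ν0) (W.coeff ν0 ^ l) * (1 + ε) ^ l := by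
      have h6 : (mono ν0 (W.coeff ν0) : Alg k V) ^ l = mono (l • ν0) (W.coeff ν0 ^ l) := by
        unfold mono
        rw [AddMonoidAlgebra.single_pow]
      rw [← h6, ← mul_pow, ← hWe]
    have hmem : ∀ ν ∈ spt ((1 + ε) ^ l), l • ν0 + ν ∈ spt (W ^ l) := by
      intro ν hν
      rw [Finsupp.mem_support_iff, hWl]
      have h7 : (mono (l • ν0) (W.coeff ν0 ^ l) * (1 + ε) ^ l).coeff (l • ν0 + ν) =
          W.coeff ν0 ^ l * ((1 + ε) ^ l).coeff ν := by
        unfold mono
        rw [AddMonoidAlgebra.coeff_single_mul_add]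
      rw [h7]
      exact mul_ne_zero (pow_ne_zero l hc) (Finsupp.mem_support_iff.1 hν)
    have hinj : Set.InjOn (fun s : Fin (B + 1) => l • ν0 + f s.1 (Nat.lt_succ_iff.1 s.2))
        (Finset.univ : Finset (Fin (B + 1))) := by
      intro s _ t _ hst
      have h8 : f s.1 (Nat.lt_succ_iff.1 s.2) = f t.1 (Nat.lt_succ_iff.1 t.2) :=
        add_left_cancel hst
      have h9 := hf2 s.1 (Nat.lt_succ_iff.1 s.2)
      rw [h8, hf2 t.1 (Nat.lt_succ_iff.1 t.2)] at h9
      have h10 : ((t.1 : ℕ) : ℚ) = s.1 := by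
        have h11 := neg_injective h9
        exact mul_right_cancel₀ hpos.ne' h11
      have h12 : (t.1 : ℕ) = s.1 := by exact_mod_cast h10
      exact Fin.ext h12.symm
    have h13 := Finset.card_le_card_of_injOn
      (fun s : Fin (B + 1) => l • ν0 + f s.1 (Nat.lt_succ_iff.1 s.2))
      (fun s _ => hmem _ (hf1 s.1 (Nat.lt_succ_iff.1 s.2))) hinj
    rw [Finset.card_univ, Fintype.card_fin] at h13
    omega

end Pool.Agent.Helper11.TS
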