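import Pool.Agent.Helper11.TS.Hensel

/-!
# TS, module T2a: approximate factorisation in the group algebra
-/

set_option autoImplicit false

namespace Pool.Agent.Helper11.TS

open Polynomial Filter

variable {κ G : Type} [Field κ] [AddCommGroup G]

lemma pui_one (β : G →+ ℝ) {t : ℝ} (ht : 0 ≤ t) : Bd β t (1 : Alg κ G) := by
  have h := Bd.single (κ := κ) β (t := t) (ν := 0) (by simpa using ht) 1
  rwa [mono, ← AddMonoidAlgebra.one_def] at h

lemma pui_exists (β : G →+ ℝ) (E : Alg κ G) : ∃ c : ℝ, 0 ≤ c ∧ Bd β c E := by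
  refine ⟨∑ ν ∈ spt E, |β ν|, Finset.sum_nonneg fun _ _ => abs_nonneg _, fun ν hν => ?_⟩
  exact (le_abs_self _).trans
    (Finset.single_le_sum (f := fun ν => |β ν|) (fun _ _ => abs_nonneg _) hν)

lemma pui_le {β : G →+ ℝ} {s t : ℝ} {p : (Alg κ G)[X]} (h : BdP β s p) (hst : s ≤ t) :
    BdP β t p := fun i => (h i).mono_le hst

lemma pui_add {β : G →+ ℝ} {t : ℝ} {p r : (Alg κ G)[X]} (h : BdP β t p) (h' : BdP β t r) :
    BdP β t (p + r) := by
  intro i
  rw [coeff_add]
  exact (h i).add (h' i)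

lemma pui_sub {β : G →+ ℝ} {t : ℝ} {p r : (Alg κ G)[X]} (h : BdP β t p) (h' : BdP β t r) :
    BdP β t (p - r) := by
  intro i
  rw [coeff_sub]
  exact (h i).sub (h' i)

lemma pui_zero (β : G →+ ℝ) (t : ℝ) : BdP β t (0 : (Alg κ G)[X]) := by
  intro i
  rw [coeff_zero]
  exact Bd.zero β t

lemma pui_C {β : G →+ ℝ} {t : ℝ} {E : Alg κ G} (h : Bd β t E) : BdP β t (C E) := by
  intro i
  rw [coeff_C]
  split_ifs
  · exact h
  · exact Bd.zero β t

lemma pui_X (β : G →+ ℝ) {t : ℝ} (ht : 0 ≤ t) : BdP β t (X : (Alg κ G)[X]) := by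
  intro i
  rw [coeff_X]
  split_ifs
  · exact pui_one β ht
  · exact Bd.zero β t

lemma pui_pow {β : G →+ ℝ} {t : ℝ} {p : (Alg κ G)[X]} (h : BdP β t p) (n : ℕ) :
    BdP β (n * t) (p ^ n) := by
  induction n with
  | zero =>
    rw [pow_zero, ← C_1]
    exact pui_C (pui_one β (by simp))
  | succ n ih =>
    rw [pow_succ]
    refine pui_le (ih.mul h) ?_
    push_cast
    linarith

lemma pui_sum {β : G →+ ℝ} {t : ℝ} {ι : Type} (s : Finset ι) (f : ι → (Alg κ G)[X])
    (h : ∀ i ∈ s, BdP β t (f i)) : BdP β t (∑ i ∈ s, f i) := by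
  intro j
  rw [finsetSum_coeff]
  exact Bd.sum s _ fun i hi => h i hi j

/-- The size of a composition. -/
lemma pui_comp {β : G →+ ℝ} {t c : ℝ} (hc : 0 ≤ c) {n : ℕ} {E r : (Alg κ G)[X]}
    (hE : E.natDegree ≤ n) (hb : BdP β t E) (hr : BdP β c r) : BdP β (t + n * c) (E.comp r) := by
  rw [comp, eval₂_eq_sum_range]
  refine pui_sum _ _ fun i hi => ?_
  have hi' : (i : ℝ) ≤ n := by
    have h1 := Finset.mem_range.1 hi
    exact_mod_cast (show i ≤ n by omega)
  refine pui_le ((pui_C (hb i)).mul (pui_pow hr i)) ?_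
  have h2 := mul_le_mul_of_nonneg_right hi' hc
  linarith

lemma pui_pow_mono (ν : G) (n : ℕ) : (mono ν (1 : κ)) ^ n = mono (n • ν) 1 := by
  unfold mono
  rw [AddMonoidAlgebra.single_pow, one_pow]

/-- The size of a rescaled polynomial. -/
lemma pui_scale {β : G →+ ℝ} {t : ℝ} {n : ℕ} {E : (Alg κ G)[X]}
    (hE : E.natDegree ≤ n) (hb : BdP β t E) (ν : G) :
    BdP β (t + n * |β ν|) (C (mono ν (1 : κ) ^ n) * E.comp (C (mono (-ν) (1 : κ)) * X)) := by
  intro i
  rw [coeff_C_mul, comp_C_mul_X_coeff]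
  rcases le_or_gt i n with hi | hi
  · rw [pui_pow_mono, pui_pow_mono]
    have h1 : Bd β (n * β ν) (mono (n • ν) (1 : κ)) := Bd.single β (by simp) 1
    have h2 : Bd β (-(i * β ν)) (mono (i • (-ν)) (1 : κ)) := Bd.single β (by simp) 1
    refine (h1.mul ((hb i).mul h2)).mono_le ?_
    have h3 : (i : ℝ) ≤ n := by exact_mod_cast hi
    have h4 : ((n : ℝ) - i) * β ν ≤ ((n : ℝ) - i) * |β ν| :=
      mul_le_mul_of_nonneg_left (le_abs_self _) (by linarith)
    have h5 : 0 ≤ (i : ℝ) * |β ν| := by positivity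
    linarith
  · rw [coeff_eq_zero_of_natDegree_lt (lt_of_le_of_lt hE hi), zero_mul, mul_zero]
    exact Bd.zero β _

/-- A factorisation up to the precision `M`. -/
def PuiFac (β : G →+ ℝ) (p : (Alg κ G)[X]) (M : ℝ) : Prop :=
  ∃ s : Multiset (Alg κ G), Multiset.card s = p.natDegree ∧
    BdP β (-M) (p - (s.map fun a => X - C a).prod)

lemma pui_monic (s : Multiset (Alg κ G)) : (s.map fun a => X - C a).prod.Monic :=
  monic_multiset_prod_of_monic _ _ fun a _ => monic_X_sub_C a

lemma pui_natDegree [Nontrivial (Alg κ G)] (s : Multiset (Alg κ G)) :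
    (s.map fun a => X - C a).prod.natDegree = Multiset.card s :=
  natDegree_multiset_prod_X_sub_C_eq_card s

lemma pui_err {p : (Alg κ G)[X]} {s : Multiset (Alg κ G)} (hs : Multiset.card s = p.natDegree) :
    (p - (s.map fun a => X - C a).prod).natDegree ≤ p.natDegree := by
  refine (natDegree_sub_le _ _).trans ?_
  rw [pui_natDegree, hs, max_self]

lemma pui_shift {β : G →+ ℝ} {r : (Alg κ G)[X]} (hr : ∀ M, PuiFac β r M) (h : Alg κ G) (M : ℝ) :
    PuiFac β (taylor h r) M := by
  obtain ⟨c, hc, hb⟩ := pui_exists β h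
  obtain ⟨s, hs, hE⟩ := hr (M + r.natDegree * c)
  refine ⟨s.map fun a => a - h, ?_, ?_⟩
  · rw [Multiset.card_map, hs, natDegree_taylor]
  · have h1 : ((s.map fun a => a - h).map fun a => X - C a).prod =
        taylor h (s.map fun a => X - C a).prod := by
      rw [taylor_apply, Polynomial.multiset_prod_comp, Multiset.map_map, Multiset.map_map]
      congr 1
      refine Multiset.map_congr rfl fun a _ => ?_
      simp only [Function.comp_apply, sub_comp, X_comp, C_comp, C_sub]
      ring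
    rw [h1, ← map_sub, taylor_apply]
    have h2 := pui_comp hc (pui_err hs) hE (pui_add (pui_X β hc) (pui_C hb))
    refine pui_le h2 ?_
    linarith

lemma pui_rescale {β : G →+ ℝ} {r : (Alg κ G)[X]} (hr : ∀ M, PuiFac β r M) (ν : G) (M : ℝ)
    {n : ℕ} (hn : r.natDegree = n) {p : (Alg κ G)[X]} (hp : p.natDegree = n)
    (hpr : p = C (mono ν (1 : κ) ^ n) * r.comp (C (mono (-ν) (1 : κ)) * X)) :
    PuiFac β p M := by
  obtain ⟨s, hs, hE⟩ := hr (M + n * |β ν|)
  have hUV : mono ν (1 : κ) * mono (-ν) (1 : κ) = 1 := by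
    unfold mono
    rw [AddMonoidAlgebra.single_mul_single, add_neg_cancel, one_mul, AddMonoidAlgebra.one_def]
  refine ⟨s.map fun a => mono ν (1 : κ) * a, ?_, ?_⟩
  · rw [Multiset.card_map, hs, hn, hp]
  · have h1 : ((s.map fun a => mono ν (1 : κ) * a).map fun a => X - C a).prod =
        C (mono ν (1 : κ) ^ n) * (s.map fun a => X - C a).prod.comp
          (C (mono (-ν) (1 : κ)) * X) := by
      rw [← hn, ← hs]
      clear hs hE
      induction s using Multiset.induction_on with
      | empty => simp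
      | cons a s ih =>
        have h3 : (X - C (mono ν (1 : κ) * a) : (Alg κ G)[X]) =
            C (mono ν (1 : κ)) * (C (mono (-ν) (1 : κ)) * X - C a) := by
          rw [mul_sub, ← mul_assoc, ← C_mul, hUV, C_1, one_mul, C_mul]
        rw [Multiset.map_cons, Multiset.map_cons, Multiset.prod_cons, ih, Multiset.map_cons,
          Multiset.prod_cons, Multiset.card_cons, pow_succ, mul_comp, sub_comp, X_comp,
          C_comp, h3, C.map_mul (mono ν (1 : κ) ^ Multiset.card s)]
        ring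
    have h4 : (r - (s.map fun a => X - C a).prod).natDegree ≤ n := by
      rw [← hn]
      exact pui_err hs
    have h2 := pui_scale h4 hE ν
    rw [sub_comp, mul_sub, ← h1, ← hpr] at h2
    refine pui_le h2 ?_
    linarith

/-- The second coefficient can be removed. -/
lemma pui_kill [CharZero κ] {p : (Alg κ G)[X]} (hp : p.Monic) {n : ℕ}
    (hn : p.natDegree = n + 1) : ∃ h : Alg κ G, (taylor h p).coeff n = 0 := by
  have h1 : ((n + 1 : ℕ) : κ) ≠ 0 := Nat.cast_ne_zero.2 (by omega)
  refine ⟨-(algebraMap κ (Alg κ G) ((n + 1 : ℕ) : κ)⁻¹ * p.coeff n), ?_⟩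
  have h2 : (hasseDeriv n p).natDegree < 2 := by
    have h3 := natDegree_hasseDeriv_le p n
    omega
  rw [taylor_coeff, eval_eq_sum_range' h2, Finset.sum_range_succ, Finset.sum_range_one,
    hasseDeriv_coeff, hasseDeriv_coeff, pow_zero, pow_one, mul_one, zero_add, Nat.choose_self,
    Nat.cast_one, one_mul, add_comm 1 n, Nat.choose_succ_self_right]
  have h3 : p.coeff (n + 1) = 1 := by
    rw [← hn]
    exact hp
  rw [h3, mul_one, ← map_natCast (algebraMap κ (Alg κ G)) (n + 1), mul_neg, ← mul_assoc,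
    ← map_mul, mul_inv_cancel₀ h1, map_one, one_mul, add_neg_cancel]

/-- The residue polynomial. -/
noncomputable def pres (p : (Alg κ G)[X]) : κ[X] :=
  ∑ i ∈ Finset.range (p.natDegree + 1), monomial i ((p.coeff i).coeff 0)

lemma pres_coeff (p : (Alg κ G)[X]) (i : ℕ) : (pres p).coeff i = (p.coeff i).coeff 0 := by
  unfold pres
  rw [finsetSum_coeff]
  simp only [coeff_monomial]
  rw [Finset.sum_ite_eq']
  split_ifs with h
  · rfl
  · rw [coeff_eq_zero_of_natDegree_lt (by rw [Finset.mem_range] at h; omega)]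
    simp

lemma pres_le (p : (Alg κ G)[X]) : (pres p).natDegree ≤ p.natDegree := by
  rw [natDegree_le_iff_coeff_eq_zero]
  intro i hi
  rw [pres_coeff, coeff_eq_zero_of_natDegree_lt hi]
  simp

lemma pres_top {p : (Alg κ G)[X]} (hp : p.Monic) : (pres p).coeff p.natDegree = 1 := by
  rw [pres_coeff, hp.coeff_natDegree, AddMonoidAlgebra.one_def, AddMonoidAlgebra.coeff_single,
    Finsupp.single_eq_same]

lemma pres_monic {p : (Alg κ G)[X]} (hp : p.Monic) : (pres p).Monic :=
  monic_of_natDegree_le_of_coeff_eq_one _ (pres_le p) (pres_top hp)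

lemma pres_natDegree {p : (Alg κ G)[X]} (hp : p.Monic) : (pres p).natDegree = p.natDegree := by
  refine le_antisymm (pres_le p) (le_natDegree_of_ne_zero ?_)
  rw [pres_top hp]
  exact one_ne_zero

/-- The residue polynomial has two coprime factors of positive degree. -/
lemma pres_split [CharZero κ] [IsAlgClosed κ] {p : (Alg κ G)[X]} (hp : p.Monic) {n : ℕ}
    (hn : p.natDegree = n + 1) (h1 : p.coeff n = 0) {i0 : ℕ} (hi0 : i0 < n + 1)
    (hne : (p.coeff i0).coeff 0 ≠ 0) :
    ∃ f0 g0 : κ[X], f0.Monic ∧ g0.Monic ∧ IsCoprime f0 g0 ∧ pres p = f0 * g0 ∧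
      f0.natDegree < n + 1 ∧ g0.natDegree < n + 1 := by
  have hm := pres_monic hp
  have hd : (pres p).natDegree = n + 1 := by rw [pres_natDegree hp, hn]
  have hdeg : (pres p).degree ≠ 0 := by
    rw [degree_eq_natDegree hm.ne_zero, hd]
    exact_mod_cast Nat.succ_ne_zero n
  obtain ⟨c, hc⟩ := IsAlgClosed.exists_root (pres p) hdeg
  obtain ⟨g0, hg, hnd⟩ := exists_eq_pow_rootMultiplicity_mul_and_not_dvd (pres p) hm.ne_zero c
  have hpos : 0 < rootMultiplicity c (pres p) := (rootMultiplicity_pos hm.ne_zero).2 hc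
  generalize rootMultiplicity c (pres p) = m at hg hpos
  have hf : ((X - C c) ^ m : κ[X]).Monic := (monic_X_sub_C c).pow m
  have hg0 : g0.Monic := hf.of_mul_monic_left (by rw [← hg]; exact hm)
  have hfd : ((X - C c) ^ m : κ[X]).natDegree = m := by
    rw [(monic_X_sub_C c).natDegree_pow, natDegree_X_sub_C, mul_one]
  have hsum : n + 1 = m + g0.natDegree := by
    rw [← hd, hg, hf.natDegree_mul hg0, hfd]
  have hgpos : g0.natDegree ≠ 0 := by
    intro h0
    have hg1 : g0 = 1 := (Monic.natDegree_eq_zero hg0).1 h0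
    rw [hg1, mul_one, ← show n + 1 = m by omega] at hg
    have h3 : (pres p).coeff n = 0 := by
      rw [pres_coeff, h1]
      simp
    rw [hg, sub_eq_add_neg, ← C_neg, coeff_X_add_C_pow, Nat.choose_succ_self_right] at h3
    have h4 : ((n + 1 : ℕ) : κ) ≠ 0 := Nat.cast_ne_zero.2 (by omega)
    have h5 : c = 0 := by
      rcases mul_eq_zero.1 h3 with h6 | h6
      · rw [show n + 1 - n = 1 by omega, pow_one] at h6
        exact neg_eq_zero.1 h6
      · exact absurd h6 h4
    apply hne
    rw [← pres_coeff, hg, h5, C_0, sub_zero, coeff_X_pow, if_neg (by omega)]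
  refine ⟨(X - C c) ^ m, g0, hf, hg0, ?_, hg, ?_, ?_⟩
  · exact IsCoprime.pow_left ((irreducible_X_sub_C c).coprime_iff_not_dvd.2 hnd)
  · rw [hfd]
    omega
  · omega

/-- The inductive step for polynomials with coefficients of size at most one. -/
lemma pui_core [CharZero κ] [IsAlgClosed κ] {β : G →+ ℝ} (hβ : Function.Injective β) {n : ℕ}
    (ih : ∀ m < n + 1, ∀ f : (Alg κ G)[X], f.Monic → f.natDegree = m → ∀ M, PuiFac β f M)
    {p : (Alg κ G)[X]} (hp : p.Monic) (hn : p.natDegree = n + 1) (hb : BdP β 0 p)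
    (h1 : p.coeff n = 0) {i0 : ℕ} (hi0 : i0 < n + 1) (hne : (p.coeff i0).coeff 0 ≠ 0) (M : ℝ) :
    PuiFac β p M := by
  obtain ⟨f0, g0, hf0, hg0, hco, hfg, hfd, hgd⟩ := pres_split hp hn h1 hi0 hne
  obtain ⟨f, g, hf, hg, hfn, hgn, hfb, hgb, herr⟩ := hensel β hβ p hp hb f0 g0 hf0 hg0 hco
    (fun i => by rw [← hfg, pres_coeff]) (max M 0)
  obtain ⟨s, hs, hsE⟩ := ih _ hfd f hf hfn (max M 0)
  obtain ⟨t, ht, htE⟩ := ih _ hgd g hg hgn (max M 0)
  refine ⟨s + t, ?_, ?_⟩
  · rw [Multiset.card_add, hs, ht, hfn, hgn, ← hf0.natDegree_mul hg0, ← hfg, pres_natDegree hp]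
  · rw [Multiset.map_add, Multiset.prod_add]
    have hM : -max M 0 ≤ 0 := by
      have := le_max_right M 0
      linarith
    have hM2 : -max M 0 ≤ -M := by
      have := le_max_left M 0
      linarith
    generalize (s.map fun a => X - C a).prod = F at hsE ⊢
    generalize (t.map fun a => X - C a).prod = H at htE ⊢
    have hF : BdP β 0 F := by
      have h2 := pui_sub hfb (pui_le hsE hM)
      rwa [sub_sub_cancel] at h2
    have h2 : p - F * H = (p - f * g) + ((f - F) * g + F * (g - H)) := by ring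
    rw [h2]
    refine pui_le (pui_add herr (pui_add (pui_le (hsE.mul hgb) ?_) (pui_le (hF.mul htE) ?_))) hM2
    · rw [add_zero]
    · rw [zero_add]

lemma pui_coeff (ν : G) {n i : ℕ} (hi : i ≤ n) (E : Alg κ G) :
    mono (-ν) (1 : κ) ^ n * (E * mono ν (1 : κ) ^ i) = mono (-((n - i) • ν)) (1 : κ) * E := by
  rw [pui_pow_mono, pui_pow_mono, mul_comm E, ← mul_assoc]
  unfold mono
  rw [AddMonoidAlgebra.single_mul_single, one_mul]
  congr 2
  obtain ⟨k, rfl⟩ := Nat.exists_eq_add_of_le hi
  rw [Nat.add_sub_cancel_left, add_smul, smul_neg, smul_neg]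
  abel

lemma pui_inv (ν : G) {n : ℕ} (r : (Alg κ G)[X]) :
    r = C (mono ν (1 : κ) ^ n) * (C (mono (-ν) (1 : κ) ^ n) *
      r.comp (C (mono ν (1 : κ)) * X)).comp (C (mono (-ν) (1 : κ)) * X) := by
  have hUV : mono ν (1 : κ) * mono (-ν) (1 : κ) = 1 := by
    unfold mono
    rw [AddMonoidAlgebra.single_mul_single, add_neg_cancel, one_mul, AddMonoidAlgebra.one_def]
  rw [mul_comp, C_comp, comp_assoc, mul_comp, C_comp, X_comp, ← mul_assoc, ← C_mul, ← mul_pow,
    hUV, one_pow, C_1, one_mul, ← mul_assoc, ← C_mul, hUV, C_1, one_mul, comp_X]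

/-- The step for polynomials with vanishing second coefficient. -/
lemma pui_step [CharZero κ] [IsAlgClosed κ] [Module ℚ G] {β : G →+ ℝ}
    (hβ : Function.Injective β) {n : ℕ}
    (ih : ∀ m < n + 1, ∀ f : (Alg κ G)[X], f.Monic → f.natDegree = m → ∀ M, PuiFac β f M)
    {r : (Alg κ G)[X]} (hr : r.Monic) (hn : r.natDegree = n + 1)
    (h1 : r.coeff n = 0) (M : ℝ) : PuiFac β r M := by
  classical
  by_cases hX : r = X ^ (n + 1)
  · refine ⟨Multiset.replicate (n + 1) 0, ?_, ?_⟩
    · rw [Multiset.card_replicate, hn]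
    · rw [Multiset.map_replicate, Multiset.prod_replicate, C_0, sub_zero, hX, sub_self]
      exact pui_zero β _
  have htop : r.coeff (n + 1) = 1 := by
    rw [← hn]
    exact hr
  -- the largest slope
  set T : Finset ((_ : ℕ) × G) := (Finset.range (n + 1)).sigma fun i => spt (r.coeff i) with hT
  have hTne : T.Nonempty := by
    by_contra h
    apply hX
    rw [Finset.not_nonempty_iff_eq_empty] at h
    ext1 i
    rw [coeff_X_pow]
    split_ifs with hi
    · rw [hi, htop]
    · rcases lt_or_gt_of_ne hi with hi | hi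
      · by_contra h0
        have h2 : (spt (r.coeff i)).Nonempty := by
          rw [Finset.nonempty_iff_ne_empty]
          intro h3
          apply h0
          ext ν
          have h4 : ν ∉ spt (r.coeff i) := by rw [h3]; exact Finset.notMem_empty ν
          rw [Finsupp.notMem_support_iff] at h4
          rw [h4]
          simp
        obtain ⟨ν, hν⟩ := h2
        have h3 : (⟨i, ν⟩ : (_ : ℕ) × G) ∈ T := by
          rw [hT, Finset.mem_sigma]
          exact ⟨Finset.mem_range.2 hi, hν⟩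
        rw [h] at h3
        exact absurd h3 (Finset.notMem_empty _)
      · exact coeff_eq_zero_of_natDegree_lt (by omega)
  obtain ⟨⟨i0, μ0⟩, hmem, hmax⟩ := Finset.exists_max_image T
    (fun x => β x.2 / ((n + 1 - x.1 : ℕ) : ℝ)) hTne
  rw [hT, Finset.mem_sigma, Finset.mem_range] at hmem
  obtain ⟨hi0, hμ0⟩ := hmem
  simp only at hi0 hμ0
  obtain ⟨ν, hν⟩ : ∃ ν : G, (n + 1 - i0) • ν = μ0 := by
    refine ⟨((n + 1 - i0 : ℕ) : ℚ)⁻¹ • μ0, ?_⟩
    rw [← Nat.cast_smul_eq_nsmul ℚ, smul_smul, mul_inv_cancel₀, one_smul]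
    exact Nat.cast_ne_zero.2 (by omega)
  have hpos : ∀ i, i < n + 1 → (0 : ℝ) < ((n + 1 - i : ℕ) : ℝ) := fun i hi =>
    Nat.cast_pos.2 (by omega)
  have hβν : β ν = β μ0 / ((n + 1 - i0 : ℕ) : ℝ) := by
    rw [eq_div_iff (hpos i0 hi0).ne', ← hν, map_nsmul, nsmul_eq_mul, mul_comm]
  set p : (Alg κ G)[X] :=
    C (mono (-ν) (1 : κ) ^ (n + 1)) * r.comp (C (mono ν (1 : κ)) * X) with hp
  have hpc : ∀ i, i ≤ n + 1 → p.coeff i = mono (-((n + 1 - i) • ν)) (1 : κ) * r.coeff i := by
    intro i hi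
    rw [hp, coeff_C_mul, comp_C_mul_X_coeff, pui_coeff ν hi]
  have hpc' : ∀ i, n + 1 < i → p.coeff i = 0 := by
    intro i hi
    rw [hp, coeff_C_mul, comp_C_mul_X_coeff, coeff_eq_zero_of_natDegree_lt (by omega), zero_mul,
      mul_zero]
  have hp1 : p.coeff (n + 1) = 1 := by
    rw [hpc _ le_rfl, htop, Nat.sub_self, zero_smul, neg_zero, mul_one]
    rfl
  have hple : p.natDegree ≤ n + 1 := by
    rw [natDegree_le_iff_coeff_eq_zero]
    exact hpc'
  have hpm : p.Monic := monic_of_natDegree_le_of_coeff_eq_one _ hple hp1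
  have hpn : p.natDegree = n + 1 := by
    refine le_antisymm hple (le_natDegree_of_ne_zero ?_)
    rw [hp1]
    exact one_ne_zero
  have hpb : BdP β 0 p := by
    intro i
    rcases lt_trichotomy i (n + 1) with hi | hi | hi
    · rw [hpc i hi.le]
      intro lam hlam
      have h2 := AddMonoidAlgebra.support_coeff_mul_subset _ _ hlam
      obtain ⟨a, ha, b, hb, rfl⟩ := Finset.mem_add.1 h2
      have ha' : a = -((n + 1 - i) • ν) := by
        have h3 := Finsupp.support_single_subset ha
        rwa [Finset.mem_singleton] at h3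
      have h3 : (⟨i, b⟩ : (_ : ℕ) × G) ∈ T := by
        rw [hT, Finset.mem_sigma]
        exact ⟨Finset.mem_range.2 hi, hb⟩
      have h4 := hmax _ h3
      simp only at h4
      rw [← hβν, div_le_iff₀ (hpos i hi)] at h4
      rw [map_add, ha', map_neg, map_nsmul, nsmul_eq_mul]
      linarith
    · rw [hi, hp1]
      exact pui_one β le_rfl
    · rw [hpc' i hi]
      exact Bd.zero β 0
  have hpn0 : p.coeff n = 0 := by rw [hpc n (by omega), h1, mul_zero]
  have hne : (p.coeff i0).coeff 0 ≠ 0 := by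
    rw [hpc i0 hi0.le, hν]
    unfold mono
    rw [AddMonoidAlgebra.coeff_single_mul_apply, one_mul, neg_neg, add_zero]
    exact Finsupp.mem_support_iff.1 hμ0
  exact pui_rescale (fun M' => pui_core hβ ih hpm hpn hpb hpn0 hi0 hne M') ν M hpn hn
    (pui_inv ν r)

/-- Every monic polynomial over the group algebra is, up to any given precision, a product of
linear factors. -/
theorem puiseux [CharZero κ] [IsAlgClosed κ] [Module ℚ G] (β : G →+ ℝ)
    (hβ : Function.Injective β) (p : (Alg κ G)[X]) (hp : p.Monic) (M : ℝ) :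
    ∃ s : Multiset (Alg κ G), Multiset.card s = p.natDegree ∧
      BdP β (-M) (p - (s.map fun a => X - C a).prod) := by
  have key : ∀ n : ℕ, ∀ f : (Alg κ G)[X], f.Monic → f.natDegree = n → ∀ M, PuiFac β f M := by
    intro n
    induction n using Nat.strong_induction_on with
    | _ n ih =>
      intro f hf hn M
      cases n with
      | zero =>
        rw [Monic.natDegree_eq_zero hf] at hn
        refine ⟨0, ?_, ?_⟩
        · rw [hn, Multiset.card_zero, natDegree_one]
        · rw [Multiset.map_zero, Multiset.prod_zero, hn, sub_self]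
          exact pui_zero β _
      | succ n =>
        obtain ⟨h, hh⟩ := pui_kill hf hn
        have hm : (taylor h f).Monic := by
          rw [Monic, leadingCoeff_taylor]
          exact hf
        have h2 := pui_shift (fun M' => pui_step hβ ih hm
          (by rw [natDegree_taylor, hn]) hh M') (-h) M
        rwa [taylor_taylor, neg_add_cancel, taylor_zero] at h2
  exact key _ p hp rfl M

end Pool.Agent.Helper11.TS
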