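import Pool.Agent.Helper11.TS.Two
import Pool.Agent.Helper11.TS.Pow

/-!
# TS, module T6b1: the top part of a two-sided tower is a monomial
-/

set_option autoImplicit false

namespace Pool.Agent.Helper11.TS

open Polynomial Filter

variable {k V : Type} [Field k] [CharZero k] [AddCommGroup V] [Module ℚ V]

section top

omit [CharZero k] [Module ℚ V] in
private lemma mem_spt {E : Alg k V} {ν : V} : ν ∈ spt E ↔ E.coeff ν ≠ 0 :=
  Finsupp.mem_support_iff

omit [CharZero k] [Module ℚ V] in
private lemma spt_add {E F : Alg k V} {ν : V} (h : ν ∈ spt (E + F)) : ν ∈ spt E ∨ ν ∈ spt F := by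
  classical
  have h1 : ν ∈ E.coeff.support ∪ F.coeff.support := Finsupp.support_add h
  exact Finset.mem_union.1 h1

omit [CharZero k] [Module ℚ V] in
private lemma spt_mul {E F : Alg k V} {ν : V} (h : ν ∈ spt (E * F)) :
    ∃ a ∈ spt E, ∃ b ∈ spt F, a + b = ν := by
  classical
  have h1 := AddMonoidAlgebra.support_coeff_mul_subset E F h
  exact Finset.mem_add.1 h1

omit [CharZero k] [Module ℚ V] in
private lemma spt_mono {ν μ : V} {c : k} (h : μ ∈ spt (mono ν c)) : μ = ν := by
  classical
  have h1 := Finsupp.support_single_subset h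
  exact Finset.mem_singleton.1 h1

omit [CharZero k] in
private lemma smul_inj {q : ℕ} (hq : q ≠ 0) : Function.Injective fun ν : V => q • ν := by
  intro a b h
  have h1 : (q : ℚ) • a = (q : ℚ) • b := by
    rw [Nat.cast_smul_eq_nsmul, Nat.cast_smul_eq_nsmul]
    exact h
  exact smul_right_injective V (Nat.cast_ne_zero.2 hq : (q : ℚ) ≠ 0) h1

omit [CharZero k] [Module ℚ V] in
private lemma theta_coeff (q : ℕ) (E : Alg k V) :
    (theta q E).coeff = Finsupp.mapDomain (fun ν : V => q • ν) E.coeff := rfl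

omit [CharZero k] in
private lemma theta_coeff_smul {q : ℕ} (hq : q ≠ 0) (E : Alg k V) (ν : V) :
    (theta q E).coeff (q • ν) = E.coeff ν := by
  rw [theta_coeff]
  exact Finsupp.mapDomain_apply (smul_inj hq) E.coeff ν

omit [CharZero k] [Module ℚ V] in
private lemma spt_theta {q : ℕ} {E : Alg k V} {ν : V} (h : ν ∈ spt (theta q E)) :
    ∃ μ ∈ spt E, q • μ = ν := by
  classical
  have h1 : ν ∈ (Finsupp.mapDomain (fun ν : V => q • ν) E.coeff).support := h
  have h2 := Finsupp.mapDomain_support h1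
  obtain ⟨μ, hμ, h3⟩ := Finset.mem_image.1 h2
  exact ⟨μ, hμ, h3⟩

omit [CharZero k] in
private lemma card_theta {q : ℕ} (hq : q ≠ 0) (E : Alg k V) :
    (spt (theta q E)).card = (spt E).card := by
  classical
  have h1 : spt (theta q E) = (spt E).image fun ν : V => q • ν :=
    Finsupp.mapDomain_support_of_injective (smul_inj hq) E.coeff
  rw [h1, Finset.card_image_of_injective _ (smul_inj hq)]

/-- `T` is the part of `E` of degree `t`, and the exponents of `E` have degree at most `t`. -/
private structure Top (lam : V →ₗ[ℚ] ℚ) (t : ℚ) (E T : Alg k V) : Prop where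
  eq : ∀ ν ∈ spt T, lam ν = t
  lt : ∀ ν ∈ spt (E - T), lam ν < t

variable {lam : V →ₗ[ℚ] ℚ}

omit [CharZero k] in
private lemma Top.le {t : ℚ} {E T : Alg k V} (h : Top lam t E T) : ∀ ν ∈ spt E, lam ν ≤ t := by
  intro ν hν
  have h1 : E = T + (E - T) := by ring
  rw [h1] at hν
  rcases spt_add hν with h2 | h2
  · exact (h.eq ν h2).le
  · exact (h.lt ν h2).le

omit [CharZero k] in
private lemma exists_top (t : ℚ) (E : Alg k V) (h : ∀ ν ∈ spt E, lam ν ≤ t) :
    ∃ T, Top lam t E T := by
  classical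
  refine ⟨AddMonoidAlgebra.ofCoeff (E.coeff.filter fun ν => lam ν = t), ?_, ?_⟩
  · intro ν hν
    have h1 : ν ∈ (E.coeff.filter fun ν => lam ν = t).support := hν
    rw [Finsupp.support_filter, Finset.mem_filter] at h1
    exact h1.2
  · intro ν hν
    rw [mem_spt, AddMonoidAlgebra.coeff_sub, Finsupp.sub_apply] at hν
    change E.coeff ν - (E.coeff.filter fun ν => lam ν = t) ν ≠ 0 at hν
    by_cases h1 : lam ν = t
    · rw [Finsupp.filter_apply_pos (fun ν => lam ν = t) _ h1, sub_self] at hν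
      exact absurd rfl hν
    · rw [Finsupp.filter_apply_neg (fun ν => lam ν = t) _ h1, sub_zero] at hν
      exact lt_of_le_of_ne (h ν (mem_spt.2 hν)) h1

omit [CharZero k] in
private lemma Top.unique {t : ℚ} {E T T' : Alg k V} (h : Top lam t E T) (h' : Top lam t E T') :
    T = T' := by
  have h1 : T - T' = 0 := by
    rw [← AddMonoidAlgebra.coeff_eq_zero]
    ext ν
    by_contra h2
    have h3 : ν ∈ spt (T - T') := mem_spt.2 h2
    have h4 : lam ν = t := by
      rw [sub_eq_add_neg] at h3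
      rcases spt_add h3 with h5 | h5
      · exact h.eq ν h5
      · refine h'.eq ν ?_
        rw [mem_spt] at h5 ⊢
        rw [AddMonoidAlgebra.coeff_neg, Finsupp.neg_apply] at h5
        exact fun h6 => h5 (by rw [h6, neg_zero])
    have h5 : lam ν < t := by
      have h6 : T - T' = (E - T') + (-(E - T)) := by ring
      rw [h6] at h3
      rcases spt_add h3 with h7 | h7
      · exact h'.lt ν h7
      · refine h.lt ν ?_
        rw [mem_spt] at h7 ⊢
        rw [AddMonoidAlgebra.coeff_neg, Finsupp.neg_apply] at h7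
        exact fun h8 => h7 (by rw [h8, neg_zero])
    exact absurd h4 h5.ne
  exact sub_eq_zero.1 h1

omit [CharZero k] in
private lemma Top.mul {s t : ℚ} {E T F U : Alg k V} (h : Top lam s E T) (h' : Top lam t F U) :
    Top lam (s + t) (E * F) (T * U) := by
  constructor
  · intro ν hν
    obtain ⟨a, ha, b, hb, rfl⟩ := spt_mul hν
    rw [map_add, h.eq a ha, h'.eq b hb]
  · intro ν hν
    have h1 : E * F - T * U = (E - T) * F + T * (F - U) := by ring
    rw [h1] at hν
    rcases spt_add hν with h2 | h2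
    · obtain ⟨a, ha, b, hb, rfl⟩ := spt_mul h2
      rw [map_add]
      exact add_lt_add_of_lt_of_le (h.lt a ha) (h'.le b hb)
    · obtain ⟨a, ha, b, hb, rfl⟩ := spt_mul h2
      rw [map_add, h.eq a ha]
      exact add_lt_add_right (h'.lt b hb) s

omit [CharZero k] in
private lemma top_mono_zero (c : k) : Top lam 0 (mono (0 : V) c) (mono (0 : V) c) := by
  constructor
  · intro ν hν
    rw [spt_mono hν, map_zero]
  · intro ν hν
    rw [sub_self] at hν
    simp [spt] at hν

omit [CharZero k] in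
private lemma Top.pow {t : ℚ} {E T : Alg k V} (h : Top lam t E T) (n : ℕ) :
    Top lam (n * t) (E ^ n) (T ^ n) := by
  induction n with
  | zero =>
    rw [pow_zero, pow_zero, Nat.cast_zero, zero_mul]
    exact top_mono_zero 1
  | succ n ih =>
    rw [pow_succ, pow_succ, Nat.cast_succ, add_mul, one_mul]
    exact ih.mul h

omit [CharZero k] in
private lemma Top.add_lt {t : ℚ} {E T F : Alg k V} (h : Top lam t E T)
    (h' : ∀ ν ∈ spt F, lam ν < t) : Top lam t (E + F) T := by
  refine ⟨h.eq, ?_⟩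
  intro ν hν
  have h1 : E + F - T = (E - T) + F := by ring
  rw [h1] at hν
  rcases spt_add hν with h2 | h2
  · exact h.lt ν h2
  · exact h' ν h2

omit [CharZero k] in
private lemma Top.theta {t : ℚ} {E T : Alg k V} (h : Top lam t E T) (q : ℕ) (hq : 0 < q) :
    Top lam (q * t) (theta q E) (theta q T) := by
  constructor
  · intro ν hν
    obtain ⟨μ, hμ, rfl⟩ := spt_theta hν
    rw [map_nsmul, nsmul_eq_mul, h.eq μ hμ]
  · intro ν hν
    rw [← map_sub] at hν
    obtain ⟨μ, hμ, rfl⟩ := spt_theta hν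
    rw [map_nsmul, nsmul_eq_mul]
    exact mul_lt_mul_of_pos_left (h.lt μ hμ) (Nat.cast_pos.2 hq)

omit [CharZero k] [Module ℚ V] in
private lemma spt_sum {ι : Type} (s : Finset ι) (f : ι → Alg k V) {ν : V}
    (h : ν ∈ spt (∑ i ∈ s, f i)) : ∃ i ∈ s, ν ∈ spt (f i) := by
  classical
  induction s using Finset.induction_on with
  | empty => simp [spt] at h
  | insert a s ha ih =>
    rw [Finset.sum_insert ha] at h
    rcases spt_add h with h1 | h1
    · exact ⟨a, Finset.mem_insert_self a s, h1⟩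
    · obtain ⟨i, hi, h2⟩ := ih h1
      exact ⟨i, Finset.mem_insert_of_mem hi, h2⟩

omit [CharZero k] in
private lemma pow_le {t : ℚ} {E : Alg k V} (h : ∀ ν ∈ spt E, lam ν ≤ t) (n : ℕ) :
    ∀ ν ∈ spt (E ^ n), lam ν ≤ n * t := by
  obtain ⟨T, hT⟩ := exists_top t E h
  exact (hT.pow n).le

omit [CharZero k] in
/-- The value of the polynomial. -/
private lemma eval_top {q : ℕ} {a : k} {E : Submodule ℚ V} {P : (Alg k V)[X]}
    (pol : Pol q a P) (cst : ∀ i, ∀ ν ∈ spt (P.coeff i), ν ∈ E) (hlam : ∀ ν ∈ E, lam ν = 0)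
    {M : ℚ} (hM : 0 < M) {Q T : Alg k V} (h : Top lam M Q T) :
    Top lam (q * M) (P.eval Q) (mono 0 a * T ^ q) := by
  have h1 : P.eval Q = mono 0 a * Q ^ q + ∑ i ∈ Finset.range q, P.coeff i * Q ^ i := by
    rw [Polynomial.eval_eq_sum_range, pol.deg, Finset.sum_range_succ, pol.lead, add_comm]
  rw [h1]
  have h2 : Top lam (q * M) (mono 0 a * Q ^ q) (mono 0 a * T ^ q) := by
    have h3 := (top_mono_zero (lam := lam) a).mul (h.pow q)
    rwa [zero_add] at h3
  refine h2.add_lt ?_
  intro ν hν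
  obtain ⟨i, hi, h3⟩ := spt_sum _ _ hν
  obtain ⟨x, hx, y, hy, rfl⟩ := spt_mul h3
  rw [map_add, hlam x (cst i x hx), zero_add]
  refine (pow_le h.le i y hy).trans_lt ?_
  exact mul_lt_mul_of_pos_right (Nat.cast_lt.2 (Finset.mem_range.1 hi)) hM

omit [CharZero k] in
private lemma eval_le {E : Submodule ℚ V} {P : (Alg k V)[X]}
    (cst : ∀ i, ∀ ν ∈ spt (P.coeff i), ν ∈ E) (hlam : ∀ ν ∈ E, lam ν = 0)
    {Q : Alg k V} (h : ∀ ν ∈ spt Q, lam ν ≤ 0) : ∀ ν ∈ spt (P.eval Q), lam ν ≤ 0 := by
  intro ν hν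
  rw [Polynomial.eval_eq_sum_range] at hν
  obtain ⟨i, _, h3⟩ := spt_sum _ _ hν
  obtain ⟨x, hx, y, hy, rfl⟩ := spt_mul h3
  rw [map_add, hlam x (cst i x hx), zero_add]
  have h4 := pow_le h i y hy
  rwa [mul_zero] at h4

end top

theorem top_mono {q : ℕ} {a : k} {E : Submodule ℚ V} {P : (Alg k V)[X]} {B : ℕ} {Q : ℤ → Alg k V}
    (h : Two q a E P B Q) (lam : V →ₗ[ℚ] ℚ) (hlam : ∀ ν ∈ E, lam ν = 0)
    (h0 : ∃ ν ∈ spt (Q 0), 0 < lam ν) :
    ∃ b : V, 0 < lam b ∧ ∀ i, (Q i).coeff b ≠ 0 ∧ (∀ ν ∈ spt (Q i), ν ≠ b → lam ν < lam b) ∧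
      (Q (i - 1)).coeff b = a * (Q i).coeff b ^ q := by
  classical
  have hq0 : q ≠ 0 := by
    have := h.hq
    omega
  have hqpos : 0 < q := Nat.pos_of_ne_zero hq0
  -- downwards
  have down : ∀ (i : ℤ) (M : ℚ), 0 < M → ∀ T : Alg k V, T ≠ 0 → Top lam M (Q i) T →
      ∃ T' : Alg k V, T' ≠ 0 ∧ Top lam M (Q (i - 1)) T' ∧ theta q T' = mono 0 a * T ^ q := by
    intro i M hM T hT hTop
    have h1 := eval_top h.pol h.cst hlam hM hTop
    rw [h.step i] at h1
    have h2 : ∀ ν ∈ spt (Q (i - 1)), lam ν ≤ M := by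
      intro ν hν
      have h3 : q • ν ∈ spt (theta q (Q (i - 1))) := by
        rw [mem_spt, theta_coeff_smul hq0]
        exact mem_spt.1 hν
      have h4 := h1.le _ h3
      rw [map_nsmul, nsmul_eq_mul] at h4
      exact le_of_mul_le_mul_left h4 (Nat.cast_pos.2 hqpos)
    obtain ⟨T', hT'⟩ := exists_top M (Q (i - 1)) h2
    have h3 : theta q T' = mono 0 a * T ^ q := (hT'.theta q hqpos).unique h1
    refine ⟨T', ?_, hT', h3⟩
    rintro rfl
    rw [map_zero] at h3
    have h4 : mono (0 : V) a ≠ 0 := by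
      intro h5
      have h6 := congrArg (fun F : Alg k V => F.coeff 0) h5
      simp only [mono, AddMonoidAlgebra.coeff_single, Finsupp.single_eq_same,
        AddMonoidAlgebra.coeff_zero, Finsupp.coe_zero, Pi.zero_apply] at h6
      exact h.pol.ne h6
    exact mul_ne_zero h4 (pow_ne_zero q hT) h3.symm
  -- the existence of a top part
  have ex : ∀ i : ℤ, (∃ ν ∈ spt (Q i), 0 < lam ν) →
      ∃ (M : ℚ) (T : Alg k V), 0 < M ∧ T ≠ 0 ∧ Top lam M (Q i) T := by
    rintro i ⟨ν, hν, hpos⟩
    obtain ⟨μ, hμ, hmax⟩ := (spt (Q i)).exists_max_image (fun ν => lam ν) ⟨ν, hν⟩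
    obtain ⟨T, hT⟩ := exists_top (lam μ) (Q i) hmax
    refine ⟨lam μ, T, hpos.trans_le (hmax ν hν), ?_, hT⟩
    rintro rfl
    have h1 := hT.lt μ (by rwa [sub_zero])
    exact lt_irrefl _ h1
  have up : ∀ i : ℤ, (∃ ν ∈ spt (Q (i - 1)), 0 < lam ν) → ∃ ν ∈ spt (Q i), 0 < lam ν := by
    intro i hi
    by_contra hcon
    push Not at hcon
    have h1 := eval_le h.cst hlam hcon
    rw [h.step i] at h1
    obtain ⟨ν, hν, hpos⟩ := hi
    have h3 : q • ν ∈ spt (theta q (Q (i - 1))) := by
      rw [mem_spt, theta_coeff_smul hq0]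
      exact mem_spt.1 hν
    have h4 := h1 _ h3
    rw [map_nsmul, nsmul_eq_mul] at h4
    have h5 : 0 < (q : ℚ) * lam ν := mul_pos (Nat.cast_pos.2 hqpos) hpos
    exact absurd h4 (not_le.2 h5)
  have pos_all : ∀ i : ℤ, ∃ ν ∈ spt (Q i), 0 < lam ν := by
    intro i
    induction i using Int.induction_on with
    | zero => exact h0
    | succ i ih =>
      apply up
      rwa [add_sub_cancel_right]
    | pred i ih =>
      obtain ⟨M, T, hM, hT, hTop⟩ := ex _ ih
      obtain ⟨T', hT', hTop', _⟩ := down _ M hM T hT hTop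
      by_contra hcon
      push Not at hcon
      apply hT'
      rw [← AddMonoidAlgebra.coeff_eq_zero]
      ext ν
      by_contra h2
      have h3 : ν ∈ spt T' := mem_spt.2 h2
      have h4 := hTop'.eq ν h3
      have h5 : ν ∈ spt (Q (-(i : ℤ) - 1)) := by
        rw [mem_spt]
        intro h6
        have h7 : ν ∈ spt (Q (-(i : ℤ) - 1) - T') := by
          rw [mem_spt, AddMonoidAlgebra.coeff_sub, Finsupp.sub_apply, h6, zero_sub]
          exact neg_ne_zero.2 h2
        exact absurd h4 (hTop'.lt ν h7).ne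
      have h6 := hcon ν h5
      rw [h4] at h6
      exact absurd hM (not_lt.2 h6)
  -- the same degree for all indices
  choose M T hM hT hTop using fun i => ex i (pos_all i)
  have step : ∀ i : ℤ, M (i - 1) = M i ∧ theta q (T (i - 1)) = mono 0 a * T i ^ q := by
    intro i
    obtain ⟨T', hT', hTop', h1⟩ := down i (M i) (hM i) (T i) (hT i) (hTop i)
    have key : ∀ {s t : ℚ} {F U W : Alg k V}, Top lam s F U → Top lam t F W → U ≠ 0 → s ≤ t := by
      intro s t F U W hU hW hne
      have h2 : ∃ ν, ν ∈ spt U := by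
        by_contra h3
        push Not at h3
        apply hne
        rw [← AddMonoidAlgebra.coeff_eq_zero]
        ext ν
        by_contra h4
        exact h3 ν (mem_spt.2 h4)
      obtain ⟨ν, hν⟩ := h2
      have h3 : ν ∈ spt F := by
        rw [mem_spt]
        intro h6
        have h7 : ν ∈ spt (F - U) := by
          rw [mem_spt, AddMonoidAlgebra.coeff_sub, Finsupp.sub_apply, h6, zero_sub]
          exact neg_ne_zero.2 (mem_spt.1 hν)
        exact absurd (hU.eq ν hν) (hU.lt ν h7).ne
      rw [← hU.eq ν hν]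
      exact hW.le ν h3
    have h2 : M (i - 1) = M i :=
      le_antisymm (key (hTop (i - 1)) hTop' (hT (i - 1))) (key hTop' (hTop (i - 1)) hT')
    refine ⟨h2, ?_⟩
    have h3 := hTop (i - 1)
    rw [h2] at h3
    rw [h3.unique hTop']
    exact h1
  have hMi : ∀ i : ℤ, M i = M 0 := by
    intro i
    induction i using Int.induction_on with
    | zero => rfl
    | succ i ih =>
      rw [← ih, ← (step ((i : ℤ) + 1)).1, add_sub_cancel_right]
    | pred i ih => rw [(step (-(i : ℤ))).1, ih]
  -- the iterates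
  have iter : ∀ (j : ℕ) (i : ℤ), ∃ c : k, c ≠ 0 ∧
      (theta q)^[j] (T (i - j)) = mono 0 c * T i ^ q ^ j := by
    intro j
    induction j with
    | zero =>
      intro i
      refine ⟨1, one_ne_zero, ?_⟩
      rw [Function.iterate_zero, id_eq, Nat.cast_zero, sub_zero, pow_zero, pow_one]
      have h1 : mono (0 : V) (1 : k) = 1 := rfl
      rw [h1, one_mul]
    | succ j ih =>
      intro i
      obtain ⟨c, hc, h1⟩ := ih i
      refine ⟨a * c ^ q, mul_ne_zero h.pol.ne (pow_ne_zero q hc), ?_⟩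
      have h2 : i - ((j + 1 : ℕ) : ℤ) = i - j - 1 := by
        push_cast
        ring
      have h3 : (theta q)^[j] (mono (0 : V) a) = mono (0 : V) a := by
        have h4 : ∀ n : ℕ, (theta q)^[n] (mono (0 : V) a) = mono (0 : V) a := by
          intro n
          induction n with
          | zero => rfl
          | succ n ih2 => rw [Function.iterate_succ_apply', ih2, theta_mono, smul_zero]
        exact h4 j
      rw [Function.iterate_succ_apply, h2, (step (i - j)).2, iterate_map_mul,
        iterate_map_pow, h1, h3, mul_pow, ← mul_assoc, ← pow_mul, ← pow_succ]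
      congr 1
      have h5 : ∀ (n : ℕ), mono (0 : V) c ^ n = mono 0 (c ^ n) := by
        intro n
        have h6 := AddMonoidAlgebra.single_pow (0 : V) c n
        rw [smul_zero] at h6
        exact h6
      have h7 := AddMonoidAlgebra.single_mul_single (0 : V) (0 : V) a (c ^ q)
      rw [add_zero] at h7
      rw [h5]
      exact h7
  have card_c : ∀ (c : k), c ≠ 0 → ∀ F : Alg k V, (spt F).card ≤ (spt (mono 0 c * F)).card := by
    intro c hc F
    apply Finset.card_le_card
    intro ν hν
    rw [mem_spt] at hν ⊢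
    have h1 : (mono 0 c * F).coeff ν = c * F.coeff ν := by
      exact AddMonoidAlgebra.coeff_single_zero_mul F c ν
    rw [h1]
    exact mul_ne_zero hc hν
  have sptT : ∀ i, spt (T i) ⊆ spt (Q i) := by
    intro i ν hν
    rw [mem_spt]
    intro h6
    have h7 : ν ∈ spt (Q i - T i) := by
      rw [mem_spt, AddMonoidAlgebra.coeff_sub, Finsupp.sub_apply, h6, zero_sub]
      exact neg_ne_zero.2 (mem_spt.1 hν)
    exact absurd ((hTop i).eq ν hν) ((hTop i).lt ν h7).ne
  have card_iter : ∀ (j : ℕ) (F : Alg k V), (spt ((theta q)^[j] F)).card = (spt F).card := by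
    intro j
    induction j with
    | zero => intro F; rfl
    | succ j ih =>
      intro F
      rw [Function.iterate_succ_apply', card_theta hq0, ih]
  have one : ∀ i, (spt (T i)).card = 1 := by
    intro i
    have h1 : (spt (T i)).card < 2 := by
      by_contra hcon
      push Not at hcon
      obtain ⟨l0, hl0⟩ := pow_spt (T i) hcon B
      obtain ⟨c, hc, h2⟩ := iter l0 i
      have h3 : l0 ≤ q ^ l0 := (Nat.lt_pow_self h.hq).le
      have h4 := hl0 (q ^ l0) h3
      have h5 := card_c c hc (T i ^ q ^ l0)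
      rw [← h2, card_iter] at h5
      have h6 := Finset.card_le_card (sptT (i - l0))
      have h7 := h.bd (i - l0)
      omega
    have h2 : 0 < (spt (T i)).card := by
      rw [Finset.card_pos, Finset.nonempty_iff_ne_empty]
      intro h3
      apply hT i
      rw [← AddMonoidAlgebra.coeff_eq_zero]
      exact Finsupp.support_eq_empty.1 h3
    omega
  have hb : ∀ i, ∃ b : V, ∃ c : k, c ≠ 0 ∧ T i = mono b c := by
    intro i
    obtain ⟨b, hb, h1⟩ := Finsupp.card_support_eq_one.1 (one i)
    refine ⟨b, (T i).coeff b, hb, ?_⟩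
    apply AddMonoidAlgebra.coeff_injective
    exact h1
  choose b c hc hbc using hb
  have hstep : ∀ i : ℤ, b (i - 1) = b i ∧ c (i - 1) = a * c i ^ q := by
    intro i
    have h1 := (step i).2
    rw [hbc (i - 1), hbc i, theta_mono] at h1
    have h2 : (mono (b i) (c i) : Alg k V) ^ q = mono (q • b i) (c i ^ q) :=
      AddMonoidAlgebra.single_pow (b i) (c i) q
    have h3 : mono (0 : V) a * mono (q • b i) (c i ^ q) = mono (q • b i) (a * c i ^ q) := by
      have h7 := AddMonoidAlgebra.single_mul_single (0 : V) (q • b i) a (c i ^ q)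
      rw [zero_add] at h7
      exact h7
    rw [h2, h3] at h1
    have h4 := (AddMonoidAlgebra.coeff_inj).2 h1
    change Finsupp.single (q • b (i - 1)) (c (i - 1)) =
      Finsupp.single (q • b i) (a * c i ^ q) at h4
    rw [Finsupp.single_eq_single_iff] at h4
    rcases h4 with ⟨h5, h6⟩ | ⟨h5, _⟩
    · exact ⟨smul_inj hq0 h5, h6⟩
    · exact absurd h5 (hc (i - 1))
  have hbi : ∀ i : ℤ, b i = b 0 := by
    intro i
    induction i using Int.induction_on with
    | zero => rfl
    | succ i ih =>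
      rw [← ih, ← (hstep ((i : ℤ) + 1)).1, add_sub_cancel_right]
    | pred i ih => rw [(hstep (-(i : ℤ))).1, ih]
  have hlamb : lam (b 0) = M 0 := by
    apply (hTop 0).eq
    rw [mem_spt, hbc 0]
    simp only [mono, AddMonoidAlgebra.coeff_single, Finsupp.single_eq_same]
    exact hc 0
  have hcoef : ∀ i, (Q i).coeff (b 0) = c i := by
    intro i
    by_contra hne
    have h1 : b 0 ∈ spt (Q i - T i) := by
      rw [mem_spt, AddMonoidAlgebra.coeff_sub, Finsupp.sub_apply, hbc i, hbi i]
      simp only [mono, AddMonoidAlgebra.coeff_single, Finsupp.single_eq_same]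
      exact sub_ne_zero.2 hne
    have h2 := (hTop i).lt _ h1
    rw [hlamb, hMi i] at h2
    exact lt_irrefl _ h2
  refine ⟨b 0, by rw [hlamb]; exact hM 0, fun i => ⟨?_, ?_, ?_⟩⟩
  · rw [hcoef]
    exact hc i
  · intro ν hν hne
    rw [hlamb, ← hMi i]
    apply (hTop i).lt
    rw [mem_spt, AddMonoidAlgebra.coeff_sub, Finsupp.sub_apply, hbc i, hbi i]
    simp only [mono, AddMonoidAlgebra.coeff_single]
    rw [Finsupp.single_eq_of_ne hne, sub_zero]
    exact mem_spt.1 hν
  · rw [hcoef, hcoef]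
    exact (hstep i).2

end Pool.Agent.Helper11.TS
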