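import Pool.Agent.Helper11.TS.Two
import Pool.Agent.Helper11.TS.Pow

/-!
# TS, module T6b2: the gap below the top monomial
-/

set_option autoImplicit false

namespace Pool.Agent.Helper11.TS

open Polynomial Filter

variable {k V : Type} [Field k] [CharZero k] [AddCommGroup V] [Module ℚ V]

namespace Rig2

omit [CharZero k] [Module ℚ V] in
lemma theta_coeff_ne (q : ℕ) (E : Alg k V) (μ : V) (hμ : μ ∈ spt (theta q E)) :
    ∃ ν ∈ spt E, μ = q • ν := by
  classical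
  have h1 : μ ∈ (Finsupp.mapDomain (nsmulAddMonoidHom q : V →+ V) E.coeff).support := hμ
  have h2 := Finsupp.mapDomain_support h1
  obtain ⟨ν, hν, rfl⟩ := Finset.mem_image.1 h2
  exact ⟨ν, hν, rfl⟩

omit [CharZero k] [Module ℚ V] in
lemma iter_coeff_ne (q : ℕ) (E : Alg k V) (j : ℕ) :
    ∀ μ ∈ spt ((theta q)^[j] E), ∃ ν ∈ spt E, μ = (q ^ j) • ν := by
  induction j with
  | zero =>
    intro μ hμ
    exact ⟨μ, hμ, by simp⟩
  | succ j ih =>
    intro μ hμ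
    rw [Function.iterate_succ_apply'] at hμ
    obtain ⟨ν, hν, rfl⟩ := theta_coeff_ne q _ μ hμ
    obtain ⟨ν', hν', rfl⟩ := ih ν hν
    exact ⟨ν', hν', by rw [pow_succ', mul_smul]⟩

omit [CharZero k] [Module ℚ V] in
lemma iter_card (q : ℕ) (E : Alg k V) (j : ℕ) :
    (spt ((theta q)^[j] E)).card ≤ (spt E).card := by
  classical
  have h1 : spt ((theta q)^[j] E) ⊆ (spt E).image fun ν => (q ^ j) • ν := by
    intro μ hμ
    obtain ⟨ν, hν, rfl⟩ := iter_coeff_ne q E j μ hμ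
    exact Finset.mem_image_of_mem _ hν
  exact (Finset.card_le_card h1).trans Finset.card_image_le

/-- The functional as an additive map to `ℝ`. -/
noncomputable def lr (lam : V →ₗ[ℚ] ℚ) : V →+ ℝ where
  toFun ν := ((lam ν : ℚ) : ℝ)
  map_zero' := by simp
  map_add' μ ν := by simp

omit [CharZero k] in
lemma bd_theta (lam : V →ₗ[ℚ] ℚ) (q : ℕ) (t : ℝ) (E : Alg k V) (h : Bd (lr lam) t E) :
    Bd (lr lam) (q * t) (theta q E) := by
  intro μ hμ
  obtain ⟨ν, hν, rfl⟩ := theta_coeff_ne q E μ hμ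
  rw [map_nsmul, nsmul_eq_mul]
  exact mul_le_mul_of_nonneg_left (h ν hν) (Nat.cast_nonneg _)

omit [CharZero k] in
lemma bd_pow (lam : V →ₗ[ℚ] ℚ) (t : ℝ) (E : Alg k V) (h : Bd (lr lam) t E) (n : ℕ) :
    Bd (lr lam) (n * t) (E ^ n) := by
  induction n with
  | zero =>
    rw [pow_zero, AddMonoidAlgebra.one_def]
    exact Bd.single _ (by simp) 1
  | succ n ih =>
    rw [pow_succ]
    exact (ih.mul h).mono_le (le_of_eq (by push_cast; ring))

omit [CharZero k] in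
/-- The difference of two powers. -/
lemma bd_pow_sub (lam : V →ₗ[ℚ] ℚ) (t s : ℝ) (x y : Alg k V) (hx : Bd (lr lam) t x)
    (hy : Bd (lr lam) t y) (hxy : Bd (lr lam) s (x - y)) (n : ℕ) (hn : 1 ≤ n) :
    Bd (lr lam) ((n - 1) * t + s) (x ^ n - y ^ n) := by
  rw [← geom_sum₂_mul]
  refine Bd.mul (Bd.sum _ _ fun i hi => ?_) hxy
  have h1 : i < n := Finset.mem_range.1 hi
  refine ((bd_pow lam t x hx i).mul (bd_pow lam t y hy (n - 1 - i))).mono_le (le_of_eq ?_)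
  have h2 : ((n - 1 - i : ℕ) : ℝ) = n - 1 - i := by
    rw [Nat.cast_sub (by omega), Nat.cast_sub hn]
    simp
  rw [h2]
  ring

omit [CharZero k] in
/-- One step of the tower. -/
lemma one_step {q : ℕ} {a : k} {E : Submodule ℚ V} {P : (Alg k V)[X]} {B : ℕ} {Q : ℤ → Alg k V}
    (h : Two q a E P B Q) (lam : V →ₗ[ℚ] ℚ) (hlam : ∀ ν ∈ E, lam ν = 0) (M : ℝ) (hM : 0 ≤ M)
    (hb : ∀ i, Bd (lr lam) M (Q i)) (i : ℤ) :
    ∃ S : Alg k V, Bd (lr lam) (q * M - 2 * M) S ∧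
      theta q (Q (i - 1)) = mono 0 a * Q i ^ q + S := by
  obtain ⟨r, hr⟩ : ∃ r, q = r + 2 := ⟨q - 2, by have := h.hq; omega⟩
  refine ⟨∑ n ∈ Finset.range (q - 1), P.coeff n * Q i ^ n, ?_, ?_⟩
  · refine Bd.sum _ _ fun n hn => ?_
    have h1 : n < q - 1 := Finset.mem_range.1 hn
    have h2 : Bd (lr lam) 0 (P.coeff n) := by
      intro ν hν
      have h3 := hlam ν (h.cst n ν hν)
      change ((lam ν : ℚ) : ℝ) ≤ 0
      rw [h3]
      simp
    refine (h2.mul (bd_pow lam M _ (hb i) n)).mono_le ?_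
    have h4 : (n : ℝ) + 2 ≤ q := by
      have h5 : n + 2 ≤ q := by omega
      exact_mod_cast h5
    nlinarith
  · rw [← h.step i, Polynomial.eval_eq_sum_range, h.pol.deg, Finset.sum_range_succ, h.pol.lead]
    have h6 : ∑ n ∈ Finset.range q, P.coeff n * Q i ^ n =
        ∑ n ∈ Finset.range (q - 1), P.coeff n * Q i ^ n := by
      have h7 : q = (q - 1) + 1 := by omega
      conv_lhs => rw [h7]
      rw [Finset.sum_range_succ, h.mid, zero_mul, add_zero]
    rw [h6]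
    ring

/-- The `j`-fold iterate. -/
lemma iter_step {q : ℕ} {a : k} {E : Submodule ℚ V} {P : (Alg k V)[X]} {B : ℕ} {Q : ℤ → Alg k V}
    (h : Two q a E P B Q) (lam : V →ₗ[ℚ] ℚ) (hlam : ∀ ν ∈ E, lam ν = 0) (M : ℝ) (hM : 0 ≤ M)
    (hb : ∀ i, Bd (lr lam) M (Q i)) (j : ℕ) :
    ∃ c : k, c ≠ 0 ∧ ∀ i : ℤ, ∃ S : Alg k V, Bd (lr lam) ((q : ℝ) ^ j * M - 2 * M) S ∧
      (theta q)^[j] (Q (i - j)) = mono 0 c * Q i ^ q ^ j + S := by
  have hq1 : (1 : ℝ) ≤ q := by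
    have := h.hq
    exact_mod_cast (show 1 ≤ q by omega)
  induction j with
  | zero =>
    refine ⟨1, one_ne_zero, fun i => ⟨0, Bd.zero _ _, ?_⟩⟩
    have h0 : (mono 0 1 : Alg k V) = 1 := rfl
    simp [h0]
  | succ j ih =>
    obtain ⟨c, hc, h1⟩ := ih
    refine ⟨c * a ^ q ^ j, mul_ne_zero hc (pow_ne_zero _ h.pol.ne), fun i => ?_⟩
    obtain ⟨S, hS, h2⟩ := h1 (i - 1)
    obtain ⟨S', hS', h3⟩ := one_step h lam hlam M hM hb i
    have h4 : (mono 0 (c * a ^ q ^ j) : Alg k V) = mono 0 c * (mono 0 a) ^ q ^ j := by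
      rw [AddMonoidAlgebra.single_pow, AddMonoidAlgebra.single_mul_single]
      simp
    refine ⟨mono 0 c * (theta q (Q (i - 1)) ^ q ^ j - (mono 0 a * Q i ^ q) ^ q ^ j) + theta q S,
      ?_, ?_⟩
    · refine Bd.add ?_ ?_
      · have h5 : Bd (lr lam) (q * M) (theta q (Q (i - 1))) := bd_theta lam q M _ (hb _)
        have h6 : Bd (lr lam) (q * M) (mono 0 a * Q i ^ q) :=
          ((Bd.single (lr lam) (t := 0) (by simp) a).mul (bd_pow lam M _ (hb i) q)).mono_le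
            (by simp)
        have h7 : Bd (lr lam) (q * M - 2 * M) (theta q (Q (i - 1)) - mono 0 a * Q i ^ q) := by
          rw [h3, add_sub_cancel_left]
          exact hS'
        have h8 := bd_pow_sub lam _ _ _ _ h5 h6 h7 (q ^ j)
          (Nat.one_le_pow _ _ (by have := h.hq; omega))
        refine ((Bd.single (lr lam) (t := 0) (by simp) c).mul h8).mono_le (le_of_eq ?_)
        push_cast
        ring
      · refine (bd_theta lam q _ S hS).mono_le ?_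
        have h9 : (q : ℝ) ^ (j + 1) = q * q ^ j := by ring
        rw [h9]
        nlinarith
    · have h10 : (i : ℤ) - ((j + 1 : ℕ) : ℤ) = i - 1 - (j : ℤ) := by push_cast; ring
      rw [h10, Function.iterate_succ_apply', h2, map_add, map_mul, map_pow, theta_mono, smul_zero,
        h4, pow_succ, pow_mul]
      rw [mul_pow (mono 0 a) (Q i ^ q) (q ^ j)]
      rw [← pow_mul (Q i) q (q ^ j), ← pow_mul (Q i) (q ^ j) q, mul_comm (q ^ j) q]
      ring

/-- The exponents that survive. -/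
lemma survive {q : ℕ} {a : k} {E : Submodule ℚ V} {P : (Alg k V)[X]} {B : ℕ} {Q : ℤ → Alg k V}
    (h : Two q a E P B Q) (lam : V →ₗ[ℚ] ℚ) (hlam : ∀ ν ∈ E, lam ν = 0) (b : V)
    (hb : 0 < lam b) (h1 : ∀ i, (Q i).coeff b ≠ 0)
    (h2 : ∀ i, ∀ ν ∈ spt (Q i), ν ≠ b → lam ν < lam b) (i : ℤ) (δ : ℚ) (hδ : 0 < δ)
    (h3 : ∀ ν ∈ spt (Q i), ν ≠ b → lam ν ≤ lam b - δ)
    (h4 : ∃ ν ∈ spt (Q i), lam ν = lam b - δ) (S : ℕ) (hS : S * δ < 2 * lam b) :
    ∃ l0 : ℕ, ∀ j ≥ l0, ∀ s ≤ S, ∃ μ ∈ spt ((theta q)^[j] (Q (i - j))),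
      lam μ = q ^ j * lam b - s * δ := by
  classical
  set c : k := (Q i).coeff b with hc
  have hc0 : c ≠ 0 := h1 i
  set ε : Alg k V := mono (-b) c⁻¹ * (Q i - mono b c) with hε
  have e1 : mono b c * (1 + ε) = Q i := by
    rw [hε, mul_add, ← mul_assoc, AddMonoidAlgebra.single_mul_single, add_neg_cancel,
      mul_inv_cancel₀ hc0, ← AddMonoidAlgebra.one_def]
    ring
  have e2 : ∀ ν, ε.coeff (-b + ν) = c⁻¹ * (Q i - mono b c).coeff ν := by
    intro ν
    rw [hε]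
    exact AddMonoidAlgebra.coeff_single_mul_add _ _ _ _
  have e3 : (Q i - mono b c).coeff b = 0 := by
    rw [AddMonoidAlgebra.coeff_sub, Finsupp.sub_apply, ← hc]
    simp [mono]
  have e4 : ∀ ν, ν ≠ b → (Q i - mono b c).coeff ν = (Q i).coeff ν := by
    intro ν hν
    rw [AddMonoidAlgebra.coeff_sub, Finsupp.sub_apply]
    have : (mono b c : Alg k V).coeff ν = 0 := by
      simp only [mono, AddMonoidAlgebra.coeff_single]
      exact Finsupp.single_eq_of_ne hν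
    rw [this, sub_zero]
  have hε1 : ∀ ν ∈ spt ε, lam ν ≤ -δ := by
    intro ν hν
    have e5 : ν = -b + (b + ν) := by abel
    rw [Finsupp.mem_support_iff, e5, e2] at hν
    have e6 : (Q i - mono b c).coeff (b + ν) ≠ 0 := right_ne_zero_of_mul hν
    have e7 : b + ν ≠ b := by
      intro h5
      rw [h5] at e6
      exact e6 e3
    rw [e4 _ e7] at e6
    have e8 := h3 (b + ν) (Finsupp.mem_support_iff.2 e6) e7
    rw [map_add] at e8
    linarith
  have hε2 : ∃ ν ∈ spt ε, lam ν = -δ := by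
    obtain ⟨ν, hν, h5⟩ := h4
    have e7 : ν ≠ b := by
      rintro rfl
      linarith
    refine ⟨-b + ν, ?_, ?_⟩
    · rw [Finsupp.mem_support_iff, e2, e4 _ e7]
      exact mul_ne_zero (inv_ne_zero hc0) (Finsupp.mem_support_iff.1 hν)
    · rw [map_add, map_neg, h5]
      ring
  obtain ⟨l0, hl0⟩ := pow_parts lam ε δ hδ hε1 hε2 S
  refine ⟨l0, fun j hj s hs => ?_⟩
  have hq := h.hq
  have hj1 : l0 ≤ q ^ j := hj.trans (Nat.lt_pow_self (by omega)).le
  obtain ⟨μ, hμ, hμ1⟩ := hl0 (q ^ j) hj1 s hs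
  have hM : (0 : ℝ) ≤ ((lam b : ℚ) : ℝ) := by exact_mod_cast hb.le
  have hbd : ∀ i, Bd (lr lam) ((lam b : ℚ) : ℝ) (Q i) := by
    intro i ν hν
    change ((lam ν : ℚ) : ℝ) ≤ ((lam b : ℚ) : ℝ)
    by_cases h6 : ν = b
    · rw [h6]
    · exact_mod_cast (h2 i ν hν h6).le
  obtain ⟨C, hC, h7⟩ := iter_step h lam hlam _ hM hbd j
  obtain ⟨R, hR, h8⟩ := h7 i
  refine ⟨(q ^ j) • b + μ, ?_, ?_⟩
  · rw [Finsupp.mem_support_iff, h8, AddMonoidAlgebra.coeff_add, Finsupp.add_apply]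
    have h9 : R.coeff ((q ^ j) • b + μ) = 0 := by
      by_contra h10
      have h11 := hR _ (Finsupp.mem_support_iff.2 h10)
      have h12 : lr lam ((q ^ j) • b + μ) = (q : ℝ) ^ j * ((lam b : ℚ) : ℝ) - s * ((δ : ℚ) : ℝ) := by
        change ((lam ((q ^ j) • b + μ) : ℚ) : ℝ) = _
        rw [map_add, hμ1, map_nsmul, nsmul_eq_mul]
        push_cast
        ring
      rw [h12] at h11
      have h13 : (s : ℚ) * δ < 2 * lam b := by
        have h14 : (s : ℚ) ≤ S := by exact_mod_cast hs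
        nlinarith
      have h15 : (s : ℝ) * ((δ : ℚ) : ℝ) < 2 * ((lam b : ℚ) : ℝ) := by exact_mod_cast h13
      linarith
    rw [h9, add_zero, ← e1, mul_pow, AddMonoidAlgebra.single_pow, ← mul_assoc,
      AddMonoidAlgebra.single_mul_single, zero_add, AddMonoidAlgebra.coeff_single_mul_add]
    exact mul_ne_zero (mul_ne_zero hC (pow_ne_zero _ hc0)) (Finsupp.mem_support_iff.1 hμ)
  · rw [map_add, hμ1, map_nsmul, nsmul_eq_mul]
    push_cast
    ring

end Rig2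

open Rig2 in
theorem top_gap {q : ℕ} {a : k} {E : Submodule ℚ V} {P : (Alg k V)[X]} {B : ℕ} {Q : ℤ → Alg k V}
    (h : Two q a E P B Q) (lam : V →ₗ[ℚ] ℚ) (hlam : ∀ ν ∈ E, lam ν = 0) (b : V)
    (hb : 0 < lam b) (h1 : ∀ i, (Q i).coeff b ≠ 0)
    (h2 : ∀ i, ∀ ν ∈ spt (Q i), ν ≠ b → lam ν < lam b) :
    ∀ i, ∀ ν ∈ spt (Q i), ν ≠ b → lam ν ≤ -lam b := by
  classical
  -- the gap at each index
  have gap : ∀ i, ∀ ν ∈ spt (Q i), ν ≠ b → ∃ δ : ℚ, 0 < δ ∧ δ ≤ lam b - lam ν ∧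
      (∀ ν ∈ spt (Q i), ν ≠ b → lam ν ≤ lam b - δ) ∧ ∃ ν ∈ spt (Q i), lam ν = lam b - δ := by
    intro i ν hν hνb
    obtain ⟨ν', hν', h3⟩ := Finset.exists_max_image ((spt (Q i)).erase b) lam
      ⟨ν, Finset.mem_erase.2 ⟨hνb, hν⟩⟩
    obtain ⟨h4, h5⟩ := Finset.mem_erase.1 hν'
    refine ⟨lam b - lam ν', by have := h2 i ν' h5 h4; linarith, ?_, ?_, ⟨ν', h5, by ring⟩⟩
    · have := h3 ν (Finset.mem_erase.2 ⟨hνb, hν⟩)
      linarith
    · intro μ hμ hμb
      have := h3 μ (Finset.mem_erase.2 ⟨hμb, hμ⟩)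
      linarith
  -- a small gap gives too many terms
  have big : ∀ i, ∀ δ : ℚ, 0 < δ → (∀ ν ∈ spt (Q i), ν ≠ b → lam ν ≤ lam b - δ) →
      (∃ ν ∈ spt (Q i), lam ν = lam b - δ) → 2 * lam b ≤ B * δ := by
    intro i δ hδ h3 h4
    by_contra h5
    push Not at h5
    obtain ⟨l0, hl0⟩ := survive h lam hlam b hb h1 h2 i δ hδ h3 h4 B h5
    have h6 := hl0 l0 le_rfl
    choose! f hf hf1 using h6
    have h7 : ((Finset.range (B + 1)).image f).card = B + 1 := by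
      rw [Finset.card_image_of_injOn, Finset.card_range]
      intro s hs t ht hst
      have hs1 : s ≤ B := Nat.lt_succ_iff.1 (Finset.mem_range.1 (Finset.mem_coe.1 hs))
      have ht1 : t ≤ B := Nat.lt_succ_iff.1 (Finset.mem_range.1 (Finset.mem_coe.1 ht))
      have h8 := hf1 s hs1
      have h9 := hf1 t ht1
      have hst' : f s = f t := hst
      rw [hst', h9] at h8
      have h10 : (s : ℚ) * δ = t * δ := by linarith
      have h11 := mul_right_cancel₀ hδ.ne' h10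
      exact_mod_cast h11
    have h12 : (Finset.range (B + 1)).image f ⊆ spt ((theta q)^[l0] (Q (i - l0))) := by
      intro μ hμ
      obtain ⟨s, hs, rfl⟩ := Finset.mem_image.1 hμ
      exact hf s (Nat.lt_succ_iff.1 (Finset.mem_range.1 hs))
    have h13 := Finset.card_le_card h12
    have h14 := iter_card q (Q (i - l0)) l0
    have h15 := h.bd (i - l0)
    omega
  intro i ν hν hνb
  by_contra h3
  push Not at h3
  obtain ⟨δ, hδ, hδ1, hδ2, hδ3⟩ := gap i ν hν hνb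
  have h4 : ((1 : ℕ) : ℚ) * δ < 2 * lam b := by
    push_cast
    linarith
  obtain ⟨l0, hl0⟩ := survive h lam hlam b hb h1 h2 i δ hδ hδ2 hδ3 1 h4
  -- choose a large level
  have hq := h.hq
  obtain ⟨n, hn⟩ := exists_nat_gt ((B : ℚ) * δ / (2 * lam b))
  set j : ℕ := max l0 n with hj
  have hjn : ((B : ℚ) * δ / (2 * lam b)) < (q : ℚ) ^ j := by
    refine hn.trans_le ?_
    have h5 : n ≤ q ^ j := (le_max_right l0 n).trans (Nat.lt_pow_self (by omega)).le
    exact_mod_cast h5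
  obtain ⟨μ, hμ, hμ1⟩ := hl0 j (le_max_left _ _) 1 le_rfl
  obtain ⟨ν', hν', rfl⟩ := iter_coeff_ne q _ j μ hμ
  have hqj : (0 : ℚ) < (q : ℚ) ^ j := by
    have : (0 : ℚ) < q := by exact_mod_cast (show 0 < q by omega)
    positivity
  rw [map_nsmul, nsmul_eq_mul] at hμ1
  push_cast at hμ1
  have h6 : lam ν' = lam b - δ / q ^ j := by
    field_simp
    linarith
  have h7 : ν' ≠ b := by
    rintro rfl
    have : 0 < δ / (q : ℚ) ^ j := by positivity
    linarith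
  obtain ⟨δ', hδ', hδ1', hδ2', hδ3'⟩ := gap _ ν' hν' h7
  have h8 := big _ δ' hδ' hδ2' hδ3'
  have h9 : δ' ≤ δ / q ^ j := by linarith
  have h10 : (B : ℚ) * δ' ≤ B * (δ / q ^ j) := mul_le_mul_of_nonneg_left h9 (Nat.cast_nonneg _)
  have h11 : (B : ℚ) * (δ / q ^ j) < 2 * lam b := by
    rw [div_lt_iff₀ (by linarith)] at hjn
    rw [← mul_div_assoc, div_lt_iff₀ hqj]
    linarith
  linarith

end Pool.Agent.Helper11.TS
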