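import Pool.Agent.Helper11.TS.Rig1
import Pool.Agent.Helper11.TS.Rig2

/-!
# TS, module T6b3: rigidity of two-sided towers
-/

set_option autoImplicit false

namespace Pool.Agent.Helper11.TS

open Polynomial Filter

variable {k V : Type} [Field k] [CharZero k] [AddCommGroup V] [Module ℚ V]

section bounds

variable {κ G : Type} [Field κ] [AddCommGroup G]

private lemma bd_one (β : G →+ ℝ) : Bd β 0 (1 : Alg κ G) :=
  Bd.single β (by simp) 1

private lemma bd_pow {β : G →+ ℝ} {t : ℝ} {E : Alg κ G} (h : Bd β t E) (n : ℕ) :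
    Bd β (n * t) (E ^ n) := by
  induction n with
  | zero =>
    simp only [Nat.cast_zero, zero_mul, pow_zero]
    exact bd_one β
  | succ n ih =>
    rw [pow_succ]
    refine (ih.mul h).mono_le ?_
    push_cast
    linarith

private lemma bd_natCast (β : G →+ ℝ) (n : ℕ) : Bd β 0 (n : Alg κ G) := by
  rw [AddMonoidAlgebra.natCast_def]
  exact Bd.single β (by simp) _

private lemma bd_lin {β : G →+ ℝ} {M : ℝ} {W N : Alg κ G} (hM : 0 < M) (hW : Bd β M W)
    (hN : Bd β (-M) N) (n : ℕ) : Bd β (((n : ℝ) - 2) * M) ((W + N) ^ n - W ^ n) := by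
  have hWN : Bd β M (W + N) := hW.add (hN.mono_le (by linarith))
  induction n with
  | zero =>
    rw [pow_zero, pow_zero, sub_self]
    exact Bd.zero β _
  | succ n ih =>
    have h1 : (W + N) ^ (n + 1) - W ^ (n + 1) =
        (W + N) * ((W + N) ^ n - W ^ n) + N * W ^ n := by ring
    rw [h1]
    refine Bd.add ((hWN.mul ih).mono_le ?_) ((hN.mul (bd_pow hW n)).mono_le ?_)
    · push_cast
      linarith
    · push_cast
      linarith

private lemma bd_quad {β : G →+ ℝ} {M : ℝ} {W N : Alg κ G} (hM : 0 < M) (hW : Bd β M W)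
    (hN : Bd β (-M) N) (n : ℕ) :
    Bd β (((n : ℝ) - 3) * M) ((W + N) ^ (n + 1) - W ^ (n + 1) -
      ((n + 1 : ℕ) : Alg κ G) * (W ^ n * N)) := by
  have hWN : Bd β M (W + N) := hW.add (hN.mono_le (by linarith))
  induction n with
  | zero =>
    have h1 : (W + N) ^ (0 + 1) - W ^ (0 + 1) - ((0 + 1 : ℕ) : Alg κ G) * (W ^ 0 * N) = 0 := by
      push_cast
      ring
    rw [h1]
    exact Bd.zero β _
  | succ n ih =>
    have h1 : (W + N) ^ (n + 1 + 1) - W ^ (n + 1 + 1) -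
        ((n + 1 + 1 : ℕ) : Alg κ G) * (W ^ (n + 1) * N) =
        (W + N) * ((W + N) ^ (n + 1) - W ^ (n + 1) - ((n + 1 : ℕ) : Alg κ G) * (W ^ n * N)) +
          ((n + 1 : ℕ) : Alg κ G) * (W ^ n * (N * N)) := by
      push_cast
      ring
    rw [h1]
    refine Bd.add ((hWN.mul ih).mono_le ?_)
      (((bd_natCast β (n + 1)).mul ((bd_pow hW n).mul (hN.mul hN))).mono_le ?_)
    · push_cast
      linarith
    · push_cast
      linarith

private lemma bd_theta {β : G →+ ℝ} {t : ℝ} {E : Alg κ G} (q : ℕ) (h : Bd β t E) :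
    Bd β (q * t) (theta q E) := by
  classical
  have h1 : theta q E = ∑ ν ∈ spt E, mono (q • ν) (E.coeff ν) := by
    conv_lhs => rw [← AddMonoidAlgebra.sum_coeff_single E]
    rw [Finsupp.sum, map_sum]
    exact Finset.sum_congr rfl fun ν _ => theta_mono q ν _
  rw [h1]
  refine Bd.sum _ _ fun ν hν => Bd.single β ?_ _
  rw [map_nsmul, nsmul_eq_mul]
  exact mul_le_mul_of_nonneg_left (h ν hν) (Nat.cast_nonneg q)

end bounds

/-- The size of the exponents with respect to a functional. -/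
private noncomputable def bt (lam : V →ₗ[ℚ] ℚ) : V →+ ℝ :=
  ((Rat.castHom ℝ : ℚ →+* ℝ) : ℚ →+ ℝ).comp lam.toAddMonoidHom

private lemma bt_apply (lam : V →ₗ[ℚ] ℚ) (ν : V) : bt lam ν = (lam ν : ℝ) := rfl

/-- All exponents except `b` have degree `-lam b`. -/
private lemma other {q : ℕ} {a : k} {E : Submodule ℚ V} {P : (Alg k V)[X]} {B : ℕ}
    {Q : ℤ → Alg k V} (h : Two q a E P B Q) (lam : V →ₗ[ℚ] ℚ) (hlam : ∀ ν ∈ E, lam ν = 0)
    (b : V) (hb : 0 < lam b) (h1 : ∀ i, (Q i).coeff b ≠ 0)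
    (h2 : ∀ i, ∀ ν ∈ spt (Q i), ν ≠ b → lam ν < lam b) (i : ℤ) (ν : V) (hν : ν ∈ spt (Q i))
    (hνb : ν ≠ b) : lam ν = -lam b := by
  have hle : lam ν ≤ -lam b := top_gap h lam hlam b hb h1 h2 i ν hν hνb
  have hlam' : ∀ ν ∈ E, (-lam) ν = 0 := fun ν hν => by
    rw [LinearMap.neg_apply, hlam ν hν, neg_zero]
  have hs := h.shift i
  have e0 : Q (0 + i) = Q i := by rw [zero_add]
  obtain ⟨b', hb', H⟩ := top_mono hs (-lam) hlam' ⟨ν, by
    show ν ∈ spt (Q (0 + i))
    rw [e0]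
    exact hν, by rw [LinearMap.neg_apply]; linarith⟩
  have hgap := top_gap hs (-lam) hlam' b' hb' (fun j => (H j).1) (fun j => (H j).2.1) 0
  have hgap' : ∀ μ ∈ spt (Q i), μ ≠ b' → (-lam) μ ≤ -(-lam) b' := by
    intro μ hμ
    apply hgap μ
    show μ ∈ spt (Q (0 + i))
    rw [e0]
    exact hμ
  rw [LinearMap.neg_apply] at hb'
  have hbb : b ≠ b' := by
    rintro rfl
    linarith
  have g1 := hgap' b (Finsupp.mem_support_iff.2 (h1 i)) hbb
  rw [LinearMap.neg_apply, LinearMap.neg_apply] at g1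
  have hνb' : ν = b' := by
    by_contra hne
    have g2 := hgap' ν hν hne
    rw [LinearMap.neg_apply, LinearMap.neg_apply] at g2
    linarith
  rw [← hνb'] at g1
  linarith

private lemma key {q : ℕ} {a : k} {E : Submodule ℚ V} {P : (Alg k V)[X]} {B : ℕ}
    {Q : ℤ → Alg k V} (h : Two q a E P B Q) (lam : V →ₗ[ℚ] ℚ) (hlam : ∀ ν ∈ E, lam ν = 0)
    (b : V) (hb : 0 < lam b)
    (H : ∀ i, (Q i).coeff b ≠ 0 ∧ (∀ ν ∈ spt (Q i), ν ≠ b → lam ν < lam b) ∧
      (Q (i - 1)).coeff b = a * (Q i).coeff b ^ q) (i : ℤ) :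
    Q i * mono b ((Q i).coeff b) = mono (2 • b) ((Q i).coeff b ^ 2) +
        mono 0 (-((q : k) * a)⁻¹) * P.coeff (q - 2) := by
  classical
  have hoth := other h lam hlam b hb (fun i => (H i).1) (fun i => (H i).2.1)
  obtain ⟨n, rfl⟩ : ∃ n, q = n + 2 := ⟨q - 2, by have := h.hq; omega⟩
  set β := bt lam with hβ
  set M : ℝ := (lam b : ℝ) with hM
  have hM0 : 0 < M := by
    rw [hM]
    exact_mod_cast hb
  let c : ℤ → k := fun i => (Q i).coeff b
  let W : ℤ → Alg k V := fun i => mono b (c i)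
  let N : ℤ → Alg k V := fun i => Q i - W i
  have hQ : ∀ i, Q i = W i + N i := fun i => by
    show Q i = W i + (Q i - W i)
    ring
  have hNs : ∀ i, ∀ ν ∈ spt (N i), ν ∈ spt (Q i) ∧ ν ≠ b := by
    intro i ν hν
    have h1 : (N i).coeff ν = (Q i).coeff ν - (W i).coeff ν := rfl
    have h2 : (W i).coeff ν = if b = ν then c i else 0 := by
      show (AddMonoidAlgebra.single b (c i)).coeff ν = _
      exact Finsupp.single_apply
    rw [Finsupp.mem_support_iff, h1, h2] at hν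
    by_cases hb' : b = ν
    · exfalso
      apply hν
      rw [if_pos hb', ← hb']
      exact sub_self _
    · rw [if_neg hb', sub_zero] at hν
      exact ⟨Finsupp.mem_support_iff.2 hν, fun h => hb' h.symm⟩
  have hW1 : ∀ i, Bd β M (W i) := fun i => Bd.single β le_rfl _
  have hW2 : ∀ i, Bd (-β) (-M) (W i) := fun i => Bd.single (-β) le_rfl _
  have hNv : ∀ i, ∀ ν ∈ spt (N i), β ν = -M := by
    intro i ν hν
    obtain ⟨h1, h2⟩ := hNs i ν hν
    have h3 := hoth i ν h1 h2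
    rw [hβ, bt_apply, h3, hM]
    push_cast
    ring
  have hN1 : ∀ i, Bd β (-M) (N i) := fun i ν hν => (hNv i ν hν).le
  have hN2 : ∀ i, Bd (-β) M (N i) := fun i ν hν => by
    rw [AddMonoidHom.neg_apply, hNv i ν hν, neg_neg]
  have hPv : ∀ l, ∀ ν ∈ spt (P.coeff l), β ν = 0 := by
    intro l ν hν
    rw [hβ, bt_apply, hlam ν (h.cst l ν hν), Rat.cast_zero]
  have hP1 : ∀ l, Bd β 0 (P.coeff l) := fun l ν hν => (hPv l ν hν).le
  have hP2 : ∀ l, Bd (-β) 0 (P.coeff l) := fun l ν hν => by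
    rw [AddMonoidHom.neg_apply, hPv l ν hν, neg_zero]
  have hWN : Bd β M (W i + N i) := (hW1 i).add ((hN1 i).mono_le (by linarith))
  -- the value of the polynomial
  have hev : P.eval (Q i) = (∑ l ∈ Finset.range n, P.coeff l * (W i + N i) ^ l) +
      P.coeff n * (W i + N i) ^ n + mono 0 a * (W i + N i) ^ (n + 2) := by
    rw [hQ i, Polynomial.eval_eq_sum_range, h.pol.deg, Finset.sum_range_succ,
      Finset.sum_range_succ, Finset.sum_range_succ, h.pol.lead]
    have h0 : P.coeff (n + 1) = 0 := h.mid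
    rw [h0, zero_mul, add_zero]
  have hth : theta (n + 2) (Q (i - 1)) = mono 0 a * W i ^ (n + 2) +
      theta (n + 2) (N (i - 1)) := by
    rw [hQ (i - 1), map_add]
    congr 1
    have e1 : theta (n + 2) (W (i - 1)) = mono ((n + 2) • b) (c (i - 1)) :=
      theta_mono (n + 2) b (c (i - 1))
    have e2 : W i ^ (n + 2) = mono ((n + 2) • b) (c i ^ (n + 2)) :=
      AddMonoidAlgebra.single_pow b (c i) (n + 2)
    rw [e1, e2]
    show _ = AddMonoidAlgebra.single 0 a * AddMonoidAlgebra.single _ _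
    rw [AddMonoidAlgebra.single_mul_single, zero_add]
    exact congrArg _ (H i).2.2
  have hstep := h.step i
  rw [hev, hth] at hstep
  set Gd : Alg k V := mono 0 a * (((n + 2 : ℕ) : Alg k V) * (W i ^ (n + 1) * N i)) +
    P.coeff n * W i ^ n with hGd
  have hG : Gd = theta (n + 2) (N (i - 1)) - (∑ l ∈ Finset.range n, P.coeff l * (W i + N i) ^ l) -
      P.coeff n * ((W i + N i) ^ n - W i ^ n) -
      mono 0 a * ((W i + N i) ^ (n + 1 + 1) - W i ^ (n + 1 + 1) -
        ((n + 1 + 1 : ℕ) : Alg k V) * (W i ^ (n + 1) * N i)) := by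
    rw [hGd]
    linear_combination hstep
  have hc0 : Bd β 0 (mono 0 a : Alg k V) := Bd.single β (by simp) a
  have hc0' : Bd (-β) 0 (mono 0 a : Alg k V) := Bd.single (-β) (by simp) a
  have hn0 : (0 : ℝ) ≤ n := Nat.cast_nonneg n
  have hnM : 0 ≤ (n : ℝ) * M := mul_nonneg hn0 hM0.le
  have hup : Bd β (((n : ℝ) - 1) * M) Gd := by
    rw [hG]
    refine Bd.sub (Bd.sub (Bd.sub ?_ ?_) ?_) ?_
    · refine (bd_theta (n + 2) (hN1 (i - 1))).mono_le ?_
      push_cast
      nlinarith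
    · refine Bd.sum _ _ fun l hl => ?_
      refine ((hP1 l).mul (bd_pow hWN l)).mono_le ?_
      have hl' : (l : ℝ) + 1 ≤ n := by
        have := Finset.mem_range.1 hl
        exact_mod_cast this
      nlinarith
    · refine ((hP1 n).mul (bd_lin hM0 (hW1 i) (hN1 i) n)).mono_le ?_
      nlinarith
    · refine (hc0.mul (bd_quad hM0 (hW1 i) (hN1 i) (n + 1))).mono_le ?_
      push_cast
      nlinarith
  have hlow : Bd (-β) (-((n : ℝ) * M)) Gd := by
    rw [hGd]
    refine Bd.add ?_ ?_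
    · refine (hc0'.mul ((bd_natCast (-β) (n + 2)).mul
        ((bd_pow (hW2 i) (n + 1)).mul (hN2 i)))).mono_le ?_
      push_cast
      nlinarith
    · refine ((hP2 n).mul (bd_pow (hW2 i) n)).mono_le ?_
      nlinarith
  have hG0 : Gd = 0 := by
    by_contra hne
    obtain ⟨ν, hν⟩ : ∃ ν, ν ∈ spt Gd := by
      by_contra hno
      push Not at hno
      apply hne
      rw [← AddMonoidAlgebra.coeff_eq_zero, ← Finsupp.support_eq_empty]
      exact Finset.eq_empty_of_forall_notMem hno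
    have h1 := hup ν hν
    have h2 := hlow ν hν
    rw [AddMonoidHom.neg_apply] at h2
    nlinarith
  have hci : c i ≠ 0 := (H i).1
  have hU : mono (-(n • b)) ((c i ^ n)⁻¹) * W i ^ n = (1 : Alg k V) := by
    have e2 : W i ^ n = mono (n • b) (c i ^ n) :=
      AddMonoidAlgebra.single_pow b (c i) n
    rw [e2]
    show AddMonoidAlgebra.single _ _ * AddMonoidAlgebra.single _ _ = _
    rw [AddMonoidAlgebra.single_mul_single, neg_add_cancel, inv_mul_cancel₀ (pow_ne_zero _ hci)]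
    rfl
  have hqa : ((n + 2 : ℕ) : k) * a ≠ 0 := mul_ne_zero (Nat.cast_ne_zero.2 (by omega)) h.pol.ne
  have hD : mono 0 ((((n + 2 : ℕ) : k) * a)⁻¹) * (mono 0 a * ((n + 2 : ℕ) : Alg k V)) =
      (1 : Alg k V) := by
    rw [AddMonoidAlgebra.natCast_def]
    show AddMonoidAlgebra.single _ _ * (AddMonoidAlgebra.single _ _ *
      AddMonoidAlgebra.single _ _) = _
    rw [AddMonoidAlgebra.single_mul_single, AddMonoidAlgebra.single_mul_single, zero_add,
      zero_add, mul_comm a, inv_mul_cancel₀ hqa]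
    rfl
  have hNW : N i * W i = mono 0 (-(((n + 2 : ℕ) : k) * a)⁻¹) * P.coeff n := by
    have e3 : (mono 0 (-(((n + 2 : ℕ) : k) * a)⁻¹) : Alg k V) =
        -mono 0 ((((n + 2 : ℕ) : k) * a)⁻¹) := AddMonoidAlgebra.single_neg _ _
    rw [e3]
    have e4 : mono 0 a * (((n + 2 : ℕ) : Alg k V) * (W i ^ (n + 1) * N i)) +
        P.coeff n * W i ^ n = 0 := hG0
    linear_combination
      (mono 0 ((((n + 2 : ℕ) : k) * a)⁻¹) * mono (-(n • b)) ((c i ^ n)⁻¹)) * e4 -
      (mono 0 ((((n + 2 : ℕ) : k) * a)⁻¹) * (mono 0 a * ((n + 2 : ℕ) : Alg k V)) * (N i * W i) +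
        mono 0 ((((n + 2 : ℕ) : k) * a)⁻¹) * P.coeff n) * hU - (N i * W i) * hD
  have hWW : W i * W i = mono (2 • b) (c i ^ 2) := by
    show AddMonoidAlgebra.single _ _ * AddMonoidAlgebra.single _ _ = _
    rw [AddMonoidAlgebra.single_mul_single, two_nsmul, sq]
  show Q i * W i = mono (2 • b) (c i ^ 2) + mono 0 (-(((n + 2 : ℕ) : k) * a)⁻¹) * P.coeff n
  rw [hQ i, add_mul, hWW, hNW]

theorem rigid {q : ℕ} {a : k} {E : Submodule ℚ V} {P : (Alg k V)[X]} {B : ℕ} {Q : ℤ → Alg k V}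
    (h : Two q a E P B Q) (h0 : ∃ ν ∈ spt (Q 0), ν ∉ E) :
    ∃ b ∉ E, ∃ c : ℤ → k, ∀ i, c i ≠ 0 ∧ c (i - 1) = a * c i ^ q ∧
      Q i * mono b (c i) = mono (2 • b) (c i ^ 2) +
        mono 0 (-((q : k) * a)⁻¹) * P.coeff (q - 2) := by
  obtain ⟨μ, hμ, hμE⟩ := h0
  obtain ⟨lam, hl1, hl2⟩ : ∃ lam : V →ₗ[ℚ] ℚ, 0 < lam μ ∧ ∀ ν ∈ E, lam ν = 0 := by
    obtain ⟨f, hf, hE⟩ := Submodule.exists_le_ker_of_notMem hμE
    rcases lt_or_gt_of_ne hf with h1 | h1
    · exact ⟨-f, by rw [LinearMap.neg_apply]; linarith, fun ν hν => by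
        rw [LinearMap.neg_apply, LinearMap.mem_ker.1 (hE hν), neg_zero]⟩
    · exact ⟨f, h1, fun ν hν => LinearMap.mem_ker.1 (hE hν)⟩
  obtain ⟨b, hb, H⟩ := top_mono h lam hl2 ⟨μ, hμ, hl1⟩
  refine ⟨b, fun hbE => ?_, fun i => (Q i).coeff b, fun i => ⟨(H i).1, (H i).2.2, ?_⟩⟩
  · rw [hl2 b hbE] at hb
    exact lt_irrefl 0 hb
  · exact key h lam hl2 b hb H i

end Pool.Agent.Helper11.TS
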