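import Pool.Agent.Helper11.TS.Pui
import Pool.Agent.Helper11.TS.Dom

/-!
# TS, module T2b: approximation of the roots
-/

set_option autoImplicit false

namespace Pool.Agent.Helper11.TS

open Polynomial Filter

variable {κ G : Type} [Field κ] [AddCommGroup G]

namespace RootAux

lemma exists_Bd (β : G →+ ℝ) (E : Alg κ G) : ∃ t : ℝ, Bd β t E := by
  classical
  refine ⟨∑ ν ∈ spt E, |β ν|, fun ν hν => ?_⟩
  exact (le_abs_self _).trans
    (Finset.single_le_sum (f := fun ν => |β ν|) (fun i _ => abs_nonneg _) hν)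

/-- An exponential with a smaller exponent is negligible. -/
lemma ev_small {q : ℕ} (hq : 2 ≤ q) {s t : ℝ} (hst : s < t) (A : ℝ) :
    ∀ᶠ m : ℕ in atTop, A * Real.exp (s * (q : ℝ) ^ m) ≤ Real.exp (t * (q : ℝ) ^ m) / 2 := by
  have hq1 : (1 : ℝ) < (q : ℝ) := by exact_mod_cast (lt_of_lt_of_le one_lt_two hq)
  have h1 : Tendsto (fun m : ℕ => (q : ℝ) ^ m) atTop atTop := tendsto_pow_atTop_atTop_of_one_lt hq1
  have h2 : Tendsto (fun m : ℕ => (t - s) * (q : ℝ) ^ m) atTop atTop :=
    h1.const_mul_atTop (sub_pos.2 hst)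
  have h3 := (Real.tendsto_exp_atTop.comp h2).eventually (eventually_ge_atTop (2 * A))
  refine h3.mono fun m hm => ?_
  have h4 : 2 * A ≤ Real.exp ((t - s) * (q : ℝ) ^ m) := hm
  have h5 : Real.exp (t * (q : ℝ) ^ m)
      = Real.exp ((t - s) * (q : ℝ) ^ m) * Real.exp (s * (q : ℝ) ^ m) := by
    rw [← Real.exp_add]
    congr 1
    ring
  rw [h5]
  have h6 := Real.exp_pos (s * (q : ℝ) ^ m)
  nlinarith [mul_le_mul_of_nonneg_right h4 h6.le]

lemma pow_card_lt_prod {r : ℝ} (hr : 0 < r) (s : Multiset ℝ) (hs : s ≠ 0) (h : ∀ x ∈ s, r < x) :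
    r ^ Multiset.card s < s.prod := by
  induction s using Multiset.induction_on with
  | empty => exact absurd rfl hs
  | cons a s ih =>
    rw [Multiset.card_cons, Multiset.prod_cons, pow_succ']
    have ha : r < a := h a (Multiset.mem_cons_self a s)
    by_cases h0 : s = 0
    · subst h0
      simpa using ha
    · have h1 := ih h0 fun x hx => h x (Multiset.mem_cons_of_mem hx)
      exact mul_lt_mul'' ha h1 hr.le (pow_pos hr _).le

lemma exists_small {r : ℝ} (hr : 0 < r) (s : Multiset ℝ) (hs : s ≠ 0)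
    (h : s.prod ≤ r ^ Multiset.card s) : ∃ x ∈ s, x ≤ r := by
  by_contra hc
  push Not at hc
  exact absurd (pow_card_lt_prod hr s hs hc) (not_lt.2 h)

/-- Division by a nonzero element, up to any given precision. -/
lemma approx_div (w : AbsoluteValue κ ℝ)
    (e : Multiplicative G →* κ) {q : ℕ} (hq : 2 ≤ q) (hβ : Function.Injective (beta w e))
    {b : Alg κ G} (hb : b ≠ 0) (S : Alg κ G) (M : ℝ) :
    ∃ F : Alg κ G, ∀ᶠ m : ℕ in atTop,
      w (ev e q m S / ev e q m b - ev e q m F) ≤ Real.exp (-M * (q : ℝ) ^ m) / 2 := by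
  classical
  obtain ⟨ν, hν, hmax, c0, hc0, hev⟩ := ev_dom w e hq hβ hb
  set c : κ := b.coeff ν with hc
  have hcne : c ≠ 0 := Finsupp.mem_support_iff.1 hν
  set u : Alg κ G := mono (-ν) c⁻¹ * b with hu
  set d : Alg κ G := 1 - u with hd
  have hucoeff : ∀ μ : G, u.coeff μ = c⁻¹ * b.coeff (μ + ν) := by
    intro μ
    rw [hu]
    refine AddMonoidAlgebra.coeff_single_mul_eq_mul_coeff _ ?_
    intro m' _
    constructor
    · intro h
      rw [← h]
      abel
    · intro h
      rw [h]
      abel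
  have hdcoeff : ∀ μ : G, d.coeff μ = (1 : Alg κ G).coeff μ - c⁻¹ * b.coeff (μ + ν) := by
    intro μ
    rw [hd, AddMonoidAlgebra.coeff_sub, Finsupp.sub_apply, hucoeff]
  have hd0 : d.coeff 0 = 0 := by
    rw [hdcoeff, zero_add, ← hc, inv_mul_cancel₀ hcne]
    simp [AddMonoidAlgebra.one_def]
  have hdneg : ∀ μ ∈ spt d, beta w e μ < 0 := by
    intro μ hμ
    have hμ' : d.coeff μ ≠ 0 := Finsupp.mem_support_iff.1 hμ
    have hμ0 : μ ≠ 0 := by
      intro h
      rw [h] at hμ'
      exact hμ' hd0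
    have h1 : (1 : Alg κ G).coeff μ = 0 := by
      rw [AddMonoidAlgebra.one_def, AddMonoidAlgebra.coeff_single]
      exact Finsupp.single_eq_of_ne hμ0
    rw [hdcoeff, h1, zero_sub] at hμ'
    have h2 : b.coeff (μ + ν) ≠ 0 := by
      intro h
      rw [h, mul_zero, neg_zero] at hμ'
      exact hμ' rfl
    have h3 := hmax (μ + ν) (Finsupp.mem_support_iff.2 h2)
    rw [map_add] at h3
    have h4 : beta w e μ ≤ 0 := by linarith
    refine lt_of_le_of_ne h4 ?_
    intro h5
    apply hμ0
    apply hβ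
    rw [h5, map_zero]
  obtain ⟨δ, hδ, hdδ⟩ : ∃ δ : ℝ, 0 < δ ∧ Bd (beta w e) (-δ) d := by
    by_cases hne : (spt d).Nonempty
    · obtain ⟨μ, hμ, hμm⟩ := Finset.exists_max_image (spt d) (beta w e) hne
      refine ⟨-beta w e μ, by linarith [hdneg μ hμ], ?_⟩
      intro ν' hν'
      rw [neg_neg]
      exact hμm ν' hν'
    · rw [Finset.not_nonempty_iff_eq_empty] at hne
      refine ⟨1, one_pos, ?_⟩
      intro ν' hν'
      rw [hne] at hν'
      exact absurd hν' (Finset.notMem_empty _)
  obtain ⟨Cd, hCd, hdb⟩ := ev_bound w e q hdδ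
  obtain ⟨t, ht⟩ := exists_Bd (beta w e) S
  obtain ⟨CS, hCS, hSb⟩ := ev_bound w e q ht
  set tb : ℝ := beta w e ν with htb
  obtain ⟨J, hJ⟩ := exists_nat_gt ((t - tb + M) / δ)
  have hJ' : t - (J : ℝ) * δ - tb < -M := by
    rw [div_lt_iff₀ hδ] at hJ
    linarith
  set I : Alg κ G := mono (-ν) c⁻¹ * ∑ j ∈ Finset.range J, d ^ j with hI
  have hbI : b * I = 1 - d ^ J := by
    have h1 : u * ∑ j ∈ Finset.range J, d ^ j = 1 - d ^ J := by
      have h2 := mul_neg_geom_sum d J
      have h3 : 1 - d = u := by rw [hd]; ring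
      rw [h3] at h2
      exact h2
    rw [← h1, hI, hu]
    ring
  refine ⟨I * S, ?_⟩
  have hsm := ev_small hq hJ' (CS * Cd ^ J / c0)
  filter_upwards [hev, hsm] with m hm hm2
  have hbpos : 0 < c0 * Real.exp (tb * (q : ℝ) ^ m) := mul_pos hc0 (Real.exp_pos _)
  have hwb : 0 < w (ev e q m b) := lt_of_lt_of_le hbpos hm
  have hbne : ev e q m b ≠ 0 := (w.ne_zero_iff).1 hwb.ne'
  have h1 : ev e q m S / ev e q m b - ev e q m (I * S)
      = ev e q m S * (ev e q m d) ^ J / ev e q m b := by
    rw [eq_div_iff hbne, sub_mul, div_mul_cancel₀ _ hbne, map_mul]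
    have h2 : ev e q m b * ev e q m I = 1 - (ev e q m d) ^ J := by
      rw [← map_mul, hbI, map_sub, map_one, map_pow]
    have h3 : ev e q m I * ev e q m S * ev e q m b
        = ev e q m S * (ev e q m b * ev e q m I) := by ring
    rw [h3, h2]
    ring
  rw [h1, map_div₀, map_mul, map_pow]
  refine le_trans ?_ hm2
  have h4 : w (ev e q m S) * w (ev e q m d) ^ J
      ≤ (CS * Real.exp (t * (q : ℝ) ^ m)) * (Cd * Real.exp (-δ * (q : ℝ) ^ m)) ^ J :=
    mul_le_mul (hSb m) (pow_le_pow_left₀ (w.nonneg _) (hdb m) J) (pow_nonneg (w.nonneg _) J)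
      (mul_nonneg hCS.le (Real.exp_pos _).le)
  have h5 : w (ev e q m S) * w (ev e q m d) ^ J / w (ev e q m b)
      ≤ (CS * Real.exp (t * (q : ℝ) ^ m)) * (Cd * Real.exp (-δ * (q : ℝ) ^ m)) ^ J
        / (c0 * Real.exp (tb * (q : ℝ) ^ m)) := by
    refine div_le_div₀ ?_ h4 hbpos hm
    exact mul_nonneg (mul_nonneg hCS.le (Real.exp_pos _).le)
      (pow_nonneg (mul_nonneg hCd.le (Real.exp_pos _).le) J)
  refine h5.trans (le_of_eq ?_)
  rw [mul_pow, ← Real.exp_nat_mul]
  have h6 : Real.exp ((t - (J : ℝ) * δ - tb) * (q : ℝ) ^ m)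
      = Real.exp (t * (q : ℝ) ^ m) * Real.exp ((J : ℝ) * (-δ * (q : ℝ) ^ m))
        / Real.exp (tb * (q : ℝ) ^ m) := by
    rw [← Real.exp_add, ← Real.exp_sub]
    congr 1
    ring
  rw [h6]
  field_simp

end RootAux

open RootAux in
/-- The roots of the specialisations of `p` are approximated by the values of finitely many
elements of the group algebra, up to any given precision. -/
theorem root_approx [CharZero κ] [IsAlgClosed κ] [Module ℚ G] (w : AbsoluteValue κ ℝ)
    (e : Multiplicative G →* κ) {q : ℕ} (hq : 2 ≤ q) (hβ : Function.Injective (beta w e))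
    (p : (Alg κ G)[X]) (hp : p ≠ 0) (C M : ℝ) :
    ∃ 𝒮 : Finset (Alg κ G), ∀ᶠ m in atTop, ∀ z : κ, w z ≤ Real.exp (C * (q : ℝ) ^ m) →
      (p.map (ev e q m)).eval z = 0 →
      ∃ S ∈ 𝒮, w (z - ev e q m S) ≤ Real.exp (-M * (q : ℝ) ^ m) := by
  classical
  set n : ℕ := p.natDegree with hn
  set b : Alg κ G := p.leadingCoeff with hb
  have hb0 : b ≠ 0 := leadingCoeff_ne_zero.2 hp
  obtain ⟨ν, hν, hmax, c0, hc0, hev⟩ := ev_dom w e hq hβ hb0
  set tb : ℝ := beta w e ν with htb
  rcases Nat.eq_zero_or_pos n with hn0 | hnpos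
  · refine ⟨∅, ?_⟩
    filter_upwards [hev] with m hm z _ hz
    exfalso
    have hp' : p = Polynomial.C b := by
      rw [hb, leadingCoeff, ← hn, hn0]
      exact eq_C_of_natDegree_eq_zero hn0
    rw [hp', map_C, eval_C] at hz
    rw [hz, map_zero] at hm
    exact absurd hm (not_le.2 (mul_pos hc0 (Real.exp_pos _)))
  · obtain ⟨Cb, hCb, hbb⟩ := ev_bound w e q (t := tb) (E := b) hmax
    set C1 : ℝ := max (tb + C) 0 with hC1
    set C' : ℝ := max Cb 1 with hC'
    set M1 : ℝ := (n : ℝ) * (C1 - tb + M + 1) with hM1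
    set P : (Alg κ G)[X] := integralNormalization p with hP
    have hPm : P.Monic := monic_integralNormalization hp
    have hPn : P.natDegree = n := natDegree_integralNormalization
    obtain ⟨s, hs, hD⟩ := puiseux (beta w e) hβ P hPm M1
    set D : (Alg κ G)[X] := P - (s.map fun a => X - Polynomial.C a).prod with hDdef
    have hDdeg : D.natDegree < n + 1 := by
      rw [Nat.lt_succ_iff, hDdef]
      refine (natDegree_sub_le _ _).trans (max_le hPn.le ?_)
      have h1 := natDegree_multiset_prod_X_sub_C_eq_card s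
      rw [h1, hs, hPn]
    have hDb : ∀ i : ℕ, ∃ Ci : ℝ, 0 < Ci ∧
        ∀ m, w (ev e q m (D.coeff i)) ≤ Ci * Real.exp (-M1 * (q : ℝ) ^ m) :=
      fun i => ev_bound w e q (hD i)
    choose Ci hCi hCib using hDb
    have hF : ∀ S : Alg κ G, ∃ F : Alg κ G, ∀ᶠ m : ℕ in atTop,
        w (ev e q m S / ev e q m b - ev e q m F) ≤ Real.exp (-M * (q : ℝ) ^ m) / 2 :=
      fun S => approx_div w e hq hβ hb0 S M
    choose F hFF using hF
    set C3 : ℝ := max ((∑ i ∈ Finset.range (n + 1), Ci i) * C' ^ n) 1 with hC3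
    have hC3pos : 0 < C3 := lt_of_lt_of_le one_pos (le_max_right _ _)
    have hall : ∀ᶠ m : ℕ in atTop, ∀ S ∈ s.toFinset,
        w (ev e q m S / ev e q m b - ev e q m (F S)) ≤ Real.exp (-M * (q : ℝ) ^ m) / 2 :=
      (eventually_all_finset _).2 fun S _ => hFF S
    have hexp : -(C1 - tb + M + 1) + C1 - tb < -M := by linarith
    refine ⟨s.toFinset.image F, ?_⟩
    have hsm := ev_small hq hexp (C3 / c0)
    filter_upwards [hev, hall, hsm] with m hm hallm hsmm z hz hroot
    have hqm : (0 : ℝ) < (q : ℝ) ^ m := by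
      apply pow_pos
      have : 0 < q := by omega
      exact_mod_cast this
    have hbpos : 0 < c0 * Real.exp (tb * (q : ℝ) ^ m) := mul_pos hc0 (Real.exp_pos _)
    have hwb : 0 < w (ev e q m b) := lt_of_lt_of_le hbpos hm
    have hbne : ev e q m b ≠ 0 := (w.ne_zero_iff).1 hwb.ne'
    set u : κ := ev e q m b * z with hu
    set L : ℝ := C' * Real.exp (C1 * (q : ℝ) ^ m) with hL
    have hL1 : 1 ≤ L := by
      have h1 : 1 ≤ C' := le_max_right _ _
      have h2 : 1 ≤ Real.exp (C1 * (q : ℝ) ^ m) :=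
        Real.one_le_exp (mul_nonneg (le_max_right _ _) hqm.le)
      calc (1 : ℝ) = 1 * 1 := (one_mul 1).symm
        _ ≤ L := mul_le_mul h1 h2 zero_le_one (zero_le_one.trans h1)
    have huL : w u ≤ L := by
      rw [hu, map_mul]
      calc w (ev e q m b) * w z
          ≤ (Cb * Real.exp (tb * (q : ℝ) ^ m)) * Real.exp (C * (q : ℝ) ^ m) :=
            mul_le_mul (hbb m) hz (w.nonneg _) (mul_nonneg hCb.le (Real.exp_pos _).le)
        _ = Cb * Real.exp ((tb + C) * (q : ℝ) ^ m) := by
            rw [mul_assoc, ← Real.exp_add]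
            congr 2
            ring
        _ ≤ C' * Real.exp (C1 * (q : ℝ) ^ m) := by
            refine mul_le_mul (le_max_left _ _) ?_ (Real.exp_pos _).le
              (zero_le_one.trans (le_max_right _ _))
            exact Real.exp_le_exp.2 (mul_le_mul_of_nonneg_right (le_max_left _ _) hqm.le)
    have hPz : P.eval₂ (ev e q m) u = 0 := by
      have h1 := integralNormalization_eval₂_leadingCoeff_mul (p := p) hnpos (ev e q m) z
      rw [← hb, ← hP] at h1
      rw [hu, h1, ← eval_map, hroot, mul_zero]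
    have hprod : ((s.map fun a => X - Polynomial.C a).prod).eval₂ (ev e q m) u
        = (s.map fun a => u - ev e q m a).prod := by
      rw [eval₂_multiset_prod, Multiset.map_map]
      congr 1
      refine Multiset.map_congr rfl fun a _ => ?_
      simp
    have hDz : D.eval₂ (ev e q m) u = - (s.map fun a => u - ev e q m a).prod := by
      rw [hDdef, eval₂_sub, hPz, hprod, zero_sub]
    have hwprod : w ((s.map fun a => u - ev e q m a).prod)
        = (s.map fun a => w (u - ev e q m a)).prod := by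
      have h1 := map_multiset_prod w.toMonoidHom (s.map fun a => u - ev e q m a)
      rw [Multiset.map_map] at h1
      exact h1
    have hDle : w (D.eval₂ (ev e q m) u)
        ≤ (∑ i ∈ Finset.range (n + 1), Ci i) * C' ^ n
          * Real.exp ((-M1 + n * C1) * (q : ℝ) ^ m) := by
      rw [eval₂_eq_sum_range' (ev e q m) hDdeg]
      refine (w.sum_le _ _).trans ?_
      have h1 : ∀ i ∈ Finset.range (n + 1), w (ev e q m (D.coeff i) * u ^ i)
          ≤ Ci i * Real.exp (-M1 * (q : ℝ) ^ m) * L ^ n := by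
        intro i hi
        rw [map_mul, map_pow]
        refine mul_le_mul (hCib i m) ?_ (pow_nonneg (w.nonneg _) i)
          (mul_nonneg (hCi i).le (Real.exp_pos _).le)
        exact (pow_le_pow_left₀ (w.nonneg _) huL i).trans
          (pow_le_pow_right₀ hL1 (Nat.lt_succ_iff.1 (Finset.mem_range.1 hi)))
      refine (Finset.sum_le_sum h1).trans (le_of_eq ?_)
      rw [← Finset.sum_mul, ← Finset.sum_mul, hL, mul_pow, ← Real.exp_nat_mul]
      have h2 : Real.exp ((-M1 + n * C1) * (q : ℝ) ^ m)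
          = Real.exp (-M1 * (q : ℝ) ^ m) * Real.exp ((n : ℝ) * (C1 * (q : ℝ) ^ m)) := by
        rw [← Real.exp_add]
        congr 1
        ring
      rw [h2]
      ring
    set r : ℝ := C3 * Real.exp ((-(C1 - tb + M + 1) + C1) * (q : ℝ) ^ m) with hr
    have hrpos : 0 < r := mul_pos hC3pos (Real.exp_pos _)
    have hcard : Multiset.card (s.map fun a => w (u - ev e q m a)) = n := by
      rw [Multiset.card_map, hs, hPn]
    have hsne : (s.map fun a => w (u - ev e q m a)) ≠ 0 := by
      intro h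
      rw [h, Multiset.card_zero] at hcard
      omega
    have hrn : (s.map fun a => w (u - ev e q m a)).prod
        ≤ r ^ Multiset.card (s.map fun a => w (u - ev e q m a)) := by
      rw [hcard, ← hwprod]
      have h1 : w ((s.map fun a => u - ev e q m a).prod) = w (D.eval₂ (ev e q m) u) := by
        rw [hDz, w.map_neg]
      rw [h1]
      refine hDle.trans ?_
      rw [hr, mul_pow, ← Real.exp_nat_mul]
      have h2 : (n : ℝ) * ((-(C1 - tb + M + 1) + C1) * (q : ℝ) ^ m)
          = (-M1 + n * C1) * (q : ℝ) ^ m := by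
        rw [hM1]
        ring
      rw [h2]
      refine mul_le_mul_of_nonneg_right ?_ (Real.exp_pos _).le
      refine (le_max_left _ (1 : ℝ)).trans ?_
      rw [← hC3]
      exact le_self_pow₀ (le_max_right _ _) (by omega)
    obtain ⟨x, hx, hxr⟩ := exists_small hrpos _ hsne hrn
    obtain ⟨S, hS, rfl⟩ := Multiset.mem_map.1 hx
    refine ⟨F S, Finset.mem_image_of_mem F (Multiset.mem_toFinset.2 hS), ?_⟩
    have h1 := hallm S (Multiset.mem_toFinset.2 hS)
    have h2 : z - ev e q m (F S)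
        = (u - ev e q m S) / ev e q m b + (ev e q m S / ev e q m b - ev e q m (F S)) := by
      rw [hu]
      field_simp
      ring
    rw [h2]
    refine (w.add_le _ _).trans ?_
    have h3 : w ((u - ev e q m S) / ev e q m b) ≤ Real.exp (-M * (q : ℝ) ^ m) / 2 := by
      rw [map_div₀]
      refine (div_le_div₀ hrpos.le hxr hbpos hm).trans ?_
      refine le_trans (le_of_eq ?_) hsmm
      have h4 : Real.exp ((-(C1 - tb + M + 1) + C1 - tb) * (q : ℝ) ^ m)
          = Real.exp ((-(C1 - tb + M + 1) + C1) * (q : ℝ) ^ m)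
            / Real.exp (tb * (q : ℝ) ^ m) := by
        rw [← Real.exp_sub]
        congr 1
        ring
      rw [h4, hr]
      field_simp
    linarith

end Pool.Agent.Helper11.TS
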