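import Pool.Agent.Helper11.TS.Tri
import Pool.Agent.Helper11.TS.Level

/-!
# TS, module T9b: one more coordinate
-/

set_option autoImplicit false

namespace Pool.Agent.Helper11.TS

open MvPolynomial Filter

variable {κ : Type} [Field κ] [CharZero κ] [IsAlgClosed κ] [Algebra.IsAlgebraic ℚ κ] {N : ℕ}
  {G : Type} [AddCommGroup G] [Module ℚ G]

/-- Change of the base: `e ↦ e^(q^n)`, `q ↦ q^L`. -/
noncomputable def Base.rebase (B : Base κ G) (n L : ℕ) (hL : 1 ≤ L) : Base κ G where
  e := B.e ^ B.q ^ n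
  q := B.q ^ L
  K := B.K
  w := B.w
  P0 := B.P0
  hq := B.hq.trans (Nat.le_self_pow (by omega) _)
  fin := B.fin
  hK := by
    intro ν
    obtain ⟨D, hD, h⟩ := B.hK ν
    refine ⟨D, hD, ?_⟩
    rw [MonoidHom.pow_apply, ← pow_mul, mul_comm, pow_mul]
    exact pow_mem h _
  hP0 := B.hP0
  hint := by
    intro ν
    obtain ⟨k, h⟩ := B.hint ν
    refine ⟨k * B.q ^ n, ?_⟩
    have h1 := h.pow (B.q ^ n)
    rw [mul_pow, ← pow_mul] at h1
    rwa [MonoidHom.pow_apply]
  inj := by
    have hN : (B.q ^ n : ℕ) ≠ 0 := pow_ne_zero _ (by have := B.hq; omega)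
    have h1 : ∀ ν, beta B.w (B.e ^ B.q ^ n) ν = ((B.q ^ n : ℕ) : ℝ) * beta B.w B.e ν := by
      intro ν
      rw [beta_apply, beta_apply, MonoidHom.pow_apply, map_pow, Real.log_pow]
    intro μ ν h
    apply B.inj
    rw [h1, h1] at h
    exact mul_left_cancel₀ (Nat.cast_ne_zero.2 hN) h
  pl := B.pl

omit [IsAlgClosed κ] [Algebra.IsAlgebraic ℚ κ] [Module ℚ G] in
private lemma rebase_ev (B : Base κ G) (n L : ℕ) (hL : 1 ≤ L) (m : ℕ) :
    (B.rebase n L hL).ev m = B.ev (n + L * m) := ev_rebase B.e B.q n L m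

omit [IsAlgClosed κ] [Algebra.IsAlgebraic ℚ κ] [Module ℚ G] in
private lemma ev_algebraMap (B : Base κ G) (m : ℕ) (c : κ) :
    B.ev m (algebraMap κ (Alg κ G) c) = c := by
  have h1 : algebraMap κ (Alg κ G) c = mono 0 c := rfl
  rw [h1]
  have h2 := ev_mono B.e B.q m (0 : G) c
  rw [ofAdd_zero, map_one, one_pow, mul_one] at h2
  exact h2

section PolyH

variable (j : Fin (N + 1)) (Y : Fin (N + 1) → Alg κ G)

/-- The coefficients. -/
private noncomputable def wj : Fin (N + 1) → Alg κ G :=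
  fun i => if i < j then Y i else if i = j then 1 else 0

open Classical in
/-- The substitution. -/
private noncomputable def vj : Fin (N + 1) → Polynomial (Alg κ G) :=
  fun i => Polynomial.C (wj j Y i) * (if i = j then Polynomial.X else 1)

/-- The polynomial `H(Y_0, ..., Y_(j-1), Z)`. -/
private noncomputable def Pj (H : MvPolynomial (Fin (N + 1)) κ) : Polynomial (Alg κ G) :=
  MvPolynomial.eval₂Hom (Polynomial.C.comp (algebraMap κ (Alg κ G))) (vj j Y) H

omit [CharZero κ] [IsAlgClosed κ] [Algebra.IsAlgebraic ℚ κ] [Module ℚ G] in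
private lemma Pj_eq (H : MvPolynomial (Fin (N + 1)) κ) :
    Pj j Y H = ∑ μ ∈ H.support, Polynomial.C (algebraMap κ (Alg κ G) (H.coeff μ) *
      ∏ i, wj j Y i ^ μ i) * Polynomial.X ^ μ j := by
  classical
  unfold Pj
  rw [MvPolynomial.coe_eval₂Hom, MvPolynomial.eval₂_eq']
  refine Finset.sum_congr rfl fun μ _ => ?_
  have h1 : ∀ i, vj j Y i ^ μ i = Polynomial.C (wj j Y i ^ μ i) *
      (if i = j then Polynomial.X ^ μ j else 1) := by
    intro i
    unfold vj
    rw [mul_pow, Polynomial.C_pow]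
    congr 1
    split_ifs with h
    · rw [h]
    · rw [one_pow]
  rw [Finset.prod_congr rfl fun i _ => h1 i, Finset.prod_mul_distrib, Finset.prod_ite_eq' Finset.univ,
    if_pos (Finset.mem_univ j), ← map_prod, ← mul_assoc, RingHom.comp_apply, ← Polynomial.C_mul]

omit [CharZero κ] [IsAlgClosed κ] [Algebra.IsAlgebraic ℚ κ] [Module ℚ G] in
private lemma Pj_pol {H : MvPolynomial (Fin (N + 1)) κ} {D : ℕ} (hH : H.IsHomogeneous D)
    (hc : H.coeff (Finsupp.single j D) ≠ 0) :
    Pol D (H.coeff (Finsupp.single j D)) (Pj j Y H) := by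
  classical
  have hle : ∀ μ ∈ H.support, μ j ≤ D ∧ (D = μ j → μ = Finsupp.single j D) := by
    intro μ hμ
    have hd : μ.degree = D := by
      have := hH (MvPolynomial.mem_support_iff.1 hμ)
      rwa [Finsupp.degree_eq_weight_one]
    have hsum : μ.degree = μ j + ∑ i ∈ Finset.univ.erase j, μ i := by
      rw [Finsupp.degree_eq_sum, Finset.add_sum_erase _ _ (Finset.mem_univ j)]
    refine ⟨by omega, fun h => ?_⟩
    have h0 : ∑ i ∈ Finset.univ.erase j, μ i = 0 := by omega
    rw [Finset.sum_eq_zero_iff] at h0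
    ext i
    by_cases hi : i = j
    · subst hi
      rw [Finsupp.single_eq_same, ← h]
    · rw [Finsupp.single_eq_of_ne hi]
      exact h0 i (Finset.mem_erase.2 ⟨hi, Finset.mem_univ i⟩)
  have hcoeff : (Pj j Y H).coeff D = algebraMap κ (Alg κ G) (H.coeff (Finsupp.single j D)) := by
    rw [Pj_eq, Polynomial.finsetSum_coeff]
    rw [Finset.sum_eq_single (Finsupp.single j D)]
    · rw [Polynomial.coeff_C_mul_X_pow, Finsupp.single_eq_same, if_pos rfl]
      have h1 : ∏ i, wj j Y i ^ (Finsupp.single j D) i = 1 := by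
        apply Finset.prod_eq_one
        intro i _
        by_cases hi : i = j
        · subst hi
          simp [wj]
        · rw [Finsupp.single_eq_of_ne hi, pow_zero]
      rw [h1, mul_one]
    · intro μ hμ hne
      rw [Polynomial.coeff_C_mul_X_pow, if_neg]
      intro h
      exact hne ((hle μ hμ).2 h)
    · intro h
      exact absurd (MvPolynomial.mem_support_iff.2 hc) h
  have hne : (Pj j Y H).coeff D ≠ 0 := by
    rw [hcoeff]
    intro h
    apply hc
    have h1 : (mono 0 (H.coeff (Finsupp.single j D)) : Alg κ G) = 0 := h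
    have h2 := congrArg (fun E : Alg κ G => E.coeff 0) h1
    simpa [mono] using h2
  refine ⟨Polynomial.natDegree_eq_of_le_of_coeff_ne_zero ?_ hne, hcoeff, hc⟩
  rw [Pj_eq]
  refine Polynomial.natDegree_sum_le_of_forall_le _ _ fun μ hμ => ?_
  exact (Polynomial.natDegree_C_mul_X_pow_le _ _).trans (hle μ hμ).1

omit [CharZero κ] [IsAlgClosed κ] [Algebra.IsAlgebraic ℚ κ] [Module ℚ G] in
private lemma Pj_eval {H : MvPolynomial (Fin (N + 1)) κ} (hv : ∀ i ∈ H.vars, i ≤ j)
    (φ : Alg κ G →+* κ) (hφ : ∀ c, φ (algebraMap κ (Alg κ G) c) = c) (x : Fin (N + 1) → κ)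
    (hx : ∀ i, i < j → x i = φ (Y i)) :
    ((Pj j Y H).map φ).eval (x j) = MvPolynomial.eval x H := by
  classical
  have h1 : ((Pj j Y H).map φ).eval (x j) =
      ((Polynomial.evalRingHom (x j)).comp (Polynomial.mapRingHom φ)) (Pj j Y H) := rfl
  rw [h1]
  unfold Pj
  rw [← RingHom.comp_apply, MvPolynomial.comp_eval₂Hom]
  have h2 : MvPolynomial.eval x H = MvPolynomial.eval₂Hom (RingHom.id κ) x H := rfl
  rw [h2]
  apply MvPolynomial.eval₂Hom_congr'
  · refine RingHom.ext fun c => ?_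
    simp only [RingHom.comp_apply, Polynomial.coe_mapRingHom, Polynomial.map_C,
      Polynomial.coe_evalRingHom, Polynomial.eval_C, RingHom.id_apply]
    exact hφ c
  · intro i hi _
    have hij := hv i hi
    simp only [vj, RingHom.comp_apply, map_mul]
    rcases hij.lt_or_eq with h | h
    · have hne : i ≠ j := ne_of_lt h
      simp [wj, h, hne, hx i h]
    · subst h
      simp [wj]
  · rfl

end PolyH

theorem coord_step (B : Base κ G) {r : ℕ} {F : Fin (N + 1) → MvPolynomial (Fin (N + 1)) κ}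
    (hT : Tri r B.q F) (a : Fin (N + 1) → κ) (hs : ∀ i, Seq B (fun n => xs F a n i))
    (U : Ultrafilter ℕ) (hU : (U : Filter ℕ) ≤ atTop) (j : Fin (N + 1)) (hj : r < (j : ℕ))
    (L : ℕ) (hL : 1 ≤ L) (Y : Fin (N + 1) → Alg κ G)
    (hY : ∀ᶠ n in (U : Filter ℕ), ∀ m, ∀ i : Fin (N + 1), i < j →
      xs F a (n + m * L) i = B.ev (n + m * L) (Y i))
    (R : Polynomial (Alg κ G)) (hR : R ≠ 0)
    (h : ∀ᶠ n in (U : Filter ℕ), (R.map (B.ev n)).eval (xs F a n j) = 0) :
    ∃ l : ℕ, 1 ≤ l ∧ ∃ Q : Alg κ G, ∀ᶠ n in (U : Filter ℕ), ∀ m,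
      xs F a (n + m * (l * L)) j = B.ev (n + m * (l * L)) Q := by
  classical
  -- a residue class
  obtain ⟨c, -, hc⟩ : ∃ c ∈ Set.Iio L, {n : ℕ | n % L = c} ∈ U := by
    rw [← Ultrafilter.finite_biUnion_mem_iff (Set.finite_Iio L)]
    have : (⋃ c ∈ Set.Iio L, {n : ℕ | n % L = c}) = Set.univ := by
      rw [Set.eq_univ_iff_forall]
      intro n
      simp only [Set.mem_iUnion, Set.mem_Iio, Set.mem_ofPred_eq, exists_prop]
      exact ⟨n % L, Nat.mod_lt _ (by omega), rfl⟩
    rw [this]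
    exact Filter.univ_mem
  obtain ⟨n1, hn1, hn1c⟩ := Filter.nonempty_of_mem (Filter.inter_mem (Ultrafilter.mem_coe.1 hY) hc)
  simp only [Set.mem_ofPred_eq] at hn1 hn1c
  have hinj : Function.Injective (fun m : ℕ => n1 + L * m) := by
    intro m m' hm
    have : L * m = L * m' := Nat.add_left_cancel hm
    exact Nat.eq_of_mul_eq_mul_left (by omega) this
  have hrange : Set.range (fun m : ℕ => n1 + L * m) ∈ U := by
    have hge : {n : ℕ | n1 ≤ n} ∈ U := hU (Filter.mem_atTop n1)
    refine Filter.mem_of_superset (Filter.inter_mem hge hc) ?_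
    rintro n ⟨hn, hnc⟩
    simp only [Set.mem_ofPred_eq] at hn hnc
    have hdvd : L ∣ n - n1 := (Nat.modEq_iff_dvd' hn).1 (hn1c.trans hnc.symm)
    obtain ⟨m, hm⟩ := hdvd
    exact ⟨m, by simp only; omega⟩
  set U' : Ultrafilter ℕ := U.comap hinj hrange with hU'def
  have hmap : Filter.map (fun m : ℕ => n1 + L * m) (U' : Filter ℕ) = (U : Filter ℕ) := by
    rw [hU'def, Ultrafilter.coe_comap]
    exact Filter.map_comap_of_mem hrange
  have htr : ∀ p : ℕ → Prop, (∀ᶠ n in (U : Filter ℕ), p n) ↔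
      ∀ᶠ m in (U' : Filter ℕ), p (n1 + L * m) := by
    intro p
    rw [← hmap, Filter.eventually_map]
  have hU' : (U' : Filter ℕ) ≤ atTop := by
    have : Tendsto id (U' : Filter ℕ) atTop := by
      rw [Filter.tendsto_atTop]
      intro M
      have h1 : ∀ᶠ n in (U : Filter ℕ), n1 + L * M ≤ n := hU (Filter.mem_atTop _)
      rw [htr] at h1
      filter_upwards [h1] with m hm
      have h2 : L * M ≤ L * m := Nat.le_of_add_le_add_left hm
      exact Nat.le_of_mul_le_mul_left h2 (by omega)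
    simpa [Tendsto] using this
  set B' : Base κ G := B.rebase n1 L hL with hB'
  set y' : ℕ → κ := fun m => xs F a (n1 + L * m) j with hy'
  obtain ⟨hHom, hvars, hlead⟩ := itF_tri hT L j
  have hlead := hlead hj
  have hq1 : B'.q = B.q ^ L := rfl
  have hseq : Seq B' y' := by
    refine ⟨fun m => (hs j).mem _, ?_, ?_⟩
    · obtain ⟨C, hC⟩ := (hs j).bd
      refine ⟨C * (B.q : ℝ) ^ n1, fun σ m => ?_⟩
      have h1 := hC σ (n1 + L * m)
      rw [hq1, Nat.cast_pow, ← pow_mul, mul_assoc, ← pow_add]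
      exact h1
    · obtain ⟨D, hD, hI⟩ := (hs j).den
      refine ⟨D ^ B.q ^ n1, pow_pos hD _, fun m => ?_⟩
      have h1 := hI (n1 + L * m)
      rw [hq1, Nat.cast_pow, ← pow_mul, ← pow_mul, ← pow_add]
      exact h1
  have horb : Orb B' ((itF F L j).coeff (Finsupp.single j (B.q ^ L))) (Pj j Y (itF F L j)) y' := by
    refine { toSeq := hseq, pol := Pj_pol j Y hHom hlead, step := fun m => ?_ }
    have h1 := Pj_eval j Y hvars (B'.ev m) (ev_algebraMap B' m) (xs F a (n1 + L * m)) (by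
      intro i hi
      rw [hB', rebase_ev, mul_comm L m]
      exact hn1 m i hi)
    have h2 : y' (m + 1) = eval (xs F a (n1 + L * m)) (itF F L j) := by
      rw [← xs_add]
      show xs F a (n1 + L * (m + 1)) j = xs F a (n1 + L * m + L) j
      rw [Nat.mul_succ, Nat.add_assoc]
    rw [h2, ← h1]
  have hR' : ∀ᶠ m in (U' : Filter ℕ), (R.map (B'.ev m)).eval (y' m) = 0 := by
    rw [htr] at h
    filter_upwards [h] with m hm
    rw [hB', rebase_ev]
    exact hm
  obtain ⟨l, hl, Q, hQ⟩ := level B' _ _ y' horb U' hU' R hR hR'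
  refine ⟨l, hl, Q, ?_⟩
  rw [htr]
  filter_upwards [hQ] with m hm s
  have h1 := hm s
  rw [hB', rebase_ev, hy'] at h1
  simp only at h1
  rw [show n1 + L * m + s * (l * L) = n1 + L * (m + s * l) by ring]
  exact h1

end Pool.Agent.Helper11.TS
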