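import Pool.Agent.Helper11.TS.SubA
import Pool.Agent.Helper11.TS.Emb

/-!
# TS, module T3: the Subspace step for an absolute value above a prime
-/

set_option autoImplicit false

namespace Pool.Agent.Helper11.TS

open Filter NumberField Pool.Agent.Helper85.Sub Pool.Agent.Helper10.Sub

lemma card_ffL (L : Type) [Field L] [NumberField L] (p : ℕ) [Fact p.Prime] :
    Fintype.card (L →+* FF L p) = Module.finrank ℚ L := by
  rw [Fintype.card_congr (liftEquiv (K := L) (p := p)),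
      Fintype.card_congr (RingHom.equivRatAlgHom L (PadicAlgCl p))]
  exact AlgHom.card ℚ L (PadicAlgCl p)

lemma card_cL (L : Type) [Field L] [NumberField L] :
    Fintype.card (L →+* ℂ) = Module.finrank ℚ L := NumberField.Embeddings.card L ℂ

lemma alg_image {L F : Type} [Field L] [NumberField L] [Field F] [CharZero F] (τ : L →+* F)
    (x : L) : IsAlgebraic ℚ (τ x) := by
  have h1 : IsAlgebraic ℚ x := Algebra.IsAlgebraic.isAlgebraic x
  exact h1.algHom (RingHom.equivRatAlgHom L F τ)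

lemma alg_root {F : Type} [Field F] [CharZero F] (η : F) (D : ℕ) (hD : 0 < D) (h : η ^ D = 1) :
    IsAlgebraic ℚ η := by
  refine IsIntegral.isAlgebraic ?_
  refine IsIntegral.of_pow hD ?_
  rw [h]
  exact isIntegral_one

/-- The Subspace step for an absolute value above the prime `p t0`. -/
theorem sub_padic {κ : Type} [Field κ] [CharZero κ] (K L : IntermediateField ℚ κ) (hKL : K ≤ L)
    [NumberField L] {T : Type} [Fintype T] {p : T → ℕ}
    [∀ t, Fact (p t).Prime] (hp : Function.Injective p) (t0 : T) (τ : κ →+* PadicAlgCl (p t0))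
    (n : ℕ) (hn : 1 ≤ n) (q : ℕ) (hq : 2 ≤ q)
    (x : Fin n → L) (hx0 : ∀ i, x i ≠ 0)
    (hxT : ∀ i, ∃ k : ℕ, IsIntegral ℤ ((pprod p : L) ^ k * x i))
    (hprod : ∀ i, (∏ σ : L →+* ℂ, ‖σ (x i)‖) * ∏ t, ∏ σ : L →+* FF L (p t), ‖σ (x i)‖ = 1)
    (hxK : ∀ i, ∃ D : ℕ, 0 < D ∧ (x i : κ) ^ D ∈ K) (c : Fin n → L)
    (C M : ℝ) (hC : 0 ≤ C) (hM0 : 0 ≤ M)
    (hM : C * (1 + Fintype.card T) * Module.finrank ℚ K < M)
    (U : Ultrafilter ℕ) (y : ℕ → L) (hyK : ∀ m, (y m : κ) ∈ K)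
    (hy : ∀ m, ∃ k : ℕ, IsIntegral ℤ ((pprod p : L) ^ k * y m))
    (h1 : ∀ m, ∀ σ : L →+* ℂ, ‖σ (y m)‖ ≤ Real.exp (C * (q : ℝ) ^ m))
    (h1' : ∀ m t, ∀ σ : L →+* FF L (p t), ‖σ (y m)‖ ≤ Real.exp (C * (q : ℝ) ^ m))
    (h2 : ∀ᶠ m in (U : Filter ℕ),
      ‖τ (y m) - ∑ i, τ (c i) * τ (x i) ^ q ^ m‖ ≤ Real.exp (-M * (q : ℝ) ^ m)) :
    ∃ (l0 : L) (l : Fin n → L), (l0 ≠ 0 ∨ ∃ i, l i ≠ 0) ∧
      ∀ᶠ m in (U : Filter ℕ), l0 * y m + ∑ i, l i * x i ^ q ^ m = 0 := by
  classical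
  -- the restriction of `τ`
  let τL : L →+* FF L (p t0) := lift (τ.comp (algebraMap L κ))
  have hτL : ∀ z : L, ((τL z : FF L (p t0)) : PadicAlgCl (p t0)) = τ (z : κ) := fun z => rfl
  let X0 : Finset (L →+* FF L (p t0)) := Finset.univ.filter fun σ =>
    ∀ z : K, ((σ ⟨z, hKL z.2⟩ : FF L (p t0)) : PadicAlgCl (p t0)) = τ z
  have hX0 : ∀ σ, σ ∈ X0 ↔
      ∀ z : K, ((σ ⟨z, hKL z.2⟩ : FF L (p t0)) : PadicAlgCl (p t0)) = τ z := by
    intro σ
    simp [X0]
  have hX0' : ∀ σ ∈ X0, ∀ z : L, (z : κ) ∈ K → σ z = τL z := by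
    intro σ hσ z hz
    apply Subtype.ext
    exact (hX0 σ).1 hσ ⟨z, hz⟩
  -- the number of elements of `X0`
  have hcard : X0.card * Module.finrank ℚ K = Module.finrank ℚ L := by
    rw [← card_ext K L hKL τ]
    congr 1
    rw [Nat.card_eq_fintype_card, ← Fintype.card_coe]
    refine Fintype.card_congr ?_
    refine (liftEquiv (K := L) (p := p t0)).subtypeEquiv ?_
    intro σ
    rw [hX0]
    rfl
  have hfin : 0 < Module.finrank ℚ L := Module.finrank_pos
  have hX0pos : 0 < X0.card := by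
    rcases Nat.eq_zero_or_pos X0.card with h | h
    · rw [h, zero_mul] at hcard
      omega
    · exact h
  -- roots of unity
  have hη : ∀ (σ : L →+* FF L (p t0)) (i : Fin n), ∃ η : FF L (p t0), IsAlgebraic ℚ η ∧
      (σ ∈ X0 → η ≠ 0 ∧ ∀ᶠ m in (U : Filter ℕ), σ (x i) ^ q ^ m = η * τL (x i) ^ q ^ m) := by
    intro σ i
    by_cases hσ : σ ∈ X0
    · obtain ⟨D, hD, hDK⟩ := hxK i
      obtain ⟨η, h1, h2⟩ := root_const σ τL (x i) (hx0 i) D hD
        (hX0' σ hσ _ (by push_cast; exact hDK)) q U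
      refine ⟨η, alg_root η D hD h1, fun _ => ⟨?_, h2⟩⟩
      intro h0
      rw [h0, zero_pow hD.ne'] at h1
      exact zero_ne_one h1
    · exact ⟨0, isAlgebraic_zero, fun h => absurd h hσ⟩
  choose η hηa hη using hη
  -- the linear forms
  let c0 : (L →+* FF L (p t0)) → Fin n → FF L (p t0) := fun σ i => τL (c i) * (η σ i)⁻¹
  let X' : ∀ t, Finset (L →+* FF L (p t)) := Function.update (fun _ => ∅) t0 X0
  let c' : ∀ t, (L →+* FF L (p t)) → Fin n → FF L (p t) :=
    Function.update (fun _ _ _ => 0) t0 c0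
  have hX't : X' t0 = X0 := Function.update_self _ _ _
  have hX'n : ∀ t, t ≠ t0 → X' t = ∅ := fun t ht => Function.update_of_ne ht _ _
  have hc't : c' t0 = c0 := Function.update_self _ _ _
  have hc'n : ∀ t, t ≠ t0 → c' t = fun _ _ => 0 := fun t ht => Function.update_of_ne ht _ _
  refine sub_abs hp n hn q hq x hx0 hxT hprod (fun _ _ => 0) c'
    (fun _ _ => isAlgebraic_zero) ?_ ∅ X' C M hC hM0 ?_ U y hy h1 h1' ?_ ?_
  · intro t σ i
    by_cases ht : t = t0
    · subst ht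
      rw [hc't]
      exact (alg_image τL (c i)).mul ((hηa σ i).inv)
    · rw [hc'n t ht]
      exact isAlgebraic_zero
  · have hsum : ∑ t, (X' t).card = X0.card := by
      rw [Finset.sum_eq_single t0]
      · rw [hX't]
      · intro t _ ht
        rw [hX'n t ht, Finset.card_empty]
      · intro h
        exact absurd (Finset.mem_univ t0) h
    have hs2 : ∑ t, Fintype.card (L →+* FF L (p t)) = Fintype.card T * Module.finrank ℚ L := by
      rw [Finset.sum_congr rfl fun t _ => card_ffL L (p t), Finset.sum_const, smul_eq_mul]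
      rfl
    rw [Finset.card_empty, zero_add, hsum, hs2, card_cL, ← hcard]
    have hpos : (0 : ℝ) < X0.card := by exact_mod_cast hX0pos
    have h3 := mul_lt_mul_of_pos_right hM hpos
    push_cast
    linarith [h3]
  · intro σ hσ
    exact absurd hσ (Finset.notMem_empty σ)
  · intro t
    by_cases ht : t = t0
    · subst ht
      rw [hX't, hc't]
      intro σ hσ
      have h3 : ∀ᶠ m in (U : Filter ℕ), ∀ i, σ (x i) ^ q ^ m = η σ i * τL (x i) ^ q ^ m :=
        Filter.eventually_all.2 fun i => (hη σ i hσ).2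
      filter_upwards [h2, h3] with m hm hm3
      refine le_trans (le_of_eq ?_) hm
      rw [hX0' σ hσ (y m) (hyK m)]
      have h4 : ∑ i, c0 σ i * σ (x i) ^ q ^ m = ∑ i, τL (c i) * τL (x i) ^ q ^ m := by
        refine Finset.sum_congr rfl fun i _ => ?_
        rw [hm3 i]
        have h5 : η σ i ≠ 0 := (hη σ i hσ).1
        change τL (c i) * (η σ i)⁻¹ * (η σ i * τL (x i) ^ q ^ m) = _
        field_simp
      rw [h4, ff_norm]
      congr 1
      push_cast
      simp only [hτL]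
    · rw [hX'n t ht]
      intro σ hσ
      exact absurd hσ (Finset.notMem_empty σ)

end Pool.Agent.Helper11.TS
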