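import Pool.Agent.Helper11.TS.SubA
import Pool.Agent.Helper11.TS.Emb
import Pool.Agent.Helper11.TS.Sub3

/-!
# TS, module T3: the Subspace step for an archimedean absolute value
-/

set_option autoImplicit false

namespace Pool.Agent.Helper11.TS

open Filter NumberField Pool.Agent.Helper85.Sub Pool.Agent.Helper10.Sub

/-- The Subspace step for an archimedean absolute value. -/
theorem sub_complex {κ : Type} [Field κ] [CharZero κ] (K L : IntermediateField ℚ κ) (hKL : K ≤ L)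
    [NumberField L] {T : Type} [Fintype T] {p : T → ℕ}
    [∀ t, Fact (p t).Prime] (hp : Function.Injective p) (τ : κ →+* ℂ)
    (n : ℕ) (hn : 1 ≤ n) (q : ℕ) (hq : 2 ≤ q)
    (x : Fin n → L) (hx0 : ∀ i, x i ≠ 0)
    (hxT : ∀ i, ∃ k : ℕ, IsIntegral ℤ ((pprod p : L) ^ k * x i))
    (hprod : ∀ i, (∏ σ : L →+* ℂ, ‖σ (x i)‖) * ∏ t, ∏ σ : L →+* FF L (p t), ‖σ (x i)‖ = 1)
    (hxK : ∀ i, ∃ D : ℕ, 0 < D ∧ (x i : κ) ^ D ∈ K) (c : Fin n → L)
    (C M : ℝ) (hC : 0 ≤ C) (hM0 : 0 ≤ M)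
    (hM : C * (1 + Fintype.card T) * Module.finrank ℚ K < M)
    (U : Ultrafilter ℕ) (y : ℕ → L) (hyK : ∀ m, (y m : κ) ∈ K)
    (hy : ∀ m, ∃ k : ℕ, IsIntegral ℤ ((pprod p : L) ^ k * y m))
    (h1 : ∀ m, ∀ σ : L →+* ℂ, ‖σ (y m)‖ ≤ Real.exp (C * (q : ℝ) ^ m))
    (h1' : ∀ m t, ∀ σ : L →+* FF L (p t), ‖σ (y m)‖ ≤ Real.exp (C * (q : ℝ) ^ m))
    (h2 : ∀ᶠ m in (U : Filter ℕ),
      ‖τ (y m) - ∑ i, τ (c i) * τ (x i) ^ q ^ m‖ ≤ Real.exp (-M * (q : ℝ) ^ m)) :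
    ∃ (l0 : L) (l : Fin n → L), (l0 ≠ 0 ∨ ∃ i, l i ≠ 0) ∧
      ∀ᶠ m in (U : Filter ℕ), l0 * y m + ∑ i, l i * x i ^ q ^ m = 0 := by
  classical
  -- the restriction of `τ`
  let τL : L →+* ℂ := τ.comp (algebraMap L κ)
  have hτL : ∀ z : L, τL z = τ (z : κ) := fun z => rfl
  let X0 : Finset (L →+* ℂ) := Finset.univ.filter fun σ => ∀ z : K, σ ⟨z, hKL z.2⟩ = τ z
  have hX0 : ∀ σ, σ ∈ X0 ↔ ∀ z : K, σ ⟨z, hKL z.2⟩ = τ z := by
    intro σ
    simp [X0]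
  have hX0' : ∀ σ ∈ X0, ∀ z : L, (z : κ) ∈ K → σ z = τL z := by
    intro σ hσ z hz
    exact (hX0 σ).1 hσ ⟨z, hz⟩
  -- the number of elements of `X0`
  have hcard : X0.card * Module.finrank ℚ K = Module.finrank ℚ L := by
    rw [← card_ext K L hKL τ]
    congr 1
    rw [Nat.card_eq_fintype_card, ← Fintype.card_coe]
    refine Fintype.card_congr ?_
    refine (Equiv.refl _).subtypeEquiv ?_
    intro σ
    rw [hX0]
    rfl
  have hfin : 0 < Module.finrank ℚ L := Module.finrank_pos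
  have hX0pos : 0 < X0.card := by
    rcases Nat.eq_zero_or_pos X0.card with h | h
    · rw [h, zero_mul] at hcard
      omega
    · exact h
  -- roots of unity
  have hη : ∀ (σ : L →+* ℂ) (i : Fin n), ∃ η : ℂ, IsAlgebraic ℚ η ∧
      (σ ∈ X0 → η ≠ 0 ∧ ∀ᶠ m in (U : Filter ℕ), σ (x i) ^ q ^ m = η * τL (x i) ^ q ^ m) := by
    intro σ i
    by_cases hσ : σ ∈ X0
    · obtain ⟨D, hD, hDK⟩ := hxK i
      obtain ⟨η, h1, h2⟩ := root_const σ τL (x i) (hx0 i) D hD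
        (hX0' σ hσ _ (by push_cast; exact hDK)) q U
      refine ⟨η, alg_root η D hD h1, fun _ => ⟨?_, h2⟩⟩
      intro h0
      rw [h0, zero_pow hD.ne'] at h1
      exact zero_ne_one h1
    · exact ⟨0, isAlgebraic_zero, fun h => absurd h hσ⟩
  choose η hηa hη using hη
  refine sub_abs hp n hn q hq x hx0 hxT hprod (fun σ i => τL (c i) * (η σ i)⁻¹) (fun _ _ _ => 0)
    (fun σ i => (alg_image τL (c i)).mul ((hηa σ i).inv)) (fun _ _ _ => isAlgebraic_zero)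
    X0 (fun _ => ∅) C M hC hM0 ?_ U y hy h1 h1' ?_ ?_
  · have hs2 : ∑ t, Fintype.card (L →+* FF L (p t)) = Fintype.card T * Module.finrank ℚ L := by
      rw [Finset.sum_congr rfl fun t _ => card_ffL L (p t), Finset.sum_const, smul_eq_mul]
      rfl
    simp only [Finset.card_empty, Finset.sum_const_zero, add_zero]
    rw [hs2, card_cL, ← hcard]
    have hpos : (0 : ℝ) < X0.card := by exact_mod_cast hX0pos
    have h3 := mul_lt_mul_of_pos_right hM hpos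
    push_cast
    linarith [h3]
  · intro σ hσ
    have h3 : ∀ᶠ m in (U : Filter ℕ), ∀ i, σ (x i) ^ q ^ m = η σ i * τL (x i) ^ q ^ m :=
      Filter.eventually_all.2 fun i => (hη σ i hσ).2
    filter_upwards [h2, h3] with m hm hm3
    refine le_trans (le_of_eq ?_) hm
    rw [hX0' σ hσ (y m) (hyK m)]
    have h4 : ∑ i, τL (c i) * (η σ i)⁻¹ * σ (x i) ^ q ^ m =
        ∑ i, τL (c i) * τL (x i) ^ q ^ m := by
      refine Finset.sum_congr rfl fun i _ => ?_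
      rw [hm3 i]
      have h5 : η σ i ≠ 0 := (hη σ i hσ).1
      field_simp
    rw [h4]
    rfl
  · intro t σ hσ
    exact absurd hσ (Finset.notMem_empty σ)

end Pool.Agent.Helper11.TS
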