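import Pool.Agent.Helper11.TS.Defs
import Pool.Agent.Helper85.SubLOCM
import Pool.Agent.Helper94.SubSUBF
import Pool.Agent.Helper98.SubSUBK

/-!
# TS, module T3a: the Subspace theorem for `(y_m, x_1^(q^m), ..., x_n^(q^m))`
-/

set_option autoImplicit false

namespace Pool.Agent.Helper11.TS

open Filter NumberField Pool.Agent.Helper85.Sub Pool.Agent.Helper10.Sub

section rowmat
variable {R : Type*} [CommRing R] {n : ℕ}

/-- The matrix of the forms `Y - ∑ v_j X_j, X_1, ..., X_n`. -/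
def rowMat (v : Fin n → R) : Matrix (Fin (n + 1)) (Fin (n + 1)) R :=
  Matrix.of (Fin.cons (Fin.cons 1 fun j => -v j) fun i' => Pi.single i'.succ 1)

lemma rowMat_zero_zero (v : Fin n → R) : rowMat v 0 0 = 1 := rfl

lemma rowMat_zero_succ (v : Fin n → R) (j : Fin n) : rowMat v 0 j.succ = -v j := rfl

lemma rowMat_succ (v : Fin n → R) (i : Fin n) (j : Fin (n + 1)) :
    rowMat v i.succ j = if j = i.succ then 1 else 0 := by
  change (Pi.single i.succ (1 : R) : Fin (n + 1) → R) j = _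
  rw [Pi.single_apply]

lemma rowMat_det (v : Fin n → R) : (rowMat v).det = 1 := by
  have h1 : (rowMat v).IsUpperTriangular := by
    intro i j hij
    refine Fin.cases (fun h => absurd h (Fin.not_lt_zero j)) (fun i' h => ?_) i hij
    rw [rowMat_succ, if_neg (ne_of_lt (show j < i'.succ from h))]
  rw [Matrix.det_of_isUpperTriangular h1]
  refine Finset.prod_eq_one fun i _ => ?_
  refine Fin.cases (rowMat_zero_zero v) (fun i' => ?_) i
  rw [rowMat_succ, if_pos rfl]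

lemma rowMat_sum_zero (v : Fin n → R) (w : Fin (n + 1) → R) :
    ∑ j, rowMat v 0 j * w j = w 0 - ∑ j, v j * w j.succ := by
  rw [Fin.sum_univ_succ, rowMat_zero_zero, one_mul, sub_eq_add_neg, ← Finset.sum_neg_distrib]
  congr 1
  refine Finset.sum_congr rfl fun j _ => ?_
  rw [rowMat_zero_succ, neg_mul]

lemma rowMat_sum_succ (v : Fin n → R) (w : Fin (n + 1) → R) (i : Fin n) :
    ∑ j, rowMat v i.succ j * w j = w i.succ := by
  rw [Finset.sum_eq_single i.succ]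
  · rw [rowMat_succ, if_pos rfl, one_mul]
  · intro j _ hj
    rw [rowMat_succ, if_neg hj, zero_mul]
  · intro h
    exact absurd (Finset.mem_univ _) h

end rowmat

lemma rowMat_alg {F : Type*} [Field F] [Algebra ℚ F] {n : ℕ} (v : Fin n → F)
    (hv : ∀ i, IsAlgebraic ℚ (v i)) (i j : Fin (n + 1)) : IsAlgebraic ℚ (rowMat v i j) := by
  refine Fin.cases ?_ (fun i' => ?_) i
  · refine Fin.cases ?_ (fun j' => ?_) j
    · rw [rowMat_zero_zero]
      exact isAlgebraic_one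
    · rw [rowMat_zero_succ]
      exact (hv j').neg
  · rw [rowMat_succ]
    split_ifs
    · exact isAlgebraic_one
    · exact isAlgebraic_zero

/-- The weights. -/
noncomputable def wt {n : ℕ} (b : ℝ) (r : Fin n → ℝ) (N : ℕ) : Fin (n + 1) → ℝ :=
  Fin.cons (Real.exp (b * N)) fun i => r i ^ N

lemma wt_prod {n : ℕ} (b : ℝ) (r : Fin n → ℝ) (N : ℕ) :
    ∏ i, wt b r N i = Real.exp (b * N) * (∏ i, r i) ^ N := by
  rw [Fin.prod_univ_succ, ← Finset.prod_pow]
  rfl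

lemma wt_bd {n : ℕ} (b B : ℝ) (r : Fin n → ℝ) (N : ℕ) (hr : ∀ i, 0 < r i) (hb : |b| ≤ B)
    (hrB : ∀ i, |Real.log (r i)| ≤ B) (i : Fin (n + 1)) :
    Real.exp N ^ (-B) ≤ wt b r N i ∧ wt b r N i ≤ Real.exp N ^ B := by
  have key : ∀ c : ℝ, |c| ≤ B → Real.exp N ^ (-B) ≤ Real.exp (c * N) ∧
      Real.exp (c * N) ≤ Real.exp N ^ B := by
    intro c hc
    have hN : (0 : ℝ) ≤ N := Nat.cast_nonneg N
    obtain ⟨h1, h2⟩ := abs_le.1 hc
    rw [← Real.exp_mul, ← Real.exp_mul, Real.exp_le_exp, Real.exp_le_exp]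
    constructor <;> nlinarith
  refine Fin.cases (key b hb) (fun i' => ?_) i
  have h1 : wt b r N i'.succ = Real.exp (Real.log (r i') * N) := by
    change r i' ^ N = _
    rw [mul_comm, Real.exp_nat_mul, Real.exp_log (hr i')]
  rw [h1]
  exact key _ (hrB i')

/-- A linear functional that vanishes on a proper subspace. -/
lemma exists_functional {L : Type*} [Field L] {n : ℕ} (W : Submodule L (Fin (n + 1) → L))
    (hW : W ≠ ⊤) : ∃ (l0 : L) (l : Fin n → L), (l0 ≠ 0 ∨ ∃ i, l i ≠ 0) ∧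
      ∀ w ∈ W, l0 * w 0 + ∑ i, l i * w i.succ = 0 := by
  obtain ⟨f, hf, hfW⟩ := Submodule.exists_le_ker_of_lt_top W (lt_top_iff_ne_top.2 hW)
  have key : ∀ w : Fin (n + 1) → L, f w =
      f (fun j => if (0 : Fin (n + 1)) = j then 1 else 0) * w 0 +
        ∑ i : Fin n, f (fun j => if i.succ = j then 1 else 0) * w i.succ := by
    intro w
    rw [LinearMap.pi_apply_eq_sum_univ, Fin.sum_univ_succ, smul_eq_mul, mul_comm]
    congr 1
    refine Finset.sum_congr rfl fun i _ => ?_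
    rw [smul_eq_mul, mul_comm]
  refine ⟨_, _, ?_, fun w hw => (key w).symm.trans (LinearMap.mem_ker.1 (hfW hw))⟩
  by_contra hcon
  push Not at hcon
  apply hf
  refine LinearMap.ext fun w => ?_
  rw [key w, hcon.1, zero_mul, zero_add, LinearMap.zero_apply]
  refine Finset.sum_eq_zero fun i _ => ?_
  rw [hcon.2 i, zero_mul]

/-- The Subspace theorem at all embeddings. -/
theorem subspaceT {K : Type} [Field K] [NumberField K] {T : Type} [Fintype T] {p : T → ℕ}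
    [∀ t, Fact (p t).Prime] (hp : Function.Injective p) (M : ℕ) (hM : 2 ≤ M) (δ B : ℝ)
    (hδ : 0 < δ) (l : (K →+* ℂ) → Matrix (Fin M) (Fin M) ℂ)
    (l' : ∀ t, (K →+* FF K (p t)) → Matrix (Fin M) (Fin M) (FF K (p t)))
    (hl : ∀ σ i j, IsAlgebraic ℚ (l σ i j)) (hl' : ∀ t σ i j, IsAlgebraic ℚ (l' t σ i j))
    (hd : ∀ σ, (l σ).det ≠ 0) (hd' : ∀ t σ, (l' t σ).det ≠ 0) :
    ∃ 𝒲 : Finset (Submodule K (Fin M → K)), (∀ W ∈ 𝒲, W ≠ ⊤) ∧
      ∀ (Q : ℝ) (a : (K →+* ℂ) → Fin M → ℝ) (a' : ∀ t, (K →+* FF K (p t)) → Fin M → ℝ), 1 ≤ Q →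
      (∀ σ i, Q ^ (-B) ≤ a σ i ∧ a σ i ≤ Q ^ B) →
      (∀ t σ i, Q ^ (-B) ≤ a' t σ i ∧ a' t σ i ≤ Q ^ B) →
      (∏ σ, ∏ i, a σ i) * ∏ t, ∏ σ, ∏ i, a' t σ i ≤ Q ^ (-δ) →
      ∀ y : Fin M → K, (∀ k, ∃ n : ℕ, IsIntegral ℤ ((pprod p : K) ^ n * y k)) →
      (∀ σ i, ‖∑ j, l σ i j * σ (y j)‖ ≤ a σ i) →
      (∀ t σ i, ‖∑ j, l' t σ i j * σ (y j)‖ ≤ a' t σ i) → ∃ W ∈ 𝒲, y ∈ W := by
  have hfin : ∀ t, FiniteDimensional ℚ_[p t] (FF K (p t)) := fun t => ff_finite K (p t)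
  have hcard : ∀ t, Fintype.card (K →+* FF K (p t)) = Module.finrank ℚ K := by
    intro t
    rw [Fintype.card_congr (liftEquiv (K := K) (p := p t)),
      Fintype.card_congr (RingHom.equivRatAlgHom K (PadicAlgCl (p t)))]
    exact AlgHom.card ℚ K (PadicAlgCl (p t))
  exact Pool.Agent.Helper98.Sub.subspaceK (K := K) (T := T) (p := p) (fun t => FF K (p t)) hcard
    M hM δ B hδ
    (fun ι _ _ hι A A' algA algA' dA dA' =>
      Pool.Agent.Helper94.Sub.subspaceF_all (fun t : T => FF K (p t)) (fun _ => ff_span) (δ / 2)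
        (B + 1) hp hι (by positivity) A A' algA algA' dA dA')
    l l' hl hl' hd hd'

lemma norm_row_zero {F : Type*} [NormedField F] {n : ℕ} (v : Fin n → F) (w : Fin (n + 1) → F)
    {r : ℝ} (h : ‖w 0 - ∑ j, v j * w j.succ‖ ≤ r) : ‖∑ j, rowMat v 0 j * w j‖ ≤ r := by
  rw [rowMat_sum_zero]
  exact h

lemma norm_row_succ {F : Type*} [NormedField F] {n : ℕ} (v : Fin n → F) (w : Fin (n + 1) → F)
    {r : ℝ} (i : Fin n) (h : ‖w i.succ‖ ≤ r) : ‖∑ j, rowMat v i.succ j * w j‖ ≤ r := by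
  rw [rowMat_sum_succ]
  exact h

lemma sum_ite_bd {A : Type*} [Fintype A] [DecidableEq A] (X : Finset A) (C M : ℝ) (hC : 0 ≤ C) :
    ∑ σ : A, (if σ ∈ X then -M else C) ≤ C * Fintype.card A - M * X.card := by
  rw [Finset.sum_ite, Finset.sum_const, Finset.sum_const, nsmul_eq_mul, nsmul_eq_mul]
  have h1 : (Finset.univ.filter fun σ => σ ∈ X) = X := by
    ext σ
    simp
  have h2 : ((Finset.univ.filter fun σ => σ ∉ X).card : ℝ) ≤ Fintype.card A := by
    exact_mod_cast Finset.card_le_univ _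
  rw [h1]
  nlinarith

/-- The estimates at one embedding. -/
lemma row_bd {F : Type*} [NormedField F] {n : ℕ} (X : Prop) [Decidable X] (C M : ℝ) (N : ℕ)
    (c x : Fin n → F) (w : Fin (n + 1) → F) (hw : ∀ i, w (Fin.succ i) = x i ^ N)
    (h1 : ‖w 0‖ ≤ Real.exp (C * N)) (h2 : X → ‖w 0 - ∑ i, c i * x i ^ N‖ ≤ Real.exp (-M * N))
    (i : Fin (n + 1)) :
    ‖∑ j, rowMat (if X then c else 0) i j * w j‖ ≤
      wt (if X then -M else C) (fun i => ‖x i‖) N i := by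
  refine Fin.cases ?_ (fun i' => ?_) i
  · refine norm_row_zero _ _ ?_
    change _ ≤ Real.exp ((if X then -M else C) * N)
    by_cases hX : X
    · rw [if_pos hX, if_pos hX]
      have h3 := h2 hX
      simp only [hw]
      exact h3
    · rw [if_neg hX, if_neg hX]
      simpa using h1
  · refine norm_row_succ _ _ i' ?_
    rw [hw, norm_pow]
    exact le_rfl

theorem sub_abs {L : Type} [Field L] [NumberField L] {T : Type} [Fintype T] {p : T → ℕ}
    [∀ t, Fact (p t).Prime] (hp : Function.Injective p) (n : ℕ) (hn : 1 ≤ n) (q : ℕ) (hq : 2 ≤ q)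
    (x : Fin n → L) (hx0 : ∀ i, x i ≠ 0)
    (hxT : ∀ i, ∃ k : ℕ, IsIntegral ℤ ((pprod p : L) ^ k * x i))
    (hprod : ∀ i, (∏ σ : L →+* ℂ, ‖σ (x i)‖) * ∏ t, ∏ σ : L →+* FF L (p t), ‖σ (x i)‖ = 1)
    (c : (L →+* ℂ) → Fin n → ℂ) (c' : ∀ t, (L →+* FF L (p t)) → Fin n → FF L (p t))
    (hc : ∀ σ i, IsAlgebraic ℚ (c σ i)) (hc' : ∀ t σ i, IsAlgebraic ℚ (c' t σ i))
    (X : Finset (L →+* ℂ)) (X' : ∀ t, Finset (L →+* FF L (p t)))
    (C M : ℝ) (hC : 0 ≤ C) (hM0 : 0 ≤ M)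
    (hM : C * (Fintype.card (L →+* ℂ) + ∑ t, Fintype.card (L →+* FF L (p t)) : ℕ) <
      M * (X.card + ∑ t, (X' t).card : ℕ))
    (U : Ultrafilter ℕ) (y : ℕ → L) (hy : ∀ m, ∃ k : ℕ, IsIntegral ℤ ((pprod p : L) ^ k * y m))
    (h1 : ∀ m, ∀ σ : L →+* ℂ, ‖σ (y m)‖ ≤ Real.exp (C * (q : ℝ) ^ m))
    (h1' : ∀ m t, ∀ σ : L →+* FF L (p t), ‖σ (y m)‖ ≤ Real.exp (C * (q : ℝ) ^ m))
    (h2 : ∀ σ ∈ X, ∀ᶠ m in (U : Filter ℕ),
      ‖σ (y m) - ∑ i, c σ i * σ (x i) ^ q ^ m‖ ≤ Real.exp (-M * (q : ℝ) ^ m))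
    (h2' : ∀ t, ∀ σ ∈ X' t, ∀ᶠ m in (U : Filter ℕ),
      ‖σ (y m) - ∑ i, c' t σ i * σ (x i) ^ q ^ m‖ ≤ Real.exp (-M * (q : ℝ) ^ m)) :
    ∃ (l0 : L) (l : Fin n → L), (l0 ≠ 0 ∨ ∃ i, l i ≠ 0) ∧
      ∀ᶠ m in (U : Filter ℕ), l0 * y m + ∑ i, l i * x i ^ q ^ m = 0 := by
  classical
  -- the linear forms
  have hMat := subspaceT (K := L) hp (n + 1) (by omega)
    (M * (X.card + ∑ t, (X' t).card : ℕ) -
      C * (Fintype.card (L →+* ℂ) + ∑ t, Fintype.card (L →+* FF L (p t)) : ℕ))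
    (C + M + ∑ i, (∑ σ : L →+* ℂ, |Real.log ‖σ (x i)‖| +
      ∑ t, ∑ σ : L →+* FF L (p t), |Real.log ‖σ (x i)‖|)) (by linarith)
    (fun σ => rowMat (if σ ∈ X then c σ else 0))
    (fun t σ => rowMat (if σ ∈ X' t then c' t σ else 0))
    (fun σ i j => by
      refine rowMat_alg _ (fun k => ?_) i j
      split_ifs
      · exact hc σ k
      · exact isAlgebraic_zero)
    (fun t σ i j => by
      refine rowMat_alg _ (fun k => ?_) i j
      split_ifs
      · exact hc' t σ k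
      · exact isAlgebraic_zero)
    (fun σ => by rw [rowMat_det]; exact one_ne_zero)
    (fun t σ => by rw [rowMat_det]; exact one_ne_zero)
  obtain ⟨𝒲, h𝒲, hmain⟩ := hMat
  set B : ℝ := C + M + ∑ i, (∑ σ : L →+* ℂ, |Real.log ‖σ (x i)‖| +
      ∑ t, ∑ σ : L →+* FF L (p t), |Real.log ‖σ (x i)‖|) with hB
  -- the vectors
  set v : ℕ → Fin (n + 1) → L := fun m => Fin.cons (y m) fun i => x i ^ q ^ m with hv
  have hB1 : ∀ i, |Real.log 1| ≤ B ∧ (∀ σ : L →+* ℂ, |Real.log ‖σ (x i)‖| ≤ B) ∧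
      ∀ t, ∀ σ : L →+* FF L (p t), |Real.log ‖σ (x i)‖| ≤ B := by
    intro i
    have h3 : ∑ σ : L →+* ℂ, |Real.log ‖σ (x i)‖| +
        ∑ t, ∑ σ : L →+* FF L (p t), |Real.log ‖σ (x i)‖| ≤
        ∑ i, (∑ σ : L →+* ℂ, |Real.log ‖σ (x i)‖| +
          ∑ t, ∑ σ : L →+* FF L (p t), |Real.log ‖σ (x i)‖|) :=
      Finset.single_le_sum (f := fun i => ∑ σ : L →+* ℂ, |Real.log ‖σ (x i)‖| +
        ∑ t, ∑ σ : L →+* FF L (p t), |Real.log ‖σ (x i)‖|)
        (fun j _ => by positivity) (Finset.mem_univ i)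
    have h4 : 0 ≤ ∑ σ : L →+* ℂ, |Real.log ‖σ (x i)‖| := by positivity
    have h5 : 0 ≤ ∑ t, ∑ σ : L →+* FF L (p t), |Real.log ‖σ (x i)‖| := by positivity
    refine ⟨?_, fun σ => ?_, fun t σ => ?_⟩
    · rw [Real.log_one, abs_zero]
      linarith
    · have h6 := Finset.single_le_sum (f := fun σ : L →+* ℂ => |Real.log ‖σ (x i)‖|)
        (fun _ _ => abs_nonneg _) (Finset.mem_univ σ)
      linarith
    · have h6 := Finset.single_le_sum (f := fun σ : L →+* FF L (p t) => |Real.log ‖σ (x i)‖|)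
        (fun _ _ => abs_nonneg _) (Finset.mem_univ σ)
      have h7 := Finset.single_le_sum
        (f := fun t => ∑ σ : L →+* FF L (p t), |Real.log ‖σ (x i)‖|)
        (fun _ _ => Finset.sum_nonneg fun _ _ => abs_nonneg _) (Finset.mem_univ t)
      linarith
  have hB2 : ∀ P : Prop, ∀ [Decidable P], |if P then -M else C| ≤ B := by
    intro P _
    have h3 : 0 ≤ ∑ i, (∑ σ : L →+* ℂ, |Real.log ‖σ (x i)‖| +
      ∑ t, ∑ σ : L →+* FF L (p t), |Real.log ‖σ (x i)‖|) := by positivity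
    split_ifs
    · rw [abs_neg, abs_of_nonneg hM0]
      linarith
    · rw [abs_of_nonneg hC]
      linarith
  -- the good indices
  have hgood : ∀ᶠ m in (U : Filter ℕ),
      (∀ σ ∈ X, ‖σ (y m) - ∑ i, c σ i * σ (x i) ^ q ^ m‖ ≤ Real.exp (-M * (q : ℝ) ^ m)) ∧
      ∀ t, ∀ σ ∈ X' t,
        ‖σ (y m) - ∑ i, c' t σ i * σ (x i) ^ q ^ m‖ ≤ Real.exp (-M * (q : ℝ) ^ m) := by
    refine Filter.Eventually.and ?_ ?_
    · exact (Filter.eventually_all_finset X).2 h2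
    · refine Filter.eventually_all.2 fun t => ?_
      exact (Filter.eventually_all_finset (X' t)).2 (h2' t)
  have hin : ∀ᶠ m in (U : Filter ℕ), ∃ W ∈ (𝒲 : Set (Submodule L (Fin (n + 1) → L))),
      v m ∈ W := by
    filter_upwards [hgood] with m hm
    have hqm : ((q ^ m : ℕ) : ℝ) = (q : ℝ) ^ m := by push_cast; rfl
    have hprodw : (∏ σ : L →+* ℂ, ∏ i, wt (if σ ∈ X then -M else C)
        (fun i => ‖σ (x i)‖) (q ^ m) i) *
        ∏ t, ∏ σ : L →+* FF L (p t), ∏ i, wt (if σ ∈ X' t then -M else C)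
          (fun i => ‖σ (x i)‖) (q ^ m) i ≤
        Real.exp (q ^ m : ℕ) ^ (-(M * (X.card + ∑ t, (X' t).card : ℕ) -
      C * (Fintype.card (L →+* ℂ) + ∑ t, Fintype.card (L →+* FF L (p t)) : ℕ))) := by
      simp only [wt_prod, Finset.prod_mul_distrib, Finset.prod_pow]
      have e1 : (∏ σ : L →+* ℂ, ∏ i, ‖σ (x i)‖) ^ q ^ m *
          (∏ t, ∏ σ : L →+* FF L (p t), ∏ i, ‖σ (x i)‖) ^ q ^ m = 1 := by
        rw [← mul_pow, Finset.prod_comm]
        have e2 : ∏ t, ∏ σ : L →+* FF L (p t), ∏ i, ‖σ (x i)‖ =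
            ∏ i, ∏ t, ∏ σ : L →+* FF L (p t), ‖σ (x i)‖ := by
          rw [Finset.prod_comm]
          refine Finset.prod_congr rfl fun t _ => ?_
          rw [Finset.prod_comm]
        rw [e2, ← Finset.prod_mul_distrib]
        rw [Finset.prod_eq_one fun i _ => hprod i, one_pow]
      have e3 : ∀ (a b c d : ℝ), a * b * (c * d) = a * c * (b * d) := by
        intro a b c d
        ring
      rw [e3, e1, mul_one, ← Real.exp_sum]
      have e4 : ∏ t, ∏ σ : L →+* FF L (p t),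
          Real.exp ((if σ ∈ X' t then -M else C) * ((q ^ m : ℕ) : ℝ)) =
          Real.exp (∑ t, ∑ σ : L →+* FF L (p t),
            (if σ ∈ X' t then -M else C) * ((q ^ m : ℕ) : ℝ)) := by
        rw [Real.exp_sum]
        refine Finset.prod_congr rfl fun t _ => ?_
        rw [Real.exp_sum]
      rw [e4, ← Real.exp_add, ← Real.exp_mul, Real.exp_le_exp]
      have e5 : ∑ σ : L →+* ℂ, (if σ ∈ X then -M else C) * ((q ^ m : ℕ) : ℝ) +
          ∑ t, ∑ σ : L →+* FF L (p t), (if σ ∈ X' t then -M else C) * ((q ^ m : ℕ) : ℝ) =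
          ((q ^ m : ℕ) : ℝ) * (∑ σ : L →+* ℂ, (if σ ∈ X then -M else C) +
            ∑ t, ∑ σ : L →+* FF L (p t), (if σ ∈ X' t then -M else C)) := by
        rw [mul_add, Finset.mul_sum, Finset.mul_sum]
        congr 1
        · exact Finset.sum_congr rfl fun σ _ => mul_comm _ _
        · refine Finset.sum_congr rfl fun t _ => ?_
          rw [Finset.mul_sum]
          exact Finset.sum_congr rfl fun σ _ => mul_comm _ _
      rw [e5]
      refine mul_le_mul_of_nonneg_left ?_ (Nat.cast_nonneg _)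
      have e6 := sum_ite_bd X C M hC
      have e7 : ∑ t, ∑ σ : L →+* FF L (p t), (if σ ∈ X' t then -M else C) ≤
          ∑ t, (C * Fintype.card (L →+* FF L (p t)) - M * (X' t).card) :=
        Finset.sum_le_sum fun t _ => sum_ite_bd (X' t) C M hC
      rw [Finset.sum_sub_distrib, ← Finset.mul_sum, ← Finset.mul_sum] at e7
      push_cast
      linarith
    refine hmain (Real.exp (q ^ m : ℕ))
      (fun σ => wt (if σ ∈ X then -M else C) (fun i => ‖σ (x i)‖) (q ^ m))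
      (fun t σ => wt (if σ ∈ X' t then -M else C) (fun i => ‖σ (x i)‖) (q ^ m))
      (Real.one_le_exp (Nat.cast_nonneg _)) ?_ ?_ hprodw (v m) ?_ ?_ ?_
    · intro σ i
      exact wt_bd _ _ _ _ (fun j => norm_pos_iff.2 ((map_ne_zero σ).2 (hx0 j))) (hB2 _)
        (fun j => (hB1 j).2.1 σ) i
    · intro t σ i
      exact wt_bd _ _ _ _ (fun j => norm_pos_iff.2 ((map_ne_zero σ).2 (hx0 j))) (hB2 _)
        (fun j => (hB1 j).2.2 t σ) i
    · intro k
      refine Fin.cases (hy m) (fun i => ?_) k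
      obtain ⟨k1, hk1⟩ := hxT i
      refine ⟨k1 * q ^ m, ?_⟩
      have h3 : (pprod p : L) ^ (k1 * q ^ m) * v m i.succ =
          ((pprod p : L) ^ k1 * x i) ^ q ^ m := by
        change (pprod p : L) ^ (k1 * q ^ m) * x i ^ q ^ m = _
        rw [mul_pow, pow_mul]
      rw [h3]
      exact hk1.pow _
    · intro σ i
      refine row_bd (σ ∈ X) C M (q ^ m) (c σ) (fun i => σ (x i)) (fun j => σ (v m j))
        (fun j => ?_) ?_ (fun hσ => ?_) i
      · change σ (x j ^ q ^ m) = _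
        rw [map_pow]
      · rw [hqm]
        exact h1 m σ
      · rw [hqm]
        exact hm.1 σ hσ
    · intro t σ i
      refine row_bd (σ ∈ X' t) C M (q ^ m) (c' t σ) (fun i => σ (x i)) (fun j => σ (v m j))
        (fun j => ?_) ?_ (fun hσ => ?_) i
      · change σ (x j ^ q ^ m) = _
        rw [map_pow]
      · rw [hqm]
        exact h1' m t σ
      · rw [hqm]
        exact hm.2 t σ hσ
  obtain ⟨W, hW, hWm⟩ := (Ultrafilter.eventually_exists_mem_iff (𝒲.finite_toSet)).1 hin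
  obtain ⟨l0, l, hl, hlW⟩ := exists_functional W (h𝒲 W hW)
  refine ⟨l0, l, hl, ?_⟩
  filter_upwards [hWm] with m hm
  exact hlW (v m) hm

end Pool.Agent.Helper11.TS
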