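import Pool.Agent.Helper11.TS.Root
import Pool.Agent.Helper11.TS.SubA
import Pool.Agent.Helper11.TS.Emb
import Pool.Agent.Helper11.TS.Sub2
import Pool.Agent.Helper11.TS.Sub3
import Pool.Agent.Helper11.TS.PF

/-!
# TS, module T3: a sequence of roots is given by an element of the group algebra
-/

set_option autoImplicit false

namespace Pool.Agent.Helper11.TS

open Polynomial Filter NumberField Pool.Agent.Helper85.Sub Pool.Agent.Helper10.Sub

/-- Extension of an embedding. -/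
lemma extend_emb {κ : Type} [Field κ] [CharZero κ] [Algebra.IsAlgebraic ℚ κ]
    (L : IntermediateField ℚ κ) {A : Type*} [Field A] [CharZero A] [IsAlgClosed A]
    (φ : L →+* A) : ∃ τ : κ →+* A, ∀ x : L, τ (x : κ) = φ x := by
  letI : Algebra L A := φ.toAlgebra
  have : Algebra.IsAlgebraic L κ := Algebra.IsAlgebraic.tower_top (K := ℚ) _
  let τ : κ →ₐ[L] A := IsAlgClosed.lift
  refine ⟨τ.toRingHom, fun x => ?_⟩
  exact τ.commutes x

/-- The primes that divide `n0`. -/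
abbrev PT (n0 : ℕ) : Type := {q // q ∈ n0.primeFactors}

instance factPT (n0 : ℕ) (t : PT n0) : Fact (Nat.Prime ((fun t : PT n0 => (t : ℕ)) t)) :=
  ⟨Nat.prime_of_mem_primeFactors t.2⟩

lemma dvd_pprod (n0 : ℕ) (hn0 : n0 ≠ 0) : n0 ∣ pprod (fun t : PT n0 => (t : ℕ)) ^ n0 := by
  have h1 : pprod (fun t : PT n0 => (t : ℕ)) = ∏ q ∈ n0.primeFactors, q := by
    show ∏ t : PT n0, (t : ℕ) = _
    exact Finset.prod_coe_sort n0.primeFactors (fun q => q)
  rw [h1]
  conv_lhs => rw [← Nat.factorization_prod_pow_eq_self hn0]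
  rw [← Finset.prod_pow]
  show ∏ q ∈ n0.factorization.support, q ^ n0.factorization q ∣ _
  rw [Nat.support_factorization]
  refine Finset.prod_dvd_prod_of_dvd _ _ fun q hq => ?_
  refine pow_dvd_pow q ?_
  have hq' := Nat.prime_of_mem_primeFactors hq
  have h2 : q ^ n0.factorization q ∣ n0 := Nat.ordProj_dvd n0 q
  have h3 : q ^ n0.factorization q ≤ n0 := Nat.le_of_dvd (Nat.pos_of_ne_zero hn0) h2
  exact (Nat.lt_pow_self hq'.one_lt).le.trans h3

lemma integral_P {L : Type} [Field L] [NumberField L] (n0 D : ℕ) (hn0 : n0 ≠ 0) (hD : D ∣ n0)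
    (z : L) (k : ℕ) (h : IsIntegral ℤ ((D : L) ^ k * z)) :
    ∃ k' : ℕ, IsIntegral ℤ ((pprod (fun t : PT n0 => (t : ℕ)) : L) ^ k' * z) := by
  obtain ⟨c, hc⟩ := hD.trans (dvd_pprod n0 hn0)
  refine ⟨n0 * k, ?_⟩
  have h1 : ((pprod (fun t : PT n0 => (t : ℕ)) : ℕ) : L) ^ (n0 * k) * z =
      (c : L) ^ k * ((D : L) ^ k * z) := by
    have h2 : ((pprod (fun t : PT n0 => (t : ℕ)) : ℕ) : L) ^ n0 = (D : L) * c := by
      exact_mod_cast congrArg (Nat.cast (R := L)) hc
    rw [pow_mul, h2, mul_pow]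
    ring
  rw [h1]
  exact ((map_natCast (algebraMap ℤ L) c ▸ isIntegral_algebraMap :
    IsIntegral ℤ ((c : ℕ) : L)).pow k).mul h

theorem subspace_step {κ G : Type} [Field κ] [CharZero κ] [IsAlgClosed κ]
    [Algebra.IsAlgebraic ℚ κ] [AddCommGroup G] [Module ℚ G] (B : Base κ G) (y : ℕ → κ)
    (hy : Seq B y) (U : Ultrafilter ℕ) (hU : (U : Filter ℕ) ≤ atTop) (R : (Alg κ G)[X])
    (hR : R ≠ 0) (h : ∀ᶠ m in (U : Filter ℕ), (R.map (B.ev m)).eval (y m) = 0) :
    ∃ Q : Alg κ G, ∀ᶠ m in (U : Filter ℕ), y m = B.ev m Q := by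
  classical
  have hfinK := B.fin
  have : NumberField B.K := ⟨⟩
  obtain ⟨C0, hC0⟩ := hy.bd
  obtain ⟨D, hD, hDy⟩ := hy.den
  -- the prime of the place
  obtain ⟨pw, hpw0, hpw⟩ : ∃ pw : ℕ, pw ≠ 0 ∧ ((∃ τ : κ →+* ℂ, ∀ x, B.w x = ‖τ x‖) ∨
      ∃ (_ : Fact pw.Prime) (τ : κ →+* PadicAlgCl pw), ∀ x, B.w x = ‖τ x‖) := by
    rcases B.pl with h1 | ⟨p, hp, τ, hτ⟩
    · exact ⟨1, one_ne_zero, Or.inl h1⟩
    · exact ⟨p, hp.out.ne_zero, Or.inr ⟨hp, τ, hτ⟩⟩
  set n0 := D * B.P0 * pw with hn0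
  have hn00 : n0 ≠ 0 := by
    have := B.hP0
    rw [hn0]
    positivity
  set C1 := max (max C0 (Real.log D)) 0 with hC1
  have hC10 : 0 ≤ C1 := le_max_right _ _
  have hCC0 : C0 ≤ C1 := (le_max_left _ _).trans (le_max_left _ _)
  have hCD : Real.log D ≤ C1 := (le_max_right _ _).trans (le_max_left _ _)
  have hDpos : (0 : ℝ) < D := by exact_mod_cast hD
  have hexpD : ∀ m : ℕ, (D : ℝ) ^ (B.q ^ m) ≤ Real.exp (C1 * (B.q : ℝ) ^ m) := by
    intro m
    calc (D : ℝ) ^ (B.q ^ m) = Real.exp (Real.log D * (B.q : ℝ) ^ m) := by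
          rw [mul_comm, show ((B.q : ℝ) ^ m) = ((B.q ^ m : ℕ) : ℝ) by push_cast; rfl,
            Real.exp_nat_mul, Real.exp_log hDpos]
      _ ≤ _ := Real.exp_le_exp.2 (mul_le_mul_of_nonneg_right hCD (by positivity))
  have hexpC : ∀ m : ℕ, Real.exp (C0 * (B.q : ℝ) ^ m) ≤ Real.exp (C1 * (B.q : ℝ) ^ m) := fun m =>
    Real.exp_le_exp.2 (mul_le_mul_of_nonneg_right hCC0 (by positivity))
  -- bound at the place `w`
  have hwy : ∀ m, B.w (y m) ≤ Real.exp (C1 * (B.q : ℝ) ^ m) := by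
    intro m
    rcases hpw with ⟨τ, hτ⟩ | ⟨hp, τ, hτ⟩
    · rw [hτ]
      exact (hC0 τ m).trans (hexpC m)
    · rw [hτ]
      have h1 : IsIntegral ℤ ((D : B.K) ^ B.q ^ m * (⟨y m, hy.mem m⟩ : B.K)) := by
        rw [← isIntegral_algebraMap_iff (B := κ) (algebraMap B.K κ).injective]
        exact hDy m
      have h2 := padic_bound pw (lift (τ.comp (algebraMap B.K κ))) D hD (B.q ^ m)
        (⟨y m, hy.mem m⟩ : B.K) h1
      exact h2.trans (hexpD m)
  set M := C1 * (1 + Fintype.card (PT n0)) * Module.finrank ℚ B.K + 1 with hM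
  have hM0 : 0 ≤ M := by positivity
  obtain ⟨𝒮, h𝒮⟩ := root_approx B.w B.e B.hq B.inj R hR C1 M
  have h1 : ∀ᶠ m in (U : Filter ℕ), ∃ S ∈ 𝒮,
      B.w (y m - B.ev m S) ≤ Real.exp (-M * (B.q : ℝ) ^ m) := by
    filter_upwards [hU h𝒮, h] with m hm hm'
    exact hm (y m) (hwy m) hm'
  obtain ⟨S, -, hS⟩ : ∃ S ∈ 𝒮, ∀ᶠ m in (U : Filter ℕ),
      B.w (y m - B.ev m S) ≤ Real.exp (-M * (B.q : ℝ) ^ m) := by
    have h2 := (Ultrafilter.eventually_exists_mem_iff (f := U) (is := (𝒮 : Set (Alg κ G)))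
      (P := fun S m => B.w (y m - B.ev m S) ≤ Real.exp (-M * (B.q : ℝ) ^ m))
      𝒮.finite_toSet).1
    obtain ⟨S, hS1, hS2⟩ := h2 (by
      filter_upwards [h1] with m hm
      obtain ⟨S, hS1, hS2⟩ := hm
      exact ⟨S, hS1, hS2⟩)
    exact ⟨S, hS1, hS2⟩
  -- exponents
  set E : Finset G := insert 0 (spt S) with hE
  set n := E.card with hn
  have hn1 : 1 ≤ n := Finset.card_pos.2 ⟨0, Finset.mem_insert_self _ _⟩
  set ν : Fin n → G := fun i => ((E.equivFin.symm i : E) : G) with hν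
  have hνinj : Function.Injective ν := fun i j hij =>
    E.equivFin.symm.injective (Subtype.ext hij)
  have hνsum : ∀ (M' : Type) [AddCommMonoid M'] (f : G → M'), ∑ i, f (ν i) = ∑ μ ∈ E, f μ := by
    intro M' _ f
    rw [← Finset.sum_coe_sort E f]
    exact Fintype.sum_equiv E.equivFin.symm _ _ fun i => rfl
  set L0 : IntermediateField ℚ κ := IntermediateField.adjoin ℚ
    (Set.range (fun i => B.e (Multiplicative.ofAdd (ν i))) ∪ Set.range fun i => S.coeff (ν i))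
    with hL0
  have hfinL0 : FiniteDimensional ℚ L0 := by
    refine IntermediateField.finiteDimensional_adjoin fun x _ => ?_
    exact (Algebra.IsAlgebraic.isAlgebraic x).isIntegral
  set L : IntermediateField ℚ κ := B.K ⊔ L0 with hL
  have : FiniteDimensional ℚ L := IntermediateField.finiteDimensional_sup _ _
  have : NumberField L := ⟨⟩
  have hKL : B.K ≤ L := le_sup_left
  have hxm : ∀ i, B.e (Multiplicative.ofAdd (ν i)) ∈ L := fun i =>
    (le_sup_right : L0 ≤ L) (IntermediateField.subset_adjoin _ _ (Or.inl ⟨i, rfl⟩))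
  have hcm : ∀ i, S.coeff (ν i) ∈ L := fun i =>
    (le_sup_right : L0 ≤ L) (IntermediateField.subset_adjoin _ _ (Or.inr ⟨i, rfl⟩))
  set x : Fin n → L := fun i => ⟨B.e (Multiplicative.ofAdd (ν i)), hxm i⟩ with hx
  set c : Fin n → L := fun i => ⟨S.coeff (ν i), hcm i⟩ with hc
  set y' : ℕ → L := fun m => ⟨y m, hKL (hy.mem m)⟩ with hy'
  have hint : ∀ z : L, IsIntegral ℤ (z : κ) → IsIntegral ℤ z := fun z hz =>
    (isIntegral_algebraMap_iff (B := κ) (algebraMap L κ).injective).1 hz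
  have hx0 : ∀ i, x i ≠ 0 := fun i h0 =>
    e_ne_zero B.e _ (congrArg (fun z : L => (z : κ)) h0)
  have hxT : ∀ i, ∃ k : ℕ, IsIntegral ℤ ((pprod (fun t : PT n0 => (t : ℕ)) : L) ^ k * x i) := by
    intro i
    obtain ⟨k, hk⟩ := B.hint (ν i)
    exact integral_P n0 B.P0 hn00 (by rw [hn0]; exact Dvd.intro_left _ rfl |>.mul_right _) (x i) k
      (hint _ (by simpa using hk))
  have hxT' : ∀ i, ∃ k : ℕ,
      IsIntegral ℤ ((pprod (fun t : PT n0 => (t : ℕ)) : L) ^ k * (x i)⁻¹) := by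
    intro i
    obtain ⟨k, hk⟩ := B.hint (-ν i)
    refine integral_P n0 B.P0 hn00 (by rw [hn0]; exact Dvd.intro_left _ rfl |>.mul_right _)
      (x i)⁻¹ k (hint _ ?_)
    have h2 : B.e (Multiplicative.ofAdd (-ν i)) = (B.e (Multiplicative.ofAdd (ν i)))⁻¹ := by
      rw [ofAdd_neg]
      refine eq_inv_of_mul_eq_one_left ?_
      rw [← map_mul, inv_mul_cancel, map_one]
    rw [h2] at hk
    simpa using hk
  have hprod := fun i => prod_one (L := L) (p := fun t : PT n0 => (t : ℕ))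
    Subtype.val_injective (x i) (hx0 i) (hxT i) (hxT' i)
  have hxK : ∀ i, ∃ D' : ℕ, 0 < D' ∧ (x i : κ) ^ D' ∈ B.K := fun i => B.hK (ν i)
  have hMlt : C1 * (1 + Fintype.card (PT n0)) * Module.finrank ℚ B.K < M := by
    rw [hM]
    linarith
  have hyT : ∀ m, ∃ k : ℕ, IsIntegral ℤ ((pprod (fun t : PT n0 => (t : ℕ)) : L) ^ k * y' m) := by
    intro m
    exact integral_P n0 D hn00 (by rw [hn0, mul_assoc]; exact Dvd.intro _ rfl) (y' m) (B.q ^ m)
      (hint _ (by simpa using hDy m))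
  have hb1 : ∀ m, ∀ σ : L →+* ℂ, ‖σ (y' m)‖ ≤ Real.exp (C1 * (B.q : ℝ) ^ m) := by
    intro m σ
    obtain ⟨τ, hτ⟩ := extend_emb L σ
    rw [← hτ]
    exact (hC0 τ m).trans (hexpC m)
  have hb2 : ∀ m (t : PT n0), ∀ σ : L →+* FF L ((fun t : PT n0 => (t : ℕ)) t),
      ‖σ (y' m)‖ ≤ Real.exp (C1 * (B.q : ℝ) ^ m) := by
    intro m t σ
    exact (padic_bound _ σ D hD (B.q ^ m) (y' m) (hint _ (by simpa using hDy m))).trans (hexpD m)
  have hevS : ∀ m, B.ev m S = ∑ i, (c i : κ) * (x i : κ) ^ B.q ^ m := by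
    intro m
    show ev B.e B.q m S = _
    rw [ev_eq_sum]
    have h2 := hνsum κ (fun μ => S.coeff μ * B.e (Multiplicative.ofAdd μ) ^ B.q ^ m)
    rw [show (∑ i, (c i : κ) * (x i : κ) ^ B.q ^ m) =
      ∑ i, (fun μ => S.coeff μ * B.e (Multiplicative.ofAdd μ) ^ B.q ^ m) (ν i) from rfl, h2]
    refine Finset.sum_subset (Finset.subset_insert _ _) fun μ _ hμ => ?_
    rw [Finsupp.notMem_support_iff.1 hμ, zero_mul]
  have hlin : ∃ (l0 : L) (l : Fin n → L), (l0 ≠ 0 ∨ ∃ i, l i ≠ 0) ∧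
      ∀ᶠ m in (U : Filter ℕ), l0 * y' m + ∑ i, l i * x i ^ B.q ^ m = 0 := by
    rcases hpw with ⟨τ, hτ⟩ | ⟨hp, τ, hτ⟩
    · refine sub_complex B.K L hKL (p := fun t : PT n0 => (t : ℕ)) Subtype.val_injective τ n hn1
        B.q B.hq x hx0 hxT hprod hxK c C1 M hC10 hM0 hMlt U y' (fun m => hy.mem m) hyT hb1 hb2 ?_
      filter_upwards [hS] with m hm
      rw [hτ, hevS, map_sub, map_sum] at hm
      simpa using hm
    · have hpm : pw ∈ n0.primeFactors := by
        rw [Nat.mem_primeFactors]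
        exact ⟨hp.out, Dvd.intro_left _ rfl, hn00⟩
      refine sub_padic B.K L hKL (p := fun t : PT n0 => (t : ℕ)) Subtype.val_injective
        ⟨pw, hpm⟩ τ n hn1
        B.q B.hq x hx0 hxT hprod hxK c C1 M hC10 hM0 hMlt U y' (fun m => hy.mem m) hyT hb1 hb2 ?_
      filter_upwards [hS] with m hm
      rw [hτ, hevS, map_sub, map_sum] at hm
      simpa using hm
  obtain ⟨l0, l, hne, hl⟩ := hlin
  have hQ : ∀ (f : Fin n → κ) (m : ℕ), B.ev m (∑ i, mono (ν i) (f i)) =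
      ∑ i, f i * (x i : κ) ^ B.q ^ m := by
    intro f m
    rw [map_sum]
    refine Finset.sum_congr rfl fun i _ => ?_
    exact ev_mono B.e B.q m (ν i) (f i)
  have hl' : ∀ᶠ m in (U : Filter ℕ), (l0 : κ) * y m + ∑ i, (l i : κ) * (x i : κ) ^ B.q ^ m = 0 := by
    filter_upwards [hl] with m hm
    have h2 := congrArg (fun z : L => (z : κ)) hm
    simpa using h2
  by_cases h0 : l0 = 0
  · exfalso
    obtain ⟨i, hi⟩ : ∃ i, l i ≠ 0 := by
      rcases hne with h2 | h2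
      · exact absurd h0 h2
      · exact h2
    have h3 : (∑ i, mono (ν i) (l i : κ) : Alg κ G) = 0 := by
      refine ev_ext B.w B.e B.hq B.inj hU ?_
      filter_upwards [hl'] with m hm
      rw [map_zero]
      have h4 := hQ (fun i => (l i : κ)) m
      rw [h0] at hm
      rw [ZeroMemClass.coe_zero, zero_mul, zero_add] at hm
      exact h4.trans hm
    have h4 : (∑ j, mono (ν j) (l j : κ) : Alg κ G).coeff (ν i) = (l i : κ) := by
      have h5 : ∀ s : Finset (Fin n), (∑ j ∈ s, mono (ν j) (l j : κ) : Alg κ G).coeff (ν i) =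
          ∑ j ∈ s, (mono (ν j) (l j : κ) : Alg κ G).coeff (ν i) := by
        intro s
        induction s using Finset.induction_on with
        | empty => simp
        | insert j s hj ih =>
          rw [Finset.sum_insert hj, Finset.sum_insert hj, AddMonoidAlgebra.coeff_add,
            Finsupp.add_apply, ih]
      rw [h5, Finset.sum_eq_single i]
      · unfold mono
        rw [AddMonoidAlgebra.coeff_single, Finsupp.single_eq_same]
      · intro j _ hji
        unfold mono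
        rw [AddMonoidAlgebra.coeff_single]
        exact Finsupp.single_eq_of_ne fun h5 => hji (hνinj h5.symm)
      · intro h5
        exact absurd (Finset.mem_univ i) h5
    rw [h3] at h4
    apply hi
    apply Subtype.ext
    rw [← h4]
    simp
  · refine ⟨∑ i, mono (ν i) (-(l i : κ) / l0), ?_⟩
    have h0' : (l0 : κ) ≠ 0 := fun h2 => h0 (Subtype.ext h2)
    filter_upwards [hl'] with m hm
    rw [hQ]
    have h5 : ∑ i, -(l i : κ) / l0 * (x i : κ) ^ B.q ^ m =
        -(∑ i, (l i : κ) * (x i : κ) ^ B.q ^ m) / l0 := by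
      rw [neg_div, Finset.sum_div, ← Finset.sum_neg_distrib]
      exact Finset.sum_congr rfl fun i _ => by ring
    rw [h5, eq_div_iff h0']
    linear_combination hm

end Pool.Agent.Helper11.TS
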