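import Pool.Agent.Helper11.TS.Sub
import Pool.Agent.Helper11.TS.Dom

/-!
# TS, module T4: the backward tower
-/

set_option autoImplicit false

namespace Pool.Agent.Helper11.TS

open Polynomial Filter

section Back
variable {κ G : Type} [Field κ] [AddCommGroup G]

lemma theta_injective [Module ℚ G] {q : ℕ} (hq : q ≠ 0) :
    Function.Injective (theta q : Alg κ G →+* Alg κ G) := by
  have h1 : Function.Injective (nsmulAddMonoidHom q : G →+ G) := by
    intro x y hxy
    have h2 : (q : ℚ) • x = (q : ℚ) • y := by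
      rw [Nat.cast_smul_eq_nsmul, Nat.cast_smul_eq_nsmul]
      exact hxy
    have h3 : (q : ℚ) ≠ 0 := by exact_mod_cast hq
    exact smul_right_injective G h3 h2
  exact AddMonoidAlgebra.mapDomain_injective h1

/-- The pulled back polynomials `R_0 = R`, `R_(k+1) = (θ R_k) ∘ P`. -/
noncomputable def pull (q : ℕ) (P R : (Alg κ G)[X]) : ℕ → (Alg κ G)[X]
  | 0 => R
  | k + 1 => ((pull q P R k).map (theta q)).comp P

lemma pull_ne_zero [Module ℚ G] {q : ℕ} (hq : 2 ≤ q) {P R : (Alg κ G)[X]}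
    (hP : P.natDegree = q) (hR : R ≠ 0) (k : ℕ) : pull q P R k ≠ 0 := by
  induction k with
  | zero => exact hR
  | succ k ih =>
    intro h
    rw [pull, Polynomial.comp_eq_zero_iff] at h
    rcases h with h | ⟨-, h⟩
    · exact ih ((Polynomial.map_eq_zero_iff (theta_injective (by omega))).1 h)
    · have h1 : P.natDegree = 0 := by
        rw [h]
        exact Polynomial.natDegree_C _
      omega

lemma pull_step (e : Multiplicative G →* κ) (q : ℕ) (P R : (Alg κ G)[X]) (y : ℕ → κ)
    (h : ∀ m, y (m + 1) = (P.map (ev e q m)).eval (y m)) (k m : ℕ) :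
    ((pull q P R (k + 1)).map (ev e q m)).eval (y m) =
      ((pull q P R k).map (ev e q (m + 1))).eval (y (m + 1)) := by
  have h1 : (ev e q m).comp (theta q) = ev e q (m + 1) :=
    RingHom.ext fun E => by rw [RingHom.comp_apply, ev_theta]
  rw [pull, Polynomial.map_comp, Polynomial.map_map, Polynomial.eval_comp, h1, ← h]

end Back

theorem tower {κ G : Type} [Field κ] [CharZero κ] [IsAlgClosed κ]
    [Algebra.IsAlgebraic ℚ κ] [AddCommGroup G] [Module ℚ G] (B : Base κ G) (a : κ)
    (P : (Alg κ G)[X]) (y : ℕ → κ) (hy : Orb B a P y) (U : Ultrafilter ℕ)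
    (hU : (U : Filter ℕ) ≤ atTop) (R : (Alg κ G)[X])
    (hR : R ≠ 0) (h : ∀ᶠ m in (U : Filter ℕ), (R.map (B.ev m)).eval (y m) = 0) :
    ∃ Q : ℕ → Alg κ G, (∀ k, ∀ᶠ n in (U : Filter ℕ), y (n - k) = B.ev (n - k) (Q k)) ∧
      ∀ k, P.eval (Q (k + 1)) = theta B.q (Q k) := by
  have hge : ∀ k : ℕ, ∀ᶠ n in (U : Filter ℕ), k ≤ n := fun k => hU (eventually_ge_atTop k)
  have hUk : ∀ k : ℕ, ((U.map (fun n => n - k) : Ultrafilter ℕ) : Filter ℕ) ≤ atTop := by
    intro k
    rw [Ultrafilter.coe_map]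
    exact (Filter.map_mono hU).trans (le_of_eq (Filter.map_sub_atTop_eq_nat k))
  have hroot : ∀ k : ℕ, ∀ᶠ n in (U : Filter ℕ),
      ((pull B.q P R k).map (B.ev (n - k))).eval (y (n - k)) = 0 := by
    intro k
    induction k with
    | zero => exact h
    | succ k ih =>
      filter_upwards [ih, hge (k + 1)] with n hn hk
      have h1 := pull_step B.e B.q P R y hy.step k (n - (k + 1))
      rw [show n - (k + 1) + 1 = n - k by omega] at h1
      unfold Base.ev at hn ⊢
      rw [h1, hn]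
  have hex : ∀ k : ℕ, ∃ Q : Alg κ G,
      ∀ᶠ n in (U : Filter ℕ), y (n - k) = B.ev (n - k) Q := by
    intro k
    have h1 : ∀ᶠ m in ((U.map (fun n => n - k) : Ultrafilter ℕ) : Filter ℕ),
        ((pull B.q P R k).map (B.ev m)).eval (y m) = 0 := by
      rw [Ultrafilter.coe_map, Filter.eventually_map]
      exact hroot k
    obtain ⟨Q, hQ⟩ := subspace_step B y hy.toSeq (U.map (fun n => n - k)) (hUk k)
      (pull B.q P R k) (pull_ne_zero B.hq hy.pol.deg hR k) h1
    refine ⟨Q, ?_⟩
    rw [Ultrafilter.coe_map, Filter.eventually_map] at hQ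
    exact hQ
  choose Q hQ using hex
  refine ⟨Q, hQ, fun k => ?_⟩
  apply ev_ext B.w B.e B.hq B.inj (hUk (k + 1))
  rw [Ultrafilter.coe_map, Filter.eventually_map]
  filter_upwards [hQ (k + 1), hQ k, hge (k + 1)] with n h1 h2 hk
  have h3 : n - (k + 1) + 1 = n - k := by omega
  have h4 := hy.step (n - (k + 1))
  rw [h3, h2] at h4
  rw [ev_theta, h3]
  unfold Base.ev at h1 h4
  rw [h4, h1, Polynomial.eval_map, Polynomial.eval₂_at_apply]

end Pool.Agent.Helper11.TS
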