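import Pool.Agent.Helper11.TS.Defs

/-!
# TS, module T9d: triangular maps over a power map, their iterates
-/

set_option autoImplicit false

namespace Pool.Agent.Helper11.TS

open MvPolynomial Filter

variable {κ : Type} [Field κ] {N : ℕ}

/-- The map `F` is triangular over the power map in the coordinates `0, ..., r`. -/
structure Tri (r d : ℕ) (F : Fin (N + 1) → MvPolynomial (Fin (N + 1)) κ) : Prop where
  hd : 2 ≤ d
  hom : ∀ i, (F i).IsHomogeneous d
  pow : ∀ i : Fin (N + 1), (i : ℕ) ≤ r → F i = X i ^ d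
  tri : ∀ j : Fin (N + 1), r < (j : ℕ) → ∀ i ∈ (F j).vars, i ≤ j
  lead : ∀ j : Fin (N + 1), r < (j : ℕ) → (F j).coeff (Finsupp.single j d) ≠ 0

/-- The orbit of `a`. -/
noncomputable def xs (F : Fin (N + 1) → MvPolynomial (Fin (N + 1)) κ) (a : Fin (N + 1) → κ)
    (n : ℕ) : Fin (N + 1) → κ :=
  (fun (x : Fin (N + 1) → κ) (i : Fin (N + 1)) => eval x (F i))^[n] a

lemma xs_zero (F : Fin (N + 1) → MvPolynomial (Fin (N + 1)) κ) (a : Fin (N + 1) → κ) :
    xs F a 0 = a := rfl

lemma xs_succ (F : Fin (N + 1) → MvPolynomial (Fin (N + 1)) κ) (a : Fin (N + 1) → κ) (n : ℕ)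
    (i : Fin (N + 1)) : xs F a (n + 1) i = eval (xs F a n) (F i) := by
  unfold xs
  rw [Function.iterate_succ_apply']

/-- The iterates of the tuple `F`, as tuples of polynomials. -/
noncomputable def itF (F : Fin (N + 1) → MvPolynomial (Fin (N + 1)) κ) :
    ℕ → Fin (N + 1) → MvPolynomial (Fin (N + 1)) κ
  | 0 => X
  | k + 1 => fun i => bind₁ (itF F k) (F i)

lemma itF_zero (F : Fin (N + 1) → MvPolynomial (Fin (N + 1)) κ) (i : Fin (N + 1)) :
    itF F 0 i = X i := rfl

lemma itF_succ (F : Fin (N + 1) → MvPolynomial (Fin (N + 1)) κ) (k : ℕ) (i : Fin (N + 1)) :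
    itF F (k + 1) i = bind₁ (itF F k) (F i) := rfl

lemma eval_bind₁' (x : Fin (N + 1) → κ) (g : Fin (N + 1) → MvPolynomial (Fin (N + 1)) κ)
    (P : MvPolynomial (Fin (N + 1)) κ) :
    eval x (bind₁ g P) = eval (fun i => eval x (g i)) P := by
  have h1 := aeval_bind₁ x g P
  simpa [aeval_eq_eval] using h1

lemma deg_of_mem {g : MvPolynomial (Fin (N + 1)) κ} {n : ℕ} (hg : g.IsHomogeneous n)
    {m : Fin (N + 1) →₀ ℕ} (hm : m ∈ g.support) : m.degree = n := by
  have h1 : Finsupp.weight (fun _ => 1) m = n := hg (mem_support_iff.1 hm)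
  rw [Finsupp.degree_eq_weight_one]
  exact h1

/-- Homogeneity of the values of a form. -/
lemma eval_smul_form {g : MvPolynomial (Fin (N + 1)) κ} {n : ℕ} (hg : g.IsHomogeneous n)
    (c : κ) (x : Fin (N + 1) → κ) : eval (c • x) g = c ^ n * eval x g := by
  classical
  rw [eval_eq', eval_eq', Finset.mul_sum]
  refine Finset.sum_congr rfl fun m hm => ?_
  have h1 : m.degree = n := deg_of_mem hg hm
  have h2 : ∏ i, (c • x) i ^ m i = c ^ n * ∏ i, x i ^ m i := by
    rw [← h1, Finsupp.degree_eq_sum, ← Finset.prod_pow_eq_pow_sum, ← Finset.prod_mul_distrib]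
    refine Finset.prod_congr rfl fun i _ => ?_
    rw [Pi.smul_apply, smul_eq_mul, mul_pow]
  rw [h2]
  ring

/-- The value of a form at the `j`-th basis vector is a coefficient. -/
lemma eval_single_form {g : MvPolynomial (Fin (N + 1)) κ} {n : ℕ} (hg : g.IsHomogeneous n)
    (j : Fin (N + 1)) : eval (Pi.single j (1 : κ)) g = g.coeff (Finsupp.single j n) := by
  classical
  rw [eval_eq', Finset.sum_eq_single (Finsupp.single j n)]
  · rw [Finset.prod_eq_one, mul_one]
    intro i _
    by_cases h : i = j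
    · subst h
      rw [Pi.single_eq_same, one_pow]
    · rw [Finsupp.single_eq_of_ne h, pow_zero]
  · intro m hm hne
    have h1 : m.degree = n := deg_of_mem hg hm
    have h2 : ∃ i, i ≠ j ∧ m i ≠ 0 := by
      by_contra hcon
      push Not at hcon
      apply hne
      have h3 : m = Finsupp.single j (m j) := by
        ext i
        by_cases h : i = j
        · subst h
          rw [Finsupp.single_eq_same]
        · rw [Finsupp.single_eq_of_ne h, hcon i h]
      rw [h3, Finsupp.degree_single] at h1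
      rw [h3, h1]
    obtain ⟨i, hi, hmi⟩ := h2
    rw [Finset.prod_eq_zero (Finset.mem_univ i), mul_zero]
    rw [Pi.single_eq_of_ne hi, zero_pow hmi]
  · intro h
    rw [notMem_support_iff.1 h, zero_mul]

lemma Tri.tri' {r d : ℕ} {F : Fin (N + 1) → MvPolynomial (Fin (N + 1)) κ} (hT : Tri r d F)
    (j : Fin (N + 1)) : ∀ i ∈ (F j).vars, i ≤ j := by
  classical
  by_cases h : (j : ℕ) ≤ r
  · intro i hi
    rw [hT.pow j h] at hi
    have h1 := vars_pow (X j : MvPolynomial (Fin (N + 1)) κ) d hi
    rw [vars_X, Finset.mem_singleton] at h1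
    exact h1.le
  · exact hT.tri j (not_le.1 h)

/-- The value of a form at the zero vector. -/
lemma eval_zero_form {g : MvPolynomial (Fin (N + 1)) κ} {n : ℕ} (hg : g.IsHomogeneous n)
    (hn : n ≠ 0) {x : Fin (N + 1) → κ} (hx : ∀ i ∈ g.vars, x i = 0) : eval x g = 0 := by
  classical
  rw [eval_eq]
  refine Finset.sum_eq_zero fun m hm => ?_
  have h1 : m.degree = n := deg_of_mem hg hm
  have h2 : m.support.Nonempty := by
    rw [Finsupp.support_nonempty_iff]
    intro h
    rw [h, map_zero] at h1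
    exact hn h1.symm
  obtain ⟨i, hi⟩ := h2
  have h3 : i ∈ g.vars := (mem_vars_iff_mem_support i).2 ⟨m, hm, hi⟩
  rw [Finset.prod_eq_zero hi, mul_zero]
  rw [hx i h3, zero_pow (Finsupp.mem_support_iff.1 hi)]

/-- The iterates of a triangular map are triangular. -/
theorem itF_tri {r d : ℕ} {F : Fin (N + 1) → MvPolynomial (Fin (N + 1)) κ} (hT : Tri r d F)
    (L : ℕ) (j : Fin (N + 1)) : (itF F L j).IsHomogeneous (d ^ L) ∧
      (∀ i ∈ (itF F L j).vars, i ≤ j) ∧
      (r < (j : ℕ) → (itF F L j).coeff (Finsupp.single j (d ^ L)) ≠ 0) := by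
  classical
  induction L generalizing j with
  | zero =>
    refine ⟨?_, ?_, ?_⟩
    · rw [itF_zero, pow_zero]
      exact isHomogeneous_X κ j
    · intro i hi
      rw [itF_zero, vars_X, Finset.mem_singleton] at hi
      exact hi.le
    · intro _
      rw [itF_zero, pow_zero, coeff_X_same]
      exact one_ne_zero
  | succ L ih =>
    have hd0 : d ≠ 0 := by have := hT.hd; omega
    have hhom : ∀ i, (itF F (L + 1) i).IsHomogeneous (d ^ (L + 1)) := by
      intro i
      rw [itF_succ, pow_succ]
      exact (hT.hom i).aeval (itF F L) fun k => (ih k).1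
    refine ⟨hhom j, ?_, ?_⟩
    · intro i hi
      rw [itF_succ] at hi
      obtain ⟨k, hk, hik⟩ := mem_vars_bind₁ _ _ hi
      exact ((ih k).2.1 i hik).trans (hT.tri' j k hk)
    · intro hj
      rw [← eval_single_form (hhom j) j, itF_succ, eval_bind₁']
      have h1 : (fun i => eval (Pi.single j (1 : κ)) (itF F L i)) =
          fun i => (itF F L i).coeff (Finsupp.single j (d ^ L)) :=
        funext fun i => eval_single_form (ih i).1 j
      have h2 : ∀ i, i < j → eval (Pi.single j (1 : κ)) (itF F L i) = 0 := by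
        intro i hij
        refine eval_zero_form (ih i).1 (pow_ne_zero L hd0) fun k hk => ?_
        exact Pi.single_eq_of_ne (ne_of_lt (((ih i).2.1 k hk).trans_lt hij)) _
      have h3 : eval (Pi.single j (1 : κ)) (itF F L j) ≠ 0 := by
        rw [eval_single_form (ih j).1 j]
        exact (ih j).2.2 hj
      have h4 : eval (fun i => eval (Pi.single j (1 : κ)) (itF F L i)) (F j) =
          eval ((eval (Pi.single j (1 : κ)) (itF F L j)) • (Pi.single j (1 : κ))) (F j) := by
        refine eval₂Hom_congr' rfl (fun i hi _ => ?_) rfl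
        rcases (hT.tri' j i hi).lt_or_eq with h | h
        · rw [h2 i h, Pi.smul_apply, Pi.single_eq_of_ne (ne_of_lt h), smul_zero]
        · rw [h, Pi.smul_apply, Pi.single_eq_same, smul_eq_mul, mul_one]
      rw [h4, eval_smul_form (hT.hom j), eval_single_form (hT.hom j) j]
      exact mul_ne_zero (pow_ne_zero d h3) (hT.lead j hj)

theorem xs_add (F : Fin (N + 1) → MvPolynomial (Fin (N + 1)) κ) (a : Fin (N + 1) → κ) (n L : ℕ)
    (i : Fin (N + 1)) : xs F a (n + L) i = eval (xs F a n) (itF F L i) := by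
  induction L generalizing i with
  | zero => rw [itF_zero, eval_X, Nat.add_zero]
  | succ L ih =>
    rw [← Nat.add_assoc, xs_succ, itF_succ, eval_bind₁']
    congr 1
    congr 1
    exact funext fun k => ih k

/-- The coordinates `i ≤ r` of the orbit. -/
theorem xs_pow {r d : ℕ} {F : Fin (N + 1) → MvPolynomial (Fin (N + 1)) κ} (hT : Tri r d F)
    (a : Fin (N + 1) → κ) (n : ℕ) (i : Fin (N + 1)) (hi : (i : ℕ) ≤ r) :
    xs F a n i = a i ^ d ^ n := by
  induction n with
  | zero => rw [xs_zero, pow_zero, pow_one]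
  | succ n ih =>
    rw [xs_succ, hT.pow i hi, map_pow, eval_X, ih, ← pow_mul, ← pow_succ]

/-- Scaling of the starting point. -/
theorem xs_smul {r d : ℕ} {F : Fin (N + 1) → MvPolynomial (Fin (N + 1)) κ} (hT : Tri r d F)
    (a : Fin (N + 1) → κ) (c : κ) (n : ℕ) : xs F (c • a) n = c ^ d ^ n • xs F a n := by
  induction n with
  | zero => rw [xs_zero, xs_zero, pow_zero, pow_one]
  | succ n ih =>
    funext i
    rw [xs_succ, ih, eval_smul_form (hT.hom i), Pi.smul_apply, xs_succ, smul_eq_mul, ← pow_mul,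
      ← pow_succ]

end Pool.Agent.Helper11.TS
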