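import Pool.Agent.Helper11.TS.Defs

/-!
# TS, two-sided towers: definition
-/

set_option autoImplicit false

namespace Pool.Agent.Helper11.TS

open Polynomial Filter

variable {k V : Type} [Field k] [CharZero k] [AddCommGroup V] [Module ℚ V]

/-- A two-sided tower of elements with at most `B` terms, for a centered polynomial `P` whose
coefficients have their exponents in the subspace `E`. -/
structure Two (q : ℕ) (a : k) (E : Submodule ℚ V) (P : (Alg k V)[X]) (B : ℕ) (Q : ℤ → Alg k V) :
    Prop where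
  hq : 2 ≤ q
  pol : Pol q a P
  mid : P.coeff (q - 1) = 0
  cst : ∀ i, ∀ ν ∈ spt (P.coeff i), ν ∈ E
  step : ∀ i, P.eval (Q i) = theta q (Q (i - 1))
  bd : ∀ i, (spt (Q i)).card ≤ B

lemma Two.shift {q : ℕ} {a : k} {E : Submodule ℚ V} {P : (Alg k V)[X]} {B : ℕ} {Q : ℤ → Alg k V}
    (h : Two q a E P B Q) (j : ℤ) : Two q a E P B (fun i => Q (i + j)) :=
  ⟨h.hq, h.pol, h.mid, h.cst, fun i => by
    have h1 := h.step (i + j)
    rw [show i + j - 1 = i - 1 + j by ring] at h1
    exact h1, fun i => h.bd _⟩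

end Pool.Agent.Helper11.TS
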