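import Pool.Agent.Helper11.TS.StepJ
import Pool.Agent.Helper11.TS.BaseJ

/-!
# TS, module T9c: the return set along an ultrafilter
-/

set_option autoImplicit false

namespace Pool.Agent.Helper11.TS

open MvPolynomial Filter

variable {κ : Type} [Field κ] [CharZero κ] [IsAlgClosed κ] [Algebra.IsAlgebraic ℚ κ] {N : ℕ}
  {G : Type} [AddCommGroup G] [Module ℚ G]

/-- The return set. -/
def ret (F : Fin (N + 1) → MvPolynomial (Fin (N + 1)) κ) (a : Fin (N + 1) → κ)
    (𝒢 : Set (MvPolynomial (Fin (N + 1)) κ)) : Set ℕ := {n | ∀ g ∈ 𝒢, eval (xs F a n) g = 0}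

omit [IsAlgClosed κ] [Algebra.IsAlgebraic ℚ κ] [Module ℚ G] in
lemma ev_comp_alg (B : Base κ G) (n : ℕ) :
    (B.ev n).comp (algebraMap κ (Alg κ G)) = RingHom.id κ := by
  ext c
  have h1 : algebraMap κ (Alg κ G) c = mono 0 c := rfl
  rw [RingHom.comp_apply, h1]
  have h2 := ev_mono B.e B.q n (0 : G) c
  rw [ofAdd_zero, map_one, one_pow, mul_one] at h2
  exact h2

omit [IsAlgClosed κ] [Algebra.IsAlgebraic ℚ κ] [Module ℚ G] in
lemma ev_eval₂ (B : Base κ G) (n : ℕ) (Y : Fin (N + 1) → Alg κ G)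
    (g : MvPolynomial (Fin (N + 1)) κ) :
    B.ev n (eval₂Hom (algebraMap κ (Alg κ G)) Y g) = eval (fun i => B.ev n (Y i)) g := by
  rw [map_eval₂Hom, ev_comp_alg]
  rfl

/-- If all coordinates are given by elements of the group algebra then a whole class is in the
return set. -/
theorem ret_of_all (B : Base κ G) (F : Fin (N + 1) → MvPolynomial (Fin (N + 1)) κ)
    (a : Fin (N + 1) → κ) (𝒢 : Set (MvPolynomial (Fin (N + 1)) κ)) (U : Ultrafilter ℕ)
    (hU : (U : Filter ℕ) ≤ atTop) (hS : ret F a 𝒢 ∈ U) (L : ℕ) (hL : 1 ≤ L)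
    (Y : Fin (N + 1) → Alg κ G)
    (hY : ∀ᶠ n in (U : Filter ℕ), ∀ m i, xs F a (n + m * L) i = B.ev (n + m * L) (Y i)) :
    ∃ M ⊆ ret F a 𝒢, M ∈ U ∧ ∃ k, 1 ≤ k ∧ ∀ n ∈ M, n + k ∈ M := by
  set A : Set ℕ := {n | ∀ m i, xs F a (n + m * L) i = B.ev (n + m * L) (Y i)} with hA
  have h1 : ∀ n, (∀ i, xs F a n i = B.ev n (Y i)) → ∀ g : MvPolynomial (Fin (N + 1)) κ,
      eval (xs F a n) g = B.ev n (eval₂Hom (algebraMap κ (Alg κ G)) Y g) := by
    intro n hn g
    rw [ev_eval₂]
    congr 2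
    funext i
    exact hn i
  have h2 : ∀ g ∈ 𝒢, eval₂Hom (algebraMap κ (Alg κ G)) Y g = 0 := by
    intro g hg
    refine ev_ext B.w B.e B.hq B.inj hU ?_
    filter_upwards [hY, hS] with n hn hn'
    have h3 : ∀ i, xs F a n i = B.ev n (Y i) := fun i => by simpa using hn 0 i
    rw [map_zero]
    exact (h1 n h3 g).symm.trans (hn' g hg)
  refine ⟨A, ?_, hY, L, hL, ?_⟩
  · intro n hn g hg
    have h3 : ∀ i, xs F a n i = B.ev n (Y i) := fun i => by simpa using hn 0 i
    rw [h1 n h3 g, h2 g hg, map_zero]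
  · intro n hn m i
    have h3 := hn (m + 1) i
    rw [show n + (m + 1) * L = n + L + m * L by ring] at h3
    exact h3

omit [IsAlgClosed κ] [Algebra.IsAlgebraic ℚ κ] [Module ℚ G] in
/-- Evaluation after substitution. -/
lemma eval_sub (B : Base κ G) (n : ℕ) (v : Fin (N + 1) → Polynomial (Alg κ G)) (x : Fin (N + 1) → κ)
    (z : κ) (g : MvPolynomial (Fin (N + 1)) κ)
    (h : ∀ i ∈ g.vars, ((v i).map (B.ev n)).eval z = x i) :
    ((eval₂Hom (Polynomial.C.comp (algebraMap κ (Alg κ G))) v g).map (B.ev n)).eval z =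
      eval x g := by
  set ψ : Polynomial (Alg κ G) →+* κ :=
    (Polynomial.evalRingHom z).comp (Polynomial.mapRingHom (B.ev n)) with hψ
  have h1 : ((eval₂Hom (Polynomial.C.comp (algebraMap κ (Alg κ G))) v g).map (B.ev n)).eval z =
      ψ (eval₂Hom (Polynomial.C.comp (algebraMap κ (Alg κ G))) v g) := rfl
  have h2 : ψ.comp (Polynomial.C.comp (algebraMap κ (Alg κ G))) = RingHom.id κ := by
    ext c
    have h3 := RingHom.congr_fun (ev_comp_alg B n) c
    simpa [hψ] using h3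
  rw [h1, map_eval₂Hom, h2]
  refine eval₂Hom_congr' rfl (fun i hi _ => ?_) rfl
  exact h i hi

/-- The last coordinate: no condition on the equations. -/
theorem last_step (B : Base κ G) {r : ℕ} {F : Fin (N + 1) → MvPolynomial (Fin (N + 1)) κ}
    (hT : Tri r B.q F) (hrN : r < N) (a : Fin (N + 1) → κ)
    (hs : ∀ i, Seq B (fun n => xs F a n i))
    (𝒢 : Set (MvPolynomial (Fin (N + 1)) κ)) (U : Ultrafilter ℕ)
    (hU : (U : Filter ℕ) ≤ atTop) (hS : ret F a 𝒢 ∈ U) (L : ℕ) (hL : 1 ≤ L)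
    (Y : Fin (N + 1) → Alg κ G)
    (hY : ∀ᶠ n in (U : Filter ℕ), ∀ m, ∀ i : Fin (N + 1), i < Fin.last N →
      xs F a (n + m * L) i = B.ev (n + m * L) (Y i)) :
    ∃ M ⊆ ret F a 𝒢, M ∈ U ∧ ∃ k, 1 ≤ k ∧ ∀ n ∈ M, n + k ∈ M := by
  classical
  set v : Fin (N + 1) → Polynomial (Alg κ G) := fun i =>
    if i < Fin.last N then Polynomial.C (Y i) else Polynomial.X with hv
  have hval : ∀ n, (∀ i : Fin (N + 1), i < Fin.last N → xs F a n i = B.ev n (Y i)) →
      ∀ g : MvPolynomial (Fin (N + 1)) κ,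
      ((eval₂Hom (Polynomial.C.comp (algebraMap κ (Alg κ G))) v g).map (B.ev n)).eval
        (xs F a n (Fin.last N)) = eval (xs F a n) g := by
    intro n hn g
    refine eval_sub B n v _ _ g fun i _ => ?_
    by_cases hi : i < Fin.last N
    · simp only [hv]
      rw [if_pos hi, Polynomial.map_C, Polynomial.eval_C, hn i hi]
    · simp only [hv]
      rw [if_neg hi, Polynomial.map_X, Polynomial.eval_X]
      have h1 : i = Fin.last N := le_antisymm (Fin.le_last i) (not_lt.1 hi)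
      rw [h1]
  by_cases hz : ∀ g ∈ 𝒢, eval₂Hom (Polynomial.C.comp (algebraMap κ (Alg κ G))) v g = 0
  · refine ⟨{n | ∀ m, ∀ i : Fin (N + 1), i < Fin.last N →
      xs F a (n + m * L) i = B.ev (n + m * L) (Y i)}, ?_, hY, L, hL, ?_⟩
    · intro n hn g hg
      have h1 : ∀ i : Fin (N + 1), i < Fin.last N → xs F a n i = B.ev n (Y i) :=
        fun i hi => by simpa using hn 0 i hi
      rw [← hval n h1 g, hz g hg]
      simp
    · intro n hn m i hi
      have h3 := hn (m + 1) i hi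
      rw [show n + (m + 1) * L = n + L + m * L by ring] at h3
      exact h3
  · push Not at hz
    obtain ⟨g, hg, hR⟩ := hz
    have h1 : ∀ᶠ n in (U : Filter ℕ),
        ((eval₂Hom (Polynomial.C.comp (algebraMap κ (Alg κ G))) v g).map (B.ev n)).eval
          (xs F a n (Fin.last N)) = 0 := by
      filter_upwards [hY, hS] with n hn hn'
      have h1 : ∀ i : Fin (N + 1), i < Fin.last N → xs F a n i = B.ev n (Y i) :=
        fun i hi => by simpa using hn 0 i hi
      rw [hval n h1 g]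
      exact hn' g hg
    obtain ⟨l, hl, Q, hQ⟩ := coord_step B hT a hs U hU (Fin.last N) (by simpa using hrN) L hL Y hY
      _ hR h1
    refine ret_of_all B F a 𝒢 U hU hS (l * L) (Nat.mul_pos hl hL)
      (fun i => if i < Fin.last N then Y i else Q) ?_
    filter_upwards [hY, hQ] with n hn hn' m i
    by_cases hi : i < Fin.last N
    · rw [if_pos hi]
      have h3 := hn (m * l) i hi
      rwa [mul_assoc] at h3
    · rw [if_neg hi]
      have h4 : i = Fin.last N := le_antisymm (Fin.le_last i) (not_lt.1 hi)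
      rw [h4]
      exact hn' m

omit [CharZero κ] [IsAlgClosed κ] [Algebra.IsAlgebraic ℚ κ] [Module ℚ G] in
/-- Substitution of monomials. -/
lemma sub_mono (ν : Fin (N + 1) → G) (η : Fin (N + 1) → κ) (d : Fin (N + 1) → ℕ)
    (g : MvPolynomial (Fin (N + 1)) κ) :
    eval₂Hom (Polynomial.C.comp (algebraMap κ (Alg κ G)))
      (fun i => Polynomial.monomial (d i) (mono (ν i) (η i))) g =
      ∑ μ ∈ g.support, Polynomial.monomial (∑ i, μ i * d i)
        (mono (∑ i, μ i • ν i) (coeff μ g * ∏ i, η i ^ μ i)) := by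
  classical
  rw [coe_eval₂Hom, eval₂_eq']
  refine Finset.sum_congr rfl fun μ _ => ?_
  have h1 : ∀ s : Finset (Fin (N + 1)),
      ∏ i ∈ s, (Polynomial.monomial (d i) (mono (ν i) (η i)) : Polynomial (Alg κ G)) ^ μ i =
        Polynomial.monomial (∑ i ∈ s, μ i * d i)
          (mono (∑ i ∈ s, μ i • ν i) (∏ i ∈ s, η i ^ μ i)) := by
    intro s
    induction s using Finset.induction_on with
    | empty =>
      simp only [Finset.prod_empty, Finset.sum_empty, Polynomial.monomial_zero_left]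
      rfl
    | insert j s hj ih =>
      rw [Finset.prod_insert hj, ih, Finset.sum_insert hj, Finset.sum_insert hj,
        Finset.prod_insert hj, Polynomial.monomial_pow, Polynomial.monomial_mul_monomial]
      congr 1
      · ring
      · unfold mono
        rw [AddMonoidAlgebra.single_pow, AddMonoidAlgebra.single_mul_single]
  have h2 : (Polynomial.C.comp (algebraMap κ (Alg κ G))) (coeff μ g) =
      Polynomial.monomial 0 (mono (0 : G) (coeff μ g)) := rfl
  rw [h1, h2, Polynomial.monomial_mul_monomial, zero_add]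
  congr 1
  unfold mono
  rw [AddMonoidAlgebra.single_mul_single, zero_add]

omit [CharZero κ] [IsAlgClosed κ] [Algebra.IsAlgebraic ℚ κ] [Module ℚ G] in
lemma nonvanish {r e : ℕ} (ν : Fin (N + 1) → G)
    (hind : ∀ m : Fin (N + 1) → ℤ, (∀ i : Fin (N + 1), r < (i : ℕ) → m i = 0) → ∑ i, m i = 0 →
        ∑ i, m i • ν i = 0 → m = 0)
    (Y : Fin (N + 1) → Alg κ G)
    (hY : ∀ i : Fin (N + 1), (i : ℕ) ≤ r → ∃ η : κ, η ≠ 0 ∧ Y i = mono (ν i) η)
    (j : Fin (N + 1)) (hj : r < (j : ℕ)) (g : MvPolynomial (Fin (N + 1)) κ) (hg : g ≠ 0)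
    (he : g.IsHomogeneous e) (hv : ∀ i ∈ g.vars, (i : ℕ) ≤ r ∨ i = j) :
    eval₂Hom (Polynomial.C.comp (algebraMap κ (Alg κ G)))
      (fun i : Fin (N + 1) => if (i : ℕ) ≤ r then Polynomial.C (Y i) else Polynomial.X) g ≠ 0 := by
  classical
  choose! η hη hYη using hY
  set ν' : Fin (N + 1) → G := fun i => if (i : ℕ) ≤ r then ν i else 0 with hν'
  set η' : Fin (N + 1) → κ := fun i => if (i : ℕ) ≤ r then η i else 1 with hη'
  set d : Fin (N + 1) → ℕ := fun i => if (i : ℕ) ≤ r then 0 else 1 with hd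
  have h0 : (fun i : Fin (N + 1) => if (i : ℕ) ≤ r then Polynomial.C (Y i) else Polynomial.X) =
      fun i => Polynomial.monomial (d i) (mono (ν' i) (η' i)) := by
    funext i
    simp only [hν', hη', hd]
    by_cases hi : (i : ℕ) ≤ r
    · simp only [if_pos hi]
      rw [hYη i hi, Polynomial.monomial_zero_left]
    · simp only [if_neg hi]
      rfl
  rw [h0, sub_mono]
  obtain ⟨μ0, hμ0⟩ : g.support.Nonempty := by
    rw [Finset.nonempty_iff_ne_empty]
    intro h
    exact hg (support_eq_empty.1 h)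
  intro hcon
  have h1 := congrArg (fun P : Polynomial (Alg κ G) =>
    (P.coeff (∑ i, μ0 i * d i)).coeff (∑ i, μ0 i • ν' i)) hcon
  simp only [Polynomial.finsetSum_coeff, Polynomial.coeff_monomial, Polynomial.coeff_zero] at h1
  have hsum : ∀ (s : Finset (Fin (N + 1) →₀ ℕ)) (f : (Fin (N + 1) →₀ ℕ) → Alg κ G) (x : G),
      (∑ μ ∈ s, f μ).coeff x = ∑ μ ∈ s, (f μ).coeff x := by
    intro s f x
    induction s using Finset.induction_on with
    | empty => simp
    | insert μ s hμ ih =>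
      rw [Finset.sum_insert hμ, Finset.sum_insert hμ, AddMonoidAlgebra.coeff_add,
        Finsupp.add_apply, ih]
  rw [hsum] at h1
  have hdeg : ∀ μ ∈ g.support, ∑ i, μ i = e := by
    intro μ hμ
    have h2 := he (mem_support_iff.1 hμ)
    rw [Finsupp.weight_apply, Finsupp.sum_fintype _ _ (fun _ => by simp)] at h2
    simpa using h2
  have hsupp : ∀ μ ∈ g.support, ∀ i : Fin (N + 1), r < (i : ℕ) → i ≠ j → μ i = 0 := by
    intro μ hμ i hi hij
    by_contra hcon
    have h2 : i ∈ g.vars := by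
      rw [mem_vars_iff_mem_support]
      exact ⟨μ, hμ, Finsupp.mem_support_iff.2 hcon⟩
    rcases hv i h2 with h3 | h3
    · omega
    · exact hij h3
  have hdj : ∀ μ ∈ g.support, ∑ i, μ i * d i = μ j := by
    intro μ hμ
    rw [Fintype.sum_eq_single j]
    · simp only [hd]
      rw [if_neg (by omega), mul_one]
    · intro i hij
      simp only [hd]
      by_cases hi : (i : ℕ) ≤ r
      · rw [if_pos hi, mul_zero]
      · rw [hsupp μ hμ i (by omega) hij, zero_mul]
  rw [Finset.sum_eq_single μ0] at h1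
  · rw [if_pos rfl] at h1
    unfold mono at h1
    rw [AddMonoidAlgebra.coeff_single, Finsupp.single_eq_same] at h1
    have h2 : coeff μ0 g * ∏ i, η' i ^ μ0 i ≠ 0 := by
      refine mul_ne_zero (mem_support_iff.1 hμ0) (Finset.prod_ne_zero_iff.2 fun i _ => ?_)
      apply pow_ne_zero
      simp only [hη']
      by_cases hi : (i : ℕ) ≤ r
      · rw [if_pos hi]
        exact hη i hi
      · rw [if_neg hi]
        exact one_ne_zero
    exact h2 (by simpa using h1)
  · intro μ hμ hne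
    by_cases hd1 : ∑ i, μ i * d i = ∑ i, μ0 i * d i
    · rw [if_pos hd1]
      unfold mono
      rw [AddMonoidAlgebra.coeff_single]
      refine Finsupp.single_eq_of_ne ?_
      intro hE
      apply hne
      -- the integral relation
      set m : Fin (N + 1) → ℤ := fun i => if (i : ℕ) ≤ r then (μ i : ℤ) - μ0 i else 0 with hm
      have hm0 : m = 0 := by
        refine hind m (fun i hi => by simp only [hm]; rw [if_neg (by omega)]) ?_ ?_
        · have h3 : ∀ i, m i = ((μ i : ℤ) - μ0 i) - ((μ i * d i : ℕ) - (μ0 i * d i : ℕ)) := by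
            intro i
            simp only [hm, hd]
            by_cases hi : (i : ℕ) ≤ r
            · simp [hi]
            · simp [hi]
          simp only [h3, Finset.sum_sub_distrib]
          have h4 : ∑ i, (μ i : ℤ) = ∑ i, (μ0 i : ℤ) := by
            have h5 := (hdeg μ hμ).trans (hdeg μ0 hμ0).symm
            exact_mod_cast h5
          have h6 : ∑ i, ((μ i * d i : ℕ) : ℤ) = ∑ i, ((μ0 i * d i : ℕ) : ℤ) := by
            exact_mod_cast hd1
          rw [h4, h6]
          ring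
        · have h3 : ∀ i, m i • ν i = (μ i • ν' i) - (μ0 i • ν' i) := by
            intro i
            simp only [hm, hν']
            by_cases hi : (i : ℕ) ≤ r
            · simp only [if_pos hi]
              rw [sub_smul, natCast_zsmul, natCast_zsmul]
            · simp [hi]
          simp only [h3, Finset.sum_sub_distrib]
          rw [sub_eq_zero]
          exact hE.symm
      ext i
      by_cases hi : (i : ℕ) ≤ r
      · have h3 := congrFun hm0 i
        simp only [hm, Pi.zero_apply] at h3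
        rw [if_pos hi] at h3
        omega
      · by_cases hij : i = j
        · rw [hij]
          rw [hdj μ hμ, hdj μ0 hμ0] at hd1
          exact hd1
        · rw [hsupp μ hμ i (by omega) hij, hsupp μ0 hμ0 i (by omega) hij]
    · rw [if_neg hd1]
      simp
  · intro h
    exact absurd hμ0 h

theorem ultra_AB (B : Base κ G) {r : ℕ} {F : Fin (N + 1) → MvPolynomial (Fin (N + 1)) κ}
    (hT : Tri r B.q F) (hrN : r < N) (a : Fin (N + 1) → κ)
    (hs : ∀ i, Seq B (fun n => xs F a n i)) (ν : Fin (N + 1) → G) (ω : Fin (N + 1) → κ)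
    (h : ∀ i : Fin (N + 1), (i : ℕ) ≤ r → a i = 0 ∨
      ((∃ k : ℕ, 0 < k ∧ ω i ^ k = 1) ∧ a i = ω i * B.e (Multiplicative.ofAdd (ν i))))
    (hind : r + 1 < N → (∀ i : Fin (N + 1), (i : ℕ) ≤ r → a i ≠ 0) ∧
      ∀ m : Fin (N + 1) → ℤ, (∀ i : Fin (N + 1), r < (i : ℕ) → m i = 0) → ∑ i, m i = 0 →
        ∑ i, m i • ν i = 0 → m = 0)
    (𝒢 : Set (MvPolynomial (Fin (N + 1)) κ))
    (hV : ∀ j : Fin (N + 1), r < (j : ℕ) → (j : ℕ) < N →
      ∃ (g : MvPolynomial (Fin (N + 1)) κ) (e : ℕ), g ≠ 0 ∧ g.IsHomogeneous e ∧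
        (∀ i ∈ g.vars, (i : ℕ) ≤ r ∨ i = j) ∧ ∀ n ∈ ret F a 𝒢, eval (xs F a n) g = 0)
    (U : Ultrafilter ℕ) (hU : (U : Filter ℕ) ≤ atTop) (hS : ret F a 𝒢 ∈ U) :
    ∃ M ⊆ ret F a 𝒢, M ∈ U ∧ ∃ k, 1 ≤ k ∧ ∀ n ∈ M, n + k ∈ M := by
  classical
  -- the statement for the coordinates up to `t`
  have key : ∀ t : ℕ, r + t < N → ∃ L : ℕ, 1 ≤ L ∧ ∃ Y : Fin (N + 1) → Alg κ G,
      (∀ i : Fin (N + 1), (i : ℕ) ≤ r → a i ≠ 0 → ∃ η : κ, η ≠ 0 ∧ Y i = mono (ν i) η) ∧
      ∀ᶠ n in (U : Filter ℕ), ∀ m, ∀ i : Fin (N + 1), (i : ℕ) ≤ r + t →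
        xs F a (n + m * L) i = B.ev (n + m * L) (Y i) := by
    intro t
    induction t with
    | zero =>
      intro _
      obtain ⟨L, hL, Y, hY1, hY2⟩ := base_case B hT a ν ω h U hU
      exact ⟨L, hL, Y, hY1, hY2⟩
    | succ t ih =>
      intro ht
      obtain ⟨L, hL, Y, hY1, hY2⟩ := ih (by omega)
      obtain ⟨ha, hm⟩ := hind (by omega)
      set j : Fin (N + 1) := ⟨r + (t + 1), by omega⟩ with hj
      have hjr : r < (j : ℕ) := by simp only [hj]; omega
      obtain ⟨g, e, hg, he, hgv, hgS⟩ := hV j hjr ht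
      have hR := nonvanish ν hm Y (fun i hi => hY1 i hi (ha i hi)) j hjr g hg he hgv
      have hlt : ∀ i : Fin (N + 1), i < j → (i : ℕ) ≤ r + t := by
        intro i hi
        have h1 : (i : ℕ) < r + (t + 1) := hi
        omega
      have h1 : ∀ᶠ n in (U : Filter ℕ),
          ((eval₂Hom (Polynomial.C.comp (algebraMap κ (Alg κ G)))
            (fun i : Fin (N + 1) => if (i : ℕ) ≤ r then Polynomial.C (Y i) else Polynomial.X)
            g).map (B.ev n)).eval (xs F a n j) = 0 := by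
        filter_upwards [hY2, hS] with n hn hn'
        rw [eval_sub B n _ (xs F a n) (xs F a n j) g]
        · exact hgS n hn'
        · intro i hi
          by_cases hir : (i : ℕ) ≤ r
          · rw [if_pos hir, Polynomial.map_C, Polynomial.eval_C]
            have h2 := hn 0 i (by omega)
            simpa using h2.symm
          · rw [if_neg hir, Polynomial.map_X, Polynomial.eval_X]
            rcases hgv i hi with h2 | h2
            · exact absurd h2 hir
            · rw [h2]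
      obtain ⟨l, hl, Q, hQ⟩ := coord_step B hT a hs U hU j hjr L hL Y
        (by filter_upwards [hY2] with n hn m i hi using hn m i (hlt i hi)) _ hR h1
      refine ⟨l * L, Nat.mul_pos hl hL, fun i => if i = j then Q else Y i, ?_, ?_⟩
      · intro i hi hai
        have hij : i ≠ j := by
          rintro rfl
          omega
        obtain ⟨η, hη, hY⟩ := hY1 i hi hai
        exact ⟨η, hη, (if_neg hij).trans hY⟩
      · filter_upwards [hY2, hQ] with n hn hn' m i hi
        by_cases hij : i = j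
        · rw [if_pos hij, hij]
          exact hn' m
        · rw [if_neg hij]
          have h2 : (i : ℕ) ≤ r + t := by
            have h3 : (i : ℕ) ≠ r + (t + 1) := fun h => hij (Fin.ext h)
            omega
          have h4 := hn (m * l) i h2
          rwa [mul_assoc] at h4
  obtain ⟨L, hL, Y, -, hY⟩ := key (N - 1 - r) (by omega)
  refine last_step B hT hrN a hs 𝒢 U hU hS L hL Y ?_
  filter_upwards [hY] with n hn m i hi
  refine hn m i ?_
  have h1 : (i : ℕ) < (Fin.last N : ℕ) := hi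
  rw [Fin.val_last] at h1
  omega

theorem ultra_A (B : Base κ G) {r : ℕ} {F : Fin (N + 1) → MvPolynomial (Fin (N + 1)) κ}
    (hT : Tri r B.q F) (hN : N = r + 1) (a : Fin (N + 1) → κ)
    (hs : ∀ i, Seq B (fun n => xs F a n i)) (ν : Fin (N + 1) → G) (ω : Fin (N + 1) → κ)
    (h : ∀ i : Fin (N + 1), (i : ℕ) ≤ r → a i = 0 ∨
      ((∃ k : ℕ, 0 < k ∧ ω i ^ k = 1) ∧ a i = ω i * B.e (Multiplicative.ofAdd (ν i))))
    (𝒢 : Set (MvPolynomial (Fin (N + 1)) κ)) (U : Ultrafilter ℕ)
    (hU : (U : Filter ℕ) ≤ atTop) (hS : ret F a 𝒢 ∈ U) :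
    ∃ M ⊆ ret F a 𝒢, M ∈ U ∧ ∃ k, 1 ≤ k ∧ ∀ n ∈ M, n + k ∈ M :=
  ultra_AB B hT (by omega) a hs ν ω h (fun h1 => by omega) 𝒢
    (fun j hj hjN => by omega) U hU hS

theorem ultra_B (B : Base κ G) {r : ℕ} {F : Fin (N + 1) → MvPolynomial (Fin (N + 1)) κ}
    (hT : Tri r B.q F) (a : Fin (N + 1) → κ)
    (hs : ∀ i, Seq B (fun n => xs F a n i)) (ν : Fin (N + 1) → G) (ω : Fin (N + 1) → κ)
    (h : ∀ i : Fin (N + 1), (i : ℕ) ≤ r → a i ≠ 0 ∧
      (∃ k : ℕ, 0 < k ∧ ω i ^ k = 1) ∧ a i = ω i * B.e (Multiplicative.ofAdd (ν i)))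
    (hind : ∀ m : Fin (N + 1) → ℤ, (∀ i : Fin (N + 1), r < (i : ℕ) → m i = 0) → ∑ i, m i = 0 →
      ∑ i, m i • ν i = 0 → m = 0)
    (𝒢 : Set (MvPolynomial (Fin (N + 1)) κ))
    (hV : ∀ j : Fin (N + 1), r < (j : ℕ) → ∃ (g : MvPolynomial (Fin (N + 1)) κ) (e : ℕ), g ≠ 0 ∧
      g.IsHomogeneous e ∧ (∀ i ∈ g.vars, (i : ℕ) ≤ r ∨ i = j) ∧
      ∀ n ∈ ret F a 𝒢, eval (xs F a n) g = 0)
    (U : Ultrafilter ℕ) (hU : (U : Filter ℕ) ≤ atTop) (hS : ret F a 𝒢 ∈ U) :
    ∃ M ⊆ ret F a 𝒢, M ∈ U ∧ ∃ k, 1 ≤ k ∧ ∀ n ∈ M, n + k ∈ M := by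
  by_cases hrN : r < N
  · exact ultra_AB B hT hrN a hs ν ω (fun i hi => Or.inr ⟨(h i hi).2.1, (h i hi).2.2⟩)
      (fun _ => ⟨fun i hi => (h i hi).1, hind⟩) 𝒢 (fun j hj _ => hV j hj) U hU hS
  · obtain ⟨L, hL, Y, -, hY⟩ := base_case B hT a ν ω
      (fun i hi => Or.inr ⟨(h i hi).2.1, (h i hi).2.2⟩) U hU
    refine ret_of_all B F a 𝒢 U hU hS L hL Y ?_
    filter_upwards [hY] with n hn m i
    exact hn m i (by have := i.2; omega)

end Pool.Agent.Helper11.TS
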